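import Mathlib

set_option autoImplicit false

/-!
# Many pairs at small distance in a dense set of integers (helper39)
-/

namespace Pool.Agent.N39.RW

open Finset

/-- the number of the pairs with difference `d` -/
def rr (A : Finset ℕ) (d : ℕ) : ℕ := (A.filter (fun m => m + d ∈ A)).card

theorem pairs_low (A : Finset ℕ) (X H : ℕ) (hH : 1 ≤ H) (hHX : H ≤ X) (hA : A ⊆ Ioc X (2 * X)) :
    (A.card : ℝ) ^ 2 * H / (2 * X) ≤ A.card + 2 * ∑ d ∈ Icc 1 H, (rr A d : ℝ) := by
  classical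
  obtain ⟨b, hb⟩ : ∃ b : ℕ → ℕ, ∀ m, b m = (m - X - 1) / H := ⟨_, fun m => rfl⟩
  have hX0 : (0 : ℝ) < X := by exact_mod_cast (by omega : 0 < X)
  have hH0 : (0 : ℝ) < H := by exact_mod_cast hH
  -- number of blocks
  have hJ : ((A.image b).card : ℝ) ≤ 2 * X / H := by
    have h1 : A.image b ⊆ range (X / H + 1) := by
      intro j hj
      obtain ⟨m, hm, rfl⟩ := mem_image.1 hj
      have h2 := mem_Ioc.1 (hA hm)
      rw [mem_range, hb, Nat.lt_succ_iff]
      exact Nat.div_le_div_right (by omega)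
    have h2 := card_le_card h1
    rw [card_range] at h2
    have h3 : ((A.image b).card : ℝ) ≤ ((X / H : ℕ) : ℝ) + 1 := by exact_mod_cast h2
    have h4 : ((X / H : ℕ) : ℝ) ≤ X / H := Nat.cast_div_le
    have h5 : (1 : ℝ) ≤ X / H := by
      rw [le_div_iff₀ hH0, one_mul]
      exact_mod_cast hHX
    have h6 : 2 * (X : ℝ) / H = X / H + X / H := by ring
    linarith
  obtain ⟨a, ha⟩ : ∃ a : ℕ → ℝ, ∀ j, a j = ((A.filter (fun m => b m = j)).card : ℝ) := ⟨_, fun _ => rfl⟩
  have hsum : (A.card : ℝ) = ∑ j ∈ A.image b, a j := by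
    have h1 := card_eq_sum_card_image b A
    rw [h1]
    push_cast
    exact sum_congr rfl fun j _ => (ha j).symm
  have hCS : (A.card : ℝ) ^ 2 ≤ ((A.image b).card : ℝ) * ∑ j ∈ A.image b, a j ^ 2 := by
    rw [hsum]
    exact sq_sum_le_card_mul_sum_sq
  have hsq : ∑ j ∈ A.image b, a j ^ 2 ≤ A.card + 2 * ∑ d ∈ Icc 1 H, (rr A d : ℝ) := by
    have h1 : ∑ j ∈ A.image b, a j ^ 2 = ∑ m ∈ A, a (b m) := by
      rw [Finset.sum_comp (s := A) (f := a) (g := b)]
      refine sum_congr rfl fun j _ => ?_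
      rw [nsmul_eq_mul, ← ha j, sq]
    have h2 : ∑ m ∈ A, a (b m) = ((A.sigma (fun m => A.filter (fun m' => b m' = b m))).card : ℝ) := by
      rw [card_sigma]
      push_cast
      exact sum_congr rfl fun m _ => ha (b m)
    -- the three parts
    obtain ⟨S1, hS1⟩ : ∃ S1 : Finset (ℕ × ℕ), S1 = (A ×ˢ A).filter (fun q => q.1 < q.2 ∧ q.2 ≤ q.1 + H) := ⟨_, rfl⟩
    have h3 : (A.sigma (fun m => A.filter (fun m' => b m' = b m))).card ≤
        A.card + (S1.card + S1.card) := by
      have e1 : ((A.sigma (fun m => A.filter (fun m' => b m' = b m))).image (fun q => (q.1, q.2))) ⊆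
          (A.image (fun m => (m, m))) ∪ (S1 ∪ S1.image (fun q => (q.2, q.1))) := by
        intro q hq
        obtain ⟨⟨m, m'⟩, hm, rfl⟩ := mem_image.1 hq
        rw [mem_sigma, mem_filter] at hm
        obtain ⟨hm1, hm2, hm3⟩ := hm
        simp only at hm1 hm2 hm3 ⊢
        rw [hb, hb] at hm3
        have hX1 := mem_Ioc.1 (hA hm1)
        have hX2 := mem_Ioc.1 (hA hm2)
        have k1 := Nat.div_add_mod (m - X - 1) H
        have k2 := Nat.div_add_mod (m' - X - 1) H
        have k3 := Nat.mod_lt (m - X - 1) hH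
        have k4 := Nat.mod_lt (m' - X - 1) hH
        rw [hm3] at k2
        rw [mem_union, mem_union, mem_image, mem_image]
        rcases lt_trichotomy m m' with h | h | h
        · right; left
          rw [hS1, mem_filter, mem_product]
          refine ⟨⟨hm1, hm2⟩, h, ?_⟩
          show m' ≤ m + H
          omega
        · left
          exact ⟨m, hm1, by rw [h]⟩
        · right; right
          refine ⟨(m', m), ?_, rfl⟩
          rw [hS1, mem_filter, mem_product]
          refine ⟨⟨hm2, hm1⟩, h, ?_⟩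
          show m ≤ m' + H
          omega
      have e2 := card_le_card e1
      rw [card_image_of_injective] at e2
      · refine e2.trans ((card_union_le _ _).trans (Nat.add_le_add card_image_le ?_))
        exact (card_union_le _ _).trans (Nat.add_le_add_left card_image_le _)
      · rintro ⟨x, y⟩ ⟨x', y'⟩ hxy
        simp only [Prod.mk.injEq] at hxy
        obtain ⟨rfl, rfl⟩ := hxy
        rfl
    have h4 : S1.card ≤ ∑ d ∈ Icc 1 H, rr A d := by
      unfold rr
      rw [← card_sigma]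
      apply card_le_card_of_injOn (fun q : ℕ × ℕ => (⟨q.2 - q.1, q.1⟩ : (_ : ℕ) × ℕ))
      · intro q hq
        rw [mem_coe, hS1, mem_filter, mem_product] at hq
        obtain ⟨⟨q1, q2⟩, q3, q4⟩ := hq
        rw [mem_coe, mem_sigma, mem_Icc, mem_filter]
        refine ⟨⟨by show 1 ≤ q.2 - q.1; omega, by show q.2 - q.1 ≤ H; omega⟩, q1, ?_⟩
        show q.1 + (q.2 - q.1) ∈ A
        have : q.1 + (q.2 - q.1) = q.2 := by omega
        rwa [this]
      · intro q hq q' hq' he
        rw [mem_coe, hS1, mem_filter] at hq hq'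
        obtain ⟨-, q3, -⟩ := hq
        obtain ⟨-, q3', -⟩ := hq'
        simp only [Sigma.mk.injEq] at he
        obtain ⟨he1, he2⟩ := he
        have he3 : q.1 = q'.1 := eq_of_heq he2
        apply Prod.ext he3
        omega
    rw [h1, h2]
    have h5 : (A.sigma (fun m => A.filter (fun m' => b m' = b m))).card ≤
        A.card + 2 * ∑ d ∈ Icc 1 H, rr A d := by omega
    exact_mod_cast h5
  have hS0 : 0 ≤ ∑ j ∈ A.image b, a j ^ 2 := sum_nonneg fun j _ => sq_nonneg _
  refine le_trans ?_ hsq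
  rw [div_le_iff₀ (by positivity)]
  calc (A.card : ℝ) ^ 2 * H ≤ (((A.image b).card : ℝ) * ∑ j ∈ A.image b, a j ^ 2) * H := by gcongr
    _ ≤ ((2 * X / H) * ∑ j ∈ A.image b, a j ^ 2) * H := by gcongr
    _ = (∑ j ∈ A.image b, a j ^ 2) * (2 * X) := by field_simp

/-- many differences with many representations -/
theorem many_of_moments (E : Finset ℕ) (r : ℕ → ℝ) (S1 S2 H : ℝ) (hS1 : 0 < S1)
    (hH : 0 < H) (hE : (E.card : ℝ) ≤ H) (h1 : S1 ≤ ∑ d ∈ E, r d) (h2 : ∑ d ∈ E, r d ^ 2 ≤ S2) :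
    S1 ^ 2 / 4 ≤ S2 * ((E.filter (fun d => S1 / (2 * H) ≤ r d)).card : ℝ) := by
  classical
  have h3 : S1 / 2 ≤ ∑ d ∈ E.filter (fun d => S1 / (2 * H) ≤ r d), r d := by
    have e1 := sum_filter_add_sum_filter_not E (fun d => S1 / (2 * H) ≤ r d) r
    have e2 : ∑ d ∈ E.filter (fun d => ¬ S1 / (2 * H) ≤ r d), r d ≤ S1 / 2 := by
      calc ∑ d ∈ E.filter (fun d => ¬ S1 / (2 * H) ≤ r d), r d ≤
          ∑ _d ∈ E.filter (fun d => ¬ S1 / (2 * H) ≤ r d), S1 / (2 * H) :=
            sum_le_sum fun d hd => (not_le.1 (mem_filter.1 hd).2).le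
        _ = ((E.filter (fun d => ¬ S1 / (2 * H) ≤ r d)).card : ℝ) * (S1 / (2 * H)) := by
            rw [sum_const, nsmul_eq_mul]
        _ ≤ H * (S1 / (2 * H)) := by
            apply mul_le_mul_of_nonneg_right _ (by positivity)
            refine le_trans ?_ hE
            exact_mod_cast card_filter_le _ _
        _ = S1 / 2 := by field_simp
    linarith
  have h4 : (∑ d ∈ E.filter (fun d => S1 / (2 * H) ≤ r d), r d) ^ 2 ≤
      ((E.filter (fun d => S1 / (2 * H) ≤ r d)).card : ℝ) *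
        ∑ d ∈ E.filter (fun d => S1 / (2 * H) ≤ r d), r d ^ 2 := sq_sum_le_card_mul_sum_sq
  have h5 : ∑ d ∈ E.filter (fun d => S1 / (2 * H) ≤ r d), r d ^ 2 ≤ S2 :=
    (sum_le_sum_of_subset_of_nonneg (filter_subset _ _) fun _ _ _ => sq_nonneg _).trans h2
  have h6 : (S1 / 2) ^ 2 ≤ (∑ d ∈ E.filter (fun d => S1 / (2 * H) ≤ r d), r d) ^ 2 :=
    pow_le_pow_left₀ (by positivity) h3 2
  calc S1 ^ 2 / 4 = (S1 / 2) ^ 2 := by ring
    _ ≤ _ := h6
    _ ≤ _ := h4
    _ ≤ ((E.filter (fun d => S1 / (2 * H) ≤ r d)).card : ℝ) * S2 := by gcongr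
    _ = _ := mul_comm _ _

end Pool.Agent.N39.RW
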