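import Pool.Agent.N39.RW.Core
import Pool.Agent.N39.RW.PairsLow

set_option autoImplicit false

/-!
# Differences in dense subsets of sieved sets (helper39)

For a set `A` of integers in `(X, 2X]` at which all polynomials of a system of `k` polynomials have values free of
small prime factors, and which has the right order of magnitude `X / log ^ k X`, a positive proportion of the
`d ≤ H` occurs at least `c X / log ^ (2 k) X` times as a difference, for every `H` between `K log ^ k X` and `X`,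
and at most `C X / log ^ (2 k) X` times as a difference of elements of the whole sieved set.
-/

namespace Pool.Agent.N39.RW

open Finset Filter Polynomial Pool.Agent.H373R2.T7 Pool.Agent.W123.RP Pool.Agent.W123.RU
open Pool.Agent.W123.RU.Poly

open Classical in
/-- **Second moment over short shifts.** -/
theorem pair_up (c p0 D D' : ℕ) (hc : 1 ≤ c) :
    ∃ K : ℕ, 1 ≤ K ∧ ∃ C : ℝ, 0 < C ∧ ∃ x0 : ℕ, ∀ x y : ℕ, x0 ≤ y → y ^ K ≤ x →
      ∀ Q Co : ℕ → ℕ → Prop, Sdata Q Co c p0 D →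
      (((Icc 1 x).filter (fun m => ∀ p ∈ pz y, ¬ Q p m)).card : ℝ) ≤ 2 * x * Vq Q y + √(x : ℝ) ∧
      ∀ T : ℕ, x0 ≤ T → ∀ E : Finset ℕ, E ⊆ Icc 1 T →
        (∀ h ∈ E, ((pz y).filter (fun p : ℕ => T < p ∧ Co p h)).card ≤ D' * T) →
        ∑ h ∈ E, (((Icc 1 x).filter (fun m => ∀ p ∈ pz y, ¬ Qh Q h p m)).card : ℝ) ^ 2 ≤
          C * T * (x * (Vq Q y) ^ 2 + √(x : ℝ)) ^ 2 := by
  obtain ⟨K, x0, hK, hfund⟩ := sys_fund (2 * c) (by omega) 1 one_pos
  obtain ⟨C, hC, T0, hT0, havg⟩ := Pool.Agent.W123.RU.avg (4 * c + 4 * c ^ 2) D D' p0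
  set C0 : ℝ := ∏ p ∈ pz p0, (p : ℝ) ^ 2 with hC0
  have hC01 : 0 < C0 := by
    apply Finset.prod_pos
    intro p hp
    have : (0 : ℝ) < p := by exact_mod_cast (mem_pz.1 hp).2.pos
    positivity
  refine ⟨K, hK, (2 * C0 + 1) ^ 2 * C, by positivity, max x0 T0, ?_⟩
  intro x y hy hyx Q Co hS
  have hy0 : x0 ≤ y := (le_max_left _ _).trans hy
  have hup : ∀ Q' : ℕ → ℕ → Prop, PerB Q' (2 * c) →
      (((Icc 1 x).filter (fun m => ∀ p ∈ pz y, ¬ Q' p m)).card : ℝ) ≤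
      2 * x * ∏ p ∈ pz y, (1 - (nuB Q' p : ℝ) / p) + √(x : ℝ) := by
    intro Q' hQ'
    have h1 := (abs_le.1 (hfund x y hy0 hyx Q' hQ' x)).2
    linarith
  refine ⟨hup Q ⟨hS.per.per, fun p hp => (hS.per.few p hp).trans (by omega)⟩, ?_⟩
  intro T hT E hE hE2
  have hT0' : T0 ≤ T := (le_max_right _ _).trans hT
  set M : ℝ := x * (Vq Q y) ^ 2 + √(x : ℝ) with hM
  have hM0 : 0 ≤ M := by positivity
  have h1 : ∀ h ∈ E, (((Icc 1 x).filter (fun m => ∀ p ∈ pz y, ¬ Qh Q h p m)).card : ℝ) ^ 2 ≤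
      (2 * C0 + 1) ^ 2 * M ^ 2 * ∏ p ∈ (pz y).filter (fun p : ℕ => p0 < p ∧ Co p h),
        (1 + ((4 * c + 4 * c ^ 2 : ℕ) : ℝ) / p) := by
    intro h hh
    set G : ℝ := ∏ p ∈ (pz y).filter (fun p : ℕ => p0 < p ∧ Co p h), (1 + ((2 * c : ℕ) : ℝ) / p) with hG
    have hG1 : 1 ≤ G := by
      rw [hG]
      calc (1 : ℝ) = ∏ _p ∈ (pz y).filter (fun p : ℕ => p0 < p ∧ Co p h), (1 : ℝ) := by rw [Finset.prod_const_one]
        _ ≤ _ := by
          apply Finset.prod_le_prod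
          · intro p _; exact zero_le_one
          · intro p _
            have : 0 ≤ ((2 * c : ℕ) : ℝ) / p := by positivity
            linarith
    have h2 : (((Icc 1 x).filter (fun m => ∀ p ∈ pz y, ¬ Qh Q h p m)).card : ℝ) ≤ (2 * C0 + 1) * M * G := by
      refine (hup (Qh Q h) (perB_Qh Q c hS.per h)).trans ?_
      have h2 := prod_pair_le Q Co c p0 D hS h y
      have hx : (0 : ℝ) ≤ 2 * x := by positivity
      have h3 := mul_le_mul_of_nonneg_left h2 hx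
      rw [← hC0, ← hG] at h3
      have hxV : 0 ≤ (x : ℝ) * (Vq Q y) ^ 2 := by positivity
      have hs : 0 ≤ √(x : ℝ) := Real.sqrt_nonneg _
      calc 2 * (x : ℝ) * ∏ p ∈ pz y, (1 - (nuB (Qh Q h) p : ℝ) / p) + √(x : ℝ) ≤
            2 * x * (C0 * (Vq Q y) ^ 2 * G) + √(x : ℝ) * G := by
            apply add_le_add h3
            exact le_mul_of_one_le_right hs hG1
        _ = (2 * C0 * (x * (Vq Q y) ^ 2) + √(x : ℝ)) * G := by ring
        _ ≤ ((2 * C0 + 1) * M) * G := by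
            apply mul_le_mul_of_nonneg_right _ (by linarith)
            rw [hM]
            nlinarith [mul_nonneg hC01.le hs]
    have h3 : G ^ 2 ≤ ∏ p ∈ (pz y).filter (fun p : ℕ => p0 < p ∧ Co p h),
        (1 + ((4 * c + 4 * c ^ 2 : ℕ) : ℝ) / p) := by
      rw [hG, ← Finset.prod_pow]
      apply Finset.prod_le_prod
      · intro p _; positivity
      · intro p hp
        rw [mem_filter, mem_pz] at hp
        have hp1 : (1 : ℝ) ≤ p := by exact_mod_cast hp.1.2.one_lt.le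
        have hp0 : (0 : ℝ) < p := by linarith
        have h4 : ((2 * c : ℕ) : ℝ) / p * (((2 * c : ℕ) : ℝ) / p) ≤ ((4 * c ^ 2 : ℕ) : ℝ) / p := by
          rw [div_mul_div_comm, div_le_div_iff₀ (by positivity) hp0]
          push_cast
          have : (0 : ℝ) ≤ 4 * (c : ℝ) ^ 2 * p := by positivity
          nlinarith [mul_le_mul_of_nonneg_left hp1 this]
        have h5 : ((4 * c + 4 * c ^ 2 : ℕ) : ℝ) / p = 2 * (((2 * c : ℕ) : ℝ) / p) + ((4 * c ^ 2 : ℕ) : ℝ) / p := by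
          push_cast
          ring
        rw [h5]
        nlinarith
    calc _ ≤ ((2 * C0 + 1) * M * G) ^ 2 := pow_le_pow_left₀ (by positivity) h2 2
      _ = (2 * C0 + 1) ^ 2 * M ^ 2 * G ^ 2 := by ring
      _ ≤ _ := mul_le_mul_of_nonneg_left h3 (by positivity)
  refine (Finset.sum_le_sum h1).trans ?_
  rw [← Finset.mul_sum]
  have h2 := havg T hT0' Co hS.cR y E hE hE2
  calc (2 * C0 + 1) ^ 2 * M ^ 2 * ∑ h ∈ E, ∏ p ∈ (pz y).filter (fun p : ℕ => p0 < p ∧ Co p h),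
        (1 + ((4 * c + 4 * c ^ 2 : ℕ) : ℝ) / p) ≤ (2 * C0 + 1) ^ 2 * M ^ 2 * (C * T) :=
        mul_le_mul_of_nonneg_left h2 (by positivity)
    _ = _ := by ring

theorem fin_calc (cS C4 x h L N : ℝ) (h4 : 0 < C4) (hx : 0 < x) (hh : 0 < h) (hL : 0 < L)
    (hf : (cS ^ 2 * x * h / L ^ 2 / 16) ^ 2 / 4 ≤ C4 * h * x ^ 2 / L ^ 4 * N) :
    cS ^ 4 / (1024 * C4) * h ≤ N := by
  have h2 : (cS ^ 2 * x * h / L ^ 2 / 16) ^ 2 / 4 = cS ^ 4 / (1024 * C4) * h * (C4 * h * x ^ 2 / L ^ 4) := by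
    field_simp
    ring
  have h3 : C4 * h * x ^ 2 / L ^ 4 * N = N * (C4 * h * x ^ 2 / L ^ 4) := by ring
  rw [h2, h3] at hf
  exact le_of_mul_le_mul_right hf (by positivity)

open Classical in
/-- **Differences in dense subsets of a sieved set.** -/
theorem diffs {ι : Type} [Fintype ι] [Nonempty ι] (f : ι → ℤ[X]) (hg : Sys f) (κ cS : ℝ) (hκ : 0 < κ)
    (hcS : 0 < cS) :
    ∃ c C K : ℝ, 0 < c ∧ 0 < C ∧ 0 < K ∧ ∀ᶠ X : ℕ in atTop, ∀ A A' : Finset ℕ, A ⊆ A' → A' ⊆ Ioc X (2 * X) →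
      (∀ m ∈ A', Rgh f ((X : ℝ) ^ κ) m) →
      cS * X / Real.log X ^ (Fintype.card ι) ≤ (A.card : ℝ) →
      ∀ H : ℕ, K * Real.log X ^ (Fintype.card ι) ≤ H → H ≤ X →
        c * H ≤ (((Icc 1 H).filter (fun d =>
          c * X / Real.log X ^ (2 * Fintype.card ι) ≤ (rr A d : ℝ) ∧
          (rr A' d : ℝ) ≤ C * X / Real.log X ^ (2 * Fintype.card ι))).card : ℝ) := by
  obtain ⟨k, hk⟩ : ∃ k, k = Fintype.card ι := ⟨_, rfl⟩
  have hk1 : 1 ≤ k := by rw [hk]; exact Fintype.card_pos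
  rw [← hk]
  obtain ⟨c, hc, hQ⟩ := exists_c f hg
  obtain ⟨D', e, hlarge⟩ := exists_large f hg
  obtain ⟨v, Cv, hv, hCv, hV⟩ := V_bounds f hg
  rw [← hk] at hV
  obtain ⟨K1, hK1, C, hC, x0, hmain⟩ := pair_up c (2 * c) (c ^ 2) D' hc
  obtain ⟨R, hR⟩ : ∃ R : ℕ, R = max (max K1 ⌈1 / κ⌉₊) 2 := ⟨_, rfl⟩
  have hR1 : K1 ≤ R := by rw [hR]; exact (le_max_left _ _).trans (le_max_left _ _)
  have hR0 : 2 ≤ R := by rw [hR]; exact le_max_right _ _
  have hRr : (2 : ℝ) ≤ R := by exact_mod_cast hR0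
  have hRpos : (0 : ℝ) < R := by linarith
  have hRκ : 1 / (R : ℝ) ≤ κ := by
    have h1 : 1 / κ ≤ (⌈1 / κ⌉₊ : ℝ) := Nat.le_ceil _
    have h2 : ((⌈1 / κ⌉₊ : ℕ) : ℝ) ≤ R := by
      rw [hR]; exact_mod_cast (le_max_right _ _).trans (le_max_left _ _)
    rw [div_le_iff₀ hRpos]
    have h3 : 1 / κ ≤ R := h1.trans h2
    rw [div_le_iff₀ hκ] at h3
    linarith
  obtain ⟨C3, hC3⟩ : ∃ C3 : ℝ, C3 = Cv * (2 * R) ^ k := ⟨_, rfl⟩
  have hC30 : 0 < C3 := by rw [hC3]; positivity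
  obtain ⟨C4, hC4⟩ : ∃ C4 : ℝ, C4 = C * (2 * C3 ^ 2 + 1) ^ 2 := ⟨_, rfl⟩
  have hC40 : 0 < C4 := by rw [hC4]; positivity
  obtain ⟨c5, hc5⟩ : ∃ c5 : ℝ, c5 = cS ^ 4 / (1024 * C4) := ⟨_, rfl⟩
  have hc50 : 0 < c5 := by rw [hc5]; positivity
  obtain ⟨lam, hlam⟩ : ∃ lam : ℝ, lam = √(2 * C4 / c5) := ⟨_, rfl⟩
  have hlam0 : 0 < lam := by rw [hlam]; positivity
  have hlam2 : lam ^ 2 = 2 * C4 / c5 := by rw [hlam]; exact Real.sq_sqrt (by positivity)
  refine ⟨min (cS ^ 2 / 32) (c5 / 2), lam, 4 / cS + 16 * e / cS + 1, by positivity, hlam0, by positivity, ?_⟩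
  have hXr : Tendsto (fun X : ℕ => (X : ℝ)) atTop atTop := tendsto_natCast_atTop_atTop
  have hpow : Tendsto (fun X : ℕ => (X : ℝ) ^ (1 / (2 * R : ℝ))) atTop atTop :=
    (tendsto_rpow_atTop (by positivity)).comp hXr
  have hlogX : Tendsto (fun X : ℕ => Real.log (X : ℝ)) atTop atTop :=
    Real.tendsto_log_atTop.comp hXr
  filter_upwards [eventually_ge_atTop 16, hpow.eventually_ge_atTop (3 + x0),
    hlogX.eventually_ge_atTop (2 + x0), logpow_le (4 * k) 2 (by norm_num)] with X hX16 hX2 hXlog hlp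
  intro A A' hAA hA' hAr hcard H hHl hHX
  have hA : A ⊆ Ioc X (2 * X) := hAA.trans hA'
  have hX16r : (16 : ℝ) ≤ X := by exact_mod_cast hX16
  have hXpos : (0 : ℝ) < X := by linarith
  have hX1 : (1 : ℝ) ≤ X := by linarith
  have hx00 : (0 : ℝ) ≤ x0 := Nat.cast_nonneg _
  have hlX1 : 1 ≤ Real.log X := by linarith
  obtain ⟨L, hL⟩ : ∃ L : ℝ, L = Real.log X ^ k := ⟨_, rfl⟩
  rw [← hL] at hHl hcard
  have hlL : Real.log X ≤ L := by
    calc Real.log X = Real.log X ^ 1 := (pow_one _).symm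
      _ ≤ Real.log X ^ k := pow_le_pow_right₀ hlX1 hk1
      _ = L := hL.symm
  have hL1 : 1 ≤ L := by linarith
  have hL0 : 0 < L := by linarith
  have hL4 : 2 * L ^ 4 ≤ X := by
    rw [hL, ← pow_mul, mul_comm k 4]
    exact hlp
  have hLsq : √(((2 * X : ℕ) : ℝ)) ≤ X / L ^ 2 := by
    rw [Real.sqrt_le_left (by positivity), div_pow, le_div_iff₀ (by positivity)]
    push_cast
    calc 2 * (X : ℝ) * (L ^ 2) ^ 2 = (X : ℝ) * (2 * L ^ 4) := by ring
      _ ≤ (X : ℝ) * (X : ℝ) := by gcongr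
      _ = _ := by ring
  obtain ⟨hy1, hy2, hy3, hy4⟩ := level_low R hR0 X (by omega) (by linarith)
  obtain ⟨y, hy⟩ : ∃ y : ℕ, y = ⌊(X : ℝ) ^ (1 / (R : ℝ))⌋₊ := ⟨_, rfl⟩
  rw [← hy] at hy1 hy2 hy3 hy4
  have hy5 : (3 : ℝ) + x0 ≤ y := hX2.trans hy1
  have hy6 : 3 ≤ y := by
    have : (3 : ℝ) ≤ y := by linarith
    exact_mod_cast this
  have hy7 : x0 ≤ y := by
    have : (x0 : ℝ) ≤ y := by linarith
    exact_mod_cast this
  have hlX : 0 < Real.log X := by linarith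
  have hVy : Vq (Q f) y ≤ C3 / L := by
    refine (hV _ hy6).2.trans ?_
    have h1 : (Real.log X / (2 * R)) ^ k ≤ Real.log y ^ k :=
      pow_le_pow_left₀ (by positivity) hy2 k
    calc Cv / Real.log y ^ k ≤ Cv / (Real.log X / (2 * R)) ^ k := by gcongr
      _ = C3 / L := by rw [hC3, hL, div_pow]; field_simp
  have hVnn : 0 ≤ Vq (Q f) y := Finset.prod_nonneg fun p hp => one_sub_nonneg (Q f) p (mem_pz.1 hp).2
  have hyup : (y : ℝ) ≤ (X : ℝ) ^ (1 / (R : ℝ)) := by rw [hy]; exact Nat.floor_le (by positivity)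
  have hyr : y ^ R ≤ X := by
    have : ((y ^ R : ℕ) : ℝ) ≤ X := by
      push_cast
      calc (y : ℝ) ^ R ≤ ((X : ℝ) ^ (1 / (R : ℝ))) ^ R := pow_le_pow_left₀ (by positivity) hyup R
        _ = X := by
          rw [← Real.rpow_natCast, ← Real.rpow_mul hXpos.le]
          rw [one_div, inv_mul_cancel₀ hRpos.ne', Real.rpow_one]
    exact_mod_cast this
  have hyK : y ^ K1 ≤ 2 * X := by
    calc y ^ K1 ≤ y ^ R := Nat.pow_le_pow_right (by omega) hR1
      _ ≤ X := hyr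
      _ ≤ 2 * X := by omega
  obtain ⟨hcnt, hpairs⟩ := hmain (2 * X) y hy7 hyK (Q f) (CoG (Q f)) (sdata f hg c hQ)
  -- elements of A avoid the classes
  have hAQ : ∀ m ∈ A', ∀ p ∈ pz y, ¬ Q f p m := by
    intro m hm p hp hq
    obtain ⟨i, hi⟩ := hq
    refine hAr m hm i p (mem_pz.1 hp).2 ?_ hi
    rw [hy] at hp
    refine (mem_pz' (by positivity) hp).trans ?_
    exact Real.rpow_le_rpow_of_exponent_le hX1 hRκ
  have hAI : ∀ m ∈ A', m ∈ Icc 1 (2 * X) := by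
    intro m hm
    have := mem_Ioc.1 (hA' hm)
    rw [mem_Icc]
    omega
  -- lower bound for the first moment
  obtain ⟨a, ha⟩ : ∃ a : ℝ, a = A.card := ⟨_, rfl⟩
  rw [← ha] at hcard
  have ha0 : 0 < a := lt_of_lt_of_le (by positivity) hcard
  have hK4 : 4 / cS + 16 * e / cS ≤ (4 / cS + 16 * e / cS + 1) := by linarith
  have he0 : (0 : ℝ) ≤ e := Nat.cast_nonneg _
  have hHL1 : L ≤ H := by
    refine le_trans ?_ hHl
    have h1 : (1 : ℝ) ≤ 4 / cS + 16 * e / cS + 1 := by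
      have : (0 : ℝ) ≤ 4 / cS + 16 * e / cS := by positivity
      linarith
    nlinarith
  have hH0 : (0 : ℝ) < H := by linarith
  have hH1 : 1 ≤ H := by exact_mod_cast (by linarith : (1 : ℝ) ≤ H)
  have hHx0 : x0 ≤ H := by
    have : (x0 : ℝ) ≤ H := by linarith
    exact_mod_cast this
  have hratio : 4 + 16 * e ≤ a * H / X := by
    have h1 : cS * X / L * ((4 / cS + 16 * e / cS) * L) ≤ a * H := by
      apply mul_le_mul hcard _ (by positivity) ha0.le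
      refine le_trans ?_ hHl
      gcongr
    have h2 : cS * X / L * ((4 / cS + 16 * e / cS) * L) = (4 + 16 * e) * X := by
      field_simp
    rw [h2] at h1
    rw [le_div_iff₀ hXpos]
    exact h1
  have hpl := pairs_low A X H hH1 hHX hA
  rw [← ha] at hpl
  have hq1 : a * (4 + 16 * e) ≤ a * (a * H / X) := mul_le_mul_of_nonneg_left hratio ha0.le
  have hq2 : a * (a * H / X) = a ^ 2 * H / X := by ring
  have hq3 : a ^ 2 * H / (2 * X) = a ^ 2 * H / X / 2 := by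
    rw [div_div, mul_comm (2 : ℝ) X]
  rw [hq2] at hq1
  rw [hq3] at hpl
  obtain ⟨B, hB⟩ : ∃ B : ℝ, B = a ^ 2 * H / X := ⟨_, rfl⟩
  rw [← hB] at hq1 hpl
  have hsum : B / 8 ≤ ∑ d ∈ Icc 1 H, (rr A d : ℝ) := by
    have : 0 ≤ a * (16 * e) := by positivity
    linarith [mul_add a 4 (16 * (e : ℝ))]
  obtain ⟨E0, hE0, hlarge'⟩ := hlarge H
  set E : Finset ℕ := (Icc 1 H).filter (fun h => ¬ h ∈ E0) with hE
  have hrrle : ∀ d, (rr A d : ℝ) ≤ a := by
    intro d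
    rw [ha]
    unfold rr
    exact_mod_cast card_le_card (filter_subset _ _)
  have hsumE : B / 16 ≤ ∑ d ∈ E, (rr A d : ℝ) := by
    have h1 := sum_filter_add_sum_filter_not (Icc 1 H) (fun h => h ∈ E0) (fun d => (rr A d : ℝ))
    have h2 : ∑ d ∈ (Icc 1 H).filter (fun h => h ∈ E0), (rr A d : ℝ) ≤ e * a := by
      calc _ ≤ ∑ _d ∈ (Icc 1 H).filter (fun h => h ∈ E0), a := sum_le_sum fun d _ => hrrle d
        _ = (((Icc 1 H).filter (fun h => h ∈ E0)).card : ℝ) * a := by rw [sum_const, nsmul_eq_mul]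
        _ ≤ e * a := by
          apply mul_le_mul_of_nonneg_right _ ha0.le
          have : ((Icc 1 H).filter (fun h => h ∈ E0)).card ≤ e := by
            refine (card_le_card ?_).trans hE0
            intro h hh
            exact (mem_filter.1 hh).2
          exact_mod_cast this
    have h3 : (e : ℝ) * a ≤ B / 16 := by
      have : 0 ≤ a * 4 := by positivity
      linarith [mul_add a 4 (16 * (e : ℝ)), mul_comm (e : ℝ) a, mul_assoc (a : ℝ) 16 e,
        mul_left_comm a 16 (e : ℝ)]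
    rw [← h1] at hsum
    linarith
  have hBlow : cS ^ 2 * X * H / L ^ 2 ≤ B := by
    rw [hB]
    have h1 : (cS * X / L) ^ 2 ≤ a ^ 2 := pow_le_pow_left₀ (by positivity) hcard 2
    calc cS ^ 2 * X * H / L ^ 2 = (cS * X / L) ^ 2 * H / X := by field_simp
      _ ≤ a ^ 2 * H / X := by gcongr
  -- second moment
  have hsec : ∑ d ∈ E, (rr A' d : ℝ) ^ 2 ≤ C4 * H * X ^ 2 / L ^ 4 := by
    have h1 : ∀ d ∈ E, (rr A' d : ℝ) ^ 2 ≤
        (((Icc 1 (2 * X)).filter (fun m => ∀ p ∈ pz y, ¬ Qh (Q f) d p m)).card : ℝ) ^ 2 := by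
      intro d _
      apply pow_le_pow_left₀ (Nat.cast_nonneg _)
      rw [Nat.cast_le]
      unfold rr
      apply card_le_card
      intro m hm
      rw [mem_filter] at hm ⊢
      refine ⟨hAI m hm.1, ?_⟩
      intro p hp hq
      rcases hq with hq | hq
      · exact hAQ m hm.1 p hp hq
      · exact hAQ (m + d) hm.2 p hp hq
    refine (sum_le_sum h1).trans ?_
    have h2 := hpairs H hHx0 E (filter_subset _ _) (by
      intro h hh
      rw [hE, mem_filter] at hh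
      exact hlarge' y h hh.1 hh.2)
    refine h2.trans ?_
    have h3 : ((2 * X : ℕ) : ℝ) * (Vq (Q f) y) ^ 2 + √(((2 * X : ℕ) : ℝ)) ≤ (2 * C3 ^ 2 + 1) * X / L ^ 2 := by
      have h4 : (Vq (Q f) y) ^ 2 ≤ (C3 / L) ^ 2 := pow_le_pow_left₀ hVnn hVy 2
      calc ((2 * X : ℕ) : ℝ) * (Vq (Q f) y) ^ 2 + √(((2 * X : ℕ) : ℝ)) ≤
            ((2 * X : ℕ) : ℝ) * (C3 / L) ^ 2 + X / L ^ 2 := by gcongr
        _ = (2 * C3 ^ 2 + 1) * X / L ^ 2 := by
            push_cast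
            rw [div_pow]
            ring
    have h5 : 0 ≤ ((2 * X : ℕ) : ℝ) * (Vq (Q f) y) ^ 2 + √(((2 * X : ℕ) : ℝ)) := by positivity
    calc C * H * (((2 * X : ℕ) : ℝ) * (Vq (Q f) y) ^ 2 + √(((2 * X : ℕ) : ℝ))) ^ 2 ≤
          C * H * ((2 * C3 ^ 2 + 1) * X / L ^ 2) ^ 2 := by
          apply mul_le_mul_of_nonneg_left (pow_le_pow_left₀ h5 h3 2) (by positivity)
      _ = C4 * H * X ^ 2 / L ^ 4 := by
          rw [hC4, div_pow]
          ring
  have hrrA : ∀ d, (rr A d : ℝ) ≤ rr A' d := by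
    intro d
    unfold rr
    rw [Nat.cast_le]
    apply card_le_card
    intro m hm
    rw [mem_filter] at hm ⊢
    exact ⟨hAA hm.1, hAA hm.2⟩
  have hsecA : ∑ d ∈ E, (rr A d : ℝ) ^ 2 ≤ C4 * H * X ^ 2 / L ^ 4 :=
    (sum_le_sum fun d _ => pow_le_pow_left₀ (Nat.cast_nonneg _) (hrrA d) 2).trans hsec
  -- conclusion
  obtain ⟨S1, hS1⟩ : ∃ S1 : ℝ, S1 = cS ^ 2 * X * H / L ^ 2 / 16 := ⟨_, rfl⟩
  have hS10 : 0 < S1 := by rw [hS1]; positivity
  have hcardE : (E.card : ℝ) ≤ H := by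
    have := card_le_card (filter_subset (fun h => ¬ h ∈ E0) (Icc 1 H))
    rw [Nat.card_Icc, Nat.add_sub_cancel] at this
    exact_mod_cast this
  have hfin := many_of_moments E (fun d => (rr A d : ℝ)) S1 (C4 * H * X ^ 2 / L ^ 4) H hS10 hH0 hcardE
    (by rw [hS1]; linarith) hsecA
  have hS1H : S1 / (2 * H) = cS ^ 2 / 32 * X / L ^ 2 := by
    rw [hS1]
    field_simp
    norm_num
  have hL2 : Real.log X ^ (2 * k) = L ^ 2 := by rw [hL, ← pow_mul, mul_comm]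
  rw [hL2]
  obtain ⟨N, hN⟩ : ∃ N : ℝ, N = ((E.filter (fun d => S1 / (2 * H) ≤ (rr A d : ℝ))).card : ℝ) := ⟨_, rfl⟩
  rw [← hN] at hfin
  have h1 : c5 * H ≤ N := by
    rw [hS1] at hfin
    rw [hc5]
    exact fin_calc cS C4 X H L N hC40 hXpos hH0 hL0 hfin
  -- large values are rare
  obtain ⟨N2, hN2⟩ : ∃ N2 : ℝ, N2 = ((E.filter (fun d => ¬ (rr A' d : ℝ) ≤ lam * X / L ^ 2)).card : ℝ) :=
    ⟨_, rfl⟩
  have h2 : N2 ≤ c5 / 2 * H := by
    have h3 : N2 * (lam * X / L ^ 2) ^ 2 ≤ C4 * H * X ^ 2 / L ^ 4 := by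
      refine le_trans ?_ hsec
      calc N2 * (lam * X / L ^ 2) ^ 2 =
            ∑ _d ∈ E.filter (fun d => ¬ (rr A' d : ℝ) ≤ lam * X / L ^ 2), (lam * X / L ^ 2) ^ 2 := by
            rw [sum_const, nsmul_eq_mul, hN2]
        _ ≤ ∑ d ∈ E.filter (fun d => ¬ (rr A' d : ℝ) ≤ lam * X / L ^ 2), (rr A' d : ℝ) ^ 2 := by
            apply sum_le_sum
            intro d hd
            exact pow_le_pow_left₀ (by positivity) (not_le.1 (mem_filter.1 hd).2).le 2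
        _ ≤ ∑ d ∈ E, (rr A' d : ℝ) ^ 2 :=
            sum_le_sum_of_subset_of_nonneg (filter_subset _ _) fun _ _ _ => by positivity
    have h4 : (lam * X / L ^ 2) ^ 2 = 2 * C4 / c5 * (X ^ 2 / L ^ 4) := by
      rw [div_pow, mul_pow, hlam2]
      ring
    have h5 : C4 * H * X ^ 2 / L ^ 4 = C4 * H * (X ^ 2 / L ^ 4) := by ring
    rw [h4, h5, ← mul_assoc] at h3
    have h6 := le_of_mul_le_mul_right h3 (by positivity : (0 : ℝ) < X ^ 2 / L ^ 4)
    have h7 : N2 * (2 * C4 / c5) = N2 * 2 / c5 * C4 := by ring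
    have h8 : C4 * H = H * C4 := by ring
    rw [h7, h8] at h6
    have h9 := le_of_mul_le_mul_right h6 hC40
    rw [div_le_iff₀ hc50] at h9
    linarith
  have hsub : N - N2 ≤
      (((Icc 1 H).filter (fun d => min (cS ^ 2 / 32) (c5 / 2) * X / L ^ 2 ≤
        (rr A d : ℝ) ∧ (rr A' d : ℝ) ≤ lam * X / L ^ 2)).card : ℝ) := by
    rw [hN, hN2, sub_le_iff_le_add]
    have h3 : E.filter (fun d => S1 / (2 * H) ≤ (rr A d : ℝ)) ⊆
        (Icc 1 H).filter (fun d => min (cS ^ 2 / 32) (c5 / 2) * X / L ^ 2 ≤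
        (rr A d : ℝ) ∧ (rr A' d : ℝ) ≤ lam * X / L ^ 2) ∪ E.filter (fun d => ¬ (rr A' d : ℝ) ≤ lam * X / L ^ 2) := by
      intro d hd
      rw [mem_filter] at hd
      rw [mem_union, mem_filter, mem_filter]
      by_cases hb : (rr A' d : ℝ) ≤ lam * X / L ^ 2
      · left
        refine ⟨(mem_filter.1 hd.1).1, ?_, hb⟩
        refine le_trans ?_ hd.2
        rw [hS1H]
        gcongr
        exact min_le_left _ _
      · right
        exact ⟨hd.1, hb⟩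
    have h4 := (card_le_card h3).trans (card_union_le _ _)
    exact_mod_cast h4
  refine le_trans ?_ hsub
  have h10 : min (cS ^ 2 / 32) (c5 / 2) * H ≤ c5 / 2 * H :=
    mul_le_mul_of_nonneg_right (min_le_right _ _) hH0.le
  linarith

end Pool.Agent.N39.RW
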