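import Pool.Agent.N39.RW.Core

set_option autoImplicit false

/-!
# The window between two consecutive powers (helper39)
-/

namespace Pool.Agent.N39.RW

open Finset Filter Pool.Agent.W123.RU

/-- the window between two consecutive powers, around one of its points -/
theorem pow_window (s : ℕ) (hs : 2 ≤ s) (k : ℕ) (K c₁ E : ℝ) (hK : 0 < K) (hc : 0 < c₁) (hE : 0 ≤ E) :
    ∃ ν : ℝ, 0 < ν ∧ ∀ᶠ m : ℕ in atTop, ∀ n : ℕ, m ^ s < n → n < (m + 1) ^ s →
      K * Real.log n ^ k ≤ (((m + 1) ^ s - 1 : ℕ) : ℝ) - ((m ^ s : ℕ) : ℝ) ∧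
      (((m + 1) ^ s - 1 : ℕ) : ℝ) - ((m ^ s : ℕ) : ℝ) ≤ n ∧
      ν * (m : ℝ) ^ (s - 1) / Real.log m ^ k + E ≤
        c₁ * ((((m + 1) ^ s - 1 : ℕ) : ℝ) - ((m ^ s : ℕ) : ℝ)) / Real.log n ^ k := by
  have hs0 : (0 : ℝ) < s := by exact_mod_cast (by omega : 0 < s)
  obtain ⟨D, hD⟩ : ∃ D : ℝ, D = (2 * (s : ℝ)) ^ k := ⟨_, rfl⟩
  have hD0 : 0 < D := by rw [hD]; positivity
  refine ⟨c₁ / (4 * D), by positivity, ?_⟩
  filter_upwards [eventually_ge_atTop (s * 2 ^ (s - 1) + 3), logpow_le k (2 * K * D + 1) (by positivity),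
    logpow_le k (4 * D * E / c₁ + 1) (by positivity)] with m hm1 hm2 hm3
  intro n hn1 hn2
  have hm3' : 3 ≤ m := by omega
  have hmr : (3 : ℝ) ≤ m := by exact_mod_cast hm3'
  have hm0 : (0 : ℝ) < m := by linarith
  have hlm : 0 < Real.log m := Real.log_pos (by linarith)
  have hspl : m ^ s = m ^ (s - 1) * m := by
    rw [← pow_succ]
    congr 1
    omega
  have hspl' : (m + 1) ^ s = (m + 1) ^ (s - 1) * (m + 1) := by
    rw [← pow_succ]
    congr 1
    omega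
  have hmm : m ≤ m ^ (s - 1) := by
    calc m = m ^ 1 := (pow_one m).symm
      _ ≤ m ^ (s - 1) := Nat.pow_le_pow_right (by omega) (by omega)
  have hlow : m ^ s + m ^ (s - 1) ≤ (m + 1) ^ s := by
    rw [hspl, hspl']
    calc m ^ (s - 1) * m + m ^ (s - 1) = m ^ (s - 1) * (m + 1) := by ring
      _ ≤ (m + 1) ^ (s - 1) * (m + 1) := Nat.mul_le_mul_right _ (Nat.pow_le_pow_left (by omega) _)
  have hlen : (m : ℝ) ^ (s - 1) / 2 ≤ (((m + 1) ^ s - 1 : ℕ) : ℝ) - ((m ^ s : ℕ) : ℝ) := by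
    have e1 : ((m ^ s + m ^ (s - 1) - 1 : ℕ) : ℝ) ≤ (((m + 1) ^ s - 1 : ℕ) : ℝ) := by
      exact_mod_cast (by omega : m ^ s + m ^ (s - 1) - 1 ≤ (m + 1) ^ s - 1)
    have e2 : ((m ^ s + m ^ (s - 1) - 1 : ℕ) : ℝ) = ((m ^ s : ℕ) : ℝ) + (m : ℝ) ^ (s - 1) - 1 := by
      rw [Nat.cast_sub (by omega)]
      push_cast
      ring
    have e3 : (2 : ℝ) ≤ (m : ℝ) ^ (s - 1) := by
      have : (m : ℝ) ≤ (m : ℝ) ^ (s - 1) := by exact_mod_cast hmm
      linarith
    linarith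
  have hup : (((m + 1) ^ s - 1 : ℕ) : ℝ) - ((m ^ s : ℕ) : ℝ) ≤ n := by
    have e1 := pow_step s m
    have e2 : s * (m + 1) ^ (s - 1) ≤ m ^ s := by
      calc s * (m + 1) ^ (s - 1) ≤ s * (2 * m) ^ (s - 1) :=
            Nat.mul_le_mul_left _ (Nat.pow_le_pow_left (by omega) _)
        _ = (s * 2 ^ (s - 1)) * m ^ (s - 1) := by rw [mul_pow]; ring
        _ ≤ m * m ^ (s - 1) := Nat.mul_le_mul_right _ (by omega)
        _ = m ^ s := by rw [hspl]; ring
    have e3 : (m + 1) ^ s - 1 ≤ m ^ s + n := by omega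
    have e4 : (((m + 1) ^ s - 1 : ℕ) : ℝ) ≤ ((m ^ s : ℕ) : ℝ) + n := by exact_mod_cast e3
    linarith
  have hlogn : Real.log n ≤ 2 * s * Real.log m := by
    have e1 : (n : ℝ) ≤ (m : ℝ) ^ (2 * s) := by
      have e2 : n ≤ (m + 1) ^ s := hn2.le
      have e3 : (m + 1) ^ s ≤ (m * m) ^ s := Nat.pow_le_pow_left (by nlinarith) _
      have e4 : n ≤ (m * m) ^ s := e2.trans e3
      calc (n : ℝ) ≤ (((m * m) ^ s : ℕ) : ℝ) := by exact_mod_cast e4
        _ = (m : ℝ) ^ (2 * s) := by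
          push_cast
          rw [← sq, ← pow_mul]
    have hn0 : (0 : ℝ) < n := by exact_mod_cast (by omega : 0 < n)
    calc Real.log n ≤ Real.log ((m : ℝ) ^ (2 * s)) := Real.log_le_log hn0 e1
      _ = 2 * s * Real.log m := by rw [Real.log_pow]; push_cast; ring
  have hln0 : 0 < Real.log n := by
    apply Real.log_pos
    have : 1 < n := by
      have : 1 ≤ m ^ s := Nat.one_le_pow _ _ (by omega)
      omega
    exact_mod_cast this
  have hlk : Real.log n ^ k ≤ D * Real.log m ^ k := by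
    rw [hD, ← mul_pow]
    exact pow_le_pow_left₀ hln0.le hlogn _
  have hmp : (m : ℝ) ≤ (m : ℝ) ^ (s - 1) := by exact_mod_cast hmm
  have hLk : 0 < Real.log m ^ k := by positivity
  refine ⟨?_, hup, ?_⟩
  · calc K * Real.log n ^ k ≤ K * (D * Real.log m ^ k) := by gcongr
      _ ≤ (m : ℝ) / 2 := by nlinarith
      _ ≤ (m : ℝ) ^ (s - 1) / 2 := by linarith
      _ ≤ _ := hlen
  · have e1 : c₁ * ((m : ℝ) ^ (s - 1) / 2) / (D * Real.log m ^ k) ≤
        c₁ * ((((m + 1) ^ s - 1 : ℕ) : ℝ) - ((m ^ s : ℕ) : ℝ)) / Real.log n ^ k := by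
      apply div_le_div₀ _ _ (by positivity) hlk
      · exact mul_nonneg hc.le (le_trans (by positivity) hlen)
      · exact mul_le_mul_of_nonneg_left hlen hc.le
    refine le_trans ?_ e1
    have e2 : c₁ * ((m : ℝ) ^ (s - 1) / 2) / (D * Real.log m ^ k) =
        c₁ / (4 * D) * (m : ℝ) ^ (s - 1) / Real.log m ^ k +
          c₁ / (4 * D) * (m : ℝ) ^ (s - 1) / Real.log m ^ k := by
      field_simp
      ring
    rw [e2]
    have e3 : E ≤ c₁ / (4 * D) * (m : ℝ) ^ (s - 1) / Real.log m ^ k := by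
      rw [le_div_iff₀ hLk]
      have e4 : 4 * D * E / c₁ * Real.log m ^ k ≤ (m : ℝ) ^ (s - 1) := by nlinarith
      calc E * Real.log m ^ k = c₁ / (4 * D) * (4 * D * E / c₁ * Real.log m ^ k) := by field_simp
        _ ≤ c₁ / (4 * D) * (m : ℝ) ^ (s - 1) := mul_le_mul_of_nonneg_left e4 (by positivity)
    linarith

end Pool.Agent.N39.RW
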