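import Pool.Agent.N39.RW.Core
import Pool.Agent.N39.RW.Pow
import Pool.Agent.N39.RW.Diff

set_option autoImplicit false

/-!
# Regular windows, intervals between powers and differences for dense sets of almost prime values (helper39)

General form: `P z m` means that `m` is an element of the set in question of level `z`; it implies that all
polynomials of the system have values at `m` without prime factors up to `z`.
-/

namespace Pool.Agent.N39.RW

open Finset Filter Polynomial Pool.Agent.H373R2.T7 Pool.Agent.W123.RP Pool.Agent.W123.RU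
open Pool.Agent.W123.RU.Poly

open Classical in
/-- `n` is regular -/
def RegP {ι : Type} [Fintype ι] (f : ι → ℤ[X]) (P : ℝ → ℕ → Prop) (κ c₁ c₂ K : ℝ) (n : ℕ) : Prop :=
  ∀ u v : ℕ, u ≤ n → n ≤ v → K * Real.log n ^ (Fintype.card ι) ≤ (v : ℝ) - u → (v : ℝ) - u ≤ n →
    c₁ * ((v : ℝ) - u) / Real.log n ^ (Fintype.card ι) ≤
      (((Ioc u v).filter (fun m => P ((n : ℝ) ^ κ) m)).card : ℝ) ∧
    (((Ioc u v).filter (fun m => Rgh f ((n : ℝ) ^ κ) m)).card : ℝ) ≤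
      c₂ * ((v : ℝ) - u) / Real.log n ^ (Fintype.card ι)

open Classical in
theorem winP {ι : Type} [Fintype ι] [Nonempty ι] (f : ι → ℤ[X]) (hg : Sys f) (P : ℝ → ℕ → Prop)
    (hmono : ∀ z z' : ℝ, ∀ m : ℕ, z' ≤ z → P z m → P z' m) (hrgh : ∀ z : ℝ, ∀ m : ℕ, P z m → Rgh f z m)
    (κ cS : ℝ) (hκ : 0 < κ) (hcS : 0 < cS)
    (hcount : ∀ᶠ X : ℕ in atTop, cS * X / Real.log X ^ (Fintype.card ι) ≤
      (((Ioc X (2 * X)).filter (fun m => P (((2 * X : ℕ) : ℝ) ^ κ) m)).card : ℝ)) :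
    ∃ c₁ c₂ K μ : ℝ, 0 < c₁ ∧ 0 < c₂ ∧ 1 ≤ K ∧ 0 < μ ∧ ∀ᶠ X : ℕ in atTop,
      μ * X ≤ (((Ioc X (2 * X)).filter (fun n => RegP f P κ c₁ c₂ K n)).card : ℝ) := by
  obtain ⟨k, hk⟩ : ∃ k, k = Fintype.card ι := ⟨_, rfl⟩
  obtain ⟨c₁, c₂, K, μ, hc₁, hc₂, hK, hμ, hcore⟩ := core f hg κ cS hκ hcS
  unfold RegP
  rw [← hk] at hcount hcore ⊢
  refine ⟨c₁, c₂ * 2 ^ k, K, μ, hc₁, by positivity, hK, hμ, ?_⟩
  filter_upwards [hcore, hcount, eventually_ge_atTop 16] with X hcore hcount hX16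
  have hXr : (16 : ℝ) ≤ X := by exact_mod_cast hX16
  have hX0 : (0 : ℝ) < X := by linarith
  have hlX : 0 < Real.log X := Real.log_pos (by linarith)
  have hlev2 : (X : ℝ) ^ κ ≤ ((2 * X : ℕ) : ℝ) ^ κ :=
    Real.rpow_le_rpow hX0.le (by push_cast; linarith) hκ.le
  refine (hcore (fun m => P (((2 * X : ℕ) : ℝ) ^ κ) m) (fun m => Rgh f ((X : ℝ) ^ κ) m)
    (fun m hm => hrgh _ m (hmono _ _ m hlev2 hm)) (fun m hm _ => hm) hcount).trans ?_
  rw [Nat.cast_le]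
  apply card_le_card
  intro n hn
  rw [mem_filter, mem_Ioc] at hn ⊢
  obtain ⟨⟨hn1, hn2⟩, hn3⟩ := hn
  refine ⟨⟨hn1, hn2⟩, ?_⟩
  intro u v hun hnv huv hvn
  have hnr : (X : ℝ) < n := by exact_mod_cast hn1
  have hnr3 : (n : ℝ) ≤ ((2 * X : ℕ) : ℝ) := by exact_mod_cast hn2
  have hnr2 : (n : ℝ) ≤ 2 * X := by rw [Nat.cast_mul] at hnr3; exact_mod_cast hnr3
  have hl1 : Real.log X ≤ Real.log n := Real.log_le_log hX0 hnr.le
  have hln : 0 < Real.log n := by linarith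
  have hl2 : Real.log n ≤ 2 * Real.log X := by
    calc Real.log n ≤ Real.log ((X : ℝ) ^ 2) := Real.log_le_log (by linarith) (by nlinarith)
      _ = 2 * Real.log X := by rw [Real.log_pow]; norm_num
  have huv' : (u : ℝ) ≤ v := by exact_mod_cast hun.trans hnv
  have hsq : Real.log X ^ k ≤ Real.log n ^ k := pow_le_pow_left₀ hlX.le hl1 _
  obtain ⟨f1, f2⟩ := hn3 u v hun hnv (by
    refine le_trans ?_ huv
    exact mul_le_mul_of_nonneg_left hsq (by linarith)) hvn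
  have hz2 : (n : ℝ) ^ κ ≤ ((2 * X : ℕ) : ℝ) ^ κ := Real.rpow_le_rpow (by linarith) hnr3 hκ.le
  constructor
  · calc c₁ * ((v : ℝ) - u) / Real.log n ^ k ≤ c₁ * ((v : ℝ) - u) / Real.log X ^ k := by
          apply div_le_div_of_nonneg_left _ (by positivity) hsq
          have : 0 ≤ (v : ℝ) - u := by linarith
          positivity
      _ ≤ _ := f1
      _ ≤ _ := by
          unfold co
          rw [Nat.cast_le]
          apply card_le_card
          intro m hm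
          rw [mem_filter] at hm ⊢
          exact ⟨hm.1, hmono _ _ m hz2 hm.2⟩
  · calc (((Ioc u v).filter (fun m => Rgh f ((n : ℝ) ^ κ) m)).card : ℝ) ≤
          (co (fun m => Rgh f ((X : ℝ) ^ κ) m) u v : ℝ) := by
          unfold co
          rw [Nat.cast_le]
          apply card_le_card
          intro m hm
          rw [mem_filter] at hm ⊢
          refine ⟨hm.1, ?_⟩
          intro i p hp hpz
          exact hm.2 i p hp (hpz.trans (Real.rpow_le_rpow hX0.le hnr.le hκ.le))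
      _ ≤ c₂ * ((v : ℝ) - u) / Real.log X ^ k := f2
      _ ≤ c₂ * 2 ^ k * ((v : ℝ) - u) / Real.log n ^ k := by
          rw [div_le_div_iff₀ (by positivity) (by positivity)]
          have h5 : Real.log n ^ k ≤ 2 ^ k * Real.log X ^ k := by
            rw [← mul_pow]
            exact pow_le_pow_left₀ hln.le hl2 _
          have h6 : 0 ≤ c₂ * ((v : ℝ) - u) := mul_nonneg hc₂.le (by linarith)
          calc c₂ * ((v : ℝ) - u) * Real.log n ^ k ≤
                c₂ * ((v : ℝ) - u) * (2 ^ k * Real.log X ^ k) :=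
                mul_le_mul_of_nonneg_left h5 h6
            _ = _ := by ring

open Classical in
theorem useP {ι : Type} [Fintype ι] [Nonempty ι] (f : ι → ℤ[X]) (hg : Sys f) (P : ℝ → ℕ → Prop)
    (hmono : ∀ z z' : ℝ, ∀ m : ℕ, z' ≤ z → P z m → P z' m) (hrgh : ∀ z : ℝ, ∀ m : ℕ, P z m → Rgh f z m)
    (κ cS : ℝ) (hκ : 0 < κ) (hcS : 0 < cS)
    (hcount : ∀ᶠ X : ℕ in atTop, cS * X / Real.log X ^ (Fintype.card ι) ≤
      (((Ioc X (2 * X)).filter (fun m => P (((2 * X : ℕ) : ℝ) ^ κ) m)).card : ℝ)) (D : ℕ) :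
    ∃ c₁ c₂ K : ℝ, 0 < c₁ ∧ 0 < c₂ ∧ 0 < K ∧
      ∀ Reg : ℕ → Prop, (∀ᶠ t : ℕ in atTop, RegP f P κ c₁ c₂ K t → Reg t) →
      (∃ μ : ℝ, 0 < μ ∧ ∀ᶠ x : ℕ in atTop, μ * x ≤ (Set.ncard {t : ℕ | t ≤ x ∧ Reg t} : ℝ)) ∧
      ∀ s : ℕ, 2 ≤ s → ∀ Q : ℕ → ℕ → Prop, (∀ᶠ m : ℕ in atTop, ∀ t p : ℕ, m ^ s < t → m ^ s < p →
        P ((t : ℝ) ^ κ) p → Q m p) → ∃ ν : ℝ, 0 < ν ∧ ∀ᶠ N : ℕ in atTop, ν * N ≤
      (Set.ncard {n : ℕ | N ≤ n ∧ n < 2 * N ∧
        ν * (n : ℝ) ^ (s - 1) ≤ (Set.ncard {t : ℕ | n ^ s < t ∧ t < (n + 1) ^ s ∧ Reg t} : ℝ) ∧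
        ν * (n : ℝ) ^ (s - 1) / Real.log n ^ (Fintype.card ι) ≤
          (Set.ncard {p : ℕ | n ^ s < p ∧ p + D < (n + 1) ^ s ∧ Q n p} : ℝ)} : ℝ) := by
  obtain ⟨k, hk⟩ : ∃ k, k = Fintype.card ι := ⟨_, rfl⟩
  obtain ⟨c₁, c₂, K, μ, hc₁, hc₂, hK, hμ, hreg⟩ := winP f hg P hmono hrgh κ cS hκ hcS hcount
  refine ⟨c₁, c₂, K, hc₁, hc₂, by linarith, ?_⟩
  intro Reg hReg
  obtain ⟨t₀, hReg⟩ := eventually_atTop.1 hReg
  have hreg' : ∀ᶠ X : ℕ in atTop, μ * X ≤ (((Ioc X (2 * X)).filter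
      (fun t => Reg t ∧ RegP f P κ c₁ c₂ K t)).card : ℝ) := by
    filter_upwards [hreg, eventually_ge_atTop t₀] with X hX hXt
    refine hX.trans ?_
    rw [Nat.cast_le]
    apply card_le_card
    intro t ht
    rw [mem_filter] at ht ⊢
    have h1 := (mem_Ioc.1 ht.1).1
    exact ⟨ht.1, hReg t (by omega) ht.2, ht.2⟩
  refine ⟨?_, ?_⟩
  · refine ⟨μ / 4, by positivity, ?_⟩
    have hhalf : Tendsto (fun x : ℕ => x / 2) atTop atTop := Nat.tendsto_div_const_atTop (by norm_num)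
    filter_upwards [hhalf.eventually hreg', eventually_ge_atTop 4] with x hx hx4
    have h1 : (((Ioc (x / 2) (2 * (x / 2))).filter (fun t => Reg t ∧ RegP f P κ c₁ c₂ K t)).card : ℝ) ≤
        (Set.ncard {t : ℕ | t ≤ x ∧ Reg t} : ℝ) := by
      rw [← Set.ncard_coe_finset, Nat.cast_le]
      refine Set.ncard_le_ncard ?_ ((Set.finite_Iic x).subset fun t ht => ht.1)
      intro t ht
      rw [mem_coe, mem_filter, mem_Ioc] at ht
      exact ⟨by omega, ht.2.1⟩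
    refine le_trans ?_ (hx.trans h1)
    have h3 : (x : ℝ) ≤ 4 * ((x / 2 : ℕ) : ℝ) := by
      have : x ≤ 4 * (x / 2) := by omega
      exact_mod_cast this
    calc μ / 4 * x ≤ μ / 4 * (4 * ((x / 2 : ℕ) : ℝ)) := by gcongr
      _ = _ := by ring
  · intro s hs Q hQ
    obtain ⟨p₀, hQ⟩ := eventually_atTop.1 hQ
    obtain ⟨ν, hν, hpow⟩ := powers s hs μ hμ
    obtain ⟨ν', hν', hwin⟩ := pow_window s hs (Fintype.card ι) K c₁ (D + 1) (by linarith) hc₁ (by positivity)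
    refine ⟨min ν ν', lt_min hν hν', ?_⟩
    have hNs : Tendsto (fun N : ℕ => N ^ s) atTop atTop := tendsto_pow_atTop (by omega)
    obtain ⟨m₀, hwin⟩ := eventually_atTop.1 hwin
    filter_upwards [hpow, hNs.eventually hreg', eventually_ge_atTop (m₀ + p₀ + 2)] with N h1 h2 hN
    have h3 := h1 ((Ioc (N ^ s) (2 * N ^ s)).filter (fun t => Reg t ∧ RegP f P κ c₁ c₂ K t)) (by
        intro t ht
        rw [mem_filter, mem_Ioc] at ht
        rw [mem_Ioc]
        exact ⟨ht.1.1, by omega⟩) (by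
        refine le_trans ?_ h2
        push_cast
        exact le_rfl)
    have hN0 : (0 : ℝ) < N := by exact_mod_cast (by omega : 0 < N)
    refine (mul_le_mul_of_nonneg_right (min_le_left ν ν') hN0.le).trans (h3.trans ?_)
    rw [← Set.ncard_coe_finset, Nat.cast_le]
    refine Set.ncard_le_ncard ?_ ((Set.finite_Iio (2 * N)).subset fun n hn => hn.2.1)
    intro m hm
    rw [mem_coe, mem_filter, mem_Ico] at hm
    obtain ⟨⟨hm1, hm2⟩, hm3⟩ := hm
    have hm0 : (0 : ℝ) < m := by exact_mod_cast (by omega : 0 < m)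
    have hms : m ≤ m ^ s := Nat.le_self_pow (by omega) m
    have hsub : ((((Ioc (N ^ s) (2 * N ^ s)).filter (fun t => Reg t ∧ RegP f P κ c₁ c₂ K t)).filter
        (fun t : ℕ => m ^ s < t ∧ t < (m + 1) ^ s)).card : ℝ) ≤
        (Set.ncard {t : ℕ | m ^ s < t ∧ t < (m + 1) ^ s ∧ Reg t} : ℝ) := by
      rw [← Set.ncard_coe_finset, Nat.cast_le]
      refine Set.ncard_le_ncard ?_ ((Set.finite_Iio ((m + 1) ^ s)).subset fun t ht => ht.2.1)
      intro t ht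
      rw [mem_coe, mem_filter, mem_filter] at ht
      exact ⟨ht.2.1, ht.2.2, ht.1.2.1⟩
    refine ⟨hm1, hm2, (mul_le_mul_of_nonneg_right (min_le_left ν ν') (by positivity)).trans (hm3.trans hsub), ?_⟩
    -- one regular point
    have hpos : 0 < (((Ioc (N ^ s) (2 * N ^ s)).filter (fun t => Reg t ∧ RegP f P κ c₁ c₂ K t)).filter
        (fun t : ℕ => m ^ s < t ∧ t < (m + 1) ^ s)).card := by
      have : (0 : ℝ) < ν * (m : ℝ) ^ (s - 1) := by positivity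
      exact_mod_cast lt_of_lt_of_le this hm3
    obtain ⟨t, ht⟩ := card_pos.1 hpos
    rw [mem_filter, mem_filter] at ht
    obtain ⟨⟨-, -, htr⟩, ht1, ht2⟩ := ht
    obtain ⟨w1, w2, w3⟩ := hwin m (by omega) t ht1 ht2
    have htv : t ≤ (m + 1) ^ s - 1 := by omega
    have w4 := (htr (m ^ s) ((m + 1) ^ s - 1) ht1.le htv w1 w2).1
    have w5 : ((Ioc (m ^ s) ((m + 1) ^ s - 1)).filter
        (fun p => P ((t : ℝ) ^ κ) p)).card ≤
        Set.ncard {p : ℕ | m ^ s < p ∧ p + D < (m + 1) ^ s ∧ Q m p} + (D + 1) := by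
      rw [← Set.ncard_coe_finset]
      have e1 : (((Ioc (m ^ s) ((m + 1) ^ s - 1)).filter
          (fun p => P ((t : ℝ) ^ κ) p) : Finset ℕ) : Set ℕ) ⊆
          {p : ℕ | m ^ s < p ∧ p + D < (m + 1) ^ s ∧ Q m p} ∪
            (((Finset.range (D + 1)).image (fun i => (m + 1) ^ s - 1 - i) : Finset ℕ) : Set ℕ) := by
        intro p hp
        rw [mem_coe, mem_filter, mem_Ioc] at hp
        obtain ⟨⟨a1, a2⟩, a3⟩ := hp
        by_cases hlt : p + D < (m + 1) ^ s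
        · left
          exact ⟨a1, hlt, hQ m (by omega) t p ht1 a1 a3⟩
        · right
          rw [mem_coe, mem_image]
          exact ⟨(m + 1) ^ s - 1 - p, by rw [Finset.mem_range]; omega, by omega⟩
      have hfin : ({p : ℕ | m ^ s < p ∧ p + D < (m + 1) ^ s ∧ Q m p}).Finite :=
        (Set.finite_Iio ((m + 1) ^ s)).subset fun p hp => by
          have := hp.2.1
          show p < (m + 1) ^ s
          omega
      refine (Set.ncard_le_ncard e1 (hfin.union (Finset.finite_toSet _))).trans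
        ((Set.ncard_union_le _ _).trans (Nat.add_le_add_left ?_ _))
      rw [Set.ncard_coe_finset]
      exact card_image_le.trans (by rw [card_range])
    have w6 : (((Ioc (m ^ s) ((m + 1) ^ s - 1)).filter
        (fun p => P ((t : ℝ) ^ κ) p)).card : ℝ) ≤
        (Set.ncard {p : ℕ | m ^ s < p ∧ p + D < (m + 1) ^ s ∧ Q m p} : ℝ) + (D + 1) := by exact_mod_cast w5
    have hlm : 0 ≤ Real.log (m : ℝ) := Real.log_natCast_nonneg m
    calc min ν ν' * (m : ℝ) ^ (s - 1) / Real.log m ^ (Fintype.card ι) ≤ ν' * (m : ℝ) ^ (s - 1) / Real.log m ^ (Fintype.card ι) := by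
          gcongr
          exact min_le_right _ _
      _ ≤ _ := by linarith

open Classical in
theorem diffP {ι : Type} [Fintype ι] [Nonempty ι] (f : ι → ℤ[X]) (hg : Sys f) (P : ℝ → ℕ → Prop)
    (hmono : ∀ z z' : ℝ, ∀ m : ℕ, z' ≤ z → P z m → P z' m) (hrgh : ∀ z : ℝ, ∀ m : ℕ, P z m → Rgh f z m)
    (κ cS : ℝ) (hκ : 0 < κ) (hcS : 0 < cS)
    (hcount : ∀ᶠ X : ℕ in atTop, cS * X / Real.log X ^ (Fintype.card ι) ≤
      (((Ioc X (2 * X)).filter (fun m => P (((2 * X : ℕ) : ℝ) ^ κ) m)).card : ℝ)) :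
    ∃ c C K : ℝ, 0 < c ∧ 0 < C ∧ 0 < K ∧ ∀ᶠ X : ℕ in atTop,
      ∀ H : ℕ, K * Real.log X ^ (Fintype.card ι) ≤ H → H ≤ X →
      c * H ≤ (((Icc 1 H).filter (fun d : ℕ =>
        c * X / Real.log X ^ (2 * Fintype.card ι) ≤ (((Ioc X (2 * X)).filter (fun m => m + d ≤ 2 * X ∧
          P ((X : ℝ) ^ κ) m ∧ P ((X : ℝ) ^ κ) (m + d))).card : ℝ) ∧
        (((Ioc X (2 * X)).filter (fun m => m + d ≤ 2 * X ∧
          Rgh f ((X : ℝ) ^ κ) m ∧ Rgh f ((X : ℝ) ^ κ) (m + d))).card : ℝ) ≤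
            C * X / Real.log X ^ (2 * Fintype.card ι))).card : ℝ) := by
  obtain ⟨c, C, K, hc, hC, hK, hd⟩ := diffs f hg κ cS hκ hcS
  refine ⟨c, C, K, hc, hC, hK, ?_⟩
  filter_upwards [hd, hcount, eventually_ge_atTop 16] with X hd hcount hX16
  intro H hH1 hH2
  have hXr : (16 : ℝ) ≤ X := by exact_mod_cast hX16
  have hX0 : (0 : ℝ) < X := by linarith
  have hlev : (X : ℝ) ^ κ ≤ ((2 * X : ℕ) : ℝ) ^ κ :=
    Real.rpow_le_rpow hX0.le (by push_cast; linarith) hκ.le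
  obtain ⟨A, hA⟩ : ∃ A : Finset ℕ, A = (Ioc X (2 * X)).filter (fun m => P (((2 * X : ℕ) : ℝ) ^ κ) m) :=
    ⟨_, rfl⟩
  obtain ⟨A', hA'⟩ : ∃ A' : Finset ℕ, A' = (Ioc X (2 * X)).filter (fun m => Rgh f ((X : ℝ) ^ κ) m) := ⟨_, rfl⟩
  rw [← hA] at hcount
  have hch : ∀ m ∈ A, P ((X : ℝ) ^ κ) m := by
    intro m hm
    rw [hA, mem_filter] at hm
    exact hmono _ _ m hlev hm.2
  have hAA : A ⊆ A' := by
    intro m hm
    have h1 := hrgh _ m (hch m hm)
    rw [hA']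
    rw [hA, mem_filter] at hm
    rw [mem_filter]
    exact ⟨hm.1, h1⟩
  have hfin := hd A A' hAA (by rw [hA']; exact filter_subset _ _) (by
    intro m hm
    rw [hA', mem_filter] at hm
    exact hm.2) hcount H hH1 hH2
  refine hfin.trans ?_
  rw [Nat.cast_le]
  apply card_le_card
  intro d hdd
  rw [mem_filter] at hdd ⊢
  refine ⟨hdd.1, hdd.2.1.trans ?_, le_trans ?_ hdd.2.2⟩
  · rw [Nat.cast_le]
    unfold rr
    apply card_le_card
    intro p hp
    rw [mem_filter] at hp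
    rw [mem_filter]
    have h1 := hp.1
    have h2 := hp.2
    rw [hA, mem_filter] at h1 h2
    exact ⟨h1.1, (mem_Ioc.1 h2.1).2, hch p hp.1, hch _ hp.2⟩
  · rw [Nat.cast_le]
    unfold rr
    apply card_le_card
    intro p hp
    rw [mem_filter] at hp
    rw [mem_filter, hA', mem_filter, mem_filter]
    have h1 := mem_Ioc.1 hp.1
    exact ⟨⟨hp.1, hp.2.2.1⟩, mem_Ioc.2 ⟨by omega, hp.2.1⟩, hp.2.2.2⟩

end Pool.Agent.N39.RW
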