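import Pool.Agent.N39.RW.SysT

set_option autoImplicit false

/-!
# Regular windows for dense subsets of sieved sets: general sieve conditions, and the shifted primes (helper39)
-/

namespace Pool.Agent.N39.RW

open Finset Filter Polynomial Pool.Agent.H373R2.T7 Pool.Agent.W123.RP Pool.Agent.W123.RU
open Pool.Agent.W123.RU.Poly
open Pool.Agent.W182.PW (lin lin_eval)

open Classical in
/-- regular windows for dense subsets: general sieve conditions -/
theorem coreQ (Q : ℕ → ℕ → Prop) (c k : ℕ) (hc : 1 ≤ c) (hk1 : 1 ≤ k) (hQ : PerB Q c)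
    (hadm : ∀ p : ℕ, p.Prime → nuB Q p < p) (D' e : ℕ)
    (hlarge : ∀ T : ℕ, ∃ E0 : Finset ℕ, E0.card ≤ e ∧ ∀ y : ℕ, ∀ h ∈ Icc 1 T, h ∉ E0 →
      ((pz y).filter (fun p : ℕ => T < p ∧ CoG Q p h)).card ≤ D' * T)
    (Cv : ℝ) (hCv : 0 < Cv) (hV : ∀ y : ℕ, 3 ≤ y → Vq Q y ≤ Cv / Real.log y ^ k)
    (κ cS : ℝ) (hκ : 0 < κ) (hcS : 0 < cS) :
    ∃ c₁ c₂ K μ : ℝ, 0 < c₁ ∧ 0 < c₂ ∧ 1 ≤ K ∧ 0 < μ ∧ ∀ᶠ X : ℕ in atTop, ∀ P P' : ℕ → Prop,
      (∀ m, P m → P' m) →
      (∀ m, P' m → m ≤ 4 * X → ∀ p : ℕ, p.Prime → (p : ℝ) ≤ (X : ℝ) ^ κ → p < m → ¬ Q p m) →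
      cS * X / Real.log X ^ k ≤ (co P X (2 * X) : ℝ) →
      μ * X ≤ (((Finset.Ioc X (2 * X)).filter (fun n => ∀ a b : ℕ, a ≤ n → n ≤ b →
        K * Real.log X ^ k ≤ (b : ℝ) - a → (b : ℝ) - a ≤ n →
          c₁ * ((b : ℝ) - a) / Real.log X ^ k ≤ co P a b ∧
            (co P' a b : ℝ) ≤ c₂ * ((b : ℝ) - a) / Real.log X ^ k)).card : ℝ) := by
  obtain ⟨K1, hK1, hmain⟩ := sieve_regular c (2 * c) (c ^ 2) D' e hc
  obtain ⟨R, hR⟩ : ∃ R : ℕ, R = max K1 ⌈1 / κ⌉₊ := ⟨_, rfl⟩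
  have hR1 : K1 ≤ R := by rw [hR]; exact le_max_left _ _
  have hR0 : 2 ≤ R := hK1.trans hR1
  have hRr : (2 : ℝ) ≤ R := by exact_mod_cast hR0
  have hRpos : (0 : ℝ) < R := by linarith
  have hRκ : 1 / (R : ℝ) ≤ κ := by
    have h1 : 1 / κ ≤ (⌈1 / κ⌉₊ : ℝ) := Nat.le_ceil _
    have h2 : ((⌈1 / κ⌉₊ : ℕ) : ℝ) ≤ R := by
      rw [hR]; exact_mod_cast le_max_right _ _
    rw [div_le_iff₀ hRpos]
    have h3 : 1 / κ ≤ R := h1.trans h2
    rw [div_le_iff₀ hκ] at h3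
    linarith
  set C3 : ℝ := Cv * (2 * R) ^ k with hC3
  have hC30 : 0 < C3 := by positivity
  obtain ⟨c₁, c₂, K, μ, L0, hc₁, hc₂, hK, hμ, hreg⟩ := hmain R hR1 cS C3 hcS hC30
  refine ⟨c₁, c₂, K, μ, hc₁, hc₂, hK, hμ, ?_⟩
  have hXr : Tendsto (fun X : ℕ => (X : ℝ)) atTop atTop := tendsto_natCast_atTop_atTop
  have hpow : Tendsto (fun X : ℕ => (X : ℝ) ^ (1 / (2 * R : ℝ))) atTop atTop :=
    (tendsto_rpow_atTop (by positivity)).comp hXr
  have hlogX : Tendsto (fun X : ℕ => Real.log (X : ℝ)) atTop atTop :=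
    Real.tendsto_log_atTop.comp hXr
  filter_upwards [hreg, eventually_ge_atTop 16, hpow.eventually_ge_atTop 3,
    hlogX.eventually_ge_atTop (2 + |L0|), logpow_le (8 * k) 1 (by norm_num)] with X hreg hX16 hX2 hXlog hlp
  intro P P' hPP hP' hcnt
  have hX16r : (16 : ℝ) ≤ X := by exact_mod_cast hX16
  have hXpos : (0 : ℝ) < X := by linarith
  have hX1 : (1 : ℝ) ≤ X := by linarith
  have hL0a : 0 ≤ |L0| := abs_nonneg _
  have hlX1 : 1 ≤ Real.log X := by linarith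
  set L : ℝ := Real.log X ^ k with hL
  have hlL : Real.log X ≤ L := by
    calc Real.log X = Real.log X ^ 1 := (pow_one _).symm
      _ ≤ Real.log X ^ k := pow_le_pow_right₀ hlX1 hk1
  have hL8 : L ^ 8 ≤ X := by
    rw [hL, ← pow_mul, mul_comm k 8]
    linarith
  obtain ⟨hy1, hy2, hy3, hy4⟩ := level_low R hR0 X (by omega) (by linarith)
  have hy5 : 3 ≤ ⌊(X : ℝ) ^ (1 / (R : ℝ))⌋₊ := by
    have : (3 : ℝ) ≤ ⌊(X : ℝ) ^ (1 / (R : ℝ))⌋₊ := hX2.trans hy1
    exact_mod_cast this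
  have hlX : 0 < Real.log X := by linarith
  have hVy : Vq Q ⌊(X : ℝ) ^ (1 / (R : ℝ))⌋₊ ≤ C3 / L := by
    refine (hV _ hy5).trans ?_
    have h1 : (Real.log X / (2 * R)) ^ k ≤ Real.log ⌊(X : ℝ) ^ (1 / (R : ℝ))⌋₊ ^ k :=
      pow_le_pow_left₀ (by positivity) hy2 k
    calc Cv / Real.log ⌊(X : ℝ) ^ (1 / (R : ℝ))⌋₊ ^ k ≤ Cv / (Real.log X / (2 * R)) ^ k := by gcongr
      _ = C3 / L := by rw [hC3, hL, div_pow]; field_simp
  obtain ⟨E0, hE0, hlarge'⟩ := hlarge ⌊L⌋₊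
  refine hreg Q (CoG Q) L E0
    ⟨hQ, hadm, le_rfl, fun _ _ _ _ m h1 h2 => ⟨m, h1, h2⟩, coll_gen Q c hQ (2 * c)⟩ (by
    have := le_abs_self L0
    linarith) hL8 hVy hE0 (hlarge' _) P P' hPP ?_ hcnt
  intro m hm hm4 hmy p hp hq
  refine hP' m hm hm4 p (mem_pz.1 hp).2 ?_ (lt_of_le_of_lt (mem_pz.1 hp).1 hmy) hq
  refine (mem_pz' (by positivity) hp).trans ?_
  exact Real.rpow_le_rpow_of_exponent_le hX1 hRκ

/-- `m` or `m - 1` is divisible by `p`, the latter only for odd `p` -/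
def QA (p m : ℕ) : Prop := m % p = 0 ∨ (2 < p ∧ m % p = 1)

open Classical in
theorem QA_nu (p : ℕ) : nuB QA p ≤ 2 := by
  unfold nuB
  calc ((range p).filter (fun r => QA p r)).card ≤ ({0, 1} : Finset ℕ).card := by
        apply card_le_card
        intro r hr
        rw [mem_filter, mem_range] at hr
        obtain ⟨h1, h2⟩ := hr
        rw [mem_insert, mem_singleton]
        unfold QA at h2
        rw [Nat.mod_eq_of_lt h1] at h2
        rcases h2 with h | h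
        · exact Or.inl h
        · exact Or.inr h.2
    _ ≤ 2 := card_le_two

theorem QA_nu2 : nuB QA 2 = 1 := by
  classical
  have h : (range 2).filter (fun r => QA 2 r) = {0} := by
    ext r
    rw [mem_filter, mem_range, mem_singleton]
    unfold QA
    omega
  unfold nuB
  rw [← card_singleton (0 : ℕ), ← h]

theorem QA_nu3 (p : ℕ) (hp : 3 ≤ p) : nuB QA p = 2 := by
  classical
  have h : (range p).filter (fun r => QA p r) = {0, 1} := by
    ext r
    rw [mem_filter, mem_range, mem_insert, mem_singleton]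
    unfold QA
    constructor
    · rintro ⟨h1, h2⟩
      rw [Nat.mod_eq_of_lt h1] at h2
      omega
    · rintro (h | h)
      · subst h
        exact ⟨by omega, Or.inl (Nat.zero_mod _)⟩
      · subst h
        exact ⟨by omega, Or.inr ⟨by omega, Nat.mod_eq_of_lt (by omega)⟩⟩
  have h2 : ({0, 1} : Finset ℕ).card = 2 := by simp
  unfold nuB
  rw [← h2, ← h]

theorem QA_per : PerB QA 2 where
  per := fun p n => by
    unfold QA
    rw [Nat.mod_mod]
  few := fun p _ => QA_nu p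

theorem QA_adm (p : ℕ) (hp : p.Prime) : nuB QA p < p := by
  rcases Nat.lt_or_ge p 3 with h | h
  · have h2 := hp.two_le
    have : p = 2 := by omega
    subst this
    rw [QA_nu2]
    omega
  · rw [QA_nu3 p h]
    omega

open Classical in
theorem QA_large (T : ℕ) : ∃ E0 : Finset ℕ, E0.card ≤ 1 ∧ ∀ y : ℕ, ∀ h ∈ Icc 1 T, h ∉ E0 →
      ((pz y).filter (fun p : ℕ => T < p ∧ CoG QA p h)).card ≤ 1 * T := by
  refine ⟨{1}, by simp, ?_⟩
  intro y h hh hE
  rw [mem_singleton] at hE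
  rw [mem_Icc] at hh
  have hsub : (pz y).filter (fun p : ℕ => T < p ∧ CoG QA p h) ⊆ {T + 1} := by
    intro p hp
    rw [mem_filter] at hp
    obtain ⟨hp1, hTp, m, hm1, hm2⟩ := hp
    rw [mem_singleton]
    have hhp : h % p = h := Nat.mod_eq_of_lt (by omega)
    have hp2 : 2 ≤ p := (mem_pz.1 hp1).2.two_le
    have hadd : (m + h) % p = (m % p + h) % p := by rw [Nat.add_mod, hhp]
    unfold QA at hm1 hm2
    rw [hadd] at hm2
    have hmm : m % p = 0 ∨ m % p = 1 := by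
      rcases hm1 with h1 | h1
      · exact Or.inl h1
      · exact Or.inr h1.2
    have hmm2 : (m % p + h) % p = 0 ∨ (m % p + h) % p = 1 := by
      rcases hm2 with h1 | h1
      · exact Or.inl h1
      · exact Or.inr h1.2
    rcases Nat.lt_or_ge (m % p + h) p with hlt | hge
    · rw [Nat.mod_eq_of_lt hlt] at hmm2
      omega
    · rcases hmm with h1 | h1
      · omega
      · omega
  calc ((pz y).filter (fun p : ℕ => T < p ∧ CoG QA p h)).card ≤ ({T + 1} : Finset ℕ).card := card_le_card hsub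
    _ = 1 := card_singleton _
    _ ≤ 1 * T := by omega

/-- the sieve product -/
theorem QA_V : ∃ Cv : ℝ, 0 < Cv ∧ ∀ y : ℕ, 3 ≤ y → Vq QA y ≤ Cv / Real.log y ^ 2 := by
  classical
  have hadm : ∀ p : ℕ, p.Prime → ∃ m : ℕ, ∀ t ∈ ({0} : Finset ℕ), ¬ p ∣ m + t := by
    intro p hp
    refine ⟨1, fun t ht => ?_⟩
    rw [mem_singleton] at ht
    subst ht
    intro h
    exact hp.one_lt.ne' (Nat.dvd_one.1 h)
  obtain ⟨v, Cv, hv, hCv, hV⟩ := V_bounds _ (sysT {0} hadm)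
  refine ⟨2 * Cv ^ 2, by positivity, fun y hy => ?_⟩
  have h1 := (hV y hy).2
  rw [Fintype.card_coe, card_singleton, pow_one] at h1
  set f := (fun i : {x // x ∈ ({0} : Finset ℕ)} => lin 1 ((i.1 : ℕ) : ℤ)) with hf
  have hnu : ∀ p : ℕ, 2 ≤ p → nuB (Q f) p = 1 := by
    intro p hp
    have h2 : (range p).filter (fun r => Q f p r) = {0} := by
      ext r
      rw [mem_filter, mem_range, mem_singleton]
      have hq : Q f p r ↔ p ∣ r := by
        unfold Q
        constructor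
        · rintro ⟨i, hi⟩
          rw [hf] at hi
          simp only at hi
          rw [lin_eval] at hi
          have h0 : (i.1 : ℕ) = 0 := mem_singleton.1 i.2
          rw [h0] at hi
          have e : (((1 : ℕ) : ℤ) * (r : ℤ) + ((0 : ℕ) : ℤ)) = ((r : ℕ) : ℤ) := by push_cast; ring
          rw [e] at hi
          exact_mod_cast hi
        · intro hd
          refine ⟨⟨0, mem_singleton_self 0⟩, ?_⟩
          rw [hf]
          simp only
          rw [lin_eval]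
          have e : (((1 : ℕ) : ℤ) * (r : ℤ) + ((0 : ℕ) : ℤ)) = ((r : ℕ) : ℤ) := by push_cast; ring
          rw [e]
          exact_mod_cast hd
      rw [hq]
      constructor
      · rintro ⟨h3, h4⟩
        exact Nat.eq_zero_of_dvd_of_lt h4 h3
      · rintro rfl
        exact ⟨by omega, dvd_zero _⟩
    have h3 := congrArg Finset.card h2
    rw [card_singleton] at h3
    exact h3
  have hV0 : 0 ≤ Vq (Q f) y := by
    unfold Vq
    apply Finset.prod_nonneg
    intro p hp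
    have hp2 := (mem_pz.1 hp).2.two_le
    rw [hnu p hp2]
    have : (2 : ℝ) ≤ p := by exact_mod_cast hp2
    rw [sub_nonneg, Nat.cast_one, div_le_one (by linarith)]
    linarith
  have h2mem : 2 ∈ pz y := mem_pz.2 ⟨by omega, Nat.prime_two⟩
  have hmain : Vq QA y ≤ 2 * Vq (Q f) y ^ 2 := by
    unfold Vq
    rw [← Finset.mul_prod_erase (pz y) _ h2mem, ← Finset.mul_prod_erase (pz y) (fun p => 1 - (nuB (Q f) p : ℝ) / p) h2mem,
      QA_nu2, hnu 2 le_rfl, mul_pow, ← Finset.prod_pow]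
    have h3 : ∏ x ∈ (pz y).erase 2, (1 - (nuB QA x : ℝ) / x) ≤ ∏ x ∈ (pz y).erase 2, (1 - (nuB (Q f) x : ℝ) / x) ^ 2 := by
      apply Finset.prod_le_prod
      · intro p hp
        rw [mem_erase] at hp
        have hpp := (mem_pz.1 hp.2).2
        have hp3 : 3 ≤ p := by
          have := hpp.two_le
          omega
        rw [QA_nu3 p hp3]
        have : (3 : ℝ) ≤ p := by exact_mod_cast hp3
        rw [sub_nonneg, div_le_one (by linarith)]
        push_cast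
        linarith
      · intro p hp
        rw [mem_erase] at hp
        have hpp := (mem_pz.1 hp.2).2
        have hp3 : 3 ≤ p := by
          have := hpp.two_le
          omega
        rw [QA_nu3 p hp3, hnu p (by omega)]
        have h4 : (3 : ℝ) ≤ p := by exact_mod_cast hp3
        have h5 : (0 : ℝ) < p := by linarith
        have h6 : 0 ≤ (1 / (p : ℝ)) ^ 2 := by positivity
        push_cast
        have h7 : (1 - 1 / (p : ℝ)) ^ 2 = 1 - 2 / p + (1 / (p : ℝ)) ^ 2 := by ring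
        rw [h7]
        linarith
    have h30 : 0 ≤ ∏ x ∈ (pz y).erase 2, (1 - (nuB (Q f) x : ℝ) / x) ^ 2 :=
      Finset.prod_nonneg fun p _ => sq_nonneg _
    push_cast
    nlinarith
  have hl : 0 < Real.log y := Real.log_pos (by exact_mod_cast (by omega : 1 < y))
  calc Vq QA y ≤ 2 * Vq (Q f) y ^ 2 := hmain
    _ ≤ 2 * (Cv / Real.log y) ^ 2 := by
        have := pow_le_pow_left₀ hV0 h1 2
        linarith
    _ = 2 * Cv ^ 2 / Real.log y ^ 2 := by rw [div_pow]; ring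

open Classical in
/-- regular windows for dense subsets of the integers `m` for which `m` and the odd part of `m - 1` have no
small prime factor -/
theorem coreA (κ cS : ℝ) (hκ : 0 < κ) (hcS : 0 < cS) :
    ∃ c₁ c₂ K μ : ℝ, 0 < c₁ ∧ 0 < c₂ ∧ 1 ≤ K ∧ 0 < μ ∧ ∀ᶠ X : ℕ in atTop, ∀ P P' : ℕ → Prop,
      (∀ m, P m → P' m) →
      (∀ m, P' m → m ≤ 4 * X → ∀ p : ℕ, p.Prime → (p : ℝ) ≤ (X : ℝ) ^ κ → p < m →
        ¬ p ∣ m ∧ (2 < p → ¬ p ∣ m - 1)) →
      cS * X / Real.log X ^ 2 ≤ (co P X (2 * X) : ℝ) →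
      μ * X ≤ (((Finset.Ioc X (2 * X)).filter (fun n => ∀ a b : ℕ, a ≤ n → n ≤ b →
        K * Real.log X ^ 2 ≤ (b : ℝ) - a → (b : ℝ) - a ≤ n →
          c₁ * ((b : ℝ) - a) / Real.log X ^ 2 ≤ co P a b ∧
            (co P' a b : ℝ) ≤ c₂ * ((b : ℝ) - a) / Real.log X ^ 2)).card : ℝ) := by
  obtain ⟨Cv, hCv, hV⟩ := QA_V
  obtain ⟨c₁, c₂, K, μ, hc₁, hc₂, hK, hμ, hcore⟩ := coreQ QA 2 2 (by norm_num) (by norm_num) QA_per
    QA_adm 1 1 QA_large Cv hCv hV κ cS hκ hcS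
  refine ⟨c₁, c₂, K, μ, hc₁, hc₂, hK, hμ, ?_⟩
  filter_upwards [hcore] with X hX P P' hPP hP' hlow
  refine hX P P' hPP (fun m hm hm4 p hp hpX hpm hq => ?_) hlow
  obtain ⟨h1, h2⟩ := hP' m hm hm4 p hp hpX hpm
  rcases hq with h | ⟨h3, h4⟩
  · exact h1 (Nat.dvd_of_mod_eq_zero h)
  · apply h2 h3
    rw [← h4]
    exact Nat.dvd_sub_mod m

end Pool.Agent.N39.RW
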