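import Pool.Agent.Y855.B16
import Pool.Agent.N39.RW.CoreQ

set_option autoImplicit false

/-!
# Primes with few bad elements in short windows (helper39)
-/

namespace Pool.Agent.N39.RW

open Finset Filter Pool.Agent.Y855
open Pool.Agent.W123.RP (co)

open Classical in
theorem WIN_gen : ∃ K : ℕ, 2 ≤ K ∧ ∀ (ι : Type) (I : Finset ι)
    (bd : ι → ℕ → Prop) (M : ℕ), 2 * M < I.card → ∀ (C₁ : ℝ) (H W : ℕ), 1 ≤ W → 2 ∣ W →
    (∀ t : ℕ, 1 ≤ t → ∃ B : Finset ℕ,
      (B.card : ℝ) ≤ C₁ * Real.exp ((1 - (1 / (K : ℝ)) ^ 2) * Real.log ((2 : ℝ) ^ (K * t))) ∧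
      ∀ p ∈ TT (2 ^ (K * t)) (2 ^ t), p ∉ B → H < p → (I.filter (fun i => bd i p)).card ≤ M) →
    ∀ (Good : ℕ → Prop) (c : ℕ), c.Coprime W →
      (∀ q : ℕ, q.Prime → q ∣ W → 3 ≤ q → c % q ≠ 1) →
      (∀ p : ℕ, p ≡ c [MOD W] → Good p) →
    ∃ i ∈ I, ∃ c₁ Kw μ : ℝ, 0 < c₁ ∧ 1 ≤ Kw ∧ 0 < μ ∧ ∀ A : ℕ, ∃ X : ℕ, A ≤ X ∧
      μ * X ≤ (((Finset.Ioc X (2 * X)).filter (fun n => ∀ a b : ℕ, a ≤ n → n ≤ b →
        Kw * Real.log X ^ 2 ≤ (b : ℝ) - a → (b : ℝ) - a ≤ n →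
          c₁ * ((b : ℝ) - a) / Real.log X ^ 2 ≤
            co (fun p => p.Prime ∧ H < p ∧ Good p ∧ ¬ bd i p ∧
              ∀ q : ℕ, q.Prime → q ∣ p - 1 → q ≠ 2 → p < q ^ K) a b)).card : ℝ) := by
  obtain ⟨Kr, hKr1, hcore⟩ := Pool.Agent.Y855.core (1 / 2) (by norm_num)
  obtain ⟨K, hK⟩ : ∃ K : ℕ, K = max ⌈Kr⌉₊ 2 := ⟨_, rfl⟩
  have hK2 : 2 ≤ K := hK ▸ le_max_right _ _
  have hKrK : Kr ≤ K := by
    have h1 : Kr ≤ (⌈Kr⌉₊ : ℝ) := Nat.le_ceil _
    have h2 : ((⌈Kr⌉₊ : ℕ) : ℝ) ≤ K := by exact_mod_cast hK ▸ le_max_left _ _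
    linarith
  have hK0 : (0 : ℝ) < K := by exact_mod_cast (show 0 < K by omega)
  have hK2r : (2 : ℝ) ≤ K := by exact_mod_cast hK2
  obtain ⟨κ₀, hκ₀⟩ : ∃ κ₀ : ℝ, κ₀ = 1 / (16 * K) := ⟨_, rfl⟩
  have hκ₀0 : 0 < κ₀ := by rw [hκ₀]; positivity
  refine ⟨K, hK2, ?_⟩
  intro ι I bd M hIM C₁ H W hW1 h2W hgm Good c hcW hc1 hcG
  have hW0 : (0 : ℝ) < W := by exact_mod_cast hW1
  have hW1r : (1 : ℝ) ≤ W := by exact_mod_cast hW1
  obtain ⟨B', hB'⟩ : ∃ B', B' = 1 := ⟨_, rfl⟩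
  obtain ⟨x₀, hx₀3, hcore⟩ := hcore B'
  obtain ⟨m₀, hscale⟩ := scale_pick κ₀ hκ₀0 B'
  obtain ⟨c₁, c₂, Kw, μ, hc₁, hc₂, hKw, hμ, hreg⟩ := coreA (1 / (K : ℝ)) (κ₀ / 16 / W) (by positivity)
    (by positivity)
  obtain ⟨X₁, hreg⟩ := eventually_atTop.1 hreg
  -- one scale
  have hone : ∀ A : ℕ, ∃ i ∈ I, ∃ X : ℕ, A ≤ X ∧
      μ * X ≤ (((Finset.Ioc X (2 * X)).filter (fun n => ∀ a b : ℕ, a ≤ n → n ≤ b →
        Kw * Real.log X ^ 2 ≤ (b : ℝ) - a → (b : ℝ) - a ≤ n →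
          c₁ * ((b : ℝ) - a) / Real.log X ^ 2 ≤
            co (fun p => p.Prime ∧ H < p ∧ Good p ∧ ¬ bd i p ∧
              ∀ q : ℕ, q.Prime → q ∣ p - 1 → q ≠ 2 → p < q ^ K) a b)).card : ℝ) := by
    intro A
    obtain ⟨R, hR⟩ : ∃ R : ℝ, R = 2 * X₁ + 2 * A + W + 4 := ⟨_, rfl⟩
    obtain ⟨L₂, hev⟩ := ev_fin K B' H C₁ R (by omega)
    obtain ⟨t, ht⟩ : ∃ t : ℕ, t = m₀ + x₀ + 2 * K + ⌈|L₂|⌉₊ + 2 := ⟨_, rfl⟩
    obtain ⟨L, hL⟩ : ∃ L : ℝ, L = Real.log ((2 : ℝ) ^ (K * t)) := ⟨_, rfl⟩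
    have hlog2 : 0.6931471803 < Real.log 2 := Real.log_two_gt_d9
    have hLt : L = K * (t * Real.log 2) := by rw [hL, Real.log_pow]; push_cast; ring
    have ht0 : (0 : ℝ) < t := by
      have : 0 < t := by omega
      exact_mod_cast this
    have htK : 2 * (K : ℝ) ≤ t := by
      have : 2 * K ≤ t := by omega
      exact_mod_cast this
    have htl : (t : ℝ) / 2 ≤ t * Real.log 2 := by nlinarith
    have hLt2 : (t : ℝ) ≤ L := by
      rw [hLt]
      calc (t : ℝ) = 2 * (t / 2) := by ring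
        _ ≤ K * (t * Real.log 2) := by gcongr
    have hL₂L : L₂ ≤ L := by
      have h1 : |L₂| ≤ (⌈|L₂|⌉₊ : ℝ) := Nat.le_ceil _
      have h2 : (⌈|L₂|⌉₊ : ℝ) ≤ t := by
        have : ⌈|L₂|⌉₊ ≤ t := by omega
        exact_mod_cast this
      exact (le_abs_self _).trans (h1.trans (h2.trans hLt2))
    obtain ⟨f1, f2, f3⟩ := hev L hL₂L
    have hX₁0 : (0 : ℝ) ≤ X₁ := Nat.cast_nonneg _
    have hA0 : (0 : ℝ) ≤ A := Nat.cast_nonneg _
    have hL1 : 1 ≤ L := by linarith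
    have hL0 : 0 < L := by linarith
    have hφ0 : (0 : ℝ) < W.totient := by exact_mod_cast Nat.totient_pos.2 hW1
    have hcq : ∀ q ∈ W.primeFactors, 3 ≤ q → c % q ≠ 1 := by
      intro q hq hq3
      exact hc1 q (Nat.prime_of_mem_primeFactors hq) (Nat.dvd_of_mem_primeFactors hq) hq3
    obtain ⟨Q, hQ⟩ : ∃ Q : ℝ, Q = ((W : ℝ) / W.totient) ^ 2 := ⟨_, rfl⟩
    have hQ1 : 1 ≤ Q := by
      rw [hQ]
      apply one_le_pow₀
      rw [one_le_div hφ0]
      exact_mod_cast Nat.totient_le W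
    -- the size of `W`
    have hWL : (W : ℝ) ≤ L ^ B' := by
      rw [hB', pow_one]
      linarith
    -- the sifted primes
    obtain ⟨x, hx⟩ : ∃ x : ℕ, x = 2 ^ (K * t) := ⟨_, rfl⟩
    obtain ⟨z, hz⟩ : ∃ z : ℕ, z = 2 ^ t := ⟨_, rfl⟩
    have hxr : (x : ℝ) = (2 : ℝ) ^ (K * t) := by rw [hx]; push_cast; rfl
    have hzr : (z : ℝ) = (2 : ℝ) ^ t := by rw [hz]; push_cast; rfl
    have hLx : L = Real.log x := by rw [hL, hxr]
    have hxe : (x : ℝ) = Real.exp L := by rw [hL, Real.exp_log (by positivity), hxr]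
    have hlz : Real.log z = t * Real.log 2 := by rw [hzr, Real.log_pow]
    have hx0x : x₀ ≤ x := by
      rw [hx]
      calc x₀ ≤ t := by omega
        _ ≤ 2 ^ t := Nat.lt_two_pow_self.le
        _ ≤ 2 ^ (K * t) := Nat.pow_le_pow_right (by norm_num) (Nat.le_mul_of_pos_left t (by omega))
    obtain ⟨-, hcz⟩ := hcore x hx0x
    obtain ⟨-, -, hTT0, hTTl, -, hNSc⟩ := hcz z (by
        rw [← hLx, hlz]
        apply Real.sqrt_le_iff.2
        refine ⟨by positivity, ?_⟩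
        rw [hLt, pow_two]
        have : (K : ℝ) ≤ t * Real.log 2 := by linarith
        have h0 : 0 ≤ t * Real.log 2 := by positivity
        exact mul_le_mul_of_nonneg_right this h0) (by
        rw [hxr, hzr]
        calc ((2 : ℝ) ^ t) ^ Kr ≤ ((2 : ℝ) ^ t) ^ (K : ℝ) :=
              Real.rpow_le_rpow_of_exponent_le (one_le_pow₀ (by norm_num)) hKrK
          _ = (2 : ℝ) ^ (K * t) := by
            rw [Real.rpow_natCast, ← pow_mul, mul_comm])
    have hNSc' := hNSc W c hW1 (by rw [← hLx]; exact hWL) hcW hcq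
    have hcl := cl_low W hW1 h2W
    rw [← hQ] at hcl
    rw [← hLx] at hTTl
    have hNS : Q * (x / W) / (4 * K * L ^ 2) ≤ ((NS x W c (OP z)).card : ℝ) := by
      have h1 := (abs_le.1 hNSc').1
      have hx0 : (0 : ℝ) < x := by rw [hxe]; exact Real.exp_pos L
      set_option maxRecDepth 4000 in
      have hlz0 : 0 < Real.log z := by rw [hlz]; positivity
      have hlzL : Real.log z ≤ L := by
        rw [hlz, hLt]
        have : 0 ≤ (t : ℝ) * Real.log 2 := by positivity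
        nlinarith
      have hKr0 : 0 < Kr := by linarith
      have h2 : (x : ℝ) / (K * L ^ 2) ≤ ((TT x z).card : ℝ) := by
        refine le_trans ?_ hTTl
        apply div_le_div_of_nonneg_left hx0.le (by positivity)
        calc Kr * (L * Real.log z) ≤ K * (L * L) := by gcongr
          _ = _ := by ring
      have hcl0 : 0 < Pool.Agent.Y855.cl W := cl_pos W hW1
      have h3 : 1 / 2 * (Pool.Agent.Y855.cl W * (TT x z).card) ≤ ((NS x W c (OP z)).card : ℝ) := by linarith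
      refine le_trans ?_ h3
      calc Q * (x / W) / (4 * K * L ^ 2) = 1 / 2 * ((1 / 2 * (1 / (W : ℝ)) * Q) * (x / (K * L ^ 2))) := by
            field_simp
            norm_num
        _ ≤ 1 / 2 * (Pool.Agent.Y855.cl W * (TT x z).card) := by gcongr
    obtain ⟨B, hB1, hB2⟩ := hgm t (by omega)
    rw [← hL] at hB1
    have hNSTT : ∀ p ∈ NS x W c (OP z), p ∈ TT x z := by
      intro p hp
      unfold NS at hp
      unfold TT
      rw [mem_filter] at hp ⊢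
      exact ⟨hp.1, hp.2.1, hp.2.2.2⟩
    obtain ⟨i, hiI, hFl⟩ := good_large' K hK2 x W c z L Q C₁ B' H hL1 hxe hW1 hWL hQ1 hNS f1 f2 B hB1
      M I bd hIM (by
        intro p hp hpB hpH
        refine hB2 p ?_ hpB hpH
        rw [← hx, ← hz]
        exact hNSTT p hp)
    rw [← hκ₀] at hFl
    set S := (NS x W c (OP z)).filter (fun p => (p ∉ B ∧ H < p) ∧ ¬ bd i p) with hS
    obtain ⟨X, hX1, hX2, hX3⟩ := hscale (K * t) (by
        calc m₀ ≤ t := by omega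
          _ ≤ K * t := Nat.le_mul_of_pos_left t (by omega)) W 0 Q L hL hW1 hQ1 hWL (by
            rw [mul_zero]
            push_cast
            positivity) S (by
        intro p hp
        rw [hS, mem_filter] at hp
        have := hp.1
        unfold NS at this
        rw [mem_filter, mem_Icc] at this
        rw [← hx]
        exact this.1) (by
        rw [← hxr]
        exact hFl)
    have hlXL : L / 2 ≤ Real.log X := by linarith
    have hlX0 : 0 < Real.log X := by linarith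
    have hX0 : (0 : ℝ) < X := by
      rcases Nat.eq_zero_or_pos X with h | h
      · rw [h] at hlX0
        norm_num at hlX0
      · exact_mod_cast h
    have hXl : L / 2 ≤ X := by
      refine hlXL.trans ?_
      have := Real.log_le_sub_one_of_pos hX0
      linarith
    have hX₁X : X₁ ≤ X := by
      have : (X₁ : ℝ) ≤ X := by linarith
      exact_mod_cast this
    have hAX : A ≤ X := by
      have : (A : ℝ) ≤ X := by linarith
      exact_mod_cast this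
    -- the elements of `S`
    have hSp : ∀ p ∈ S, (p.Prime ∧ H < p ∧ Good p ∧ ¬ bd i p ∧
        ∀ q : ℕ, q.Prime → q ∣ p - 1 → q ≠ 2 → p < q ^ K) ∧ ∀ q : ℕ, q.Prime → 2 < q → q ≤ z → ¬ q ∣ p - 1 := by
      intro p hp
      rw [hS, mem_filter] at hp
      obtain ⟨hpNS, ⟨-, hHp⟩, hbad⟩ := hp
      unfold NS at hpNS
      rw [mem_filter, mem_Icc] at hpNS
      obtain ⟨⟨hp3, hpx⟩, hpp, hpc, hpq⟩ := hpNS
      have hsm : ∀ q : ℕ, q.Prime → 2 < q → q ≤ z → ¬ q ∣ p - 1 := fun q hq hq2 hqz hqp =>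
        hpq q (mem_OP.2 ⟨hq, hq2, hqz⟩) hqp
      refine ⟨⟨hpp, hHp, hcG p hpc, hbad, ?_⟩, hsm⟩
      intro q hq hqp hq2
      have hqz : z < q := by
        by_contra hcon
        have := hq.two_le
        exact hsm q hq (by omega) (not_lt.1 hcon) hqp
      calc p ≤ x := hpx
        _ = z ^ K := by rw [hx, hz, ← pow_mul, mul_comm]
        _ < q ^ K := Nat.pow_lt_pow_left hqz (by omega)
    have hreg' := hreg X hX₁X (fun p => p ∈ S) (fun p => p ∈ S) (fun _ h => h) (by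
      intro p hp _ q hq hqX hqp
      obtain ⟨⟨hpp, -, -, -, -⟩, hsm⟩ := hSp p hp
      refine ⟨fun hd => ?_, fun hq2 hd => ?_⟩
      · have := (Nat.prime_dvd_prime_iff_eq hq hpp).1 hd
        omega
      · refine hsm q hq hq2 ?_ hd
        have h1 : (q : ℝ) ≤ z := by
          refine hqX.trans ?_
          have h2 : (X : ℝ) ≤ (z : ℝ) ^ (K : ℝ) := by
            rw [Real.rpow_natCast, hzr, ← pow_mul, mul_comm t K, ← hxr]
            have : X ≤ x := by rw [hx]; omega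
            exact_mod_cast this
          calc (X : ℝ) ^ (1 / (K : ℝ)) ≤ ((z : ℝ) ^ (K : ℝ)) ^ (1 / (K : ℝ)) :=
                Real.rpow_le_rpow hX0.le h2 (by positivity)
            _ = z := by
              rw [← Real.rpow_mul (Nat.cast_nonneg _), mul_one_div_cancel hK0.ne', Real.rpow_one]
        exact_mod_cast h1) (by
      refine le_trans ?_ (hX3.trans (le_of_eq ?_))
      · have h5 : κ₀ / 16 / W * X ≤ κ₀ / 16 * (X / W) * Q := by
          have h6 : 0 ≤ κ₀ / 16 * (X / W) := by positivity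
          calc κ₀ / 16 / W * X = κ₀ / 16 * (X / W) * 1 := by ring
            _ ≤ κ₀ / 16 * (X / W) * Q := by gcongr
        gcongr
      · unfold co
        congr 2
        ext n
        simp only [mem_filter, mem_Ioc, mul_zero, add_zero]
        tauto)
    refine ⟨i, hiI, X, hAX, hreg'.trans ?_⟩
    refine Nat.cast_le.2 (card_le_card ?_)
    intro n hn
    rw [mem_filter] at hn ⊢
    refine ⟨hn.1, fun a b h1 h2 h3 h4 => (hn.2 a b h1 h2 h3 h4).1.trans ?_⟩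
    refine Nat.cast_le.2 ?_
    unfold co
    apply card_le_card
    intro n hn
    simp only [Finset.mem_filter] at hn ⊢
    exact ⟨hn.1, (hSp n hn.2).1⟩
  -- one index for infinitely many scales
  by_contra hcon
  push Not at hcon
  have hne : ∀ i : ι, ∃ A : ℕ, i ∈ I → ∀ X : ℕ, A ≤ X →
      (((Finset.Ioc X (2 * X)).filter (fun n => ∀ a b : ℕ, a ≤ n → n ≤ b →
        Kw * Real.log X ^ 2 ≤ (b : ℝ) - a → (b : ℝ) - a ≤ n →
          c₁ * ((b : ℝ) - a) / Real.log X ^ 2 ≤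
            co (fun p => p.Prime ∧ H < p ∧ Good p ∧ ¬ bd i p ∧
              ∀ q : ℕ, q.Prime → q ∣ p - 1 → q ≠ 2 → p < q ^ K) a b)).card : ℝ) < μ * X := by
    intro i
    by_cases hi : i ∈ I
    · obtain ⟨A, hA⟩ := hcon i hi c₁ Kw μ hc₁ hKw hμ
      exact ⟨A, fun _ => hA⟩
    · exact ⟨0, fun h => absurd h hi⟩
  choose AA hAA using hne
  obtain ⟨i, hi, X, hX, hX'⟩ := hone (I.sup AA)
  have h1 := hAA i hi X ((Finset.le_sup hi).trans hX)
  linarith

end Pool.Agent.N39.RW
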