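import Pool.Agent.Y855.B20
import Pool.Agent.N39.RW.ArtA

set_option autoImplicit false

/-!
# Finitely generated groups of rational numbers modulo the primes of short windows (helper39)
-/

namespace Pool.Agent.N39.RW

open Finset Filter Pool.Agent.Y855
open Pool.Agent.W123.RP (co)

open Classical in
theorem WIN_grp : ∃ R : ℕ, 2 ≤ R ∧ ∀ (m a h N₀ : ℕ), 0 < m → a.Coprime m →
    (∀ l : ℕ, l.Prime → l ∣ m → l ≠ 2 → ¬ a ≡ 1 [MOD l]) → 1 ≤ h →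
    ∀ I : Finset (Subgroup ℚˣ), 2 * (R * (h - 1)) < I.card → (∀ W ∈ I, W.FG) →
    (∀ J ⊆ I, J.card = h → ∃ b : Fin R → ℚˣ, (∀ j, b j ∈ sSup (J : Set (Subgroup ℚˣ))) ∧
      ∀ e : Fin R → ℤ, ∏ j, b j ^ e j = 1 → ∀ j, e j = 0) →
    ∃ W ∈ I, ∃ c₁ Kw μ : ℝ, 0 < c₁ ∧ 1 ≤ Kw ∧ 0 < μ ∧ ∀ A : ℕ, ∃ X : ℕ, A ≤ X ∧
      μ * X ≤ (((Finset.Ioc X (2 * X)).filter (fun n => ∀ u v : ℕ, u ≤ n → n ≤ v →
        Kw * Real.log X ^ 2 ≤ (v : ℝ) - u → (v : ℝ) - u ≤ n →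
          c₁ * ((v : ℝ) - u) / Real.log X ^ 2 ≤
            co (fun p => ∃ hp : p.Prime, N₀ < p ∧ p ≡ a [MOD m] ∧ W ≤ Qs p hp 0 ∧
              (∀ l : ℕ, l.Prime → l ∣ (img p W).index → l = 2) ∧
              ∀ q : ℕ, q.Prime → q ∣ p - 1 → q ≠ 2 → p < q ^ R) u v)).card : ℝ) := by
  obtain ⟨K, hK2, hWIN⟩ := WIN_gen
  refine ⟨K, hK2, fun m a h N₀ hm ham ha1 hh I hIc hFG hJ => ?_⟩
  -- the units
  have hun : ∀ W : Subgroup ℚˣ, ∃ H : ℕ, W ∈ I → ∀ p : ℕ, ∀ hp : p.Prime, H < p → W ≤ Qs p hp 0 := by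
    intro W
    by_cases hW : W ∈ I
    · obtain ⟨H, hH⟩ := fg_units W (hFG W hW)
      exact ⟨H, fun _ => hH⟩
    · exact ⟨0, fun h => absurd h hW⟩
  choose HW hHW using hun
  obtain ⟨H₀, hH₀⟩ : ∃ H₀ : ℕ, H₀ = ∑ W ∈ I, HW W := ⟨_, rfl⟩
  have hH₀W : ∀ W ∈ I, ∀ p : ℕ, ∀ hp : p.Prime, H₀ < p → W ≤ Qs p hp 0 := by
    intro W hW p hp hpH
    apply hHW W hW p hp
    have := Finset.single_le_sum (f := HW) (fun j _ => Nat.zero_le _) hW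
    omega
  obtain ⟨C₁, H, hgm⟩ := gmfam K (by omega) I h hh
    (fun W p l => ∃ hp : p.Prime, W ≤ Qs p hp ((p - 1) / l)) H₀ (by
      intro J hJI hJc
      obtain ⟨b, hb1, hb2⟩ := hJ J hJI hJc
      refine ⟨fun j => ((b j : ℚˣ) : ℚ), fun j => (b j).ne_zero, ?_, ?_⟩
      · intro e he
        apply hb2 e
        apply Units.ext
        rw [Units.val_one, ← he]
        push_cast
        rfl
      · intro p l hp hpH hl hl3 hlp hall j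
        have h1 : sSup (J : Set (Subgroup ℚˣ)) ≤ Qs p hp ((p - 1) / l) := by
          apply sSup_le
          intro W hW
          obtain ⟨_, h2⟩ := hall W hW
          exact h2
        have h2 := h1 (hb1 j)
        rw [Qs_mem] at h2
        exact h2.2)
  obtain ⟨c, hcW, hc1, hcG⟩ := class_ex m a hm ham ha1 2 le_rfl
  obtain ⟨W, hWI, c₁, Kw, μ, hc₁, hKw, hμ, hX⟩ := hWIN (Subgroup ℚˣ) I
    (fun W p => ∃ l : ℕ, l.Prime ∧ 3 ≤ l ∧ l ∣ p - 1 ∧ ∃ hp : p.Prime, W ≤ Qs p hp ((p - 1) / l))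
    (K * (h - 1)) hIc C₁ (H + H₀ + N₀) (2 * m * primorial 2)
    (Nat.mul_pos (by omega) (primorial_pos 2)) ((Dvd.intro _ rfl : 2 ∣ 2 * m).mul_right _) (by
      intro t ht
      obtain ⟨B, hB1, hB2⟩ := hgm t ht
      exact ⟨B, hB1, fun p hp hpB hpH => hB2 p hp hpB (by omega)⟩)
    (fun p => p ≡ a [MOD m]) c hcW hc1 hcG
  refine ⟨W, hWI, c₁, Kw, μ, hc₁, hKw, hμ, fun A => ?_⟩
  obtain ⟨X, hAX, hX⟩ := hX A
  refine ⟨X, hAX, hX.trans ?_⟩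
  refine Nat.cast_le.2 (card_le_card ?_)
  intro n hn
  rw [mem_filter] at hn ⊢
  refine ⟨hn.1, fun u v h1 h2 h3 h4 => (hn.2 u v h1 h2 h3 h4).trans ?_⟩
  refine Nat.cast_le.2 ?_
  unfold co
  apply card_le_card
  intro p hp
  simp only [Finset.mem_filter] at hp ⊢
  obtain ⟨hpuv, hpp, hpH, hpa, hbad, hq⟩ := hp
  have hWu := hH₀W W hWI _ hpp (by omega)
  refine ⟨hpuv, hpp, by omega, hpa, hWu, fun l hl hli => ?_, hq⟩
  by_contra hl2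
  obtain ⟨h1, h2⟩ := img_index _ hpp W hWu l hl hli
  exact hbad ⟨l, hl, by have := hl.two_le; omega, h1, hpp, h2⟩

end Pool.Agent.N39.RW
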