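import Pool.Agent.N39.RW.Core
import Pool.Agent.W182.PW.Lin
import Pool.Agent.Y840.CT.GenF

set_option autoImplicit false

/-!
# Chen's theorem for tuples with a residue class modulo a squarefree number, counted (helper39)
-/

namespace Pool.Agent.N39.RW

open Finset Filter
open Pool.Agent.Y840.CT (genF SysF GoodF VF Rough rho Vp Vp_low)

/-- the shifts of the sieve -/
noncomputable def HT (T : Finset ℕ) : Finset ℤ := (T.erase 0).image (fun t : ℕ => -(t : ℤ))

open Classical in
/-- the shifts with the conditions at the primes of `W` -/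
noncomputable def FT (T W : Finset ℕ) (a h0 q : ℕ) : Finset ℤ :=
  if q ∈ W then insert (-(h0 : ℤ)) (((range q).filter (fun c => c ≠ a % q)).image (fun c : ℕ => (c : ℤ))) else HT T

theorem HT_card (T : Finset ℕ) (h0 : 0 ∈ T) : (HT T).card ≤ T.card - 1 := by
  unfold HT
  refine card_image_le.trans ?_
  rw [card_erase_of_mem h0]

theorem rho_lt (S : Finset ℤ) (q : ℕ) (hq : 0 < q) (m : ℕ) (h : ∀ s ∈ insert 0 S, ¬ (q : ℤ) ∣ s - m) :
    rho S q < q := by
  unfold rho
  have h1 : ((insert 0 S).image (fun h : ℤ => h % q)) ⊆ ((range q).erase (m % q)).image (fun c : ℕ => (c : ℤ)) := by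
    intro x hx
    rw [mem_image] at hx
    obtain ⟨s, hs, rfl⟩ := hx
    have hqz : (q : ℤ) ≠ 0 := by exact_mod_cast hq.ne'
    have h2 : 0 ≤ s % q := Int.emod_nonneg _ hqz
    have h3 : s % q < q := Int.emod_lt_of_pos _ (by exact_mod_cast hq)
    rw [mem_image]
    refine ⟨(s % q).toNat, ?_, Int.toNat_of_nonneg h2⟩
    rw [mem_erase, mem_range]
    refine ⟨?_, by omega⟩
    intro he
    apply h s hs
    have h4 : ((s % q).toNat : ℤ) = ((m % q : ℕ) : ℤ) := by rw [he]
    rw [Int.toNat_of_nonneg h2] at h4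
    push_cast at h4
    exact Int.ModEq.dvd (show (m : ℤ) ≡ s [ZMOD q] from h4.symm)
  have h2 := card_le_card h1
  refine lt_of_le_of_lt (h2.trans card_image_le) ?_
  rw [card_erase_of_mem (mem_range.2 (Nat.mod_lt _ hq)), card_range]
  omega

open Classical in
theorem countF (T : Finset ℕ) (hT0 : 0 ∈ T) (h0 : ℕ) (h0T : h0 ∈ T) (h00 : h0 ≠ 0)
    (hadm : ∀ p : ℕ, p.Prime → ∃ m : ℕ, ∀ t ∈ T, ¬ p ∣ m + t)
    (W : Finset ℕ) (hW : ∀ q ∈ W, q.Prime) (a : ℕ) (ha : ∀ q ∈ W, ∀ t ∈ T, ¬ q ∣ a + t) :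
    ∃ t₀ : ℕ, 1 ≤ t₀ ∧ ∃ cS : ℝ, 0 < cS ∧ ∀ᶠ X : ℕ in atTop, cS * X / Real.log X ^ T.card ≤
      (((Ioc X (2 * X)).filter (fun p => p.Prime ∧ (p + h0).primeFactorsList.length ≤ 2 ∧
        (∀ q ∈ W, p % q = a % q) ∧ ∀ t ∈ T, ∀ q : ℕ, q.Prime → q ∣ p + t →
          ((2 * X : ℕ) : ℝ) ^ (1 / (t₀ : ℝ)) < (q : ℝ))).card : ℝ) := by
  obtain ⟨r, hr⟩ : ∃ r : ℕ, r = T.card + W.sup id + 1 := ⟨_, rfl⟩
  obtain ⟨t₀, ht₀, c, hc, hgen, -⟩ := genF r
  obtain ⟨X₀, hgen⟩ := hgen (1 / 2) (by norm_num)
  obtain ⟨c0, hc0, hlow⟩ := Vp_low (T.card - 1)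
  have hTc : 1 ≤ T.card := card_pos.2 ⟨0, hT0⟩
  obtain ⟨w, hw⟩ : ∃ w : ℝ, w = ∏ q ∈ W, (1 / (q : ℝ)) := ⟨_, rfl⟩
  have hw0 : 0 < w := by
    rw [hw]
    apply prod_pos
    intro q hq
    have : (0 : ℝ) < q := by exact_mod_cast (hW q hq).pos
    positivity
  refine ⟨t₀, ht₀, c * (w * c0) / 2 ^ T.card, by positivity, ?_⟩
  have ht0r : (0 : ℝ) < t₀ := by exact_mod_cast ht₀
  have htend : Tendsto (fun X : ℕ => ((2 * X : ℕ) : ℝ) ^ (1 / (t₀ : ℝ))) atTop atTop := by
    have h1 : Tendsto (fun X : ℕ => 2 * X) atTop atTop :=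
      tendsto_atTop_mono (fun X : ℕ => show X ≤ 2 * X by omega) tendsto_id
    exact (tendsto_rpow_atTop (by positivity)).comp (tendsto_natCast_atTop_atTop.comp h1)
  filter_upwards [eventually_ge_atTop (X₀ + h0 + 3), htend.eventually_ge_atTop ((W.sup id : ℕ) : ℝ)] with X hX hXW
  have hX3 : 3 ≤ X := by omega
  have hlocH : ∀ q : ℕ, q.Prime → rho (HT T) q < q := by
    intro q hq
    obtain ⟨m, hm⟩ := hadm q hq
    apply rho_lt _ q hq.pos m
    intro s hs hd
    rw [mem_insert] at hs
    rcases hs with rfl | hs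
    · apply hm 0 hT0
      rw [add_zero]
      rw [zero_sub, dvd_neg] at hd
      exact_mod_cast hd
    · unfold HT at hs
      rw [mem_image] at hs
      obtain ⟨t, ht, rfl⟩ := hs
      apply hm t (mem_of_mem_erase ht)
      have h1 : (-(t : ℤ) - m) = -(((m + t : ℕ)) : ℤ) := by push_cast; ring
      rw [h1, dvd_neg] at hd
      exact_mod_cast hd
  have hlocF : ∀ q : ℕ, q.Prime → rho (FT T W a h0 q) q < q := by
    intro q hq
    by_cases hqW : q ∈ W
    · unfold FT
      rw [if_pos hqW]
      apply rho_lt _ q hq.pos a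
      intro s hs hd
      rw [mem_insert, mem_insert, mem_image] at hs
      rcases hs with rfl | rfl | ⟨c', hc', rfl⟩
      · apply ha q hqW 0 hT0
        rw [add_zero]
        rw [zero_sub, dvd_neg] at hd
        exact_mod_cast hd
      · apply ha q hqW h0 h0T
        have h1 : (-(h0 : ℤ) - a) = -(((a + h0 : ℕ)) : ℤ) := by push_cast; ring
        rw [h1, dvd_neg] at hd
        exact_mod_cast hd
      · rw [mem_filter, mem_range] at hc'
        apply hc'.2
        have h1 : (a : ℤ) ≡ (c' : ℤ) [ZMOD q] := (Int.modEq_iff_dvd).2 hd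
        have h2 : a ≡ c' [MOD q] := (Int.natCast_modEq_iff).1 h1
        have h3 : a % q = c' % q := h2
        rw [h3, Nat.mod_eq_of_lt hc'.1]
    · unfold FT
      rw [if_neg hqW]
      exact hlocH q hq
  have hsys : SysF r (2 * X) (FT T W a h0) (-(h0 : ℤ)) := by
    refine ⟨?_, ?_, ?_, ?_, hlocF⟩
    · intro q hq
      unfold FT
      by_cases hqW : q ∈ W
      · rw [if_pos hqW]
        have h1 : q ≤ W.sup id := Finset.le_sup (f := id) hqW
        refine (card_insert_le _ _).trans ?_
        have h2 : (((range q).filter (fun c => c ≠ a % q)).image (fun c : ℕ => (c : ℤ))).card ≤ q := by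
          refine card_image_le.trans ((card_filter_le _ _).trans ?_)
          rw [card_range]
        omega
      · rw [if_neg hqW]
        have := HT_card T hT0
        omega
    · exact neg_ne_zero.2 (by exact_mod_cast h00)
    · rw [abs_neg]
      have : ((h0 : ℕ) : ℤ) ≤ ((2 * X : ℕ) : ℤ) := by exact_mod_cast (by omega : h0 ≤ 2 * X)
      rw [abs_of_nonneg (by positivity)]
      exact this
    · intro q hq
      unfold FT
      by_cases hqW : q ∈ W
      · rw [if_pos hqW]
        exact mem_insert_self _ _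
      · rw [if_neg hqW]
        unfold HT
        exact mem_image.2 ⟨h0, mem_erase.2 ⟨h00, h0T⟩, rfl⟩
  have h1 := hgen (2 * X) (by omega) (FT T W a h0) (-(h0 : ℤ)) hsys X (2 * X) le_rfl (by
    push_cast
    linarith)
  have hXr : (3 : ℝ) ≤ X := by exact_mod_cast hX3
  have hlX : 0 < Real.log X := Real.log_pos (by linarith)
  have hVF : w * Vp (HT T) (2 * X) ≤ VF (FT T W a h0) (2 * X) := by
    have e1 : ∀ q ∈ (Icc 1 (2 * X)).filter Nat.Prime,
        (if q ∈ W then 1 / (q : ℝ) else 1) * (1 - (rho (HT T) q : ℝ) / q) ≤ 1 - (rho (FT T W a h0 q) q : ℝ) / q := by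
      intro q hq
      have hqp := (mem_filter.1 hq).2
      have hq0 : (0 : ℝ) < q := by exact_mod_cast hqp.pos
      by_cases hqW : q ∈ W
      · rw [if_pos hqW]
        have e2 : (rho (FT T W a h0 q) q : ℝ) + 1 ≤ q := by exact_mod_cast hlocF q hqp
        have e3 : 1 / (q : ℝ) ≤ 1 - (rho (FT T W a h0 q) q : ℝ) / q := by
          rw [le_sub_iff_add_le, ← add_div, div_le_one hq0]
          linarith
        refine le_trans ?_ e3
        apply mul_le_of_le_one_right (by positivity)
        have : (0 : ℝ) ≤ (rho (HT T) q : ℝ) / q := by positivity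
        linarith
      · rw [if_neg hqW, one_mul]
        unfold FT
        rw [if_neg hqW]
    have e0 : ∀ q ∈ (Icc 1 (2 * X)).filter Nat.Prime,
        0 ≤ (if q ∈ W then 1 / (q : ℝ) else 1) * (1 - (rho (HT T) q : ℝ) / q) := by
      intro q hq
      have hqp := (mem_filter.1 hq).2
      have hq0 : (0 : ℝ) < q := by exact_mod_cast hqp.pos
      apply mul_nonneg
      · split_ifs <;> positivity
      · rw [sub_nonneg, div_le_one hq0]
        exact_mod_cast (hlocH q hqp).le
    have e2 := prod_le_prod e0 e1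
    rw [prod_mul_distrib] at e2
    unfold VF Vp
    refine le_trans ?_ e2
    apply mul_le_mul_of_nonneg_right
    · rw [hw, prod_ite, prod_const_one, mul_one]
      have e3 : ((Icc 1 (2 * X)).filter Nat.Prime).filter (fun q => q ∈ W) ⊆ W := fun q hq => (mem_filter.1 hq).2
      rw [← prod_sdiff e3]
      apply mul_le_of_le_one_left
      · apply prod_nonneg
        intro q _
        positivity
      · apply prod_le_one
        · intro q _
          positivity
        · intro q hq
          have : (1 : ℝ) ≤ q := by exact_mod_cast (hW q (mem_sdiff.1 hq).1).one_lt.le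
          rw [div_le_one (by linarith)]
          exact this
    · apply prod_nonneg
      intro q hq
      have hqp := (mem_filter.1 hq).2
      have hq0 : (0 : ℝ) < q := by exact_mod_cast hqp.pos
      rw [sub_nonneg, div_le_one hq0]
      exact_mod_cast (hlocH q hqp).le
  have hVp := hlow (2 * X) (by omega) (HT T) (HT_card T hT0) hlocH
  have e4 : T.card - 1 + 1 = T.card := by omega
  rw [e4] at hVp
  have hlog2 : Real.log ((2 * X : ℕ) : ℝ) ≤ 2 * Real.log X := by
    calc Real.log ((2 * X : ℕ) : ℝ) ≤ Real.log ((X : ℝ) ^ 2) := by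
          apply Real.log_le_log (by positivity)
          push_cast
          nlinarith
      _ = 2 * Real.log X := by rw [Real.log_pow]; norm_num
  have hlog0 : 0 < Real.log ((2 * X : ℕ) : ℝ) := Real.log_pos (by push_cast; linarith)
  have h2 : c * (w * c0) / 2 ^ T.card * X / Real.log X ^ T.card ≤
      ((GoodF t₀ (2 * X) X (2 * X) (FT T W a h0) (-(h0 : ℤ))).card : ℝ) := by
    refine le_trans ?_ h1
    have e5 : ((2 * X : ℕ) : ℝ) - X = X := by push_cast; ring
    rw [e5]
    have e6 : w * (c0 / (2 * Real.log X) ^ T.card) ≤ VF (FT T W a h0) (2 * X) := by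
      refine le_trans ?_ hVF
      apply mul_le_mul_of_nonneg_left _ hw0.le
      refine le_trans ?_ hVp
      gcongr
    calc c * (w * c0) / 2 ^ T.card * X / Real.log X ^ T.card =
        c * X * (w * (c0 / (2 * Real.log X) ^ T.card)) := by
          rw [mul_pow]
          field_simp
      _ ≤ _ := mul_le_mul_of_nonneg_left e6 (by positivity)
  refine h2.trans ?_
  rw [Nat.cast_le]
  apply card_le_card
  intro p hp
  unfold GoodF at hp
  rw [mem_filter] at hp ⊢
  obtain ⟨hpI, hpp, hpt, ⟨-, hp2, -⟩, hpF⟩ := hp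
  have hloc : ∀ q ∈ W, p % q = a % q := by
    intro q hq
    by_contra hne
    have hqp := hW q hq
    have hqX : (q : ℝ) ≤ ((2 * X : ℕ) : ℝ) ^ (1 / (t₀ : ℝ)) := by
      refine le_trans ?_ hXW
      exact_mod_cast (Finset.le_sup (f := id) hq : q ≤ W.sup id)
    apply hpF q hqp hqX ((p % q : ℕ) : ℤ)
    · unfold FT
      rw [if_pos hq]
      apply mem_insert_of_mem
      exact mem_image.2 ⟨p % q, mem_filter.2 ⟨mem_range.2 (Nat.mod_lt _ hqp.pos), hne⟩, rfl⟩
    · push_cast
      exact Int.ModEq.dvd (Int.mod_modEq _ _).symm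
  refine ⟨hpI, hpp, ?_, hloc, ?_⟩
  · have e1 : (-(h0 : ℤ) - p) = -(((p + h0 : ℕ)) : ℤ) := by push_cast; ring
    rw [e1, Int.natAbs_neg, Int.natAbs_natCast] at hp2
    exact hp2
  · intro t ht q hq hd
    by_contra hcon
    push Not at hcon
    rcases Nat.eq_zero_or_pos t with rfl | htpos
    · rw [add_zero] at hd
      have := (Nat.prime_dvd_prime_iff_eq hq hpp).1 hd
      rw [this] at hcon
      linarith
    · by_cases hqW : q ∈ W
      · have h3 : p % q = a % q := hloc q hqW
        apply ha q hqW t ht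
        have h4 : p ≡ a [MOD q] := h3
        exact ((h4.add_right t).dvd_iff (dvd_refl q)).1 hd
      · apply hpF q hq hcon (-(t : ℤ))
        · unfold FT
          rw [if_neg hqW]
          unfold HT
          exact mem_image.2 ⟨t, mem_erase.2 ⟨htpos.ne', ht⟩, rfl⟩
        · have e1 : (-(t : ℤ) - p) = -(((p + t : ℕ)) : ℤ) := by push_cast; ring
          rw [e1, dvd_neg]
          exact_mod_cast hd

end Pool.Agent.N39.RW
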