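import Pool.Agent.N39.RW.Core
import Pool.Agent.W182.PW.Lin

set_option autoImplicit false

/-!
# Systems of shifts (helper39)
-/

namespace Pool.Agent.N39.RW

open Finset Filter Polynomial Pool.Agent.H373R2.T7 Pool.Agent.W123.RP Pool.Agent.W123.RU
open Pool.Agent.W123.RU.Poly
open Pool.Agent.W182.PW (lin lin_eval lin_irr lin_deg lin_lead lin_inj)

/-- the system of the forms `X + t` -/
theorem sysT (T : Finset ℕ) (hadm : ∀ p : ℕ, p.Prime → ∃ m : ℕ, ∀ t ∈ T, ¬ p ∣ m + t) :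
    Sys (fun i : {x // x ∈ T} => lin 1 ((i.1 : ℕ) : ℤ)) where
  irr := fun i => lin_irr _ _ one_pos (by rw [Nat.cast_one]; exact isCoprime_one_left)
  deg := fun i => lin_deg _ _ one_pos
  lead := fun i => lin_lead _ _ one_pos
  inj := fun i j hij => Subtype.ext (by exact_mod_cast (lin_inj hij).2)
  adm := fun p hp => by
    obtain ⟨m, hm⟩ := hadm p hp
    refine ⟨m, fun i => ?_⟩
    rw [lin_eval]
    intro h
    apply hm i.1 i.2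
    have h1 : (((1 : ℕ) : ℤ) * (m : ℤ) + ((i.1 : ℕ) : ℤ)) = ((m + i.1 : ℕ) : ℤ) := by push_cast; ring
    rw [h1] at h
    exact_mod_cast h

theorem rgh_iff (T : Finset ℕ) (z : ℝ) (m : ℕ) : Rgh (fun i : {x // x ∈ T} => lin 1 ((i.1 : ℕ) : ℤ)) z m ↔
    ∀ t ∈ T, ∀ q : ℕ, q.Prime → (q : ℝ) ≤ z → ¬ q ∣ m + t := by
  unfold Rgh
  constructor
  · intro h t ht q hq hqz hd
    apply h ⟨t, ht⟩ q hq hqz
    rw [lin_eval]
    have h1 : (((1 : ℕ) : ℤ) * (m : ℤ) + ((t : ℕ) : ℤ)) = ((m + t : ℕ) : ℤ) := by push_cast; ring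
    show (q : ℤ) ∣ (((1 : ℕ) : ℤ) * (m : ℤ) + ((t : ℕ) : ℤ))
    rw [h1]
    exact_mod_cast hd
  · intro h i q hq hqz hd
    apply h i.1 i.2 q hq hqz
    rw [lin_eval] at hd
    have h1 : (((1 : ℕ) : ℤ) * (m : ℤ) + ((i.1 : ℕ) : ℤ)) = ((m + i.1 : ℕ) : ℤ) := by push_cast; ring
    rw [h1] at hd
    exact_mod_cast hd

open Classical in
/-- regular windows for dense subsets of tuples of rough integers -/
theorem coreT (T : Finset ℕ) (hT : T.Nonempty) (hadm : ∀ p : ℕ, p.Prime → ∃ m : ℕ, ∀ t ∈ T, ¬ p ∣ m + t)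
    (κ cS : ℝ) (hκ : 0 < κ) (hcS : 0 < cS) :
    ∃ c₁ c₂ K μ : ℝ, 0 < c₁ ∧ 0 < c₂ ∧ 1 ≤ K ∧ 0 < μ ∧ ∀ᶠ X : ℕ in atTop, ∀ P P' : ℕ → Prop,
      (∀ m, P m → P' m) →
      (∀ m, P' m → m ≤ 4 * X → ∀ t ∈ T, ∀ q : ℕ, q.Prime → (q : ℝ) ≤ (X : ℝ) ^ κ → ¬ q ∣ m + t) →
      cS * X / Real.log X ^ T.card ≤ (co P X (2 * X) : ℝ) →
      μ * X ≤ (((Finset.Ioc X (2 * X)).filter (fun n => ∀ a b : ℕ, a ≤ n → n ≤ b →
        K * Real.log X ^ T.card ≤ (b : ℝ) - a → (b : ℝ) - a ≤ n →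
          c₁ * ((b : ℝ) - a) / Real.log X ^ T.card ≤ co P a b ∧
            (co P' a b : ℝ) ≤ c₂ * ((b : ℝ) - a) / Real.log X ^ T.card)).card : ℝ) := by
  haveI : Nonempty {x // x ∈ T} := hT.to_subtype
  obtain ⟨c₁, c₂, K, μ, hc₁, hc₂, hK, hμ, hcore⟩ := core (fun i : {x // x ∈ T} => lin 1 ((i.1 : ℕ) : ℤ))
    (sysT T hadm) κ cS hκ hcS
  rw [Fintype.card_coe] at hcore
  refine ⟨c₁, c₂, K, μ, hc₁, hc₂, hK, hμ, ?_⟩
  filter_upwards [hcore] with X hX P P' hPP hP' hlow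
  exact hX P P' hPP (fun m hm hm4 => (rgh_iff T _ m).2 (hP' m hm hm4)) hlow

end Pool.Agent.N39.RW
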