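import Pool.Agent.N39.RW.ChenA
import Pool.Agent.N39.RW.SysT

set_option autoImplicit false

/-!
# Regular windows for Chen primes and Chen tuples (helper39)
-/

namespace Pool.Agent.N39.RW

open Finset Filter Polynomial Pool.Agent.H373R2.T7 Pool.Agent.W123.RP Pool.Agent.W123.RU
open Pool.Agent.W123.RU.Poly
open Pool.Agent.W182.PW (lin lin_eval lin_irr lin_deg lin_lead lin_inj)

/-- `p` is prime, `p + h0` is a product of at most two primes, `p ≡ a` modulo all `q ∈ W`, and all `p + t`, `t ∈ T`,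
are products of at most `r` primes, all larger than `z` -/
def Ch (T : Finset ℕ) (h0 : ℕ) (W : Finset ℕ) (a r : ℕ) (z : ℝ) (p : ℕ) : Prop :=
  p.Prime ∧ (p + h0).primeFactorsList.length ≤ 2 ∧ (∀ q ∈ W, p % q = a % q) ∧
    ∀ t ∈ T, (p + t).primeFactorsList.length ≤ r ∧ ∀ q : ℕ, q.Prime → q ∣ p + t → z < (q : ℝ)

open Classical in
/-- `n` is regular -/
def RegT (T : Finset ℕ) (h0 : ℕ) (W : Finset ℕ) (a r : ℕ) (c₁ c₂ K : ℝ) (n : ℕ) : Prop :=
  ∀ u v : ℕ, u ≤ n → n ≤ v → K * Real.log n ^ T.card ≤ (v : ℝ) - u → (v : ℝ) - u ≤ n →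
    c₁ * ((v : ℝ) - u) / Real.log n ^ T.card ≤
      (((Ioc u v).filter (fun p => Ch T h0 W a r ((n : ℝ) ^ (1 / (r : ℝ))) p)).card : ℝ) ∧
    (((Ioc u v).filter (fun p => Ch T h0 W a r ((n : ℝ) ^ (1 / (r : ℝ))) p)).card : ℝ) ≤
      c₂ * ((v : ℝ) - u) / Real.log n ^ T.card

open Classical in
theorem regT (T : Finset ℕ) (hT0 : 0 ∈ T) (h0 : ℕ) (h0T : h0 ∈ T) (h00 : h0 ≠ 0)
    (hadm : ∀ p : ℕ, p.Prime → ∃ m : ℕ, ∀ t ∈ T, ¬ p ∣ m + t)
    (W : Finset ℕ) (hW : ∀ q ∈ W, q.Prime) (a : ℕ) (ha : ∀ q ∈ W, ∀ t ∈ T, ¬ q ∣ a + t) :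
    ∃ r : ℕ, 2 ≤ r ∧ ∃ c₁ c₂ K μ : ℝ, 0 < c₁ ∧ 0 < c₂ ∧ 1 ≤ K ∧ 0 < μ ∧ ∀ᶠ X : ℕ in atTop,
      μ * X ≤ (((Ioc X (2 * X)).filter (fun n => RegT T h0 W a r c₁ c₂ K n)).card : ℝ) := by
  obtain ⟨t₀, ht₀, cS, hcS, hcount⟩ := countF T hT0 h0 h0T h00 hadm W hW a ha
  have ht0r : (0 : ℝ) < t₀ := by exact_mod_cast ht₀
  have ht1r : (1 : ℝ) ≤ t₀ := by exact_mod_cast ht₀
  obtain ⟨R, hR⟩ : ∃ R : ℕ, R = 2 * t₀ + 1 := ⟨_, rfl⟩
  have hRr : (R : ℝ) = 2 * t₀ + 1 := by rw [hR]; push_cast; ring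
  have hR0 : (0 : ℝ) < R := by rw [hRr]; positivity
  haveI : Nonempty {x // x ∈ T} := ⟨⟨0, hT0⟩⟩
  obtain ⟨c₁, c₂, K, μ, hc₁, hc₂, hK, hμ, hcore⟩ := core (fun i : {x // x ∈ T} => lin 1 ((i.1 : ℕ) : ℤ))
    (sysT T hadm) (1 / (R : ℝ)) cS (by positivity) hcS
  rw [Fintype.card_coe] at hcore
  obtain ⟨k, hk⟩ : ∃ k, k = T.card := ⟨_, rfl⟩
  obtain ⟨A0, hA0⟩ : ∃ A0 : ℕ, ∀ t ∈ T, t ≤ A0 := ⟨T.sup id, fun t ht => Finset.le_sup (f := id) ht⟩
  refine ⟨R, by omega, c₁, c₂ * 2 ^ T.card, K, μ, hc₁, by positivity, hK, hμ, ?_⟩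
  filter_upwards [hcore, hcount, eventually_ge_atTop (16 + A0)] with X hcore hcount hX16
  have hXr : (16 : ℝ) ≤ X := by exact_mod_cast (by omega : 16 ≤ X)
  have hX0 : (0 : ℝ) < X := by linarith
  have hX1 : (1 : ℝ) ≤ X := by linarith
  have h2X1 : (1 : ℝ) ≤ ((2 * X : ℕ) : ℝ) := by push_cast; linarith
  have hlX : 0 < Real.log X := Real.log_pos (by linarith)
  -- the sets
  obtain ⟨P, hP⟩ : ∃ P : ℕ → Prop, ∀ m, P m ↔ (m ≤ 4 * X ∧ m.Prime ∧ (m + h0).primeFactorsList.length ≤ 2 ∧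
      (∀ q ∈ W, m % q = a % q) ∧ ∀ t ∈ T, ∀ q : ℕ, q.Prime → q ∣ m + t →
        ((2 * X : ℕ) : ℝ) ^ (1 / (t₀ : ℝ)) < (q : ℝ)) := ⟨_, fun m => Iff.rfl⟩
  obtain ⟨P', hP'⟩ : ∃ P' : ℕ → Prop, ∀ m, P' m ↔ (∀ t ∈ T, ∀ q : ℕ, q.Prime → q ∣ m + t →
        (X : ℝ) ^ (1 / (R : ℝ)) < (q : ℝ)) := ⟨_, fun m => Iff.rfl⟩
  have hRt : 1 / (R : ℝ) ≤ 1 / (t₀ : ℝ) := by
    apply one_div_le_one_div_of_le ht0r
    rw [hRr]; linarith
  have hlev : ((2 * X : ℕ) : ℝ) ^ (1 / (R : ℝ)) ≤ ((2 * X : ℕ) : ℝ) ^ (1 / (t₀ : ℝ)) :=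
    Real.rpow_le_rpow_of_exponent_le h2X1 hRt
  have hlev2 : (X : ℝ) ^ (1 / (R : ℝ)) ≤ ((2 * X : ℕ) : ℝ) ^ (1 / (R : ℝ)) :=
    Real.rpow_le_rpow hX0.le (by push_cast; linarith) (by positivity)
  have hPP : ∀ m, P m → P' m := by
    intro m hm
    rw [hP']
    intro t ht q hq hd
    exact (hlev2.trans hlev).trans_lt (((hP m).1 hm).2.2.2.2 t ht q hq hd)
  have hPR : ∀ m, P' m → m ≤ 4 * X → Rgh (fun i : {x // x ∈ T} => lin 1 ((i.1 : ℕ) : ℤ)) ((X : ℝ) ^ (1 / (R : ℝ))) m := by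
    intro m hm _ i p hp hpX hd
    rw [lin_eval] at hd
    have h1 : (((1 : ℕ) : ℤ) * (m : ℤ) + ((i.1 : ℕ) : ℤ)) = ((m + i.1 : ℕ) : ℤ) := by push_cast; ring
    rw [h1] at hd
    have h2 := (hP' m).1 hm i.1 i.2 p hp (by exact_mod_cast hd)
    linarith
  have hcnt : cS * X / Real.log X ^ T.card ≤ (co P X (2 * X) : ℝ) := by
    refine hcount.trans ?_
    unfold co
    rw [Nat.cast_le]
    apply card_le_card
    intro m hm
    rw [mem_filter, mem_Ioc] at hm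
    rw [mem_filter, mem_Ioc, hP]
    exact ⟨hm.1, by omega, hm.2⟩
  refine (hcore P P' hPP hPR hcnt).trans ?_
  rw [Nat.cast_le]
  apply card_le_card
  intro n hn
  rw [mem_filter, mem_Ioc] at hn ⊢
  obtain ⟨⟨hn1, hn2⟩, hn3⟩ := hn
  refine ⟨⟨hn1, hn2⟩, ?_⟩
  intro u v hun hnv huv hvn
  have hnr : (X : ℝ) < n := by exact_mod_cast hn1
  have hnr3 : (n : ℝ) ≤ ((2 * X : ℕ) : ℝ) := by exact_mod_cast hn2
  have hnr2 : (n : ℝ) ≤ 2 * X := by rw [Nat.cast_mul] at hnr3; exact_mod_cast hnr3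
  have hl1 : Real.log X ≤ Real.log n := Real.log_le_log hX0 hnr.le
  have hln : 0 < Real.log n := by linarith
  have hl2 : Real.log n ≤ 2 * Real.log X := by
    calc Real.log n ≤ Real.log ((X : ℝ) ^ 2) := Real.log_le_log (by linarith) (by nlinarith)
      _ = 2 * Real.log X := by rw [Real.log_pow]; norm_num
  have huv' : (u : ℝ) ≤ v := by exact_mod_cast hun.trans hnv
  have hsq : Real.log X ^ T.card ≤ Real.log n ^ T.card := pow_le_pow_left₀ hlX.le hl1 _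
  obtain ⟨f1, f2⟩ := hn3 u v hun hnv (by
    refine le_trans ?_ huv
    exact mul_le_mul_of_nonneg_left hsq (by linarith)) hvn
  have hv4 : v ≤ 4 * X := by
    have : (v : ℝ) ≤ u + n := by linarith
    have h5 : v ≤ u + n := by exact_mod_cast this
    omega
  have hz2 : (n : ℝ) ^ (1 / (R : ℝ)) ≤ ((2 * X : ℕ) : ℝ) ^ (1 / (t₀ : ℝ)) :=
    (Real.rpow_le_rpow (by linarith) hnr3 (by positivity)).trans hlev
  constructor
  · calc c₁ * ((v : ℝ) - u) / Real.log n ^ T.card ≤ c₁ * ((v : ℝ) - u) / Real.log X ^ T.card := by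
          apply div_le_div_of_nonneg_left _ (by positivity) hsq
          have : 0 ≤ (v : ℝ) - u := by linarith
          positivity
      _ ≤ (co P u v : ℝ) := f1
      _ ≤ _ := by
          unfold co
          rw [Nat.cast_le]
          apply card_le_card
          intro m hm
          rw [mem_filter, mem_Ioc, hP] at hm
          rw [mem_filter, mem_Ioc]
          obtain ⟨hm1, hm2, hmp, hm3, hm4, hm5⟩ := hm
          refine ⟨hm1, hmp, hm3, hm4, fun t ht => ⟨?_, fun q hq hd => lt_of_le_of_lt hz2 (hm5 t ht q hq hd)⟩⟩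
          apply length_le (m + t) R (by have := hmp.pos; omega) (((2 * X : ℕ) : ℝ) ^ (1 / (t₀ : ℝ))) (hm5 t ht)
          · have e1 : (((2 * X : ℕ) : ℝ) ^ (1 / (t₀ : ℝ))) ^ (R + 1) = ((2 * X : ℕ) : ℝ) ^ (2 + 2 / (t₀ : ℝ)) := by
              rw [← Real.rpow_natCast, ← Real.rpow_mul (by positivity)]
              congr 1
              rw [hR]
              push_cast
              field_simp
              ring
            rw [e1]
            have e2 : (((2 * X : ℕ) : ℝ)) ^ (2 : ℝ) ≤ ((2 * X : ℕ) : ℝ) ^ (2 + 2 / (t₀ : ℝ)) := by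
              apply Real.rpow_le_rpow_of_exponent_le h2X1
              have : 0 ≤ 2 / (t₀ : ℝ) := by positivity
              linarith
            refine le_trans ?_ e2
            rw [Real.rpow_two]
            have e3 : m + t ≤ 5 * X := by
              have := hA0 t ht
              omega
            have e4 : ((m + t : ℕ) : ℝ) ≤ 5 * X := by exact_mod_cast e3
            refine e4.trans ?_
            push_cast
            nlinarith
          · exact Real.one_le_rpow h2X1 (by positivity)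
  · calc (((Ioc u v).filter (fun p => Ch T h0 W a R ((n : ℝ) ^ (1 / (R : ℝ))) p)).card : ℝ) ≤ (co P' u v : ℝ) := by
          unfold co
          rw [Nat.cast_le]
          apply card_le_card
          intro m hm
          rw [mem_filter] at hm ⊢
          refine ⟨hm.1, ?_⟩
          rw [hP']
          intro t ht q hq hd
          refine lt_of_le_of_lt ?_ ((hm.2.2.2.2 t ht).2 q hq hd)
          exact Real.rpow_le_rpow hX0.le hnr.le (by positivity)
      _ ≤ c₂ * ((v : ℝ) - u) / Real.log X ^ T.card := f2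
      _ ≤ c₂ * 2 ^ T.card * ((v : ℝ) - u) / Real.log n ^ T.card := by
          rw [div_le_div_iff₀ (by positivity) (by positivity)]
          have h5 : Real.log n ^ T.card ≤ 2 ^ T.card * Real.log X ^ T.card := by
            rw [← mul_pow]
            exact pow_le_pow_left₀ hln.le hl2 _
          have h6 : 0 ≤ c₂ * ((v : ℝ) - u) := mul_nonneg hc₂.le (by linarith)
          calc c₂ * ((v : ℝ) - u) * Real.log n ^ T.card ≤
                c₂ * ((v : ℝ) - u) * (2 ^ T.card * Real.log X ^ T.card) :=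
                mul_le_mul_of_nonneg_left h5 h6
            _ = _ := by ring

end Pool.Agent.N39.RW
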