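import Pool.Agent.N39.RW.ChenB
import Pool.Agent.N39.RW.Pow

set_option autoImplicit false

/-!
# Regular windows for Chen tuples: lower bound for Chen tuples, upper bound for all rough tuples (helper39)
-/

namespace Pool.Agent.N39.RW

open Finset Filter Polynomial Pool.Agent.H373R2.T7 Pool.Agent.W123.RP Pool.Agent.W123.RU
open Pool.Agent.W123.RU.Poly
open Pool.Agent.W182.PW (lin lin_eval lin_irr lin_deg lin_lead lin_inj)

/-- all prime factors of the numbers `p + t`, `t ∈ T`, are larger than `z` -/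
def Ro (T : Finset ℕ) (z : ℝ) (p : ℕ) : Prop := ∀ t ∈ T, ∀ q : ℕ, q.Prime → q ∣ p + t → z < (q : ℝ)

open Classical in
/-- `n` is regular -/
def RegU (T : Finset ℕ) (h0 : ℕ) (W : Finset ℕ) (a r : ℕ) (c₁ c₂ K : ℝ) (n : ℕ) : Prop :=
  ∀ u v : ℕ, u ≤ n → n ≤ v → K * Real.log n ^ T.card ≤ (v : ℝ) - u → (v : ℝ) - u ≤ n →
    c₁ * ((v : ℝ) - u) / Real.log n ^ T.card ≤
      (((Ioc u v).filter (fun p => Ch T h0 W a r ((n : ℝ) ^ (1 / (r : ℝ))) p)).card : ℝ) ∧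
    (((Ioc u v).filter (fun p => Ro T ((n : ℝ) ^ (1 / (r : ℝ))) p)).card : ℝ) ≤
      c₂ * ((v : ℝ) - u) / Real.log n ^ T.card

open Classical in
theorem regU (T : Finset ℕ) (hT0 : 0 ∈ T) (h0 : ℕ) (h0T : h0 ∈ T) (h00 : h0 ≠ 0)
    (hadm : ∀ p : ℕ, p.Prime → ∃ m : ℕ, ∀ t ∈ T, ¬ p ∣ m + t)
    (W : Finset ℕ) (hW : ∀ q ∈ W, q.Prime) (a : ℕ) (ha : ∀ q ∈ W, ∀ t ∈ T, ¬ q ∣ a + t) :
    ∃ r : ℕ, 2 ≤ r ∧ ∃ c₁ c₂ K μ : ℝ, 0 < c₁ ∧ 0 < c₂ ∧ 1 ≤ K ∧ 0 < μ ∧ ∀ᶠ X : ℕ in atTop,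
      μ * X ≤ (((Ioc X (2 * X)).filter (fun n => RegU T h0 W a r c₁ c₂ K n)).card : ℝ) := by
  obtain ⟨t₀, ht₀, cS, hcS, hcount⟩ := countF T hT0 h0 h0T h00 hadm W hW a ha
  have ht0r : (0 : ℝ) < t₀ := by exact_mod_cast ht₀
  have ht1r : (1 : ℝ) ≤ t₀ := by exact_mod_cast ht₀
  obtain ⟨R, hR⟩ : ∃ R : ℕ, R = 2 * t₀ + 1 := ⟨_, rfl⟩
  have hRr : (R : ℝ) = 2 * t₀ + 1 := by rw [hR]; push_cast; ring
  have hR0 : (0 : ℝ) < R := by rw [hRr]; positivity
  have : Nonempty {x // x ∈ T} := ⟨⟨0, hT0⟩⟩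
  obtain ⟨c₁, c₂, K, μ, hc₁, hc₂, hK, hμ, hcore⟩ := core (fun i : {x // x ∈ T} => lin 1 ((i.1 : ℕ) : ℤ))
    (sysT T hadm) (1 / (R : ℝ)) cS (by positivity) hcS
  rw [Fintype.card_coe] at hcore
  obtain ⟨k, hk⟩ : ∃ k, k = T.card := ⟨_, rfl⟩
  obtain ⟨A0, hA0⟩ : ∃ A0 : ℕ, ∀ t ∈ T, t ≤ A0 := ⟨T.sup id, fun t ht => Finset.le_sup (f := id) ht⟩
  refine ⟨R, by omega, c₁, c₂ * 2 ^ T.card, K, μ, hc₁, by positivity, hK, hμ, ?_⟩
  filter_upwards [hcore, hcount, eventually_ge_atTop (16 + A0)] with X hcore hcount hX16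
  have hXr : (16 : ℝ) ≤ X := by exact_mod_cast (by omega : 16 ≤ X)
  have hX0 : (0 : ℝ) < X := by linarith
  have hX1 : (1 : ℝ) ≤ X := by linarith
  have h2X1 : (1 : ℝ) ≤ ((2 * X : ℕ) : ℝ) := by push_cast; linarith
  have hlX : 0 < Real.log X := Real.log_pos (by linarith)
  -- the sets
  obtain ⟨P, hP⟩ : ∃ P : ℕ → Prop, ∀ m, P m ↔ (m ≤ 4 * X ∧ m.Prime ∧ (m + h0).primeFactorsList.length ≤ 2 ∧
      (∀ q ∈ W, m % q = a % q) ∧ ∀ t ∈ T, ∀ q : ℕ, q.Prime → q ∣ m + t →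
        ((2 * X : ℕ) : ℝ) ^ (1 / (t₀ : ℝ)) < (q : ℝ)) := ⟨_, fun m => Iff.rfl⟩
  obtain ⟨P', hP'⟩ : ∃ P' : ℕ → Prop, ∀ m, P' m ↔ (∀ t ∈ T, ∀ q : ℕ, q.Prime → q ∣ m + t →
        (X : ℝ) ^ (1 / (R : ℝ)) < (q : ℝ)) := ⟨_, fun m => Iff.rfl⟩
  have hRt : 1 / (R : ℝ) ≤ 1 / (t₀ : ℝ) := by
    apply one_div_le_one_div_of_le ht0r
    rw [hRr]; linarith
  have hlev : ((2 * X : ℕ) : ℝ) ^ (1 / (R : ℝ)) ≤ ((2 * X : ℕ) : ℝ) ^ (1 / (t₀ : ℝ)) :=
    Real.rpow_le_rpow_of_exponent_le h2X1 hRt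
  have hlev2 : (X : ℝ) ^ (1 / (R : ℝ)) ≤ ((2 * X : ℕ) : ℝ) ^ (1 / (R : ℝ)) :=
    Real.rpow_le_rpow hX0.le (by push_cast; linarith) (by positivity)
  have hPP : ∀ m, P m → P' m := by
    intro m hm
    rw [hP']
    intro t ht q hq hd
    exact (hlev2.trans hlev).trans_lt (((hP m).1 hm).2.2.2.2 t ht q hq hd)
  have hPR : ∀ m, P' m → m ≤ 4 * X → Rgh (fun i : {x // x ∈ T} => lin 1 ((i.1 : ℕ) : ℤ)) ((X : ℝ) ^ (1 / (R : ℝ))) m := by
    intro m hm _ i p hp hpX hd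
    rw [lin_eval] at hd
    have h1 : (((1 : ℕ) : ℤ) * (m : ℤ) + ((i.1 : ℕ) : ℤ)) = ((m + i.1 : ℕ) : ℤ) := by push_cast; ring
    rw [h1] at hd
    have h2 := (hP' m).1 hm i.1 i.2 p hp (by exact_mod_cast hd)
    linarith
  have hcnt : cS * X / Real.log X ^ T.card ≤ (co P X (2 * X) : ℝ) := by
    refine hcount.trans ?_
    unfold co
    rw [Nat.cast_le]
    apply card_le_card
    intro m hm
    rw [mem_filter, mem_Ioc] at hm
    rw [mem_filter, mem_Ioc, hP]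
    exact ⟨hm.1, by omega, hm.2⟩
  refine (hcore P P' hPP hPR hcnt).trans ?_
  rw [Nat.cast_le]
  apply card_le_card
  intro n hn
  rw [mem_filter, mem_Ioc] at hn ⊢
  obtain ⟨⟨hn1, hn2⟩, hn3⟩ := hn
  refine ⟨⟨hn1, hn2⟩, ?_⟩
  intro u v hun hnv huv hvn
  have hnr : (X : ℝ) < n := by exact_mod_cast hn1
  have hnr3 : (n : ℝ) ≤ ((2 * X : ℕ) : ℝ) := by exact_mod_cast hn2
  have hnr2 : (n : ℝ) ≤ 2 * X := by rw [Nat.cast_mul] at hnr3; exact_mod_cast hnr3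
  have hl1 : Real.log X ≤ Real.log n := Real.log_le_log hX0 hnr.le
  have hln : 0 < Real.log n := by linarith
  have hl2 : Real.log n ≤ 2 * Real.log X := by
    calc Real.log n ≤ Real.log ((X : ℝ) ^ 2) := Real.log_le_log (by linarith) (by nlinarith)
      _ = 2 * Real.log X := by rw [Real.log_pow]; norm_num
  have huv' : (u : ℝ) ≤ v := by exact_mod_cast hun.trans hnv
  have hsq : Real.log X ^ T.card ≤ Real.log n ^ T.card := pow_le_pow_left₀ hlX.le hl1 _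
  obtain ⟨f1, f2⟩ := hn3 u v hun hnv (by
    refine le_trans ?_ huv
    exact mul_le_mul_of_nonneg_left hsq (by linarith)) hvn
  have hv4 : v ≤ 4 * X := by
    have : (v : ℝ) ≤ u + n := by linarith
    have h5 : v ≤ u + n := by exact_mod_cast this
    omega
  have hz2 : (n : ℝ) ^ (1 / (R : ℝ)) ≤ ((2 * X : ℕ) : ℝ) ^ (1 / (t₀ : ℝ)) :=
    (Real.rpow_le_rpow (by linarith) hnr3 (by positivity)).trans hlev
  constructor
  · calc c₁ * ((v : ℝ) - u) / Real.log n ^ T.card ≤ c₁ * ((v : ℝ) - u) / Real.log X ^ T.card := by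
          apply div_le_div_of_nonneg_left _ (by positivity) hsq
          have : 0 ≤ (v : ℝ) - u := by linarith
          positivity
      _ ≤ (co P u v : ℝ) := f1
      _ ≤ _ := by
          unfold co
          rw [Nat.cast_le]
          apply card_le_card
          intro m hm
          rw [mem_filter, mem_Ioc, hP] at hm
          rw [mem_filter, mem_Ioc]
          obtain ⟨hm1, hm2, hmp, hm3, hm4, hm5⟩ := hm
          refine ⟨hm1, hmp, hm3, hm4, fun t ht => ⟨?_, fun q hq hd => lt_of_le_of_lt hz2 (hm5 t ht q hq hd)⟩⟩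
          apply length_le (m + t) R (by have := hmp.pos; omega) (((2 * X : ℕ) : ℝ) ^ (1 / (t₀ : ℝ))) (hm5 t ht)
          · have e1 : (((2 * X : ℕ) : ℝ) ^ (1 / (t₀ : ℝ))) ^ (R + 1) = ((2 * X : ℕ) : ℝ) ^ (2 + 2 / (t₀ : ℝ)) := by
              rw [← Real.rpow_natCast, ← Real.rpow_mul (by positivity)]
              congr 1
              rw [hR]
              push_cast
              field_simp
              ring
            rw [e1]
            have e2 : (((2 * X : ℕ) : ℝ)) ^ (2 : ℝ) ≤ ((2 * X : ℕ) : ℝ) ^ (2 + 2 / (t₀ : ℝ)) := by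
              apply Real.rpow_le_rpow_of_exponent_le h2X1
              have : 0 ≤ 2 / (t₀ : ℝ) := by positivity
              linarith
            refine le_trans ?_ e2
            rw [Real.rpow_two]
            have e3 : m + t ≤ 5 * X := by
              have := hA0 t ht
              omega
            have e4 : ((m + t : ℕ) : ℝ) ≤ 5 * X := by exact_mod_cast e3
            refine e4.trans ?_
            push_cast
            nlinarith
          · exact Real.one_le_rpow h2X1 (by positivity)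
  · calc (((Ioc u v).filter (fun p => Ro T ((n : ℝ) ^ (1 / (R : ℝ))) p)).card : ℝ) ≤ (co P' u v : ℝ) := by
          unfold co
          rw [Nat.cast_le]
          apply card_le_card
          intro m hm
          rw [mem_filter] at hm ⊢
          refine ⟨hm.1, ?_⟩
          rw [hP']
          intro t ht q hq hd
          refine lt_of_le_of_lt ?_ (hm.2 t ht q hq hd)
          exact Real.rpow_le_rpow hX0.le hnr.le (by positivity)
      _ ≤ c₂ * ((v : ℝ) - u) / Real.log X ^ T.card := f2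
      _ ≤ c₂ * 2 ^ T.card * ((v : ℝ) - u) / Real.log n ^ T.card := by
          rw [div_le_div_iff₀ (by positivity) (by positivity)]
          have h5 : Real.log n ^ T.card ≤ 2 ^ T.card * Real.log X ^ T.card := by
            rw [← mul_pow]
            exact pow_le_pow_left₀ hln.le hl2 _
          have h6 : 0 ≤ c₂ * ((v : ℝ) - u) := mul_nonneg hc₂.le (by linarith)
          calc c₂ * ((v : ℝ) - u) * Real.log n ^ T.card ≤
                c₂ * ((v : ℝ) - u) * (2 ^ T.card * Real.log X ^ T.card) :=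
                mul_le_mul_of_nonneg_left h5 h6
            _ = _ := by ring


theorem useU (T : Finset ℕ) (hT0 : 0 ∈ T) (h0 : ℕ) (h0T : h0 ∈ T) (h00 : h0 ≠ 0)
    (hadm : ∀ p : ℕ, p.Prime → ∃ m : ℕ, ∀ t ∈ T, ¬ p ∣ m + t)
    (W : Finset ℕ) (hW : ∀ q ∈ W, q.Prime) (a : ℕ) (ha : ∀ q ∈ W, ∀ t ∈ T, ¬ q ∣ a + t) (D : ℕ) :
    ∃ (r : ℕ) (c₁ c₂ K : ℝ), 2 ≤ r ∧ 0 < c₁ ∧ 0 < c₂ ∧ 0 < K ∧
      ∀ Reg : ℕ → Prop, (∀ᶠ t : ℕ in atTop, RegU T h0 W a r c₁ c₂ K t → Reg t) →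
      (∃ μ : ℝ, 0 < μ ∧ ∀ᶠ x : ℕ in atTop, μ * x ≤ (Set.ncard {t : ℕ | t ≤ x ∧ Reg t} : ℝ)) ∧
      ∀ s : ℕ, 2 ≤ s → ∀ Q : ℕ → ℕ → Prop, (∀ᶠ m : ℕ in atTop, ∀ t p : ℕ, m ^ s < t → m ^ s < p →
        Ch T h0 W a r ((t : ℝ) ^ (1 / (r : ℝ))) p → Q m p) → ∃ ν : ℝ, 0 < ν ∧ ∀ᶠ N : ℕ in atTop, ν * N ≤
      (Set.ncard {n : ℕ | N ≤ n ∧ n < 2 * N ∧
        ν * (n : ℝ) ^ (s - 1) ≤ (Set.ncard {t : ℕ | n ^ s < t ∧ t < (n + 1) ^ s ∧ Reg t} : ℝ) ∧
        ν * (n : ℝ) ^ (s - 1) / Real.log n ^ T.card ≤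
          (Set.ncard {p : ℕ | n ^ s < p ∧ p + D < (n + 1) ^ s ∧ Q n p} : ℝ)} : ℝ) := by
  classical
  obtain ⟨r, hr, c₁, c₂, K, μ, hc₁, hc₂, hK, hμ, hreg⟩ := regU T hT0 h0 h0T h00 hadm W hW a ha
  refine ⟨r, c₁, c₂, K, hr, hc₁, hc₂, by linarith, ?_⟩
  intro Reg hReg
  obtain ⟨t₀, hReg⟩ := eventually_atTop.1 hReg
  have hreg' : ∀ᶠ X : ℕ in atTop, μ * X ≤ (((Ioc X (2 * X)).filter
      (fun t => Reg t ∧ RegU T h0 W a r c₁ c₂ K t)).card : ℝ) := by
    filter_upwards [hreg, eventually_ge_atTop t₀] with X hX hXt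
    refine hX.trans ?_
    rw [Nat.cast_le]
    apply card_le_card
    intro t ht
    rw [mem_filter] at ht ⊢
    have h1 := (mem_Ioc.1 ht.1).1
    exact ⟨ht.1, hReg t (by omega) ht.2, ht.2⟩
  refine ⟨?_, ?_⟩
  · refine ⟨μ / 4, by positivity, ?_⟩
    have hhalf : Tendsto (fun x : ℕ => x / 2) atTop atTop := Nat.tendsto_div_const_atTop (by norm_num)
    filter_upwards [hhalf.eventually hreg', eventually_ge_atTop 4] with x hx hx4
    have h1 : (((Ioc (x / 2) (2 * (x / 2))).filter (fun t => Reg t ∧ RegU T h0 W a r c₁ c₂ K t)).card : ℝ) ≤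
        (Set.ncard {t : ℕ | t ≤ x ∧ Reg t} : ℝ) := by
      rw [← Set.ncard_coe_finset, Nat.cast_le]
      refine Set.ncard_le_ncard ?_ ((Set.finite_Iic x).subset fun t ht => ht.1)
      intro t ht
      rw [mem_coe, mem_filter, mem_Ioc] at ht
      exact ⟨by omega, ht.2.1⟩
    refine le_trans ?_ (hx.trans h1)
    have h3 : (x : ℝ) ≤ 4 * ((x / 2 : ℕ) : ℝ) := by
      have : x ≤ 4 * (x / 2) := by omega
      exact_mod_cast this
    calc μ / 4 * x ≤ μ / 4 * (4 * ((x / 2 : ℕ) : ℝ)) := by gcongr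
      _ = _ := by ring
  · intro s hs Q hQ
    obtain ⟨p₀, hQ⟩ := eventually_atTop.1 hQ
    obtain ⟨ν, hν, hpow⟩ := powers s hs μ hμ
    obtain ⟨ν', hν', hwin⟩ := pow_window s hs T.card K c₁ (D + 1) (by linarith) hc₁ (by positivity)
    refine ⟨min ν ν', lt_min hν hν', ?_⟩
    have hNs : Tendsto (fun N : ℕ => N ^ s) atTop atTop := tendsto_pow_atTop (by omega)
    obtain ⟨m₀, hwin⟩ := eventually_atTop.1 hwin
    filter_upwards [hpow, hNs.eventually hreg', eventually_ge_atTop (m₀ + p₀ + 2)] with N h1 h2 hN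
    have h3 := h1 ((Ioc (N ^ s) (2 * N ^ s)).filter (fun t => Reg t ∧ RegU T h0 W a r c₁ c₂ K t)) (by
        intro t ht
        rw [mem_filter, mem_Ioc] at ht
        rw [mem_Ioc]
        exact ⟨ht.1.1, by omega⟩) (by
        refine le_trans ?_ h2
        push_cast
        exact le_rfl)
    have hN0 : (0 : ℝ) < N := by exact_mod_cast (by omega : 0 < N)
    refine (mul_le_mul_of_nonneg_right (min_le_left ν ν') hN0.le).trans (h3.trans ?_)
    rw [← Set.ncard_coe_finset, Nat.cast_le]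
    refine Set.ncard_le_ncard ?_ ((Set.finite_Iio (2 * N)).subset fun n hn => hn.2.1)
    intro m hm
    rw [mem_coe, mem_filter, mem_Ico] at hm
    obtain ⟨⟨hm1, hm2⟩, hm3⟩ := hm
    have hm0 : (0 : ℝ) < m := by exact_mod_cast (by omega : 0 < m)
    have hms : m ≤ m ^ s := Nat.le_self_pow (by omega) m
    have hsub : ((((Ioc (N ^ s) (2 * N ^ s)).filter (fun t => Reg t ∧ RegU T h0 W a r c₁ c₂ K t)).filter
        (fun t : ℕ => m ^ s < t ∧ t < (m + 1) ^ s)).card : ℝ) ≤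
        (Set.ncard {t : ℕ | m ^ s < t ∧ t < (m + 1) ^ s ∧ Reg t} : ℝ) := by
      rw [← Set.ncard_coe_finset, Nat.cast_le]
      refine Set.ncard_le_ncard ?_ ((Set.finite_Iio ((m + 1) ^ s)).subset fun t ht => ht.2.1)
      intro t ht
      rw [mem_coe, mem_filter, mem_filter] at ht
      exact ⟨ht.2.1, ht.2.2, ht.1.2.1⟩
    refine ⟨hm1, hm2, (mul_le_mul_of_nonneg_right (min_le_left ν ν') (by positivity)).trans (hm3.trans hsub), ?_⟩
    -- one regular point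
    have hpos : 0 < (((Ioc (N ^ s) (2 * N ^ s)).filter (fun t => Reg t ∧ RegU T h0 W a r c₁ c₂ K t)).filter
        (fun t : ℕ => m ^ s < t ∧ t < (m + 1) ^ s)).card := by
      have : (0 : ℝ) < ν * (m : ℝ) ^ (s - 1) := by positivity
      exact_mod_cast lt_of_lt_of_le this hm3
    obtain ⟨t, ht⟩ := card_pos.1 hpos
    rw [mem_filter, mem_filter] at ht
    obtain ⟨⟨-, -, htr⟩, ht1, ht2⟩ := ht
    obtain ⟨w1, w2, w3⟩ := hwin m (by omega) t ht1 ht2
    have htv : t ≤ (m + 1) ^ s - 1 := by omega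
    have w4 := (htr (m ^ s) ((m + 1) ^ s - 1) ht1.le htv w1 w2).1
    have w5 : ((Ioc (m ^ s) ((m + 1) ^ s - 1)).filter
        (fun p => Ch T h0 W a r ((t : ℝ) ^ (1 / (r : ℝ))) p)).card ≤
        Set.ncard {p : ℕ | m ^ s < p ∧ p + D < (m + 1) ^ s ∧ Q m p} + (D + 1) := by
      rw [← Set.ncard_coe_finset]
      have e1 : (((Ioc (m ^ s) ((m + 1) ^ s - 1)).filter
          (fun p => Ch T h0 W a r ((t : ℝ) ^ (1 / (r : ℝ))) p) : Finset ℕ) : Set ℕ) ⊆
          {p : ℕ | m ^ s < p ∧ p + D < (m + 1) ^ s ∧ Q m p} ∪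
            (((Finset.range (D + 1)).image (fun i => (m + 1) ^ s - 1 - i) : Finset ℕ) : Set ℕ) := by
        intro p hp
        rw [mem_coe, mem_filter, mem_Ioc] at hp
        obtain ⟨⟨a1, a2⟩, a3⟩ := hp
        by_cases hlt : p + D < (m + 1) ^ s
        · left
          exact ⟨a1, hlt, hQ m (by omega) t p ht1 a1 a3⟩
        · right
          rw [mem_coe, mem_image]
          exact ⟨(m + 1) ^ s - 1 - p, by rw [Finset.mem_range]; omega, by omega⟩
      have hfin : ({p : ℕ | m ^ s < p ∧ p + D < (m + 1) ^ s ∧ Q m p}).Finite :=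
        (Set.finite_Iio ((m + 1) ^ s)).subset fun p hp => by
          have := hp.2.1
          show p < (m + 1) ^ s
          omega
      refine (Set.ncard_le_ncard e1 (hfin.union (Finset.finite_toSet _))).trans
        ((Set.ncard_union_le _ _).trans (Nat.add_le_add_left ?_ _))
      rw [Set.ncard_coe_finset]
      exact card_image_le.trans (by rw [card_range])
    have w6 : (((Ioc (m ^ s) ((m + 1) ^ s - 1)).filter
        (fun p => Ch T h0 W a r ((t : ℝ) ^ (1 / (r : ℝ))) p)).card : ℝ) ≤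
        (Set.ncard {p : ℕ | m ^ s < p ∧ p + D < (m + 1) ^ s ∧ Q m p} : ℝ) + (D + 1) := by exact_mod_cast w5
    have hlm : 0 ≤ Real.log (m : ℝ) := Real.log_natCast_nonneg m
    calc min ν ν' * (m : ℝ) ^ (s - 1) / Real.log m ^ T.card ≤ ν' * (m : ℝ) ^ (s - 1) / Real.log m ^ T.card := by
          gcongr
          exact min_le_right _ _
      _ ≤ _ := by linarith

end Pool.Agent.N39.RW
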