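import Pool.Agent.N39.RW.ChenC
import Pool.Agent.N39.RW.Diff

set_option autoImplicit false

/-!
# Differences of Chen tuples (helper39)
-/

namespace Pool.Agent.N39.RW

open Finset Filter Polynomial Pool.Agent.H373R2.T7 Pool.Agent.W123.RP Pool.Agent.W123.RU
open Pool.Agent.W123.RU.Poly
open Pool.Agent.W182.PW (lin lin_eval lin_irr lin_deg lin_lead lin_inj)

open Classical in
theorem diffT (T : Finset ℕ) (hT0 : 0 ∈ T) (h0 : ℕ) (h0T : h0 ∈ T) (h00 : h0 ≠ 0)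
    (hadm : ∀ p : ℕ, p.Prime → ∃ m : ℕ, ∀ t ∈ T, ¬ p ∣ m + t)
    (W : Finset ℕ) (hW : ∀ q ∈ W, q.Prime) (a : ℕ) (ha : ∀ q ∈ W, ∀ t ∈ T, ¬ q ∣ a + t) :
    ∃ r : ℕ, 2 ≤ r ∧ ∃ c C K : ℝ, 0 < c ∧ 0 < C ∧ 0 < K ∧ ∀ᶠ X : ℕ in atTop,
      ∀ H : ℕ, K * Real.log X ^ T.card ≤ H → H ≤ X →
      c * H ≤ (((Icc 1 H).filter (fun d : ℕ =>
        c * X / Real.log X ^ (2 * T.card) ≤ (((Ioc X (2 * X)).filter (fun p => p + d ≤ 2 * X ∧
          Ch T h0 W a r ((X : ℝ) ^ (1 / (r : ℝ))) p ∧ Ch T h0 W a r ((X : ℝ) ^ (1 / (r : ℝ))) (p + d))).card : ℝ) ∧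
        (((Ioc X (2 * X)).filter (fun p => p + d ≤ 2 * X ∧
          Ro T ((X : ℝ) ^ (1 / (r : ℝ))) p ∧ Ro T ((X : ℝ) ^ (1 / (r : ℝ))) (p + d))).card : ℝ) ≤
            C * X / Real.log X ^ (2 * T.card))).card : ℝ) := by
  obtain ⟨t₀, ht₀, cS, hcS, hcount⟩ := countF T hT0 h0 h0T h00 hadm W hW a ha
  have ht0r : (0 : ℝ) < t₀ := by exact_mod_cast ht₀
  have ht1r : (1 : ℝ) ≤ t₀ := by exact_mod_cast ht₀
  obtain ⟨R, hR⟩ : ∃ R : ℕ, R = 2 * t₀ + 1 := ⟨_, rfl⟩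
  have hRr : (R : ℝ) = 2 * t₀ + 1 := by rw [hR]; push_cast; ring
  have hR0 : (0 : ℝ) < R := by rw [hRr]; positivity
  have : Nonempty {x // x ∈ T} := ⟨⟨0, hT0⟩⟩
  obtain ⟨c, C, K, hc, hC, hK, hd⟩ := diffs (fun i : {x // x ∈ T} => lin 1 ((i.1 : ℕ) : ℤ))
    (sysT T hadm) (1 / (R : ℝ)) cS (by positivity) hcS
  rw [Fintype.card_coe] at hd
  obtain ⟨A0, hA0⟩ : ∃ A0 : ℕ, ∀ t ∈ T, t ≤ A0 := ⟨T.sup id, fun t ht => Finset.le_sup (f := id) ht⟩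
  refine ⟨R, by omega, c, C, K, hc, hC, hK, ?_⟩
  filter_upwards [hd, hcount, eventually_ge_atTop (16 + A0)] with X hd hcount hX16
  intro H hH1 hH2
  have hXr : (16 : ℝ) ≤ X := by exact_mod_cast (by omega : 16 ≤ X)
  have hX0 : (0 : ℝ) < X := by linarith
  have hX1 : (1 : ℝ) ≤ X := by linarith
  have h2X1 : (1 : ℝ) ≤ ((2 * X : ℕ) : ℝ) := by push_cast; linarith
  obtain ⟨A, hA⟩ : ∃ A : Finset ℕ, A = (Ioc X (2 * X)).filter (fun p => p.Prime ∧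
      (p + h0).primeFactorsList.length ≤ 2 ∧ (∀ q ∈ W, p % q = a % q) ∧ ∀ t ∈ T, ∀ q : ℕ, q.Prime → q ∣ p + t →
          ((2 * X : ℕ) : ℝ) ^ (1 / (t₀ : ℝ)) < (q : ℝ)) := ⟨_, rfl⟩
  obtain ⟨A', hA'⟩ : ∃ A' : Finset ℕ, A' = (Ioc X (2 * X)).filter (fun p =>
      Ro T ((X : ℝ) ^ (1 / (R : ℝ))) p) := ⟨_, rfl⟩
  rw [← hA] at hcount
  have hRt : 1 / (R : ℝ) ≤ 1 / (t₀ : ℝ) := by
    apply one_div_le_one_div_of_le ht0r
    rw [hRr]; linarith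
  have hlev : (X : ℝ) ^ (1 / (R : ℝ)) ≤ ((2 * X : ℕ) : ℝ) ^ (1 / (t₀ : ℝ)) :=
    (Real.rpow_le_rpow hX0.le (by push_cast; linarith) (by positivity)).trans
      (Real.rpow_le_rpow_of_exponent_le h2X1 hRt)
  have hch : ∀ p ∈ A, Ch T h0 W a R ((X : ℝ) ^ (1 / (R : ℝ))) p := by
    intro p hp
    rw [hA, mem_filter, mem_Ioc] at hp
    obtain ⟨⟨hp1, hp2⟩, hm2, hm3, hm4, hm5⟩ := hp
    refine ⟨hm2, hm3, hm4, fun t ht => ⟨?_, fun q hq hd => lt_of_le_of_lt hlev (hm5 t ht q hq hd)⟩⟩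
    apply length_le (p + t) R (by have := hm2.pos; omega) (((2 * X : ℕ) : ℝ) ^ (1 / (t₀ : ℝ))) (hm5 t ht)
    · have e1 : (((2 * X : ℕ) : ℝ) ^ (1 / (t₀ : ℝ))) ^ (R + 1) = ((2 * X : ℕ) : ℝ) ^ (2 + 2 / (t₀ : ℝ)) := by
        rw [← Real.rpow_natCast, ← Real.rpow_mul (by positivity)]
        congr 1
        rw [hR]
        push_cast
        field_simp
        ring
      rw [e1]
      have e2 : (((2 * X : ℕ) : ℝ)) ^ (2 : ℝ) ≤ ((2 * X : ℕ) : ℝ) ^ (2 + 2 / (t₀ : ℝ)) := by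
        apply Real.rpow_le_rpow_of_exponent_le h2X1
        have : 0 ≤ 2 / (t₀ : ℝ) := by positivity
        linarith
      refine le_trans ?_ e2
      rw [Real.rpow_two]
      have e3 : p + t ≤ 5 * X := by
        have := hA0 t ht
        omega
      have e4 : ((p + t : ℕ) : ℝ) ≤ 5 * X := by exact_mod_cast e3
      refine e4.trans ?_
      push_cast
      nlinarith
    · exact Real.one_le_rpow h2X1 (by positivity)
  have hAA : A ⊆ A' := by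
    intro p hp
    have h1 := hch p hp
    rw [hA']
    rw [hA, mem_filter] at hp
    rw [mem_filter]
    exact ⟨hp.1, fun t ht => (h1.2.2.2 t ht).2⟩
  have hfin := hd A A' hAA (by rw [hA']; exact filter_subset _ _) (by
    intro m hm
    rw [hA', mem_filter] at hm
    rw [rgh_iff]
    intro t ht q hq hqz hdv
    exact absurd (hm.2 t ht q hq hdv) (not_lt.2 hqz)) hcount H hH1 hH2
  refine hfin.trans ?_
  rw [Nat.cast_le]
  apply card_le_card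
  intro d hdd
  rw [mem_filter] at hdd ⊢
  refine ⟨hdd.1, hdd.2.1.trans ?_, le_trans ?_ hdd.2.2⟩
  · rw [Nat.cast_le]
    unfold rr
    apply card_le_card
    intro p hp
    rw [mem_filter] at hp
    rw [mem_filter]
    have h1 := hp.1
    have h2 := hp.2
    rw [hA, mem_filter] at h1 h2
    exact ⟨h1.1, (mem_Ioc.1 h2.1).2, hch p hp.1, hch _ hp.2⟩
  · rw [Nat.cast_le]
    unfold rr
    apply card_le_card
    intro p hp
    rw [mem_filter] at hp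
    rw [mem_filter, hA', mem_filter, mem_filter]
    have h1 := mem_Ioc.1 hp.1
    exact ⟨⟨hp.1, hp.2.2.1⟩, mem_Ioc.2 ⟨by omega, hp.2.1⟩, hp.2.2.2⟩

end Pool.Agent.N39.RW
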