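import Pool.Agent.W123.RU.PolyV

set_option autoImplicit false

/-!
# Regular windows for dense subsets of sieved sets (helper39)

`Pool.Agent.W123.RU.sieve_regular` applied to an arbitrary set of integers at which all polynomials of a system have
values free of small prime factors and which has the right order of magnitude in `(X, 2X]`.
-/

namespace Pool.Agent.N39.RW

open Finset Filter Polynomial Pool.Agent.H373R2.T7 Pool.Agent.W123.RP Pool.Agent.W123.RU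
open Pool.Agent.W123.RU.Poly

/-- all values are free of primes up to `z` -/
def Rgh {ι : Type} (f : ι → ℤ[X]) (z : ℝ) (m : ℕ) : Prop :=
  ∀ i, ∀ p : ℕ, p.Prime → (p : ℝ) ≤ z → ¬ (p : ℤ) ∣ (f i).eval (m : ℤ)

open Classical in
/-- regular windows for dense subsets -/
theorem core {ι : Type} [Fintype ι] [Nonempty ι] (f : ι → ℤ[X]) (hg : Sys f) (κ cS : ℝ) (hκ : 0 < κ)
    (hcS : 0 < cS) :
    ∃ c₁ c₂ K μ : ℝ, 0 < c₁ ∧ 0 < c₂ ∧ 1 ≤ K ∧ 0 < μ ∧ ∀ᶠ X : ℕ in atTop, ∀ P P' : ℕ → Prop,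
      (∀ m, P m → P' m) →
      (∀ m, P' m → m ≤ 4 * X → Rgh f ((X : ℝ) ^ κ) m) →
      cS * X / Real.log X ^ (Fintype.card ι) ≤ (co P X (2 * X) : ℝ) →
      μ * X ≤ (((Finset.Ioc X (2 * X)).filter (fun n => ∀ a b : ℕ, a ≤ n → n ≤ b →
        K * Real.log X ^ (Fintype.card ι) ≤ (b : ℝ) - a → (b : ℝ) - a ≤ n →
          c₁ * ((b : ℝ) - a) / Real.log X ^ (Fintype.card ι) ≤ co P a b ∧
            (co P' a b : ℝ) ≤ c₂ * ((b : ℝ) - a) / Real.log X ^ (Fintype.card ι))).card : ℝ) := by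
  obtain ⟨k, hk⟩ : ∃ k, k = Fintype.card ι := ⟨_, rfl⟩
  have hk1 : 1 ≤ k := by rw [hk]; exact Fintype.card_pos
  rw [← hk]
  obtain ⟨c, hc, hQ⟩ := exists_c f hg
  obtain ⟨D', e, hlarge⟩ := exists_large f hg
  obtain ⟨v, Cv, hv, hCv, hV⟩ := V_bounds f hg
  rw [← hk] at hV
  obtain ⟨K1, hK1, hmain⟩ := sieve_regular c (2 * c) (c ^ 2) D' e hc
  obtain ⟨R, hR⟩ : ∃ R : ℕ, R = max K1 ⌈1 / κ⌉₊ := ⟨_, rfl⟩
  have hR1 : K1 ≤ R := by rw [hR]; exact le_max_left _ _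
  have hR0 : 2 ≤ R := hK1.trans hR1
  have hRr : (2 : ℝ) ≤ R := by exact_mod_cast hR0
  have hRpos : (0 : ℝ) < R := by linarith
  have hRκ : 1 / (R : ℝ) ≤ κ := by
    have h1 : 1 / κ ≤ (⌈1 / κ⌉₊ : ℝ) := Nat.le_ceil _
    have h2 : ((⌈1 / κ⌉₊ : ℕ) : ℝ) ≤ R := by
      rw [hR]; exact_mod_cast le_max_right _ _
    rw [div_le_iff₀ hRpos]
    have h3 : 1 / κ ≤ R := h1.trans h2
    rw [div_le_iff₀ hκ] at h3
    linarith
  set C3 : ℝ := Cv * (2 * R) ^ k with hC3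
  have hC30 : 0 < C3 := by positivity
  obtain ⟨c₁, c₂, K, μ, L0, hc₁, hc₂, hK, hμ, hreg⟩ := hmain R hR1 cS C3 hcS hC30
  refine ⟨c₁, c₂, K, μ, hc₁, hc₂, hK, hμ, ?_⟩
  have hXr : Tendsto (fun X : ℕ => (X : ℝ)) atTop atTop := tendsto_natCast_atTop_atTop
  have hpow : Tendsto (fun X : ℕ => (X : ℝ) ^ (1 / (2 * R : ℝ))) atTop atTop :=
    (tendsto_rpow_atTop (by positivity)).comp hXr
  have hlogX : Tendsto (fun X : ℕ => Real.log (X : ℝ)) atTop atTop :=
    Real.tendsto_log_atTop.comp hXr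
  filter_upwards [hreg, eventually_ge_atTop 16, hpow.eventually_ge_atTop 3,
    hlogX.eventually_ge_atTop (2 + |L0|), logpow_le (8 * k) 1 (by norm_num)] with X hreg hX16 hX2 hXlog hlp
  intro P P' hPP hP' hcnt
  have hX16r : (16 : ℝ) ≤ X := by exact_mod_cast hX16
  have hXpos : (0 : ℝ) < X := by linarith
  have hX1 : (1 : ℝ) ≤ X := by linarith
  have hL0a : 0 ≤ |L0| := abs_nonneg _
  have hlX1 : 1 ≤ Real.log X := by linarith
  set L : ℝ := Real.log X ^ k with hL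
  have hlL : Real.log X ≤ L := by
    calc Real.log X = Real.log X ^ 1 := (pow_one _).symm
      _ ≤ Real.log X ^ k := pow_le_pow_right₀ hlX1 hk1
  have hL8 : L ^ 8 ≤ X := by
    rw [hL, ← pow_mul, mul_comm k 8]
    linarith
  obtain ⟨hy1, hy2, hy3, hy4⟩ := level_low R hR0 X (by omega) (by linarith)
  have hy5 : 3 ≤ ⌊(X : ℝ) ^ (1 / (R : ℝ))⌋₊ := by
    have : (3 : ℝ) ≤ ⌊(X : ℝ) ^ (1 / (R : ℝ))⌋₊ := hX2.trans hy1
    exact_mod_cast this
  have hlX : 0 < Real.log X := by linarith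
  have hVy : Vq (Q f) ⌊(X : ℝ) ^ (1 / (R : ℝ))⌋₊ ≤ C3 / L := by
    refine (hV _ hy5).2.trans ?_
    have h1 : (Real.log X / (2 * R)) ^ k ≤ Real.log ⌊(X : ℝ) ^ (1 / (R : ℝ))⌋₊ ^ k :=
      pow_le_pow_left₀ (by positivity) hy2 k
    calc Cv / Real.log ⌊(X : ℝ) ^ (1 / (R : ℝ))⌋₊ ^ k ≤ Cv / (Real.log X / (2 * R)) ^ k := by gcongr
      _ = C3 / L := by rw [hC3, hL, div_pow]; field_simp
  obtain ⟨E0, hE0, hlarge'⟩ := hlarge ⌊L⌋₊
  refine hreg (Q f) (CoG (Q f)) L E0 (sdata f hg c hQ) (by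
    have := le_abs_self L0
    linarith) hL8 hVy hE0 (hlarge' _) P P' hPP ?_ hcnt
  intro m hm hm4 _ p hp hq
  obtain ⟨i, hi⟩ := hq
  refine hP' m hm hm4 i p (mem_pz.1 hp).2 ?_ hi
  refine (mem_pz' (by positivity) hp).trans ?_
  exact Real.rpow_le_rpow_of_exponent_le hX1 hRκ

/-- large terms -/
theorem many_large (I : Finset ℕ) (f : ℕ → ℕ) (T D t : ℝ) (hT : T ≤ ∑ i ∈ I, (f i : ℝ))
    (hD : ∀ i ∈ I, (f i : ℝ) ≤ D) (ht : (I.card : ℝ) * t ≤ T / 2) (ht0 : 0 ≤ t) :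
    T / 2 ≤ D * ((I.filter (fun i => t ≤ (f i : ℝ))).card : ℝ) := by
  classical
  rw [← sum_filter_add_sum_filter_not I (fun i => t ≤ (f i : ℝ))] at hT
  have h1 : ∑ i ∈ I.filter (fun i => t ≤ (f i : ℝ)), (f i : ℝ) ≤
      D * ((I.filter (fun i => t ≤ (f i : ℝ))).card : ℝ) := by
    calc ∑ i ∈ I.filter (fun i => t ≤ (f i : ℝ)), (f i : ℝ) ≤
        ∑ _i ∈ I.filter (fun i => t ≤ (f i : ℝ)), D :=
          sum_le_sum fun i hi => hD i (mem_filter.1 hi).1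
      _ = _ := by rw [sum_const, nsmul_eq_mul, mul_comm]
  have h2 : ∑ i ∈ I.filter (fun i => ¬ t ≤ (f i : ℝ)), (f i : ℝ) ≤ T / 2 := by
    calc ∑ i ∈ I.filter (fun i => ¬ t ≤ (f i : ℝ)), (f i : ℝ) ≤
        ∑ _i ∈ I.filter (fun i => ¬ t ≤ (f i : ℝ)), t :=
          sum_le_sum fun i hi => (not_le.1 (mem_filter.1 hi).2).le
      _ ≤ ∑ _i ∈ I, t := sum_le_sum_of_subset_of_nonneg (filter_subset _ _) fun _ _ _ => ht0
      _ = (I.card : ℝ) * t := by rw [sum_const, nsmul_eq_mul]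
      _ ≤ T / 2 := ht
  linarith

theorem pow_step (s m : ℕ) : (m + 1) ^ s ≤ m ^ s + s * (m + 1) ^ (s - 1) := by
  induction s with
  | zero => simp
  | succ s ih =>
    rcases Nat.eq_zero_or_pos s with h0 | h0
    · subst h0; simp
    · have e : s + 1 - 1 = (s - 1) + 1 := by omega
      have e2 : (m + 1) ^ (s + 1 - 1) = (m + 1) ^ (s - 1) * (m + 1) := by rw [e, pow_succ]
      have e3 : (m + 1) ^ (s + 1 - 1) = (m + 1) ^ s := rfl
      have e4 : m ^ s ≤ (m + 1) ^ s := Nat.pow_le_pow_left (by omega) _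
      calc (m + 1) ^ (s + 1) = (m + 1) ^ s * (m + 1) := pow_succ _ _
        _ ≤ (m ^ s + s * (m + 1) ^ (s - 1)) * (m + 1) := Nat.mul_le_mul_right _ ih
        _ = m ^ (s + 1) + m ^ s + s * ((m + 1) ^ (s - 1) * (m + 1)) := by rw [pow_succ]; ring
        _ ≤ m ^ (s + 1) + (m + 1) ^ s + s * (m + 1) ^ s := by rw [← e2, e3]; omega
        _ = m ^ (s + 1) + (s + 1) * (m + 1) ^ (s + 1 - 1) := by rw [e3]; ring

theorem root (s : ℕ) (hs : 1 ≤ s) (p : ℕ) : ∃ m : ℕ, m ^ s ≤ p ∧ p < (m + 1) ^ s := by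
  classical
  have hex : ∃ m : ℕ, p < (m + 1) ^ s := by
    refine ⟨p, ?_⟩
    calc p < p + 1 := by omega
      _ = (p + 1) ^ 1 := (pow_one _).symm
      _ ≤ (p + 1) ^ s := Nat.pow_le_pow_right (by omega) hs
  refine ⟨Nat.find hex, ?_, Nat.find_spec hex⟩
  by_contra hcon
  push Not at hcon
  rcases Nat.eq_zero_or_pos (Nat.find hex) with h0 | h0
  · rw [h0, zero_pow (by omega)] at hcon
    omega
  · have h1 := Nat.find_min hex (m := Nat.find hex - 1) (by omega)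
    apply h1
    have : Nat.find hex - 1 + 1 = Nat.find hex := by omega
    rw [this]
    exact hcon

/-- a positive proportion of the intervals between consecutive powers carries a positive proportion of
a set of positive density -/
theorem powers (s : ℕ) (hs : 2 ≤ s) (μ : ℝ) (hμ : 0 < μ) : ∃ ν : ℝ, 0 < ν ∧ ∀ᶠ N : ℕ in atTop,
    ∀ S : Finset ℕ, S ⊆ Ioc (N ^ s) (4 * N ^ s) → μ * (N : ℝ) ^ s ≤ (S.card : ℝ) →
      ν * N ≤ (((Ico N (2 * N)).filter (fun m : ℕ => ν * (m : ℝ) ^ (s - 1) ≤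
        ((S.filter (fun n : ℕ => m ^ s < n ∧ n < (m + 1) ^ s)).card : ℝ))).card : ℝ) := by
  have hs0 : (0 : ℝ) < s := by exact_mod_cast (by omega : 0 < s)
  obtain ⟨D, hD⟩ : ∃ D : ℝ, D = s * 2 ^ (s - 1) := ⟨_, rfl⟩
  have hD0 : 0 < D := by rw [hD]; positivity
  refine ⟨min (μ / (4 * D)) (μ / (4 * 2 ^ (s - 1))), by positivity, ?_⟩
  filter_upwards [eventually_ge_atTop 1,
    tendsto_natCast_atTop_atTop.eventually_ge_atTop (4 / μ)] with N hN1 hNμ
  intro S hS hSc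
  have hNr : (1 : ℝ) ≤ N := by exact_mod_cast hN1
  have hN0 : (0 : ℝ) < N := by linarith
  have hsplit : (N : ℝ) ^ s = (N : ℝ) ^ (s - 1) * N := by
    rw [← pow_succ]
    congr 1
    omega
  have hpow1 : (N : ℝ) ≤ (N : ℝ) ^ (s - 1) := by
    calc (N : ℝ) = (N : ℝ) ^ 1 := (pow_one _).symm
      _ ≤ (N : ℝ) ^ (s - 1) := pow_le_pow_right₀ hNr (by omega)
  set f : ℕ → ℕ := fun m => (S.filter (fun n => m ^ s < n ∧ n < (m + 1) ^ s)).card with hf
  have hcov : S ⊆ (Ico N (2 * N)).biUnion (fun m => S.filter (fun n => m ^ s < n ∧ n < (m + 1) ^ s)) ∪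
      (Ico N (2 * N + 1)).image (fun m => m ^ s) := by
    intro n hn
    have h1 := hS hn
    rw [mem_Ioc] at h1
    obtain ⟨m, hm1, hm2⟩ := root s (by omega) n
    have hmN : N ≤ m := by
      by_contra hcon
      have : (m + 1) ^ s ≤ N ^ s := Nat.pow_le_pow_left (by omega) _
      omega
    have h4 : 4 * N ^ s ≤ (2 * N) ^ s := by
      rw [mul_pow]
      apply Nat.mul_le_mul_right
      calc 4 = 2 ^ 2 := by norm_num
        _ ≤ 2 ^ s := Nat.pow_le_pow_right (by norm_num) hs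
    have hm2N : m ≤ 2 * N := by
      by_contra hcon
      have e1 : (2 * N + 1) ^ s ≤ m ^ s := Nat.pow_le_pow_left (by omega) _
      have e2 : (2 * N) ^ s < (2 * N + 1) ^ s := Nat.pow_lt_pow_left (by omega) (by omega)
      omega
    rw [mem_union, mem_biUnion, mem_image]
    by_cases he : n = m ^ s
    · right
      exact ⟨m, mem_Ico.2 ⟨hmN, by omega⟩, he.symm⟩
    · left
      have hlt : m ^ s < n := lt_of_le_of_ne hm1 (Ne.symm he)
      refine ⟨m, mem_Ico.2 ⟨hmN, ?_⟩, mem_filter.2 ⟨hn, hlt, hm2⟩⟩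
      rcases Nat.lt_or_ge m (2 * N) with h | h
      · exact h
      · have : m = 2 * N := by omega
        subst this
        omega
  have hsum : (S.card : ℝ) ≤ ∑ m ∈ Ico N (2 * N), (f m : ℝ) + (N + 1) := by
    have e1 := (card_le_card hcov).trans (card_union_le _ _)
    have e2 : ((Ico N (2 * N)).biUnion (fun m => S.filter (fun n => m ^ s < n ∧ n < (m + 1) ^ s))).card ≤
        ∑ m ∈ Ico N (2 * N), f m := card_biUnion_le
    have e3 : ((Ico N (2 * N + 1)).image (fun m => m ^ s)).card ≤ N + 1 := by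
      refine card_image_le.trans ?_
      rw [Nat.card_Ico]
      omega
    have e4 : S.card ≤ ∑ m ∈ Ico N (2 * N), f m + (N + 1) := by omega
    exact_mod_cast e4
  have hT : μ / 2 * (N : ℝ) ^ s ≤ ∑ m ∈ Ico N (2 * N), (f m : ℝ) := by
    have e1 : (N : ℝ) + 1 ≤ μ / 2 * (N : ℝ) ^ s := by
      rw [hsplit]
      have e2 : 4 ≤ N * μ := by rwa [div_le_iff₀ hμ] at hNμ
      have e3 : 4 * (N : ℝ) ≤ μ * ((N : ℝ) ^ (s - 1) * N) := by
        calc 4 * (N : ℝ) ≤ (N * μ) * N := by gcongr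
          _ = μ * (N * N) := by ring
          _ ≤ μ * ((N : ℝ) ^ (s - 1) * N) := by gcongr
      linarith
    linarith
  have hup : ∀ m ∈ Ico N (2 * N), (f m : ℝ) ≤ D * (N : ℝ) ^ (s - 1) := by
    intro m hm
    rw [mem_Ico] at hm
    have e1 : f m ≤ s * (2 * N) ^ (s - 1) := by
      calc f m ≤ (Ioo (m ^ s) ((m + 1) ^ s)).card := by
            apply card_le_card
            intro n hn
            rw [mem_filter] at hn
            exact mem_Ioo.2 hn.2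
        _ ≤ s * (m + 1) ^ (s - 1) := by
            rw [Nat.card_Ioo]
            have := pow_step s m
            omega
        _ ≤ s * (2 * N) ^ (s - 1) := Nat.mul_le_mul_left _ (Nat.pow_le_pow_left (by omega) _)
    calc (f m : ℝ) ≤ ((s * (2 * N) ^ (s - 1) : ℕ) : ℝ) := by exact_mod_cast e1
      _ = D * (N : ℝ) ^ (s - 1) := by
          rw [hD]
          push_cast
          rw [mul_pow]
          ring
  have hml := many_large (Ico N (2 * N)) f (μ / 2 * (N : ℝ) ^ s) (D * (N : ℝ) ^ (s - 1))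
    (μ / 4 * (N : ℝ) ^ (s - 1)) hT hup (by
      rw [Nat.card_Ico]
      have e1 : ((2 * N - N : ℕ) : ℝ) = N := by
        congr 1
        omega
      rw [e1, hsplit]
      apply le_of_eq
      ring) (by positivity)
  set Z : ℝ := (((Ico N (2 * N)).filter (fun m => μ / 4 * (N : ℝ) ^ (s - 1) ≤ (f m : ℝ))).card : ℝ) with hZ
  have hgood : min (μ / (4 * D)) (μ / (4 * 2 ^ (s - 1))) * N ≤ Z := by
    refine (mul_le_mul_of_nonneg_right (min_le_left _ _) hN0.le).trans ?_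
    have e0 : 0 < (N : ℝ) ^ (s - 1) := by positivity
    have e1 : μ / 4 * N * (N : ℝ) ^ (s - 1) ≤ D * Z * (N : ℝ) ^ (s - 1) := by
      calc μ / 4 * N * (N : ℝ) ^ (s - 1) = μ / 2 * (N : ℝ) ^ s / 2 := by rw [hsplit]; ring
        _ ≤ D * (N : ℝ) ^ (s - 1) * Z := hml
        _ = _ := by ring
    have e2 := le_of_mul_le_mul_right e1 e0
    rw [div_mul_eq_mul_div, div_le_iff₀ (by positivity)]
    linarith
  refine hgood.trans ?_
  rw [hZ, Nat.cast_le]
  apply card_le_card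
  intro m hm
  rw [mem_filter] at hm ⊢
  refine ⟨hm.1, le_trans ?_ hm.2⟩
  have hm2 : (m : ℝ) ≤ 2 * N := by
    have := (mem_Ico.1 hm.1).2
    exact_mod_cast this.le
  calc min (μ / (4 * D)) (μ / (4 * 2 ^ (s - 1))) * (m : ℝ) ^ (s - 1) ≤
      μ / (4 * 2 ^ (s - 1)) * (2 * (N : ℝ)) ^ (s - 1) :=
        mul_le_mul (min_le_right _ _) (pow_le_pow_left₀ (Nat.cast_nonneg _) hm2 _) (by positivity) (by positivity)
    _ = μ / 4 * (N : ℝ) ^ (s - 1) := by
        rw [mul_pow]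
        field_simp

end Pool.Agent.N39.RW
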