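import Pool.Agent.N39.RW.SysT
import Pool.Agent.N39.RW.Diff
import Pool.Agent.X34.E.E19

set_option autoImplicit false

/-!
# Two equal short gaps between consecutive primes at a given distance (helper39)
-/

namespace Pool.Agent.N39.RW

open Finset Filter Pool.Agent.W123.RP
open Pool.Agent.X34.E (Follow Eng gaps_rough)
open Pool.Agent.W182.PW (lin)

open Classical in
theorem diff45 (hE : Eng) (M a : ℕ) (hM0 : 0 < M) (ha : a.Coprime M) (G : Finset ℕ)
    (hG : G.card = 45) (hadm : ∀ p : ℕ, p.Prime → ¬ p ∣ M → ∃ r : ℕ, ∀ g ∈ G, ¬ p ∣ r + g) :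
    ∃ c K : ℝ, 0 < c ∧ 0 < K ∧ ∀ᶠ X : ℕ in atTop, ∃ g ∈ G, ∃ g' ∈ G, g < g' ∧
      ∀ H : ℕ, K * Real.log X ^ 45 ≤ H → H ≤ X →
      c * H ≤ (((Icc 1 H).filter (fun d : ℕ => c * X / Real.log X ^ 90 ≤
        (Set.ncard {p : ℕ | X < p ∧ p + d + (g' - g) * M ≤ 5 * X ∧ Follow M a ((g' - g) * M) p ∧
          Follow M a ((g' - g) * M) (p + d)} : ℝ))).card : ℝ) := by
  obtain ⟨κ, hκ, hgr⟩ := gaps_rough hE
  obtain ⟨c₀, hc₀, hlow⟩ := hgr M a hM0 ha G hG hadm
  obtain ⟨T, hT⟩ : ∃ T : Finset ℕ, T = G.image (fun g => M * g) := ⟨_, rfl⟩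
  have hTc : T.card = 45 := by
    rw [hT, card_image_of_injective, hG]
    intro x y hxy
    exact Nat.eq_of_mul_eq_mul_left hM0 hxy
  have hTne : T.Nonempty := by rw [← card_pos, hTc]; norm_num
  have hTadm : ∀ p : ℕ, p.Prime → ∃ m : ℕ, ∀ t ∈ T, ¬ p ∣ m + t := by
    intro p hp
    rw [hT]
    by_cases hpM : p ∣ M
    · refine ⟨1, fun t ht hd => ?_⟩
      obtain ⟨g, -, rfl⟩ := mem_image.1 ht
      have h2 : p ∣ 1 := (Nat.dvd_add_left (hpM.mul_right g)).1 hd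
      exact hp.one_lt.ne' (Nat.dvd_one.1 h2)
    · obtain ⟨r, hr⟩ := hadm p hp hpM
      refine ⟨M * r, fun t ht hd => ?_⟩
      obtain ⟨g, hg, rfl⟩ := mem_image.1 ht
      have h1 : M * r + M * g = M * (r + g) := by ring
      rw [h1, hp.dvd_mul] at hd
      rcases hd with h2 | h2
      · exact hpM h2
      · exact hr _ hg h2
  have : Nonempty {x // x ∈ T} := hTne.coe_sort
  obtain ⟨c, C, K, hc, hC, hK, hdf⟩ := diffs (fun i : {x // x ∈ T} => lin 1 ((i.1 : ℕ) : ℤ))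
    (sysT T hTadm) (κ / 2) (c₀ / 4) (by positivity) (by positivity)
  rw [Fintype.card_coe, hTc] at hdf
  obtain ⟨L, hL⟩ : ∃ L : ℕ, ∀ g ∈ G, g ≤ L := ⟨G.sup id, fun g hg => Finset.le_sup (f := id) hg⟩
  obtain ⟨E, hE⟩ : ∃ E : ℕ, E = L * M := ⟨_, rfl⟩
  refine ⟨c / 2 ^ 90, K * 2 ^ 45, by positivity, by positivity, ?_⟩
  have t2 : Tendsto (fun X : ℕ => 2 * X) atTop atTop :=
    tendsto_atTop_mono (fun X : ℕ => show X ≤ 2 * X by omega) tendsto_id
  filter_upwards [tendsto_natCast_atTop_atTop.eventually hlow, hdf, t2.eventually hdf,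
    eventually_ge_atTop (E + 16)] with X h1 h2 h3 hX16
  obtain ⟨g, hg, g', hg', hgg, h1⟩ := h1
  refine ⟨g, hg, g', hg', hgg, ?_⟩
  obtain ⟨h, hh⟩ : ∃ h : ℕ, h = (g' - g) * M := ⟨_, rfl⟩
  rw [← hh] at h1 ⊢
  have hMgh : M * g + h ≤ E := by
    rw [hE, hh]
    have : M * g + (g' - g) * M = g' * M := by
      have : g' = g + (g' - g) := by omega
      calc M * g + (g' - g) * M = (g + (g' - g)) * M := by ring
        _ = g' * M := by rw [← this]
    rw [this]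
    exact Nat.mul_le_mul_right _ (hL g' hg')
  have hXr : (16 : ℝ) ≤ X := by exact_mod_cast (by omega : 16 ≤ X)
  have hX0 : (0 : ℝ) < X := by linarith
  have hlX : 0 < Real.log X := Real.log_pos (by linarith)
  obtain ⟨P, hP⟩ : ∃ P : ℕ → Prop, ∀ m, P m ↔ (Follow M a h (m + M * g) ∧
      ∀ t ∈ T, ∀ q : ℕ, q.Prime → (q : ℝ) ≤ (X : ℝ) ^ κ → ¬ q ∣ m + t) := ⟨_, fun m => Iff.rfl⟩
  -- the transfer from `P` to the pairs
  have key : ∀ Y : ℕ, X ≤ Y → Y ≤ 2 * X → c₀ / 4 * Y / Real.log Y ^ 45 ≤ (co P Y (2 * Y) : ℝ) →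
      (∀ A A' : Finset ℕ, A ⊆ A' → A' ⊆ Ioc Y (2 * Y) →
      (∀ m ∈ A', Rgh (fun i : {x // x ∈ T} => lin 1 ((i.1 : ℕ) : ℤ)) ((Y : ℝ) ^ (κ / 2)) m) →
      c₀ / 4 * Y / Real.log Y ^ 45 ≤ (A.card : ℝ) →
      ∀ H : ℕ, K * Real.log Y ^ 45 ≤ H → H ≤ Y →
        c * H ≤ (((Icc 1 H).filter (fun d =>
          c * Y / Real.log Y ^ (2 * 45) ≤ (rr A d : ℝ) ∧
          (rr A' d : ℝ) ≤ C * Y / Real.log Y ^ (2 * 45))).card : ℝ)) →
      ∀ H : ℕ, K * 2 ^ 45 * Real.log X ^ 45 ≤ H → H ≤ X →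
      c / 2 ^ 90 * H ≤ (((Icc 1 H).filter (fun d : ℕ => c / 2 ^ 90 * X / Real.log X ^ 90 ≤
        (Set.ncard {p : ℕ | X < p ∧ p + d + h ≤ 5 * X ∧ Follow M a h p ∧
          Follow M a h (p + d)} : ℝ))).card : ℝ) := by
    intro Y hXY hY2 hlowY hdY H hH1 hH2
    have hYr : (X : ℝ) ≤ Y := by exact_mod_cast hXY
    have hY2r : (Y : ℝ) ≤ 2 * X := by exact_mod_cast hY2
    have hY0 : (0 : ℝ) < Y := by linarith
    have hlev : (Y : ℝ) ^ (κ / 2) ≤ (X : ℝ) ^ κ := by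
      calc (Y : ℝ) ^ (κ / 2) ≤ ((X : ℝ) ^ (2 : ℝ)) ^ (κ / 2) := by
            apply Real.rpow_le_rpow hY0.le _ (by positivity)
            rw [Real.rpow_two]
            nlinarith
        _ = (X : ℝ) ^ κ := by
            rw [← Real.rpow_mul hX0.le]
            congr 1
            ring
    have hlY0 : 0 < Real.log Y := lt_of_lt_of_le hlX (Real.log_le_log hX0 hYr)
    have hlY : Real.log Y ≤ 2 * Real.log X := by
      calc Real.log Y ≤ Real.log ((X : ℝ) ^ 2) := Real.log_le_log hY0 (by nlinarith)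
        _ = 2 * Real.log X := by rw [Real.log_pow]; norm_num
    have hl45 : Real.log Y ^ 45 ≤ 2 ^ 45 * Real.log X ^ 45 := by
      rw [← mul_pow]
      exact pow_le_pow_left₀ hlY0.le hlY _
    have hl90 : Real.log Y ^ (2 * 45) ≤ 2 ^ 90 * Real.log X ^ 90 := by
      have : (2 : ℝ) ^ 90 * Real.log X ^ 90 = (2 * Real.log X) ^ (2 * 45) := by rw [mul_pow]
      rw [this]
      exact pow_le_pow_left₀ hlY0.le hlY _
    obtain ⟨A, hA⟩ : ∃ A : Finset ℕ, A = (Ioc Y (2 * Y)).filter P := ⟨_, rfl⟩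
    have hfin := hdY A A (subset_refl _) (by rw [hA]; exact filter_subset _ _) (by
      intro m hm
      rw [hA, mem_filter] at hm
      rw [rgh_iff]
      intro t ht q hq hqY
      exact ((hP m).1 hm.2).2 t ht q hq (hqY.trans hlev)) (by
        rw [hA]
        exact hlowY) H (by
        refine le_trans ?_ hH1
        calc K * Real.log Y ^ 45 ≤ K * (2 ^ 45 * Real.log X ^ 45) := mul_le_mul_of_nonneg_left hl45 hK.le
          _ = _ := by ring) (by omega)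
    have hc90 : c / 2 ^ 90 ≤ c := div_le_self hc.le (one_le_pow₀ (by norm_num))
    refine (mul_le_mul_of_nonneg_right hc90 (Nat.cast_nonneg _)).trans (hfin.trans ?_)
    rw [Nat.cast_le]
    apply card_le_card
    intro d hd
    rw [mem_filter] at hd ⊢
    have hd1 := mem_Icc.1 hd.1
    refine ⟨hd.1, ?_⟩
    have e1 : c / 2 ^ 90 * X / Real.log X ^ 90 ≤ c * Y / Real.log Y ^ (2 * 45) := by
      rw [div_mul_eq_mul_div, div_div]
      apply div_le_div₀ (by positivity) (mul_le_mul_of_nonneg_left hYr hc.le) (by positivity) hl90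
    refine e1.trans (hd.2.1.trans ?_)
    rw [Nat.cast_le]
    unfold rr
    rw [← card_image_of_injective _ (add_left_injective (M * g)), ← Set.ncard_coe_finset]
    refine Set.ncard_le_ncard ?_ ((Set.finite_Iic (5 * X)).subset fun p hp => by
      have := hp.2.1
      show p ≤ 5 * X
      omega)
    intro p hp
    rw [mem_coe, mem_image] at hp
    obtain ⟨m, hm, rfl⟩ := hp
    rw [mem_filter, hA, mem_filter, mem_filter, mem_Ioc, mem_Ioc] at hm
    obtain ⟨⟨⟨m1, m2⟩, m3⟩, ⟨m4, m5⟩, m6⟩ := hm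
    refine ⟨?_, ?_, ((hP m).1 m3).1, ?_⟩
    · show X < m + M * g
      omega
    · show m + M * g + d + h ≤ 5 * X
      omega
    · have h5 := ((hP (m + d)).1 m6).1
      have h6 : m + d + M * g = m + M * g + d := by ring
      rw [h6] at h5
      exact h5
  -- one of the two windows
  have hsum : c₀ * X / Real.log X ^ 45 ≤ (co P X (2 * X) : ℝ) + (co P (2 * X) (2 * (2 * X)) : ℝ) := by
    refine h1.trans ?_
    have e1 : {n : ℕ | (X : ℝ) < n ∧ ((n + M * g + h : ℕ) : ℝ) < 3 * X ∧ Follow M a h (n + M * g) ∧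
        ∀ g'' ∈ G, ∀ p : ℕ, p.Prime → (p : ℝ) ≤ (X : ℝ) ^ κ → ¬ p ∣ n + M * g''} ⊆
        (((Ioc X (2 * X)).filter P ∪ (Ioc (2 * X) (2 * (2 * X))).filter P : Finset ℕ) : Set ℕ) := by
      rintro n ⟨n1, n2, n3, n4⟩
      have n1' : X < n := by exact_mod_cast n1
      have n2' : n + M * g + h < 3 * X := by exact_mod_cast n2
      have hPn : P n := by
        rw [hP]
        refine ⟨n3, ?_⟩
        intro t ht q hq hqX
        rw [hT, mem_image] at ht
        obtain ⟨g'', hg'', rfl⟩ := ht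
        exact n4 g'' hg'' q hq hqX
      rw [mem_coe, mem_union, mem_filter, mem_filter, mem_Ioc, mem_Ioc]
      by_cases hn2 : n ≤ 2 * X
      · left
        exact ⟨⟨n1', hn2⟩, hPn⟩
      · right
        exact ⟨⟨by omega, by omega⟩, hPn⟩
    have e2 := Set.ncard_le_ncard e1 (Finset.finite_toSet _)
    rw [Set.ncard_coe_finset] at e2
    have e3 := e2.trans (card_union_le _ _)
    unfold co
    have e4 : (Set.ncard {n : ℕ | (X : ℝ) < n ∧ ((n + M * g + h : ℕ) : ℝ) < 3 * X ∧ Follow M a h (n + M * g) ∧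
        ∀ g'' ∈ G, ∀ p : ℕ, p.Prime → (p : ℝ) ≤ (X : ℝ) ^ κ → ¬ p ∣ n + M * g''} : ℝ) ≤
        ((((Ioc X (2 * X)).filter P).card + ((Ioc (2 * X) (2 * (2 * X))).filter P).card : ℕ) : ℝ) := by
      exact_mod_cast e3
    rw [Nat.cast_add] at e4
    exact e4
  by_cases hcase : c₀ / 4 * X / Real.log X ^ 45 ≤ (co P X (2 * X) : ℝ)
  · exact key X le_rfl (by omega) hcase h2
  · push Not at hcase
    apply key (2 * X) (by omega) le_rfl _ h3
    have e5 : c₀ / 4 * ((2 * X : ℕ) : ℝ) / Real.log ((2 * X : ℕ) : ℝ) ^ 45 ≤ c₀ / 2 * X / Real.log X ^ 45 := by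
      have e6 : Real.log X ≤ Real.log ((2 * X : ℕ) : ℝ) := Real.log_le_log hX0 (by push_cast; linarith)
      have e7 : Real.log X ^ 45 ≤ Real.log ((2 * X : ℕ) : ℝ) ^ 45 := pow_le_pow_left₀ hlX.le e6 _
      calc c₀ / 4 * ((2 * X : ℕ) : ℝ) / Real.log ((2 * X : ℕ) : ℝ) ^ 45 ≤
          c₀ / 4 * ((2 * X : ℕ) : ℝ) / Real.log X ^ 45 :=
            div_le_div_of_nonneg_left (by positivity) (by positivity) e7
        _ = c₀ / 2 * X / Real.log X ^ 45 := by push_cast; ring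
    have e8 : 0 ≤ c₀ / 4 * X / Real.log X ^ 45 := by positivity
    have e9 : c₀ * X / Real.log X ^ 45 = c₀ / 4 * X / Real.log X ^ 45 + c₀ / 4 * X / Real.log X ^ 45 +
        c₀ / 2 * X / Real.log X ^ 45 := by ring
    linarith

end Pool.Agent.N39.RW
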