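import Pool.Agent.N39.RW.PolyChen
import Pool.Agent.W182.PW.Lin

set_option autoImplicit false

/-!
# Regular windows and differences for systems of linear forms (helper39)
-/

namespace Pool.Agent.N39.RW

open Finset Filter Polynomial
open Pool.Agent.W182.PW (lin lin_eval lin_irr lin_deg lin_lead lin_inj)

/-- one form is prime, one is a product of at most two primes, all are products of at most `r` primes `> z` -/
def LC {k : ℕ} (a : Fin k → ℕ) (b : Fin k → ℤ) (i j : Fin k) (r : ℕ) (z : ℝ) (m : ℕ) : Prop :=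
  ((a i : ℤ) * m + b i).natAbs.Prime ∧ ((a j : ℤ) * m + b j).natAbs.primeFactorsList.length ≤ 2 ∧
    ∀ l, ((a l : ℤ) * m + b l).natAbs.primeFactorsList.length ≤ r ∧
      ∀ q : ℕ, q.Prime → (q : ℤ) ∣ (a l : ℤ) * m + b l → z < (q : ℝ)

/-- all forms are free of primes `≤ z` -/
def LR {k : ℕ} (a : Fin k → ℕ) (b : Fin k → ℤ) (z : ℝ) (m : ℕ) : Prop :=
  ∀ l, ∀ q : ℕ, q.Prime → (q : ℤ) ∣ (a l : ℤ) * m + b l → z < (q : ℝ)

theorem LC_mono {k : ℕ} (a : Fin k → ℕ) (b : Fin k → ℤ) (i j : Fin k) (r : ℕ) (z z' : ℝ) (m : ℕ) (h : z' ≤ z)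
    (hm : LC a b i j r z m) : LC a b i j r z' m :=
  ⟨hm.1, hm.2.1, fun l => ⟨(hm.2.2 l).1, fun q hq hd => lt_of_le_of_lt h ((hm.2.2 l).2 q hq hd)⟩⟩

theorem LC_LR {k : ℕ} (a : Fin k → ℕ) (b : Fin k → ℤ) (i j : Fin k) (r : ℕ) (z : ℝ) (m : ℕ)
    (hm : LC a b i j r z m) : LR a b z m := fun l => (hm.2.2 l).2

theorem lin_nat (a : ℕ) (b : ℤ) (ha : 0 < a) : (lin a b).natDegree = 1 := by
  unfold lin
  exact natDegree_linear (by exact_mod_cast ha.ne')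

theorem lc_iff {k : ℕ} (a : Fin k → ℕ) (b : Fin k → ℤ) (ha : ∀ l, 0 < a l) (i j : Fin k) (r : ℕ) (z : ℝ) (m : ℕ) :
    PC (fun l => lin (a l) (b l)) i j r z m ↔ LC a b i j r z m := by
  unfold PC LC
  simp only [lin_eval, lin_nat _ _ (ha _), mul_one]

theorem lr_iff {k : ℕ} (a : Fin k → ℕ) (b : Fin k → ℤ) (z : ℝ) (m : ℕ) :
    Rgh (fun l => lin (a l) (b l)) z m ↔ LR a b z m := by
  unfold Rgh LR
  simp only [lin_eval]
  constructor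
  · intro h l q hq hd
    by_contra hcon
    exact h l q hq (not_lt.1 hcon) hd
  · intro h l q hq hqz hd
    have := h l q hq hd
    linarith

theorem sysL {k : ℕ} (a : Fin k → ℕ) (b : Fin k → ℤ) (ha : ∀ l, 0 < a l)
    (hinj : ∀ l l', a l = a l' → b l = b l' → l = l')
    (hadm : ∀ p : ℕ, p.Prime → ∃ m : ℕ, ∀ l, ¬ (p : ℤ) ∣ (a l : ℤ) * m + b l) :
    Pool.Agent.W123.RU.Poly.Sys (fun l => lin (a l) (b l)) where
  irr := fun l => by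
    apply lin_irr _ _ (ha l)
    rw [Int.isCoprime_iff_gcd_eq_one]
    by_contra hne
    obtain ⟨q, hq, hqd⟩ := Nat.exists_prime_and_dvd hne
    obtain ⟨m, hm⟩ := hadm q hq
    apply hm l
    have h1 : (q : ℤ) ∣ (a l : ℤ) := (Int.natCast_dvd_natCast.2 hqd).trans (Int.gcd_dvd_left _ _)
    have h2 : (q : ℤ) ∣ b l := (Int.natCast_dvd_natCast.2 hqd).trans (Int.gcd_dvd_right _ _)
    exact dvd_add (h1.mul_right _) h2
  deg := fun l => lin_deg _ _ (ha l)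
  lead := fun l => lin_lead _ _ (ha l)
  inj := fun l l' h => hinj l l' (lin_inj h).1 (lin_inj h).2
  adm := fun p hp => by
    obtain ⟨m, hm⟩ := hadm p hp
    refine ⟨m, fun l => ?_⟩
    rw [lin_eval]
    exact hm l

/-- the lower bound for the number of good arguments -/
def Cnt {k : ℕ} (a : Fin k → ℕ) (b : Fin k → ℤ) (i j : Fin k) (r : ℕ) (cS : ℝ) : Prop :=
  ∀ᶠ X : ℕ in atTop, cS * X / Real.log X ^ (Fintype.card (Fin k)) ≤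
    (Set.ncard {m : ℕ | X < m ∧ m ≤ 2 * X ∧
      PC (fun l => lin (a l) (b l)) i j r (((2 * X : ℕ) : ℝ) ^ (1 / (r : ℝ))) m} : ℝ)

open Classical in
theorem Cnt_iff {k : ℕ} (a : Fin k → ℕ) (b : Fin k → ℤ) (i j : Fin k) (r : ℕ) (cS : ℝ) :
    Cnt a b i j r cS ↔ ∀ᶠ X : ℕ in atTop, cS * X / Real.log X ^ (Fintype.card (Fin k)) ≤
      (((Ioc X (2 * X)).filter (fun m => PC (fun l => lin (a l) (b l)) i j r (((2 * X : ℕ) : ℝ) ^ (1 / (r : ℝ))) m)).card : ℝ) := by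
  unfold Cnt
  apply eventually_congr
  apply Eventually.of_forall
  intro X
  rw [← Set.ncard_coe_finset]
  have e : {m : ℕ | X < m ∧ m ≤ 2 * X ∧ PC (fun l => lin (a l) (b l)) i j r (((2 * X : ℕ) : ℝ) ^ (1 / (r : ℝ))) m} =
      (((Ioc X (2 * X)).filter (fun m => PC (fun l => lin (a l) (b l)) i j r (((2 * X : ℕ) : ℝ) ^ (1 / (r : ℝ))) m) :
        Finset ℕ) : Set ℕ) := by
    ext m
    rw [mem_coe, mem_filter, mem_Ioc, and_assoc]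
    rfl
  rw [e]

theorem countL {k : ℕ} (a : Fin k → ℕ) (b : Fin k → ℤ) (ha : ∀ l, 0 < a l)
    (hinj : ∀ l l', a l = a l' → b l = b l' → l = l')
    (hadm : ∀ p : ℕ, p.Prime → ∃ m : ℕ, ∀ l, ¬ (p : ℤ) ∣ (a l : ℤ) * m + b l) (i₀ j₀ : Fin k) (h₀ : i₀ ≠ j₀) :
    ∃ r : ℕ, 1 ≤ r ∧ ∀ i j : Fin k, (i = i₀ ∧ j = j₀ ∨ i = j₀ ∧ j = i₀) → ∃ cS : ℝ, 0 < cS ∧ Cnt a b i j r cS := by
  classical
  obtain ⟨r, hr, H⟩ := countC (fun l => lin (a l) (b l)) (sysL a b ha hinj hadm) i₀ j₀ h₀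
    (lin_nat _ _ (ha _)) (lin_nat _ _ (ha _))
  refine ⟨r, hr, fun i j hij => ?_⟩
  obtain ⟨cS, hcS, hcount⟩ := H i j hij
  exact ⟨cS, hcS, (Cnt_iff a b i j r cS).2 hcount⟩

open Classical in
theorem useL {k : ℕ} (a : Fin k → ℕ) (b : Fin k → ℤ) (ha : ∀ l, 0 < a l)
    (hinj : ∀ l l', a l = a l' → b l = b l' → l = l')
    (hadm : ∀ p : ℕ, p.Prime → ∃ m : ℕ, ∀ l, ¬ (p : ℤ) ∣ (a l : ℤ) * m + b l) (i j : Fin k) (r : ℕ) (hr : 1 ≤ r)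
    (cS : ℝ) (hcS : 0 < cS) (hcount : Cnt a b i j r cS) :
    ∃ c₁ c₂ K : ℝ, 0 < c₁ ∧ 0 < c₂ ∧ 0 < K ∧
      ∀ Reg : ℕ → Prop, (∀ᶠ t : ℕ in atTop, (∀ u v : ℕ, u ≤ t → t ≤ v → K * Real.log t ^ k ≤ (v : ℝ) - u →
        (v : ℝ) - u ≤ t → c₁ * ((v : ℝ) - u) / Real.log t ^ k ≤
          (((Ioc u v).filter (fun m => LC a b i j r ((t : ℝ) ^ (1 / (r : ℝ))) m)).card : ℝ) ∧
          (((Ioc u v).filter (fun m => LR a b ((t : ℝ) ^ (1 / (r : ℝ))) m)).card : ℝ) ≤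
            c₂ * ((v : ℝ) - u) / Real.log t ^ k) → Reg t) →
      (∃ μ : ℝ, 0 < μ ∧ ∀ᶠ x : ℕ in atTop, μ * x ≤ (Set.ncard {t : ℕ | t ≤ x ∧ Reg t} : ℝ)) ∧
      ∀ s : ℕ, 2 ≤ s → ∃ ν : ℝ, 0 < ν ∧ ∀ᶠ N : ℕ in atTop, ν * N ≤
      (Set.ncard {n : ℕ | N ≤ n ∧ n < 2 * N ∧
        ν * (n : ℝ) ^ (s - 1) ≤ (Set.ncard {t : ℕ | n ^ s < t ∧ t < (n + 1) ^ s ∧ Reg t} : ℝ) ∧
        ν * (n : ℝ) ^ (s - 1) / Real.log n ^ k ≤
          (Set.ncard {m : ℕ | n ^ s < m ∧ m < (n + 1) ^ s ∧ LC a b i j r ((n : ℝ) ^ ((s : ℝ) / r)) m} : ℝ)} : ℝ) := by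
  have hf := sysL a b ha hinj hadm
  rw [Cnt_iff] at hcount
  have : Nonempty (Fin k) := ⟨i⟩
  have hr0 : (0 : ℝ) < r := by exact_mod_cast hr
  obtain ⟨c₁, c₂, K, hc₁, hc₂, hK, huse⟩ := useP (fun l => lin (a l) (b l)) hf
    (PC (fun l => lin (a l) (b l)) i j r) (PC_mono _ i j r) (PC_rgh _ i j r) (1 / (r : ℝ)) cS (by positivity)
    hcS hcount 0
  refine ⟨c₁, c₂, K, hc₁, hc₂, hK, ?_⟩
  intro Reg hReg
  obtain ⟨g1, g2⟩ := huse Reg (by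
    filter_upwards [hReg] with t ht hreg
    apply ht
    intro u v hu hv h1 h2
    have h3 := hreg u v hu hv (by rw [Fintype.card_fin]; exact h1) h2
    rw [Fintype.card_fin] at h3
    simp only [lc_iff a b ha, lr_iff] at h3
    exact h3)
  refine ⟨g1, ?_⟩
  intro s hs
  obtain ⟨ν, hν, g3⟩ := g2 s hs (fun n m => LC a b i j r ((n : ℝ) ^ ((s : ℝ) / r)) m) (by
    filter_upwards with n t p ht _ hch
    rw [lc_iff a b ha] at hch
    refine LC_mono a b i j r _ _ p ?_ hch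
    have e1 : (n : ℝ) ^ ((s : ℝ) / r) = ((n : ℝ) ^ s) ^ (1 / (r : ℝ)) := by
      rw [← Real.rpow_natCast, ← Real.rpow_mul (Nat.cast_nonneg n)]
      congr 1
      ring
    rw [e1]
    apply Real.rpow_le_rpow (by positivity) _ (by positivity)
    exact_mod_cast ht.le)
  refine ⟨ν, hν, ?_⟩
  filter_upwards [g3] with N hN
  rw [Fintype.card_fin] at hN
  simpa using hN

open Classical in
theorem diffL {k : ℕ} (a : Fin k → ℕ) (b : Fin k → ℤ) (ha : ∀ l, 0 < a l)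
    (hinj : ∀ l l', a l = a l' → b l = b l' → l = l')
    (hadm : ∀ p : ℕ, p.Prime → ∃ m : ℕ, ∀ l, ¬ (p : ℤ) ∣ (a l : ℤ) * m + b l) (i j : Fin k) (r : ℕ) (hr : 1 ≤ r)
    (cS : ℝ) (hcS : 0 < cS) (hcount : Cnt a b i j r cS) :
    ∃ c C K : ℝ, 0 < c ∧ 0 < C ∧ 0 < K ∧ ∀ᶠ X : ℕ in atTop,
      ∀ H : ℕ, K * Real.log X ^ k ≤ H → H ≤ X →
      c * H ≤ (((Icc 1 H).filter (fun d : ℕ =>
        c * X / Real.log X ^ (2 * k) ≤ (((Ioc X (2 * X)).filter (fun m => m + d ≤ 2 * X ∧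
          LC a b i j r ((X : ℝ) ^ (1 / (r : ℝ))) m ∧ LC a b i j r ((X : ℝ) ^ (1 / (r : ℝ))) (m + d))).card : ℝ) ∧
        (((Ioc X (2 * X)).filter (fun m => m + d ≤ 2 * X ∧
          LR a b ((X : ℝ) ^ (1 / (r : ℝ))) m ∧ LR a b ((X : ℝ) ^ (1 / (r : ℝ))) (m + d))).card : ℝ) ≤
            C * X / Real.log X ^ (2 * k))).card : ℝ) := by
  have hf := sysL a b ha hinj hadm
  rw [Cnt_iff] at hcount
  have : Nonempty (Fin k) := ⟨i⟩
  have hr0 : (0 : ℝ) < r := by exact_mod_cast hr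
  obtain ⟨c, C, K, hc, hC, hK, hd⟩ := diffP (fun l => lin (a l) (b l)) hf
    (PC (fun l => lin (a l) (b l)) i j r) (PC_mono _ i j r) (PC_rgh _ i j r) (1 / (r : ℝ)) cS (by positivity)
    hcS hcount
  refine ⟨c, C, K, hc, hC, hK, ?_⟩
  filter_upwards [hd] with X hd H hH1 hH2
  have h1 := hd H (by rw [Fintype.card_fin]; exact hH1) hH2
  rw [Fintype.card_fin] at h1
  simp only [lc_iff a b ha, lr_iff] at h1
  exact h1

end Pool.Agent.N39.RW
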