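import Pool.Agent.N39.RW.LinChen

set_option autoImplicit false

/-!
# Regular windows and differences for systems of linear forms: natural numbers (helper39)
-/

namespace Pool.Agent.N39.RW

open Finset Filter

/-- one value is prime, one is a product of at most two primes, all are products of at most `r` primes `> z` -/
def NC {k : ℕ} (F : Fin k → ℕ → ℕ) (i j : Fin k) (r : ℕ) (z : ℝ) (n : ℕ) : Prop :=
  (F i n).Prime ∧ (F j n).primeFactorsList.length ≤ 2 ∧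
    ∀ l, (F l n).primeFactorsList.length ≤ r ∧ ∀ q : ℕ, q.Prime → q ∣ F l n → z < (q : ℝ)

/-- all values are free of primes `≤ z` -/
def NR {k : ℕ} (F : Fin k → ℕ → ℕ) (z : ℝ) (n : ℕ) : Prop :=
  ∀ l, ∀ q : ℕ, q.Prime → q ∣ F l n → z < (q : ℝ)

theorem nc_iff {k : ℕ} (a : Fin k → ℕ) (b : Fin k → ℤ) (F : Fin k → ℕ → ℕ)
    (hF : ∀ l n, 1 ≤ n → ((F l n : ℕ) : ℤ) = (a l : ℤ) * n + b l) (i j : Fin k) (r : ℕ) (z : ℝ) (n : ℕ)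
    (hn : 1 ≤ n) : LC a b i j r z n ↔ NC F i j r z n := by
  unfold LC NC
  simp only [← hF _ n hn, Int.natAbs_natCast, Int.natCast_dvd_natCast]

theorem nr_iff {k : ℕ} (a : Fin k → ℕ) (b : Fin k → ℤ) (F : Fin k → ℕ → ℕ)
    (hF : ∀ l n, 1 ≤ n → ((F l n : ℕ) : ℤ) = (a l : ℤ) * n + b l) (z : ℝ) (n : ℕ)
    (hn : 1 ≤ n) : LR a b z n ↔ NR F z n := by
  unfold LR NR
  simp only [← hF _ n hn, Int.natCast_dvd_natCast]

open Classical in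
theorem cardIoc (u v : ℕ) (P : ℕ → Prop) : (((Ioc u v).filter (fun m => P m)).card) =
    Set.ncard {n : ℕ | u < n ∧ n ≤ v ∧ P n} := by
  rw [← Set.ncard_coe_finset]
  congr 1
  ext m
  rw [mem_coe, mem_filter, mem_Ioc, and_assoc]
  rfl

theorem pageL {k : ℕ} (a : Fin k → ℕ) (b : Fin k → ℤ) (ha : ∀ l, 0 < a l)
    (hinj : ∀ l l', a l = a l' → b l = b l' → l = l')
    (hadm : ∀ p : ℕ, p.Prime → ∃ m : ℕ, ∀ l, ¬ (p : ℤ) ∣ (a l : ℤ) * m + b l)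
    (F : Fin k → ℕ → ℕ) (hF : ∀ l n, 1 ≤ n → ((F l n : ℕ) : ℤ) = (a l : ℤ) * n + b l)
    (i₀ j₀ : Fin k) (h₀ : i₀ ≠ j₀) :
    ∃ r : ℕ, 1 ≤ r ∧ ∀ i j : Fin k, (i = i₀ ∧ j = j₀ ∨ i = j₀ ∧ j = i₀) →
    (∃ c₁ c₂ K : ℝ, 0 < c₁ ∧ 0 < c₂ ∧ 0 < K ∧
      ∀ Reg : ℕ → Prop, (∀ t : ℕ, (∀ u v : ℕ, u ≤ t → t ≤ v → K * Real.log t ^ k ≤ (v : ℝ) - u →
        (v : ℝ) - u ≤ t → c₁ * ((v : ℝ) - u) / Real.log t ^ k ≤
          ({n : ℕ | u < n ∧ n ≤ v ∧ NC F i j r ((t : ℝ) ^ (1 / (r : ℝ))) n}.ncard : ℝ) ∧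
          ({n : ℕ | u < n ∧ n ≤ v ∧ NR F ((t : ℝ) ^ (1 / (r : ℝ))) n}.ncard : ℝ) ≤
            c₂ * ((v : ℝ) - u) / Real.log t ^ k) → Reg t) →
      (∃ μ : ℝ, 0 < μ ∧ ∀ᶠ x : ℕ in atTop, μ * x ≤ (Set.ncard {t : ℕ | t ≤ x ∧ Reg t} : ℝ)) ∧
      ∀ s : ℕ, 2 ≤ s → ∃ ν : ℝ, 0 < ν ∧ ∀ᶠ N : ℕ in atTop, ν * N ≤
      (Set.ncard {m : ℕ | N ≤ m ∧ m < 2 * N ∧
        ν * (m : ℝ) ^ (s - 1) ≤ (Set.ncard {t : ℕ | m ^ s < t ∧ t < (m + 1) ^ s ∧ Reg t} : ℝ) ∧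
        ν * (m : ℝ) ^ (s - 1) / Real.log m ^ k ≤
          (Set.ncard {n : ℕ | m ^ s < n ∧ n < (m + 1) ^ s ∧ NC F i j r ((m : ℝ) ^ ((s : ℝ) / r)) n} : ℝ)} : ℝ)) ∧
    ∃ c C K : ℝ, 0 < c ∧ 0 < C ∧ 0 < K ∧ ∀ᶠ X : ℕ in atTop,
      ∀ H : ℕ, K * Real.log X ^ k ≤ H → H ≤ X →
      c * H ≤ (Set.ncard {d : ℕ | 1 ≤ d ∧ d ≤ H ∧
        c * X / Real.log X ^ (2 * k) ≤ (Set.ncard {n : ℕ | X < n ∧ n + d ≤ 2 * X ∧
          NC F i j r ((X : ℝ) ^ (1 / (r : ℝ))) n ∧ NC F i j r ((X : ℝ) ^ (1 / (r : ℝ))) (n + d)} : ℝ) ∧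
        (Set.ncard {n : ℕ | X < n ∧ n + d ≤ 2 * X ∧
          NR F ((X : ℝ) ^ (1 / (r : ℝ))) n ∧ NR F ((X : ℝ) ^ (1 / (r : ℝ))) (n + d)} : ℝ) ≤
            C * X / Real.log X ^ (2 * k)} : ℝ) := by
  classical
  obtain ⟨r, hr, H⟩ := countL a b ha hinj hadm i₀ j₀ h₀
  refine ⟨r, hr, fun i j hij => ?_⟩
  obtain ⟨cS, hcS, hcount⟩ := H i j hij
  constructor
  · obtain ⟨c₁, c₂, K, hc₁, hc₂, hK, huse⟩ := useL a b ha hinj hadm i j r hr cS hcS hcount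
    refine ⟨c₁, c₂, K, hc₁, hc₂, hK, ?_⟩
    intro Reg hReg
    obtain ⟨g1, g2⟩ := huse Reg (by
      filter_upwards with t hreg
      apply hReg
      intro u v hu hv h1 h2
      have h3 := hreg u v hu hv h1 h2
      rw [cardIoc, cardIoc] at h3
      have e1 : {n : ℕ | u < n ∧ n ≤ v ∧ LC a b i j r ((t : ℝ) ^ (1 / (r : ℝ))) n} =
          {n : ℕ | u < n ∧ n ≤ v ∧ NC F i j r ((t : ℝ) ^ (1 / (r : ℝ))) n} := by
        ext n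
        constructor
        · rintro ⟨h4, h5, h6⟩
          exact ⟨h4, h5, (nc_iff a b F hF i j r _ n (by omega)).1 h6⟩
        · rintro ⟨h4, h5, h6⟩
          exact ⟨h4, h5, (nc_iff a b F hF i j r _ n (by omega)).2 h6⟩
      have e2 : {n : ℕ | u < n ∧ n ≤ v ∧ LR a b ((t : ℝ) ^ (1 / (r : ℝ))) n} =
          {n : ℕ | u < n ∧ n ≤ v ∧ NR F ((t : ℝ) ^ (1 / (r : ℝ))) n} := by
        ext n
        constructor
        · rintro ⟨h4, h5, h6⟩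
          exact ⟨h4, h5, (nr_iff a b F hF _ n (by omega)).1 h6⟩
        · rintro ⟨h4, h5, h6⟩
          exact ⟨h4, h5, (nr_iff a b F hF _ n (by omega)).2 h6⟩
      rw [e1, e2] at h3
      exact h3)
    refine ⟨g1, fun s hs => ?_⟩
    obtain ⟨ν, hν, g3⟩ := g2 s hs
    refine ⟨ν, hν, ?_⟩
    filter_upwards [g3] with N hN
    refine hN.trans (le_of_eq ?_)
    congr 2
    ext m
    have e1 : {n : ℕ | m ^ s < n ∧ n < (m + 1) ^ s ∧ LC a b i j r ((m : ℝ) ^ ((s : ℝ) / r)) n} =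
        {n : ℕ | m ^ s < n ∧ n < (m + 1) ^ s ∧ NC F i j r ((m : ℝ) ^ ((s : ℝ) / r)) n} := by
      ext n
      constructor
      · rintro ⟨h4, h5, h6⟩
        exact ⟨h4, h5, (nc_iff a b F hF i j r _ n (by omega)).1 h6⟩
      · rintro ⟨h4, h5, h6⟩
        exact ⟨h4, h5, (nc_iff a b F hF i j r _ n (by omega)).2 h6⟩
    show (N ≤ m ∧ _ ∧ _ ∧ _) ↔ (N ≤ m ∧ _ ∧ _ ∧ _)
    rw [e1]
  · obtain ⟨c, C, K, hc, hC, hK, hd⟩ := diffL a b ha hinj hadm i j r hr cS hcS hcount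
    refine ⟨c, C, K, hc, hC, hK, ?_⟩
    filter_upwards [hd] with X hd H hH1 hH2
    refine (hd H hH1 hH2).trans ?_
    rw [← Set.ncard_coe_finset]
    refine Nat.cast_le.2 (Set.ncard_le_ncard ?_ ?_)
    · intro d hdd
      rw [mem_coe, mem_filter, mem_Icc] at hdd
      obtain ⟨⟨hd1, hdH⟩, hd2, hd3⟩ := hdd
      refine ⟨hd1, hdH, hd2.trans ?_, le_trans ?_ hd3⟩
      · rw [← Set.ncard_coe_finset]
        refine Nat.cast_le.2 (Set.ncard_le_ncard ?_ ((Set.finite_Iic (2 * X)).subset fun n hn => by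
          have := hn.2.1
          show n ≤ 2 * X
          omega))
        intro n hn
        rw [mem_coe, mem_filter, mem_Ioc] at hn
        obtain ⟨⟨h1, h2⟩, h3, h4, h5⟩ := hn
        exact ⟨h1, h3, (nc_iff a b F hF i j r _ n (by omega)).1 h4, (nc_iff a b F hF i j r _ (n + d) (by omega)).1 h5⟩
      · rw [← Set.ncard_coe_finset]
        refine Nat.cast_le.2 (Set.ncard_le_ncard ?_ (Finset.finite_toSet _))
        intro n hn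
        obtain ⟨h1, h3, h4, h5⟩ := hn
        rw [mem_coe, mem_filter, mem_Ioc]
        exact ⟨⟨h1, by omega⟩, h3, (nr_iff a b F hF _ n (by omega)).2 h4, (nr_iff a b F hF _ (n + d) (by omega)).2 h5⟩
    · apply (Set.finite_Iic H).subset
      intro d hdd
      exact hdd.2.1

end Pool.Agent.N39.RW
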