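import Pool.Agent.N39.RW.Abs
import Pool.Agent.X32.Uni.Main

set_option autoImplicit false

/-!
# Regular windows for systems of polynomials with two linear members (helper39)
-/

namespace Pool.Agent.N39.RW

open Finset Filter Polynomial
open Pool.Agent.X32.Uni (Loc om V GoodX Almost mainU card_roots_le)
open Pool.Agent.H373R2.T7 (nuB pz mem_pz)
open Pool.Agent.W123.RP (Vq)
open Pool.Agent.W123.RU.Poly (Q V_bounds)

/-- `|f i m|` is prime, `|f j m|` is a product of at most two primes, and all `|f l m|` are products of at most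
`r deg(f l)` primes, all larger than `z` -/
def PC {k : ℕ} (f : Fin k → ℤ[X]) (i j : Fin k) (r : ℕ) (z : ℝ) (m : ℕ) : Prop :=
  ((f i).eval (m : ℤ)).natAbs.Prime ∧ ((f j).eval (m : ℤ)).natAbs.primeFactorsList.length ≤ 2 ∧
    ∀ l, ((f l).eval (m : ℤ)).natAbs.primeFactorsList.length ≤ r * (f l).natDegree ∧
      ∀ q : ℕ, q.Prime → (q : ℤ) ∣ (f l).eval (m : ℤ) → z < (q : ℝ)

theorem PC_mono {k : ℕ} (f : Fin k → ℤ[X]) (i j : Fin k) (r : ℕ) (z z' : ℝ) (m : ℕ) (h : z' ≤ z)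
    (hm : PC f i j r z m) : PC f i j r z' m :=
  ⟨hm.1, hm.2.1, fun l => ⟨(hm.2.2 l).1, fun q hq hd => lt_of_le_of_lt h ((hm.2.2 l).2 q hq hd)⟩⟩

theorem PC_rgh {k : ℕ} (f : Fin k → ℤ[X]) (i j : Fin k) (r : ℕ) (z : ℝ) (m : ℕ)
    (hm : PC f i j r z m) : Rgh f z m := by
  intro l p hp hpz hd
  have := (hm.2.2 l).2 p hp hd
  linarith

theorem locOf {k : ℕ} (f : Fin k → ℤ[X]) (hf : Pool.Agent.W123.RU.Poly.Sys f) : Loc f := by
  intro p hp
  obtain ⟨m, hm⟩ := hf.adm p hp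
  refine ⟨(m : ℤ), fun hd => ?_⟩
  obtain ⟨i, _, hi⟩ := (Nat.prime_iff_prime_int.1 hp).exists_mem_finset_dvd hd
  exact hm i hi

theorem om_eq {k : ℕ} (f : Fin k → ℤ[X]) (p : ℕ) (hp : p.Prime) : om f p = nuB (Q f) p := by
  classical
  unfold om nuB
  have h : (range p).filter (fun x : ℕ => (p : ℤ) ∣ ∏ l, (f l).eval (x : ℤ)) =
      (range p).filter (fun r => Q f p r) := by
    apply filter_congr
    intro x _
    unfold Q
    constructor
    · intro hd
      obtain ⟨i, _, hi⟩ := (Nat.prime_iff_prime_int.1 hp).exists_mem_finset_dvd hd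
      exact ⟨i, hi⟩
    · rintro ⟨i, hi⟩
      exact hi.trans (dvd_prod_of_mem _ (mem_univ i))
  rw [h]

theorem V_eq {k : ℕ} (f : Fin k → ℤ[X]) (n : ℕ) : V f n = Vq (Q f) n := by
  unfold V Vq pz
  apply prod_congr rfl
  intro p hp
  rw [om_eq f p (mem_filter.1 hp).2]

theorem poly_size (g : ℤ[X]) : ∃ K : ℕ, ∀ n : ℕ, 1 ≤ n → ∀ x : ℤ, 0 ≤ x → x ≤ n → |g.eval x| ≤ K * (n : ℤ) ^ g.natDegree := by
  refine ⟨∑ i ∈ range (g.natDegree + 1), (g.coeff i).natAbs, fun n hn x hx hxn => ?_⟩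
  have hn1 : (1 : ℤ) ≤ n := by exact_mod_cast hn
  rw [eval_eq_sum_range]
  refine (abs_sum_le_sum_abs _ _).trans ?_
  push_cast
  rw [sum_mul]
  refine sum_le_sum fun i hi => ?_
  rw [abs_mul, abs_pow, abs_of_nonneg hx]
  refine mul_le_mul_of_nonneg_left ?_ (abs_nonneg _)
  calc x ^ i ≤ (n : ℤ) ^ i := pow_le_pow_left₀ hx hxn i
    _ ≤ (n : ℤ) ^ g.natDegree := pow_le_pow_right₀ hn1 (by simpa [Nat.lt_succ_iff] using hi)

open Classical in
theorem countC {k : ℕ} (f : Fin k → ℤ[X]) (hf : Pool.Agent.W123.RU.Poly.Sys f) (i j : Fin k) (hij : i ≠ j)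
    (hi : (f i).natDegree = 1) (hj : (f j).natDegree = 1) :
    ∃ r : ℕ, 1 ≤ r ∧ ∀ i' j' : Fin k, (i' = i ∧ j' = j ∨ i' = j ∧ j' = i) → ∃ cS : ℝ, 0 < cS ∧
      ∀ᶠ X : ℕ in atTop, cS * X / Real.log X ^ (Fintype.card (Fin k)) ≤
      (((Ioc X (2 * X)).filter (fun m => PC f i' j' r (((2 * X : ℕ) : ℝ) ^ (1 / (r : ℝ))) m)).card : ℝ) := by
  have hD1 : 1 ≤ ∑ l, (f l).natDegree := by
    have := Finset.single_le_sum (f := fun l => (f l).natDegree) (fun _ _ => Nat.zero_le _) (mem_univ i)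
    omega
  choose KK hKK using fun l => poly_size (f l)
  obtain ⟨E, hE⟩ : ∃ E : ℕ, E = ((f i).coeff 1).natAbs + ((f j).coeff 1).natAbs := ⟨_, rfl⟩
  obtain ⟨t, ht, κ, hκ, H⟩ := mainU (∑ l, (f l).natDegree) E hD1
  refine ⟨t, ht, ?_⟩
  intro i' j' hij'
  have hi' : (f i').natDegree = 1 := by rcases hij' with ⟨h, _⟩ | ⟨h, _⟩ <;> rw [h] <;> assumption
  have hj' : (f j').natDegree = 1 := by rcases hij' with ⟨_, h⟩ | ⟨_, h⟩ <;> rw [h] <;> assumption
  have hne' : i' ≠ j' := by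
    rcases hij' with ⟨h, h'⟩ | ⟨h, h'⟩
    · rw [h, h']; exact hij
    · rw [h, h']; exact hij.symm
  obtain ⟨n₀, H⟩ := H (1 / 2) (by norm_num) (∑ l, KK l)
  obtain ⟨v, Cv, hv, hCv, hV⟩ := V_bounds f hf
  rw [Fintype.card_fin] at hV ⊢
  refine ⟨κ * v / 2 ^ k, by positivity, ?_⟩
  filter_upwards [eventually_ge_atTop (n₀ + 4)] with X hX
  have hX4 : (4 : ℝ) ≤ X := by exact_mod_cast (by omega : 4 ≤ X)
  have hX0 : (0 : ℝ) < X := by linarith
  have hlX : 0 < Real.log X := Real.log_pos (by linarith)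
  obtain ⟨-, h2⟩ := H (2 * X) (by omega) k f i' j'
    { deg := fun l => hf.deg l
      sum := le_rfl
      loc := locOf f hf
      size := fun l x h0 h1 => by
        refine (hKK l (2 * X) (by omega) x h0 h1).trans ?_
        apply mul_le_mul_of_nonneg_right _ (by positivity)
        have := Finset.single_le_sum (f := KK) (fun _ _ => Nat.zero_le _) (mem_univ l)
        exact_mod_cast this
      di := hi'
      dj := hj'
      ei := by rw [hE]; rcases hij' with ⟨h, _⟩ | ⟨h, _⟩ <;> rw [h] <;> omega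
      ej := by rw [hE]; rcases hij' with ⟨_, h⟩ | ⟨_, h⟩ <;> rw [h] <;> omega
      ne := fun h => hne' (hf.inj h).symm
      ne' := fun h => by
        have h1 := hf.lead i'
        have h2 := hf.lead j'
        rw [h, leadingCoeff_neg] at h2
        linarith }
  have h3 := h2 X (2 * X) le_rfl (by push_cast; linarith)
  rw [V_eq] at h3
  have hVl := (hV (2 * X) (by omega)).1
  have hlog2 : Real.log ((2 * X : ℕ) : ℝ) ≤ 2 * Real.log X := by
    have e : 2 * Real.log X = Real.log ((X : ℝ) ^ 2) := by rw [Real.log_pow]; norm_num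
    rw [e]
    apply Real.log_le_log (by push_cast; linarith)
    push_cast
    nlinarith
  have hlog0 : 0 < Real.log ((2 * X : ℕ) : ℝ) := Real.log_pos (by push_cast; linarith)
  have h4 : κ * v / 2 ^ k * X / Real.log X ^ k ≤ κ * (((2 * X : ℕ) : ℝ) - X) * Vq (Q f) (2 * X) := by
    have h5 : ((2 * X : ℕ) : ℝ) - X = X := by push_cast; ring
    rw [h5]
    calc κ * v / 2 ^ k * X / Real.log X ^ k = κ * X * (v / (2 * Real.log X) ^ k) := by
          rw [mul_pow]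
          field_simp
      _ ≤ κ * X * (v / Real.log ((2 * X : ℕ) : ℝ) ^ k) := by gcongr
      _ ≤ κ * X * Vq (Q f) (2 * X) := by gcongr
  refine h4.trans (h3.trans ?_)
  rw [Nat.cast_le]
  apply card_le_card
  intro m hm
  unfold GoodX at hm
  rw [mem_filter] at hm ⊢
  obtain ⟨hm1, hm2, hm3, hm4⟩ := hm
  exact ⟨hm1, hm2, hm3.2.1, fun l => ⟨(hm4 l).2.1, (hm4 l).2.2⟩⟩

end Pool.Agent.N39.RW
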