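import Pool.Agent.N39.RW.Abs
import Pool.Agent.Y882.SI.Fin

set_option autoImplicit false

/-!
# Values `n ^ 2 + a` with at most three prime factors: the count in `(X, 2X]` (helper39)
-/

namespace Pool.Agent.N39.RW

open Finset Filter Polynomial Pool.Agent.H373R2.T7 Pool.Agent.W123.RP Pool.Agent.W123.RU
open Pool.Agent.W123.RU.Poly
open Pool.Agent.Y882.SI (QF QF_eval QF_irred gset)

/-- `m ^ 2 + a` has at most three prime factors, all larger than `z` -/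
def P3 (a : ℤ) (z : ℝ) (m : ℕ) : Prop :=
  ((m : ℤ) ^ 2 + a).natAbs.primeFactorsList.length ≤ 3 ∧
    ∀ p : ℕ, p.Prime → (p : ℤ) ∣ (m : ℤ) ^ 2 + a → z < (p : ℝ)

theorem P3_mono (a : ℤ) : ∀ z z' : ℝ, ∀ m : ℕ, z' ≤ z → P3 a z m → P3 a z' m :=
  fun _ _ _ h h' => ⟨h'.1, fun p hp hd => lt_of_le_of_lt h (h'.2 p hp hd)⟩

/-- the system -/
noncomputable def fQ (a : ℤ) : Unit → ℤ[X] := fun _ => QF a

theorem rghQ (a : ℤ) (z : ℝ) (m : ℕ) :
    Rgh (fQ a) z m ↔ ∀ p : ℕ, p.Prime → (p : ℤ) ∣ (m : ℤ) ^ 2 + a → z < (p : ℝ) := by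
  unfold Rgh fQ
  constructor
  · intro h p hp hd
    by_contra hcon
    exact h () p hp (not_lt.1 hcon) (by rw [QF_eval]; exact hd)
  · intro h _ p hp hpz hd
    rw [QF_eval] at hd
    exact absurd (h p hp hd) (not_lt.2 hpz)

theorem P3_rgh (a : ℤ) : ∀ z : ℝ, ∀ m : ℕ, P3 a z m → Rgh (fQ a) z m := fun z m h => (rghQ a z m).2 h.2

theorem sysQ (a : ℤ) (ha : ¬ IsSquare (-a)) : Sys (fQ a) where
  irr := fun _ => QF_irred a ha
  deg := fun _ => by
    have hd : (QF a).natDegree = 2 := by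
      unfold QF
      exact natDegree_X_pow_add_C
    show 0 < (QF a).natDegree
    omega
  lead := fun _ => by
    have hm : (QF a).Monic := by
      unfold QF
      exact monic_X_pow_add_C a (by norm_num)
    show 0 < (QF a).leadingCoeff
    rw [hm.leadingCoeff]
    norm_num
  inj := fun _ _ _ => rfl
  adm := fun p hp => by
    by_cases h : (p : ℤ) ∣ a
    · refine ⟨1, fun _ hd => ?_⟩
      unfold fQ at hd
      rw [QF_eval] at hd
      have h1 : (p : ℤ) ∣ ((1 : ℕ) : ℤ) ^ 2 := (Int.dvd_add_left h).1 hd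
      have h2 : (p : ℤ) ∣ ((1 : ℕ) : ℤ) := by simpa using h1
      rw [Int.natCast_dvd_natCast] at h2
      exact hp.one_lt.ne' (Nat.dvd_one.1 h2)
    · refine ⟨0, fun _ hd => h ?_⟩
      unfold fQ at hd
      rw [QF_eval] at hd
      simpa using hd

open Classical in
/-- many values with at most three prime factors -/
theorem countQ (a : ℤ) (ha : ¬ IsSquare (-a)) : ∃ cS : ℝ, 0 < cS ∧ ∀ᶠ X : ℕ in atTop,
    cS * X / Real.log X ^ (Fintype.card Unit) ≤
      (((Ioc X (2 * X)).filter (fun m => P3 a (((2 * X : ℕ) : ℝ) ^ (1 / 8 : ℝ)) m)).card : ℝ) := by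
  obtain ⟨δ, hδ, X0, hfin⟩ := Pool.Agent.Y882.SI.fin a ha 3 (3 / 4) ((3 / 4) / 4) (24 / 25 * (3 / 4)) (8 / 9) (41 / 20)
    (by norm_num) (by norm_num) (by norm_num) (by norm_num) (by norm_num) (by norm_num) (by norm_num)
    (by norm_num) (by norm_num)
    (Pool.Agent.Y882.KW.cond_A (3 / 4) (8 / 9) (by norm_num) (by norm_num) (by norm_num))
    (by norm_num) (by norm_num) (3 / 4) (1 / 16) (by norm_num) (by norm_num) (by norm_num)
  refine ⟨δ / 4, by positivity, ?_⟩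
  rw [Fintype.card_unit]
  have ev1 : ∀ᶠ X : ℕ in atTop, (32 : ℝ) ≤ (X : ℝ) ^ (1 / 8 : ℝ) :=
    ((tendsto_rpow_atTop (by norm_num)).comp tendsto_natCast_atTop_atTop).eventually_ge_atTop _
  have t2 : Tendsto (fun X : ℕ => 2 * X) atTop atTop :=
    tendsto_atTop_mono (fun X : ℕ => show X ≤ 2 * X by omega) tendsto_id
  filter_upwards [t2.eventually ev1, eventually_ge_atTop (X0 + 16)] with X e1 hX
  have hXr : (16 : ℝ) ≤ X := by exact_mod_cast (by omega : 16 ≤ X)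
  have hX0 : (0 : ℝ) < X := by linarith
  obtain ⟨Y, hY⟩ : ∃ Y : ℕ, Y = 2 * X := ⟨_, rfl⟩
  rw [← hY] at e1 ⊢
  have hYX : (Y : ℝ) = 2 * X := by rw [hY]; push_cast; ring
  have hY0 : (0 : ℝ) < Y := by rw [hYX]; linarith
  have hY1 : (1 : ℝ) ≤ Y := by rw [hYX]; linarith
  have hlX : 0 < Real.log X := Real.log_pos (by linarith)
  have hlY : 0 < Real.log Y := Real.log_pos (by rw [hYX]; linarith)
  have hlYX : Real.log Y ≤ 2 * Real.log X := by
    calc Real.log Y ≤ Real.log ((X : ℝ) ^ 2) := Real.log_le_log hY0 (by rw [hYX]; nlinarith)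
      _ = 2 * Real.log X := by rw [Real.log_pow]; norm_num
  have hf := hfin Y (by omega)
  obtain ⟨H, hH⟩ : ∃ H : ℕ, H = ⌊(Y : ℝ) ^ (3 / 4 : ℝ)⌋₊ := ⟨_, rfl⟩
  obtain ⟨z, hz⟩ : ∃ z : ℝ, z = (Y : ℝ) ^ ((3 / 4 : ℝ) / 4) := ⟨_, rfl⟩
  rw [← hH, ← hz] at hf
  have hHle : (H : ℝ) ≤ (Y : ℝ) ^ (3 / 4 : ℝ) := by rw [hH]; exact Nat.floor_le (by positivity)
  -- sizes
  have hpow : ∀ w : ℝ, w ≤ 7 / 8 → (Y : ℝ) ^ w ≤ Y / 32 := by
    intro w hw
    have h1 : (Y : ℝ) ^ w ≤ (Y : ℝ) ^ (7 / 8 : ℝ) := Real.rpow_le_rpow_of_exponent_le hY1 hw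
    have h2 : (Y : ℝ) ^ (7 / 8 : ℝ) * (Y : ℝ) ^ (1 / 8 : ℝ) = Y := by
      rw [← Real.rpow_add hY0]
      norm_num
    have h3 : (Y : ℝ) ^ (7 / 8 : ℝ) * 32 ≤ Y := by
      calc (Y : ℝ) ^ (7 / 8 : ℝ) * 32 ≤ (Y : ℝ) ^ (7 / 8 : ℝ) * (Y : ℝ) ^ (1 / 8 : ℝ) := by gcongr
        _ = Y := h2
    linarith
  have hHX : (H : ℝ) ≤ X / 16 := by
    have := hpow (3 / 4) (by norm_num)
    rw [hYX] at this hHle
    linarith
  have hHXn : H ≤ X := by
    have : (H : ℝ) ≤ X := by linarith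
    exact_mod_cast this
  -- the two sets
  obtain ⟨B, hB⟩ : ∃ B : Finset ℕ, B = (Icc 1 Y).filter (fun N => ((gset a 3 z N H).card : ℝ) <
      δ * (Y : ℝ) ^ (3 / 4 : ℝ) / Real.log Y) := ⟨_, rfl⟩
  obtain ⟨G, hG⟩ : ∃ G : Finset ℕ, G = (Ioc X Y).filter (fun m => P3 a ((Y : ℝ) ^ (1 / 8 : ℝ)) m) := ⟨_, rfl⟩
  rw [← hB] at hf
  rw [← hG]
  have hBc : (B.card : ℝ) ≤ X / 8 := by
    refine hf.trans ?_
    have h1 := hpow (2 * (3 / 4) - 3 / 4 + 1 / 16) (by norm_num)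
    have h2 := hpow (1 - (3 / 4) / 4 + 1 / 16) (by norm_num)
    rw [hYX] at h1 h2 ⊢
    linarith
  have hzz : (Y : ℝ) ^ (1 / 8 : ℝ) < z := by
    rw [hz]
    apply Real.rpow_lt_rpow_of_exponent_lt
    · rw [hYX]; linarith
    · norm_num
  obtain ⟨I, hI⟩ : ∃ I : Finset ℕ, I = (Ioc X (Y - H)).filter (fun N => N ∉ B) := ⟨_, rfl⟩
  have hIc : (X : ℝ) / 2 ≤ I.card := by
    have h1 : (Ioc X (Y - H)).card ≤ I.card + B.card := by
      have : Ioc X (Y - H) ⊆ I ∪ B := by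
        intro N hN
        rw [mem_union, hI, mem_filter]
        by_cases h : N ∈ B
        · exact Or.inr h
        · exact Or.inl ⟨hN, h⟩
      exact (card_le_card this).trans (card_union_le _ _)
    rw [Nat.card_Ioc] at h1
    have h2 : X ≤ I.card + B.card + H := by omega
    have h3 : (X : ℝ) ≤ I.card + B.card + H := by exact_mod_cast h2
    linarith
  have hlow : ∀ N ∈ I, δ * (Y : ℝ) ^ (3 / 4 : ℝ) / Real.log Y ≤ ((G.filter (fun n => n ∈ Ioc N (N + H))).card : ℝ) := by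
    intro N hN
    rw [hI, mem_filter, mem_Ioc] at hN
    obtain ⟨⟨hN1, hN2⟩, hN3⟩ := hN
    have h1 : δ * (Y : ℝ) ^ (3 / 4 : ℝ) / Real.log Y ≤ ((gset a 3 z N H).card : ℝ) := by
      by_contra hcon
      apply hN3
      rw [hB, mem_filter, mem_Icc]
      exact ⟨⟨by omega, by omega⟩, not_le.1 hcon⟩
    refine h1.trans ?_
    rw [Nat.cast_le]
    apply card_le_card
    intro n hn
    unfold gset at hn
    rw [mem_filter] at hn
    have hn1 := mem_Ioc.1 hn.1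
    rw [mem_filter, hG, mem_filter, mem_Ioc]
    exact ⟨⟨⟨by omega, by omega⟩, hn.2.1, fun p hp hd => lt_of_lt_of_le hzz (hn.2.2 p hp hd)⟩, hn.1⟩
  have hup : ∑ N ∈ I, ((G.filter (fun n => n ∈ Ioc N (N + H))).card : ℝ) ≤ H * G.card := by
    have h1 : ∑ N ∈ I, (G.filter (fun n => n ∈ Ioc N (N + H))).card ≤ G.card * H := by
      calc ∑ N ∈ I, (G.filter (fun n => n ∈ Ioc N (N + H))).card =
            ∑ N ∈ I, ∑ n ∈ G, (if n ∈ Ioc N (N + H) then 1 else 0) := by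
            apply sum_congr rfl
            intro N _
            rw [card_filter]
        _ = ∑ n ∈ G, ∑ N ∈ I, (if n ∈ Ioc N (N + H) then 1 else 0) := sum_comm
        _ ≤ ∑ _n ∈ G, H := by
            apply sum_le_sum
            intro n _
            rw [← card_filter]
            have : I.filter (fun N => n ∈ Ioc N (N + H)) ⊆ Ico (n - H) n := by
              intro N hN
              rw [mem_filter, mem_Ioc] at hN
              rw [mem_Ico]
              omega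
            refine (card_le_card this).trans ?_
            rw [Nat.card_Ico]
            omega
        _ = G.card * H := by rw [sum_const, smul_eq_mul]
    have h2 : ((∑ N ∈ I, (G.filter (fun n => n ∈ Ioc N (N + H))).card : ℕ) : ℝ) ≤ ((G.card * H : ℕ) : ℝ) := by
      exact_mod_cast h1
    push_cast at h2
    linarith
  have hsum : (I.card : ℝ) * (δ * (Y : ℝ) ^ (3 / 4 : ℝ) / Real.log Y) ≤ H * G.card := by
    refine le_trans ?_ hup
    calc (I.card : ℝ) * (δ * (Y : ℝ) ^ (3 / 4 : ℝ) / Real.log Y) =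
          ∑ _N ∈ I, δ * (Y : ℝ) ^ (3 / 4 : ℝ) / Real.log Y := by rw [sum_const, nsmul_eq_mul]
      _ ≤ _ := sum_le_sum hlow
  obtain ⟨W, hW⟩ : ∃ W : ℝ, W = (Y : ℝ) ^ (3 / 4 : ℝ) := ⟨_, rfl⟩
  have hW0 : 0 < W := by rw [hW]; positivity
  rw [← hW] at hsum hHle
  have h1 : (X : ℝ) / 2 * (δ * W / Real.log Y) ≤ W * G.card := by
    calc (X : ℝ) / 2 * (δ * W / Real.log Y) ≤ I.card * (δ * W / Real.log Y) := by gcongr
      _ ≤ H * G.card := hsum
      _ ≤ W * G.card := by gcongr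
  have h2 : (X : ℝ) / 2 * (δ * W / Real.log Y) = W * (X / 2 * δ / Real.log Y) := by ring
  rw [h2] at h1
  have h3 := le_of_mul_le_mul_left h1 hW0
  refine le_trans ?_ h3
  rw [pow_one, div_le_div_iff₀ hlX hlY]
  have h4 : 0 ≤ δ / 4 * X := by positivity
  calc δ / 4 * X * Real.log Y ≤ δ / 4 * X * (2 * Real.log X) := mul_le_mul_of_nonneg_left hlYX h4
    _ = _ := by ring

end Pool.Agent.N39.RW
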