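import Pool.Agent.N39.RW.Quad3

set_option autoImplicit false

/-!
# Values `n ^ 2 + a` with at most three prime factors: windows, powers, differences (helper39)
-/

namespace Pool.Agent.N39.RW

open Finset Filter Polynomial

open Classical in
theorem winQ (a : ℤ) (ha : ¬ IsSquare (-a)) :
    ∃ c₁ c₂ K : ℝ, 0 < c₁ ∧ 0 < c₂ ∧ 0 < K ∧
      ∀ Reg : ℕ → Prop, (∀ᶠ t : ℕ in atTop, (∀ u v : ℕ, u ≤ t → t ≤ v → K * Real.log t ≤ (v : ℝ) - u →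
        (v : ℝ) - u ≤ t → c₁ * ((v : ℝ) - u) / Real.log t ≤
          (((Ioc u v).filter (fun m => P3 a ((t : ℝ) ^ (1 / 8 : ℝ)) m)).card : ℝ) ∧
          (((Ioc u v).filter (fun m : ℕ => ∀ p : ℕ, p.Prime → (p : ℤ) ∣ (m : ℤ) ^ 2 + a →
            (t : ℝ) ^ (1 / 8 : ℝ) < (p : ℝ))).card : ℝ) ≤ c₂ * ((v : ℝ) - u) / Real.log t) → Reg t) →
      (∃ μ : ℝ, 0 < μ ∧ ∀ᶠ x : ℕ in atTop, μ * x ≤ (Set.ncard {t : ℕ | t ≤ x ∧ Reg t} : ℝ)) ∧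
      ∀ s : ℕ, 2 ≤ s → ∃ ν : ℝ, 0 < ν ∧ ∀ᶠ N : ℕ in atTop, ν * N ≤
      (Set.ncard {n : ℕ | N ≤ n ∧ n < 2 * N ∧
        ν * (n : ℝ) ^ (s - 1) ≤ (Set.ncard {t : ℕ | n ^ s < t ∧ t < (n + 1) ^ s ∧ Reg t} : ℝ) ∧
        ν * (n : ℝ) ^ (s - 1) / Real.log n ≤
          (Set.ncard {m : ℕ | n ^ s < m ∧ m < (n + 1) ^ s ∧ P3 a ((n : ℝ) ^ ((s : ℝ) / 8)) m} : ℝ)} : ℝ) := by
  obtain ⟨cS, hcS, hcount⟩ := countQ a ha
  obtain ⟨c₁, c₂, K, hc₁, hc₂, hK, huse⟩ := useP (fQ a) (sysQ a ha) (P3 a) (P3_mono a) (P3_rgh a) (1 / 8) cS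
    (by norm_num) hcS hcount 0
  refine ⟨c₁, c₂, K, hc₁, hc₂, hK, ?_⟩
  intro Reg hReg
  obtain ⟨g1, g2⟩ := huse Reg (by
    filter_upwards [hReg] with t ht hreg
    apply ht
    intro u v hu hv h1 h2
    have h3 := hreg u v hu hv (by rw [Fintype.card_unit, pow_one]; exact h1) h2
    rw [Fintype.card_unit, pow_one] at h3
    simp only [rghQ] at h3
    exact h3)
  refine ⟨g1, ?_⟩
  intro s hs
  obtain ⟨ν, hν, g3⟩ := g2 s hs (fun m p => P3 a ((m : ℝ) ^ ((s : ℝ) / 8)) p) (by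
    filter_upwards with m t p ht _ hch
    refine P3_mono a _ _ p ?_ hch
    have e1 : (m : ℝ) ^ ((s : ℝ) / 8) = ((m : ℝ) ^ s) ^ (1 / 8 : ℝ) := by
      rw [← Real.rpow_natCast, ← Real.rpow_mul (Nat.cast_nonneg m)]
      congr 1
      ring
    rw [e1]
    apply Real.rpow_le_rpow (by positivity) _ (by norm_num)
    exact_mod_cast ht.le)
  refine ⟨ν, hν, ?_⟩
  filter_upwards [g3] with N hN
  rw [Fintype.card_unit] at hN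
  simpa using hN

open Classical in
theorem diffQ (a : ℤ) (ha : ¬ IsSquare (-a)) :
    ∃ c C K : ℝ, 0 < c ∧ 0 < C ∧ 0 < K ∧ ∀ᶠ X : ℕ in atTop,
      ∀ H : ℕ, K * Real.log X ≤ H → H ≤ X →
      c * H ≤ (((Icc 1 H).filter (fun d : ℕ =>
        c * X / Real.log X ^ 2 ≤ (((Ioc X (2 * X)).filter (fun m => m + d ≤ 2 * X ∧
          P3 a ((X : ℝ) ^ (1 / 8 : ℝ)) m ∧ P3 a ((X : ℝ) ^ (1 / 8 : ℝ)) (m + d))).card : ℝ) ∧
        (((Ioc X (2 * X)).filter (fun m => m + d ≤ 2 * X ∧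
          P3 a ((X : ℝ) ^ (1 / 8 : ℝ)) m ∧ P3 a ((X : ℝ) ^ (1 / 8 : ℝ)) (m + d))).card : ℝ) ≤
            C * X / Real.log X ^ 2)).card : ℝ) := by
  obtain ⟨cS, hcS, hcount⟩ := countQ a ha
  obtain ⟨c, C, K, hc, hC, hK, hd⟩ := diffP (fQ a) (sysQ a ha) (P3 a) (P3_mono a) (P3_rgh a) (1 / 8) cS
    (by norm_num) hcS hcount
  refine ⟨c, C, K, hc, hC, hK, ?_⟩
  filter_upwards [hd] with X hd H hH1 hH2
  have h1 := hd H (by rw [Fintype.card_unit, pow_one]; exact hH1) hH2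
  rw [Fintype.card_unit, mul_one] at h1
  refine h1.trans ?_
  rw [Nat.cast_le]
  apply card_le_card
  intro d hdd
  rw [mem_filter] at hdd ⊢
  refine ⟨hdd.1, hdd.2.1, le_trans ?_ hdd.2.2⟩
  rw [Nat.cast_le]
  apply card_le_card
  intro m hm
  rw [mem_filter] at hm ⊢
  exact ⟨hm.1, hm.2.1, P3_rgh a _ _ hm.2.2.1, P3_rgh a _ _ hm.2.2.2⟩

end Pool.Agent.N39.RW
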