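import Pool.Agent.N39.RW.CoreQ

set_option autoImplicit false

/-!
# Sieve data for shifts, uniformly in the shifts (helper39)
-/

namespace Pool.Agent.N39.RW

open Finset Filter Polynomial Pool.Agent.H373R2.T7 Pool.Agent.W123.RP Pool.Agent.W123.RU
open Pool.Agent.W182.PW (lin lin_eval)

/-- the product over the primes up to `y` of `1 - 1 / p` -/
noncomputable def V1p (y : ℕ) : ℝ := ∏ p ∈ pz y, (1 - 1 / (p : ℝ))

theorem V1p_bounds : ∃ v C : ℝ, 0 < v ∧ 0 < C ∧ ∀ y : ℕ, 3 ≤ y → v / Real.log y ≤ V1p y ∧ V1p y ≤ C / Real.log y := by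
  classical
  have hadm : ∀ p : ℕ, p.Prime → ∃ m : ℕ, ∀ t ∈ ({0} : Finset ℕ), ¬ p ∣ m + t := by
    intro p hp
    refine ⟨1, fun t ht => ?_⟩
    rw [mem_singleton] at ht
    subst ht
    intro h
    exact hp.one_lt.ne' (Nat.dvd_one.1 h)
  obtain ⟨v, Cv, hv, hCv, hV⟩ := Pool.Agent.W123.RU.Poly.V_bounds _ (sysT {0} hadm)
  refine ⟨v, Cv, hv, hCv, fun y hy => ?_⟩
  have h1 := hV y hy
  rw [Fintype.card_coe, card_singleton, pow_one] at h1
  have e : Vq (Pool.Agent.W123.RU.Poly.Q (fun i : {x // x ∈ ({0} : Finset ℕ)} => lin 1 ((i.1 : ℕ) : ℤ))) y = V1p y := by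
    unfold Vq V1p
    apply prod_congr rfl
    intro p hp
    have hp2 := (mem_pz.1 hp).2.two_le
    have h2 : (range p).filter (fun r => Pool.Agent.W123.RU.Poly.Q
        (fun i : {x // x ∈ ({0} : Finset ℕ)} => lin 1 ((i.1 : ℕ) : ℤ)) p r) = {0} := by
      ext r
      rw [mem_filter, mem_range, mem_singleton]
      have hq : Pool.Agent.W123.RU.Poly.Q
        (fun i : {x // x ∈ ({0} : Finset ℕ)} => lin 1 ((i.1 : ℕ) : ℤ)) p r ↔ p ∣ r := by
        unfold Pool.Agent.W123.RU.Poly.Q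
        constructor
        · rintro ⟨i, hi⟩
          simp only at hi
          rw [lin_eval] at hi
          have h0 : (i.1 : ℕ) = 0 := mem_singleton.1 i.2
          rw [h0] at hi
          have e : (((1 : ℕ) : ℤ) * (r : ℤ) + ((0 : ℕ) : ℤ)) = ((r : ℕ) : ℤ) := by push_cast; ring
          rw [e] at hi
          exact_mod_cast hi
        · intro hd
          refine ⟨⟨0, mem_singleton_self 0⟩, ?_⟩
          simp only
          rw [lin_eval]
          have e : (((1 : ℕ) : ℤ) * (r : ℤ) + ((0 : ℕ) : ℤ)) = ((r : ℕ) : ℤ) := by push_cast; ring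
          rw [e]
          exact_mod_cast hd
      rw [hq]
      constructor
      · rintro ⟨h3, h4⟩
        exact Nat.eq_zero_of_dvd_of_lt h4 h3
      · rintro rfl
        exact ⟨by omega, dvd_zero _⟩
    have h3 := congrArg Finset.card h2
    rw [card_singleton] at h3
    have h4 : nuB (Pool.Agent.W123.RU.Poly.Q
        (fun i : {x // x ∈ ({0} : Finset ℕ)} => lin 1 ((i.1 : ℕ) : ℤ))) p = 1 := by
      unfold nuB
      refine Eq.trans ?_ h3
      congr
    rw [h4, Nat.cast_one]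
  rw [e] at h1
  exact h1

theorem V1p_pos (y : ℕ) : 0 < V1p y := by
  unfold V1p
  apply prod_pos
  intro p hp
  have hp2 := (mem_pz.1 hp).2.two_le
  have : (2 : ℝ) ≤ p := by exact_mod_cast hp2
  rw [sub_pos, div_lt_one (by linarith)]
  linarith

theorem pz_mono {y n : ℕ} (h : y ≤ n) : pz y ⊆ pz n := by
  intro p hp
  rw [mem_pz] at hp ⊢
  exact ⟨hp.1.trans h, hp.2⟩

theorem fac_pos (Q : ℕ → ℕ → Prop) (hadm : ∀ p : ℕ, p.Prime → nuB Q p < p) (p : ℕ) (hp : p.Prime) :
    0 < 1 - (nuB Q p : ℝ) / p := by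
  have h1 : (nuB Q p : ℝ) < p := by exact_mod_cast hadm p hp
  have h0 : (0 : ℝ) < p := by exact_mod_cast hp.pos
  rw [sub_pos, div_lt_one h0]
  exact h1

theorem Vq_pos (Q : ℕ → ℕ → Prop) (hadm : ∀ p : ℕ, p.Prime → nuB Q p < p) (y : ℕ) : 0 < Vq Q y :=
  prod_pos fun p hp => fac_pos Q hadm p (mem_pz.1 hp).2

theorem Vq_anti (Q : ℕ → ℕ → Prop) (hadm : ∀ p : ℕ, p.Prime → nuB Q p < p) {y n : ℕ} (h : y ≤ n) :
    Vq Q n ≤ Vq Q y := by
  unfold Vq
  rw [← prod_sdiff (pz_mono h)]
  have h1 : ∏ p ∈ pz n \ pz y, (1 - (nuB Q p : ℝ) / p) ≤ 1 := by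
    apply prod_le_one
    · intro p hp
      exact (fac_pos Q hadm p (mem_pz.1 (mem_sdiff.1 hp).1).2).le
    · intro p hp
      have : 0 ≤ (nuB Q p : ℝ) / p := by positivity
      linarith
  have h2 := (Vq_pos Q hadm y).le
  unfold Vq at h2
  calc _ ≤ 1 * ∏ p ∈ pz y, (1 - (nuB Q p : ℝ) / p) := mul_le_mul_of_nonneg_right h1 h2
    _ = _ := one_mul _

/-- the sieve products at comparable levels -/
theorem Vq_ratio (c R : ℕ) (hR : 1 ≤ R) : ∃ C3 : ℝ, 0 < C3 ∧ ∀ y n : ℕ, 3 ≤ y → 2 * c ≤ y → y ≤ n →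
    Real.log n ≤ R * Real.log y → ∀ Q : ℕ → ℕ → Prop, PerB Q c → (∀ p : ℕ, p.Prime → nuB Q p < p) →
      Vq Q y ≤ C3 * Vq Q n := by
  obtain ⟨v, C, hv, hC, hV⟩ := V1p_bounds
  have hR0 : (0 : ℝ) < R := by exact_mod_cast hR
  refine ⟨(C * R / v) ^ (2 * c), by positivity, ?_⟩
  intro y n hy hcy hyn hlog Q hQ hadm
  have hly : 0 < Real.log y := Real.log_pos (by exact_mod_cast (by omega : 1 < y))
  have hln : 0 < Real.log n := Real.log_pos (by exact_mod_cast (by omega : 1 < n))
  obtain ⟨A, hA⟩ : ∃ A : ℝ, A = ∏ p ∈ pz n \ pz y, (1 - 1 / (p : ℝ)) := ⟨_, rfl⟩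
  have hsplit1 : A * V1p y = V1p n := by
    rw [hA]
    unfold V1p
    exact prod_sdiff (pz_mono hyn)
  have hApos : 0 < A := by
    rw [hA]
    apply prod_pos
    intro p hp
    have hp2 := (mem_pz.1 (mem_sdiff.1 hp).1).2.two_le
    have : (2 : ℝ) ≤ p := by exact_mod_cast hp2
    rw [sub_pos, div_lt_one (by linarith)]
    linarith
  have hAlow : v / (C * R) ≤ A := by
    have h1 := (hV n (by omega)).1
    have h2 := (hV y hy).2
    rw [← hsplit1] at h1
    have h3 : v / (R * Real.log y) ≤ v / Real.log n := div_le_div_of_nonneg_left hv.le hln hlog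
    have h4 : v / (R * Real.log y) ≤ A * (C / Real.log y) :=
      h3.trans (h1.trans (mul_le_mul_of_nonneg_left h2 hApos.le))
    rw [div_le_iff₀ (by positivity)] at h4 ⊢
    calc v ≤ A * (C / Real.log y) * (R * Real.log y) := h4
      _ = A * (C * R) := by field_simp
  have hfac : A ^ (2 * c) ≤ ∏ p ∈ pz n \ pz y, (1 - (nuB Q p : ℝ) / p) := by
    rw [hA, ← prod_pow]
    apply Finset.prod_le_prod
    · intro p hp
      have hp2 := (mem_pz.1 (mem_sdiff.1 hp).1).2.two_le
      have h3 : (2 : ℝ) ≤ p := by exact_mod_cast hp2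
      have : 0 ≤ 1 - 1 / (p : ℝ) := by
        rw [sub_nonneg, div_le_one (by linarith)]
        linarith
      positivity
    · intro p hp
      obtain ⟨hp1, hp2⟩ := mem_sdiff.1 hp
      have hpp := (mem_pz.1 hp1).2
      have hyp : y < p := by
        by_contra hcon
        exact hp2 (mem_pz.2 ⟨not_lt.1 hcon, hpp⟩)
      have hp0 : (0 : ℝ) < p := by exact_mod_cast hpp.pos
      have hp1r : (1 : ℝ) ≤ p := by exact_mod_cast hpp.one_lt.le
      have hnu : (nuB Q p : ℝ) ≤ c := by exact_mod_cast hQ.few p hpp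
      obtain ⟨x, hx⟩ : ∃ x : ℝ, x = (c : ℝ) / p := ⟨_, rfl⟩
      have hx0 : 0 ≤ x := by rw [hx]; positivity
      have hx2 : x ≤ 1 / 2 := by
        rw [hx, div_le_iff₀ hp0]
        have : (2 * c : ℝ) ≤ p := by exact_mod_cast (by omega : 2 * c ≤ p)
        linarith
      have h1 : (1 - 1 / (p : ℝ)) ^ (2 * c) ≤ Real.exp (-(2 * x)) := by
        have h2 : 1 - 1 / (p : ℝ) ≤ Real.exp (-(1 / (p : ℝ))) := by
          have := Real.add_one_le_exp (-(1 / (p : ℝ)))
          linarith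
        have h3 : 0 ≤ 1 - 1 / (p : ℝ) := by
          rw [sub_nonneg, div_le_one hp0]
          exact hp1r
        calc (1 - 1 / (p : ℝ)) ^ (2 * c) ≤ Real.exp (-(1 / (p : ℝ))) ^ (2 * c) := pow_le_pow_left₀ h3 h2 _
          _ = Real.exp (-(2 * x)) := by
            rw [← Real.exp_nat_mul]
            congr 1
            rw [hx]
            push_cast
            ring
      have h2 : Real.exp (-(2 * x)) ≤ 1 - x := by
        rw [Real.exp_neg]
        have h3 := Real.add_one_le_exp (2 * x)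
        have h4 : 0 < 1 - x := by linarith
        rw [inv_le_comm₀ (Real.exp_pos _) h4]
        refine le_trans ?_ h3
        rw [inv_le_iff_one_le_mul₀ h4]
        nlinarith
      have h3 : 1 - x ≤ 1 - (nuB Q p : ℝ) / p := by
        rw [hx]
        have : (nuB Q p : ℝ) / p ≤ (c : ℝ) / p := div_le_div_of_nonneg_right hnu hp0.le
        linarith
      exact h1.trans (h2.trans h3)
  have hVy := (Vq_pos Q hadm y).le
  have hsplit2 : (∏ p ∈ pz n \ pz y, (1 - (nuB Q p : ℝ) / p)) * Vq Q y = Vq Q n := by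
    unfold Vq
    exact prod_sdiff (pz_mono hyn)
  have h5 : (v / (C * R)) ^ (2 * c) * Vq Q y ≤ Vq Q n := by
    rw [← hsplit2]
    apply mul_le_mul_of_nonneg_right _ hVy
    exact (pow_le_pow_left₀ (by positivity) hAlow _).trans hfac
  have h6 : (C * R / v) ^ (2 * c) * (v / (C * R)) ^ (2 * c) = 1 := by
    rw [← mul_pow]
    have : C * R / v * (v / (C * R)) = 1 := by field_simp
    rw [this, one_pow]
  calc Vq Q y = (C * R / v) ^ (2 * c) * ((v / (C * R)) ^ (2 * c) * Vq Q y) := by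
        rw [← mul_assoc, h6, one_mul]
    _ ≤ (C * R / v) ^ (2 * c) * Vq Q n := mul_le_mul_of_nonneg_left h5 (by positivity)

/-- one of the `m + h l` is divisible by `p` -/
def QS {k : ℕ} (h : Fin k → ℕ) (p m : ℕ) : Prop := ∃ l, p ∣ m + h l

theorem QS_per {k : ℕ} (h : Fin k → ℕ) : PerB (QS h) k where
  per := fun p n => by
    unfold QS
    apply exists_congr
    intro l
    have e : n + h l = p * (n / p) + (n % p + h l) := by
      have := Nat.div_add_mod n p
      omega
    constructor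
    · intro hd
      rw [e] at hd
      exact (Nat.dvd_add_right (Dvd.intro _ rfl)).1 hd
    · intro hd
      rw [e]
      exact (Nat.dvd_add_right (Dvd.intro _ rfl)).2 hd
  few := fun p hp => by
    classical
    unfold nuB
    have h1 : (range p).filter (fun r => QS h p r) ⊆ (univ : Finset (Fin k)).image (fun l => (p - h l % p) % p) := by
      intro r hr
      rw [mem_filter, mem_range] at hr
      obtain ⟨hr1, l, hl⟩ := hr
      rw [mem_image]
      refine ⟨l, mem_univ l, ?_⟩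
      have h2 : (r + h l % p) % p = 0 := by
        rw [Nat.add_mod, Nat.mod_mod, ← Nat.add_mod]
        exact Nat.mod_eq_zero_of_dvd hl
      have h3 : h l % p < p := Nat.mod_lt _ hp.pos
      rcases Nat.eq_zero_or_pos (h l % p) with h0 | h0
      · rw [h0, add_zero, Nat.mod_eq_of_lt hr1] at h2
        rw [h0, Nat.sub_zero, Nat.mod_self, h2]
      · have h4 : p ∣ r + h l % p := Nat.dvd_of_mod_eq_zero h2
        obtain ⟨e, he⟩ := h4
        have h5 : e = 1 := by
          rcases Nat.lt_or_ge e 1 with h6 | h6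
          · have : e = 0 := by omega
            rw [this, mul_zero] at he
            omega
          · rcases Nat.lt_or_ge e 2 with h7 | h7
            · omega
            · have : p * 2 ≤ p * e := Nat.mul_le_mul_left _ h7
              omega
        rw [h5, mul_one] at he
        rw [Nat.mod_eq_of_lt (by omega)]
        omega
    have h2 := (card_le_card h1).trans card_image_le
    rw [card_univ, Fintype.card_fin] at h2
    refine le_trans (le_of_eq ?_) h2
    congr

theorem QS_adm {k : ℕ} (h : Fin k → ℕ) (hadm : ∀ p : ℕ, p.Prime → ∃ n : ℕ, ∀ l, ¬ p ∣ n + h l) (p : ℕ)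
    (hp : p.Prime) : nuB (QS h) p < p := by
  classical
  obtain ⟨m, hm⟩ := hadm p hp
  have h1 : (range p).filter (fun r => QS h p r) ⊂ range p := by
    rw [Finset.filter_ssubset]
    refine ⟨m % p, mem_range.2 (Nat.mod_lt _ hp.pos), ?_⟩
    intro h2
    obtain ⟨l, hl⟩ := ((QS_per h).per p m).2 h2
    exact hm l hl
  have h2 := card_lt_card h1
  rw [card_range] at h2
  refine lt_of_le_of_lt (le_of_eq ?_) h2
  unfold nuB
  congr

open Classical in
/-- few large collisions -/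
theorem QS_large {k : ℕ} (h : Fin k → ℕ) (T M : ℕ) (hT : ∀ l, h l ≤ M) (y : ℕ) (d : ℕ)
    (hd1 : 1 ≤ d) (hd : ∀ l l', d + h l ≠ h l') :
    (((pz y).filter (fun p : ℕ => T < p ∧ CoG (QS h) p d)).card : ℝ) * Real.log 2 ≤ k ^ 2 * Real.log (d + M) := by
  have hsub : (pz y).filter (fun p : ℕ => T < p ∧ CoG (QS h) p d) ⊆
      (univ : Finset (Fin k × Fin k)).biUnion (fun e => (pz y).filter (fun p : ℕ =>
        p ∣ ((d : ℤ) + h e.1 - h e.2).natAbs)) := by
    intro p hp
    rw [mem_filter] at hp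
    obtain ⟨hp1, -, m, ⟨l', hl'⟩, ⟨l, hl⟩⟩ := hp
    rw [mem_biUnion]
    refine ⟨(l, l'), mem_univ _, mem_filter.2 ⟨hp1, ?_⟩⟩
    rw [← Int.natCast_dvd]
    have h1 : (p : ℤ) ∣ ((m + d + h l : ℕ) : ℤ) := by exact_mod_cast hl
    have h2 : (p : ℤ) ∣ ((m + h l' : ℕ) : ℤ) := by exact_mod_cast hl'
    have h3 := dvd_sub h1 h2
    have e : ((m + d + h l : ℕ) : ℤ) - ((m + h l' : ℕ) : ℤ) = (d : ℤ) + h l - h l' := by push_cast; ring
    rwa [e] at h3
  have hlog2 : 0 < Real.log 2 := Real.log_pos (by norm_num)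
  have h1 : ∀ e : Fin k × Fin k, (((pz y).filter (fun p : ℕ =>
        p ∣ ((d : ℤ) + h e.1 - h e.2).natAbs)).card : ℝ) * Real.log 2 ≤ Real.log (d + M) := by
    intro e
    have hne : ((d : ℤ) + h e.1 - h e.2).natAbs ≠ 0 := by
      rw [Int.natAbs_ne_zero]
      have := hd e.1 e.2
      omega
    refine (card_le_log _ _ hne (fun p hp => ?_)).trans ?_
    · rw [mem_filter] at hp
      exact ⟨(mem_pz.1 hp.1).2, hp.2⟩
    · apply Real.log_le_log
      · exact_mod_cast Nat.pos_of_ne_zero hne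
      · have h2 := hT e.1
        have h3 := hT e.2
        have : ((d : ℤ) + h e.1 - h e.2).natAbs ≤ d + M := by omega
        exact_mod_cast this
  have h2 : (((pz y).filter (fun p : ℕ => T < p ∧ CoG (QS h) p d)).card : ℝ) ≤
      ∑ e : Fin k × Fin k, (((pz y).filter (fun p : ℕ => p ∣ ((d : ℤ) + h e.1 - h e.2).natAbs)).card : ℝ) := by
    exact_mod_cast (card_le_card hsub).trans card_biUnion_le
  calc (((pz y).filter (fun p : ℕ => T < p ∧ CoG (QS h) p d)).card : ℝ) * Real.log 2 ≤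
      (∑ e : Fin k × Fin k, (((pz y).filter (fun p : ℕ => p ∣ ((d : ℤ) + h e.1 - h e.2).natAbs)).card : ℝ)) *
        Real.log 2 := mul_le_mul_of_nonneg_right h2 hlog2.le
    _ = ∑ e : Fin k × Fin k, (((pz y).filter (fun p : ℕ => p ∣ ((d : ℤ) + h e.1 - h e.2).natAbs)).card : ℝ) *
        Real.log 2 := by rw [sum_mul]
    _ ≤ ∑ _e : Fin k × Fin k, Real.log (d + M) := sum_le_sum fun e _ => h1 e
    _ = k ^ 2 * Real.log (d + M) := by
      rw [sum_const, card_univ, Fintype.card_prod, Fintype.card_fin, nsmul_eq_mul]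
      push_cast
      ring

end Pool.Agent.N39.RW
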