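import Pool.Agent.N39.RW.UniB
import Pool.Agent.W123.RU.Prime

set_option autoImplicit false

/-!
# Regular windows for primes avoiding classes, uniformly in the classes (helper39)
-/

namespace Pool.Agent.N39.RW

open Finset Filter Pool.Agent.H373R2.T7 Pool.Agent.W123.RP Pool.Agent.W123.RU

/-- `p ∣ m` or the condition -/
def QQ (QA : ℕ → ℕ → Prop) (p m : ℕ) : Prop := p ∣ m ∨ QA p m

theorem nuQQ (QA : ℕ → ℕ → Prop) (p : ℕ) (hp : p.Prime) : nuB (QQ QA) p = 1 + rhoA QA p := by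
  classical
  have h1 : (range p).filter (fun r => QQ QA p r) = insert 0 ((range p).filter (fun r => ¬ p ∣ r ∧ QA p r)) := by
    ext r
    rw [mem_insert, mem_filter, mem_filter, mem_range]
    unfold QQ
    constructor
    · rintro ⟨hr, h | h⟩
      · exact Or.inl (Nat.eq_zero_of_dvd_of_lt h hr)
      · by_cases h0 : p ∣ r
        · exact Or.inl (Nat.eq_zero_of_dvd_of_lt h0 hr)
        · exact Or.inr ⟨hr, h0, h⟩
    · rintro (rfl | ⟨hr, h0, h⟩)
      · exact ⟨hp.pos, Or.inl (dvd_zero _)⟩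
      · exact ⟨hr, Or.inr h⟩
  have h2 : 0 ∉ (range p).filter (fun r => ¬ p ∣ r ∧ QA p r) := by
    intro h
    exact (mem_filter.1 h).2.1 (dvd_zero _)
  have h3 := congrArg Finset.card h1
  rw [card_insert_of_notMem h2] at h3
  have e1 : nuB (QQ QA) p = ((range p).filter (fun r => QQ QA p r)).card := by
    unfold nuB
    congr
  have e2 : rhoA QA p = ((range p).filter (fun r => ¬ p ∣ r ∧ QA p r)).card := by
    unfold rhoA
    congr
  rw [e1, e2]
  omega

theorem perQQ (QA : ℕ → ℕ → Prop) (c : ℕ) (hA : PerA QA c) : PerB (QQ QA) (c + 1) where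
  per := fun p n => by
    unfold QQ
    rw [hA.per p n]
    apply or_congr _ Iff.rfl
    exact (Nat.dvd_mod_iff (dvd_refl p)).symm
  few := fun p hp => by
    rw [nuQQ QA p hp]
    have := hA.few p hp
    omega

theorem VqQQ (QA : ℕ → ℕ → Prop) (y : ℕ) : Vq (QQ QA) y =
    V1p y * ∏ p ∈ pz y, (1 - (rhoA QA p : ℝ) / (p - 1 : ℝ)) := by
  unfold Vq V1p
  rw [← Finset.prod_mul_distrib]
  apply prod_congr rfl
  intro p hp
  have hpp := (mem_pz.1 hp).2
  have h2 : (2 : ℝ) ≤ p := by exact_mod_cast hpp.two_le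
  have h3 : (p : ℝ) - 1 ≠ 0 := by linarith
  have h4 : (p : ℝ) ≠ 0 := by linarith
  rw [nuQQ QA p hpp]
  push_cast
  field_simp
  ring

/-- lower bound for all sieve products -/
theorem Vq_ge (c : ℕ) : ∃ κ : ℝ, 0 < κ ∧ ∀ y : ℕ, 3 ≤ y → ∀ Q : ℕ → ℕ → Prop, PerB Q c →
    (∀ p : ℕ, p.Prime → nuB Q p < p) → κ / Real.log y ^ (2 * c) ≤ Vq Q y := by
  classical
  obtain ⟨v, C, hv, hC, hV⟩ := V1p_bounds
  obtain ⟨κ₀, hκ₀⟩ : ∃ κ₀ : ℝ, κ₀ = ∏ p ∈ pz (2 * c), (1 / (p : ℝ)) := ⟨_, rfl⟩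
  have hκ₀pos : 0 < κ₀ := by
    rw [hκ₀]
    apply prod_pos
    intro p hp
    have : (0 : ℝ) < p := by exact_mod_cast (mem_pz.1 hp).2.pos
    positivity
  refine ⟨κ₀ * v ^ (2 * c), by positivity, fun y hy Q hQ hadm => ?_⟩
  have hly : 0 < Real.log y := Real.log_pos (by exact_mod_cast (by omega : 1 < y))
  have hfac : ∀ p : ℕ, p.Prime → 0 ≤ (1 - 1 / (p : ℝ)) ^ (2 * c) ∧ (1 - 1 / (p : ℝ)) ^ (2 * c) ≤ 1 := by
    intro p hp
    have h2 : (2 : ℝ) ≤ p := by exact_mod_cast hp.two_le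
    have h3 : 1 / (p : ℝ) ≤ 1 / 2 := one_div_le_one_div_of_le (by norm_num) h2
    have h4 : 0 < 1 / (p : ℝ) := by positivity
    exact ⟨pow_nonneg (by linarith) _, pow_le_one₀ (by linarith) (by linarith)⟩
  have h1 : ∏ p ∈ pz y, ((if p ≤ 2 * c then 1 / (p : ℝ) else 1) * (1 - 1 / (p : ℝ)) ^ (2 * c)) ≤ Vq Q y := by
    unfold Vq
    apply Finset.prod_le_prod
    · intro p hp
      have hpp := (mem_pz.1 hp).2
      apply mul_nonneg _ (hfac p hpp).1
      split_ifs <;> positivity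
    · intro p hp
      have hpp := (mem_pz.1 hp).2
      have hp0 : (0 : ℝ) < p := by exact_mod_cast hpp.pos
      by_cases hpc : p ≤ 2 * c
      · rw [if_pos hpc]
        have h5 : (nuB Q p : ℝ) + 1 ≤ p := by exact_mod_cast hadm p hpp
        calc 1 / (p : ℝ) * (1 - 1 / (p : ℝ)) ^ (2 * c) ≤ 1 / (p : ℝ) * 1 :=
              mul_le_mul_of_nonneg_left (hfac p hpp).2 (by positivity)
          _ = 1 / p := mul_one _
          _ ≤ 1 - (nuB Q p : ℝ) / p := by
            rw [div_le_iff₀ hp0, sub_mul, div_mul_cancel₀ _ hp0.ne', one_mul]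
            linarith
      · rw [if_neg hpc, one_mul]
        have h5 : (nuB Q p : ℝ) ≤ c := by exact_mod_cast hQ.few p hpp
        have h6 : (nuB Q p : ℝ) / p ≤ c / p := div_le_div_of_nonneg_right h5 hp0.le
        have h7 : (c : ℝ) / p ≤ 1 / 2 := by
          rw [div_le_div_iff₀ hp0 (by norm_num)]
          have : (2 * c : ℝ) < p := by exact_mod_cast (not_le.1 hpc)
          linarith
        have h8 : (0 : ℝ) ≤ c / p := by positivity
        have hx : 0 ≤ 1 / (p : ℝ) := by positivity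
        have hx1 : 0 ≤ 1 - 1 / (p : ℝ) := by
          have h2 : (2 : ℝ) ≤ p := by exact_mod_cast hpp.two_le
          have h3 : 1 / (p : ℝ) ≤ 1 / 2 := one_div_le_one_div_of_le (by norm_num) h2
          linarith
        -- `(1 - x) ^ (2 c) ≤ exp (- 2 c x) ≤ 1 / (1 + 2 c x) ≤ 1 - c x`
        have h9 : (1 - 1 / (p : ℝ)) ^ (2 * c) ≤ Real.exp (-(2 * (c / p))) := by
          have h10 : 1 - 1 / (p : ℝ) ≤ Real.exp (-(1 / p)) := by
            have := Real.add_one_le_exp (-(1 / (p : ℝ)))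
            linarith
          calc (1 - 1 / (p : ℝ)) ^ (2 * c) ≤ Real.exp (-(1 / p)) ^ (2 * c) := pow_le_pow_left₀ hx1 h10 _
            _ = Real.exp (-(2 * (c / p))) := by
              rw [← Real.exp_nat_mul]
              congr 1
              push_cast
              ring
        have h11 : Real.exp (-(2 * ((c : ℝ) / p))) ≤ 1 - c / p := by
          have h12 := Real.add_one_le_exp (2 * ((c : ℝ) / p))
          rw [Real.exp_neg, inv_le_comm₀ (Real.exp_pos _) (by linarith)]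
          refine le_trans ?_ h12
          rw [inv_le_comm₀ (by linarith) (by linarith)]
          rw [inv_le_iff_one_le_mul₀ (by linarith)]
          nlinarith
        linarith
  refine le_trans ?_ h1
  rw [Finset.prod_mul_distrib, Finset.prod_pow, mul_div_assoc, ← div_pow]
  apply mul_le_mul _ (pow_le_pow_left₀ (by positivity) (hV y hy).1 _) (by positivity)
  · apply prod_nonneg
    intro p hp
    split_ifs <;> positivity
  · rw [hκ₀, ← Finset.prod_filter_mul_prod_filter_not (pz y) (fun p => p ≤ 2 * c)]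
    have e1 : ∏ p ∈ (pz y).filter (fun p => ¬ p ≤ 2 * c), (if p ≤ 2 * c then 1 / (p : ℝ) else 1) = 1 := by
      apply prod_eq_one
      intro p hp
      rw [if_neg (mem_filter.1 hp).2]
    have e2 : ∏ p ∈ (pz y).filter (fun p => p ≤ 2 * c), (if p ≤ 2 * c then 1 / (p : ℝ) else 1) =
        ∏ p ∈ (pz y).filter (fun p => p ≤ 2 * c), (1 / (p : ℝ)) := by
      apply prod_congr rfl
      intro p hp
      rw [if_pos (mem_filter.1 hp).2]
    rw [e1, e2, mul_one]
    have hsub : (pz y).filter (fun p => p ≤ 2 * c) ⊆ pz (2 * c) := by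
      intro p hp
      rw [mem_filter] at hp
      exact mem_pz.2 ⟨hp.2, (mem_pz.1 hp.1).2⟩
    rw [← Finset.prod_sdiff hsub]
    apply mul_le_of_le_one_left
    · exact prod_nonneg fun p _ => by positivity
    · apply Finset.prod_le_one
      · intro p _
        positivity
      · intro p hp
        have : (1 : ℝ) ≤ p := by exact_mod_cast (mem_pz.1 (Finset.mem_sdiff.1 hp).1).2.one_lt.le
        rw [div_le_one (by linarith)]
        exact this

open Classical in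
theorem uniA : ∃ κ₀ : ℝ, 0 < κ₀ ∧ ∀ c D' : ℕ, 1 ≤ c → ∃ K0 : ℕ, 2 ≤ K0 ∧ ∀ r : ℕ, K0 ≤ r →
    ∃ c₁ c₂ K μ : ℝ, 0 < c₁ ∧ 0 < c₂ ∧ 1 ≤ K ∧ 0 < μ ∧ ∀ᶠ X : ℕ in atTop, ∀ QA : ℕ → ℕ → Prop, PerA QA c →
      (∀ p : ℕ, p.Prime → nuB (QQ QA) p < p) →
      (∀ T : ℕ, κ₀ * Real.log X ≤ T → T ≤ X → ∀ h ∈ Icc 1 T,
        ((pz ⌊(X : ℝ) ^ (1 / (r : ℝ))⌋₊).filter (fun p : ℕ => T < p ∧ CoG (QQ QA) p h)).card ≤ D' * T) →
      μ * X ≤ (((Ioc X (2 * X)).filter (fun n => ∀ u v : ℕ, u ≤ n → n ≤ v →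
        K / Vq (QQ QA) X ≤ (v : ℝ) - u → (v : ℝ) - u ≤ n →
          c₁ * ((v : ℝ) - u) * Vq (QQ QA) X ≤
            (((Ioc u v).filter (fun m => m.Prime ∧ ∀ p ∈ pz ⌊(X : ℝ) ^ (1 / (r : ℝ))⌋₊, ¬ QQ QA p m)).card : ℝ) ∧
          (((Ioc u v).filter (fun m => ∀ p ∈ pz ⌊(X : ℝ) ^ (1 / (r : ℝ))⌋₊, ¬ QQ QA p m)).card : ℝ) ≤
            c₂ * ((v : ℝ) - u) * Vq (QQ QA) X)).card : ℝ) := by
  obtain ⟨v₁, C₀, hv₁, hC₀, hV1⟩ := V1p_bounds
  refine ⟨1 / (2 * C₀), by positivity, fun c D' hc => ?_⟩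
  obtain ⟨K1, hK1, hmain⟩ := sieve_regular (c + 1) (2 * (c + 1)) ((c + 1) ^ 2) D' 0 (by omega)
  obtain ⟨K2, hK2, hprime⟩ := prime_lower c hc
  obtain ⟨κ1, hκ1, hVge⟩ := Vq_ge (c + 1)
  refine ⟨max K1 K2, hK1.trans (le_max_left _ _), fun r hr => ?_⟩
  have hr1 : K1 ≤ r := (le_max_left _ _).trans hr
  have hr2 : K2 ≤ r := (le_max_right _ _).trans hr
  have hr0 : 2 ≤ r := hK1.trans hr1
  have hrpos : (0 : ℝ) < r := by exact_mod_cast (by omega : 0 < r)
  obtain ⟨C3, hC3, hratio⟩ := Vq_ratio (c + 1) (2 * r) (by omega)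
  obtain ⟨c₁, c₂, K, μ, L0, hc₁, hc₂, hK, hμ, hreg⟩ := hmain r hr1 (1 / (16 * r * C₀)) C3 (by positivity) hC3
  refine ⟨c₁, c₂, K, μ, hc₁, hc₂, hK, hμ, ?_⟩
  have hXr : Tendsto (fun X : ℕ => (X : ℝ)) atTop atTop := tendsto_natCast_atTop_atTop
  have hpow : Tendsto (fun X : ℕ => (X : ℝ) ^ (1 / (2 * r : ℝ))) atTop atTop :=
    (tendsto_rpow_atTop (by positivity)).comp hXr
  have hlogX : Tendsto (fun X : ℕ => Real.log (X : ℝ)) atTop atTop :=
    Real.tendsto_log_atTop.comp hXr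
  filter_upwards [hreg, hprime r hr2 (2 * (c + 1) + 1), eventually_ge_atTop 16,
    hpow.eventually_ge_atTop ((3 : ℝ) + 2 * (c + 1)),
    hlogX.eventually_ge_atTop (C₀ * (2 + |L0|) + 1 + 1 / κ1), logpow_le (16 * (c + 1)) ((1 / κ1) ^ 8) (by positivity)]
    with X hreg hprime hX16 hX2 hXlog hlp
  intro QA hA hadm hcollT
  have hX16r : (16 : ℝ) ≤ X := by exact_mod_cast hX16
  have hXpos : (0 : ℝ) < X := by linarith
  have hlX : 0 < Real.log X := Real.log_pos (by linarith)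
  have hL0a : 0 ≤ |L0| := abs_nonneg _
  have hκ1' : 0 < 1 / κ1 := by positivity
  have hC0L : 0 ≤ C₀ * (2 + |L0|) := by positivity
  have hper := perQQ QA c hA
  obtain ⟨V, hV⟩ : ∃ V : ℝ, V = Vq (QQ QA) X := ⟨_, rfl⟩
  have hVpos : 0 < V := by rw [hV]; exact Vq_pos _ hadm X
  obtain ⟨L, hL⟩ : ∃ L : ℝ, L = 1 / V := ⟨_, rfl⟩
  have hLpos : 0 < L := by rw [hL]; positivity
  have hVL : V = 1 / L := by rw [hL]; field_simp
  -- the product over rhoA
  have hprodnn : ∀ y : ℕ, 0 ≤ ∏ p ∈ pz y, (1 - (rhoA QA p : ℝ) / (p - 1 : ℝ)) := fun y =>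
    prod_nonneg fun p hp => (facA QA p (mem_pz.1 hp).2).1
  have hprodle : ∀ y : ℕ, ∏ p ∈ pz y, (1 - (rhoA QA p : ℝ) / (p - 1 : ℝ)) ≤ 1 := fun y =>
    Finset.prod_le_one (fun p hp => (facA QA p (mem_pz.1 hp).2).1) (fun p hp => (facA QA p (mem_pz.1 hp).2).2)
  -- upper bound of V
  have hVup : V ≤ C₀ / Real.log X := by
    rw [hV, VqQQ]
    calc _ ≤ V1p X * 1 := mul_le_mul_of_nonneg_left (hprodle X) (V1p_pos X).le
      _ = V1p X := mul_one _
      _ ≤ _ := (hV1 X (by omega)).2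
  have hLlow : Real.log X / C₀ ≤ L := by
    rw [hL, div_le_div_iff₀ hC₀ hVpos, one_mul]
    rw [le_div_iff₀ hlX] at hVup
    linarith
  have hLL : 2 + |L0| ≤ L := by
    refine le_trans ?_ hLlow
    rw [le_div_iff₀ hC₀]
    linarith
  have hL1 : 1 ≤ L := by linarith
  have hLup : L ≤ 1 / κ1 * Real.log X ^ (2 * (c + 1)) := by
    have h1 := hVge X (by omega) (QQ QA) hper hadm
    rw [← hV] at h1
    rw [hL, div_le_iff₀ hVpos]
    rw [div_le_iff₀ (by positivity)] at h1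
    calc (1 : ℝ) = (1 / κ1) * κ1 := by field_simp
      _ ≤ (1 / κ1) * (V * Real.log X ^ (2 * (c + 1))) := by gcongr
      _ = 1 / κ1 * Real.log X ^ (2 * (c + 1)) * V := by ring
  have hL8 : L ^ 8 ≤ X := by
    calc L ^ 8 ≤ (1 / κ1 * Real.log X ^ (2 * (c + 1))) ^ 8 := pow_le_pow_left₀ hLpos.le hLup 8
      _ = (1 / κ1) ^ 8 * Real.log X ^ (16 * (c + 1)) := by
        rw [mul_pow, ← pow_mul]
        congr 2
        ring
      _ ≤ X := hlp
  have hLX : L ≤ X := by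
    calc L = L ^ 1 := (pow_one L).symm
      _ ≤ L ^ 8 := pow_le_pow_right₀ hL1 (by norm_num)
      _ ≤ X := hL8
  have hfl : L / 2 ≤ (⌊L⌋₊ : ℝ) := by
    have := Nat.lt_floor_add_one L
    linarith
  -- the level
  obtain ⟨hy1, hy2, hy3, hy4⟩ := level_low r hr0 X (by omega) (by
    have : (0 : ℝ) ≤ c := Nat.cast_nonneg c
    linarith)
  obtain ⟨y, hy⟩ : ∃ y : ℕ, y = ⌊(X : ℝ) ^ (1 / (r : ℝ))⌋₊ := ⟨_, rfl⟩
  rw [← hy] at hy1 hy2 hy3 hy4 hreg hprime hcollT ⊢
  have hyk : 3 + 2 * (c + 1) ≤ y := by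
    have : (3 : ℝ) + 2 * (c + 1) ≤ y := hX2.trans hy1
    exact_mod_cast this
  have hyX : y ≤ X := by
    have h1 : Real.log (y : ℝ) ≤ Real.log X := hy3
    have h2 : (0 : ℝ) < y := by exact_mod_cast (by omega : 0 < y)
    have h3 := (Real.log_le_log_iff h2 hXpos).1 h1
    exact_mod_cast h3
  have hly : 0 < Real.log y := Real.log_pos (by exact_mod_cast (by omega : 1 < y))
  have hyl : Real.log X ≤ 2 * r * Real.log y := by
    rw [div_le_iff₀ (by positivity)] at hy2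
    linarith
  have hVy : Vq (QQ QA) y ≤ C3 * V := by
    rw [hV]
    apply hratio y X (by omega) (by omega) hyX _ _ hper hadm
    push_cast
    exact hyl
  have hVXy : V ≤ Vq (QQ QA) y := by rw [hV]; exact Vq_anti _ hadm hyX
  -- the count of the primes
  have hpr0 : 1 / Real.log X ^ (2 * (c + 1) + 1) ≤ ∏ p ∈ pz y, (1 - (rhoA QA p : ℝ) / (p - 1 : ℝ)) := by
    have h1 := hVge y (by omega) (QQ QA) hper hadm
    have h2 : Vq (QQ QA) y ≤ ∏ p ∈ pz y, (1 - (rhoA QA p : ℝ) / (p - 1 : ℝ)) := by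
      rw [VqQQ]
      apply mul_le_of_le_one_left (hprodnn y)
      unfold V1p
      apply Finset.prod_le_one
      · intro p hp
        have h2 : (2 : ℝ) ≤ p := by exact_mod_cast (mem_pz.1 hp).2.two_le
        have h3 : 1 / (p : ℝ) ≤ 1 / 2 := one_div_le_one_div_of_le (by norm_num) h2
        linarith
      · intro p hp
        have : 0 ≤ 1 / (p : ℝ) := by positivity
        linarith
    refine le_trans ?_ (h1.trans h2)
    rw [div_le_div_iff₀ (by positivity) (by positivity), one_mul, pow_succ]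
    have h3 : Real.log y ^ (2 * (c + 1)) ≤ Real.log X ^ (2 * (c + 1)) := pow_le_pow_left₀ hly.le hy3 _
    have h4 : 1 ≤ κ1 * Real.log X := by
      have h5 : 1 / κ1 ≤ Real.log X := by linarith
      rw [div_le_iff₀ hκ1] at h5
      linarith
    calc Real.log y ^ (2 * (c + 1)) ≤ Real.log X ^ (2 * (c + 1)) * 1 := by rw [mul_one]; exact h3
      _ ≤ Real.log X ^ (2 * (c + 1)) * (κ1 * Real.log X) := mul_le_mul_of_nonneg_left h4 (by positivity)
      _ = _ := by ring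
  have hcnt := hprime QA hA hpr0
  have hlow : 1 / (16 * r * C₀) * X / L ≤ (∏ p ∈ pz y, (1 - (rhoA QA p : ℝ) / (p - 1 : ℝ))) * X / (8 * Real.log X) := by
    have h1 := VqQQ QA y
    have h2 := (hV1 y (by omega)).2
    have h3 : V ≤ C₀ / Real.log y * ∏ p ∈ pz y, (1 - (rhoA QA p : ℝ) / (p - 1 : ℝ)) := by
      refine hVXy.trans ?_
      rw [h1]
      exact mul_le_mul_of_nonneg_right h2 (hprodnn y)
    obtain ⟨W, hW⟩ : ∃ W : ℝ, W = ∏ p ∈ pz y, (1 - (rhoA QA p : ℝ) / (p - 1 : ℝ)) := ⟨_, rfl⟩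
    rw [← hW] at h3 ⊢
    have hW0 : 0 ≤ W := by rw [hW]; exact hprodnn y
    have h4 : V * Real.log y ≤ C₀ * W := by
      rw [div_mul_eq_mul_div, le_div_iff₀ hly] at h3
      exact h3
    have h5 : V * Real.log X ≤ 2 * r * C₀ * W := by
      calc V * Real.log X ≤ V * (2 * r * Real.log y) := mul_le_mul_of_nonneg_left hyl hVpos.le
        _ = 2 * r * (V * Real.log y) := by ring
        _ ≤ 2 * r * (C₀ * W) := mul_le_mul_of_nonneg_left h4 (by positivity)
        _ = _ := by ring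
    calc 1 / (16 * r * C₀) * X / L = (V * Real.log X) * (X / (16 * r * C₀ * Real.log X)) := by
          rw [hVL]
          field_simp
      _ ≤ (2 * r * C₀ * W) * (X / (16 * r * C₀ * Real.log X)) := mul_le_mul_of_nonneg_right h5 (by positivity)
      _ = W * X / (8 * Real.log X) := by
        field_simp
        ring
  have hfin := hreg (QQ QA) (CoG (QQ QA)) L ∅
    ⟨hper, hadm, le_rfl, fun _ _ _ _ m h1 h2 => ⟨m, h1, h2⟩, coll_gen (QQ QA) (c + 1) hper (2 * (c + 1))⟩ (by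
      have := le_abs_self L0
      linarith) hL8 (by
      calc Vq (QQ QA) y ≤ C3 * V := hVy
        _ = C3 / L := by rw [hVL]; ring) (by simp) (by
      intro d hd _
      apply hcollT ⌊L⌋₊ _ _ d hd
      · calc 1 / (2 * C₀) * Real.log X = (Real.log X / C₀) / 2 := by field_simp
          _ ≤ L / 2 := by linarith
          _ ≤ _ := hfl
      · have h1 : (⌊L⌋₊ : ℝ) ≤ X := (Nat.floor_le hLpos.le).trans hLX
        exact_mod_cast h1)
    (fun m => y < m ∧ m.Prime ∧ ∀ p ∈ pz y, ¬ QQ QA p m) (fun m => ∀ p ∈ pz y, ¬ QQ QA p m)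
    (fun m hm => hm.2.2) (fun m hm _ _ => hm) (by
      refine hlow.trans (hcnt.trans ?_)
      unfold co
      rw [Nat.cast_le]
      apply card_le_card
      intro m hm
      simp only [mem_filter, mem_Ioc] at hm ⊢
      obtain ⟨⟨hm1, hm2⟩, hm3, hm4⟩ := hm
      refine ⟨⟨hm1, hm2⟩, by omega, hm3, fun p hp => ?_⟩
      rintro (h1 | h1)
      · have h2 := (Nat.prime_dvd_prime_iff_eq (mem_pz.1 hp).2 hm3).1 h1
        have h3 := (mem_pz.1 hp).1
        omega
      · exact hm4 p hp h1)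
  refine hfin.trans ?_
  rw [Nat.cast_le]
  apply card_le_card
  intro n hn
  rw [mem_filter] at hn ⊢
  refine ⟨hn.1, fun u v h1 h2 h3 h4 => ?_⟩
  rw [← hV] at h3 ⊢
  have hKL : K / V = K * L := by rw [hL]; ring
  rw [hKL] at h3
  obtain ⟨h5, h6⟩ := hn.2 u v h1 h2 h3 h4
  constructor
  · refine (le_of_eq ?_).trans (h5.trans ?_)
    · rw [hVL]
      ring
    · unfold co
      rw [Nat.cast_le]
      apply card_le_card
      intro m hm
      simp only [mem_filter] at hm ⊢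
      exact ⟨hm.1, hm.2.2⟩
  · unfold co at h6
    refine (le_of_eq ?_).trans (h6.trans (le_of_eq ?_))
    · congr
    · rw [hVL]
      ring

end Pool.Agent.N39.RW
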