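import Pool.Agent.N39.RW.UniA
import Pool.Agent.X32.Uni.Lin

set_option autoImplicit false

/-!
# Regular windows for tuples, uniformly in the shifts (helper39)
-/

namespace Pool.Agent.N39.RW

open Finset Filter Pool.Agent.H373R2.T7 Pool.Agent.W123.RP Pool.Agent.W123.RU
open Pool.Agent.X32.Uni (linU SysL VL omL GoodL Almost)

/-- `m + h i` is prime, `m + h j` is a product of at most two primes, all `m + h l` are products of at most `r`
primes, all larger than `z` -/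
def UC {k : ℕ} (h : Fin k → ℕ) (i j : Fin k) (r : ℕ) (z : ℝ) (m : ℕ) : Prop :=
  (m + h i).Prime ∧ (m + h j).primeFactorsList.length ≤ 2 ∧
    ∀ l, (m + h l).primeFactorsList.length ≤ r ∧ ∀ q : ℕ, q.Prime → q ∣ m + h l → z < (q : ℝ)

/-- all prime factors of all `m + h l` are larger than `z` -/
def UR {k : ℕ} (h : Fin k → ℕ) (z : ℝ) (m : ℕ) : Prop :=
  ∀ l, ∀ q : ℕ, q.Prime → q ∣ m + h l → z < (q : ℝ)

theorem nuB_ge_one {k : ℕ} (h : Fin k → ℕ) (l : Fin k) (p : ℕ) (hp : p.Prime) : 1 ≤ nuB (QS h) p := by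
  classical
  unfold nuB
  rw [Nat.one_le_iff_ne_zero, ← Nat.pos_iff_ne_zero, card_pos]
  refine ⟨(p - h l % p) % p, ?_⟩
  rw [mem_filter, mem_range]
  refine ⟨Nat.mod_lt _ hp.pos, l, ?_⟩
  apply Nat.dvd_of_mod_eq_zero
  rw [Nat.add_mod, Nat.mod_mod]
  have h3 : h l % p < p := Nat.mod_lt _ hp.pos
  rcases Nat.eq_zero_or_pos (h l % p) with h0 | h0
  · rw [h0, Nat.sub_zero, Nat.mod_self, zero_add, Nat.zero_mod]
  · rw [Nat.mod_eq_of_lt (show p - h l % p < p by omega)]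
    have : p - h l % p + h l % p = p := by omega
    rw [this, Nat.mod_self]

theorem Vq_le_V1p {k : ℕ} (h : Fin k → ℕ) (l : Fin k) (hadm : ∀ p : ℕ, p.Prime → ∃ n : ℕ, ∀ l, ¬ p ∣ n + h l)
    (y : ℕ) : Vq (QS h) y ≤ V1p y := by
  unfold Vq V1p
  apply Finset.prod_le_prod
  · intro p hp
    exact (fac_pos _ (QS_adm h hadm) p (mem_pz.1 hp).2).le
  · intro p hp
    have hpp := (mem_pz.1 hp).2
    have h1 : (1 : ℝ) ≤ nuB (QS h) p := by exact_mod_cast nuB_ge_one h l p hpp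
    have h0 : (0 : ℝ) < p := by exact_mod_cast hpp.pos
    have : 1 / (p : ℝ) ≤ (nuB (QS h) p : ℝ) / p := div_le_div_of_nonneg_right h1 h0.le
    linarith

theorem VL_QS {k : ℕ} (h : Fin k → ℕ) (n : ℕ) : VL (fun _ => 1) (fun l => (h l : ℤ)) n = Vq (QS h) n := by
  classical
  unfold VL Vq pz
  apply prod_congr rfl
  intro p hp
  have hpp := (mem_filter.1 hp).2
  have e : omL (fun _ : Fin k => (1 : ℤ)) (fun l => (h l : ℤ)) p = nuB (QS h) p := by
    unfold omL nuB
    have h1 : (range p).filter (fun n : ℕ => (p : ℤ) ∣ ∏ i, ((1 : ℤ) * (n : ℤ) + (h i : ℤ))) =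
        (range p).filter (fun r => QS h p r) := by
      apply filter_congr
      intro x _
      unfold QS
      constructor
      · intro hd
        obtain ⟨i, _, hi⟩ := (Nat.prime_iff_prime_int.1 hpp).exists_mem_finset_dvd hd
        rw [one_mul] at hi
        exact ⟨i, by exact_mod_cast hi⟩
      · rintro ⟨i, hi⟩
        have h2 : (p : ℤ) ∣ (1 : ℤ) * (x : ℤ) + (h i : ℤ) := by
          rw [one_mul]
          exact_mod_cast hi
        exact h2.trans (dvd_prod_of_mem (fun i => (1 : ℤ) * (x : ℤ) + (h i : ℤ)) (mem_univ i))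
    rw [h1]
  rw [e]

open Classical in
theorem uniW (k : ℕ) (hk : 2 ≤ k) :
    ∃ r : ℕ, 1 ≤ r ∧ ∃ c₁ c₂ K μ : ℝ, 0 < c₁ ∧ 0 < c₂ ∧ 1 ≤ K ∧ 0 < μ ∧ ∀ K₀ : ℕ, ∀ᶠ X : ℕ in atTop,
      ∀ (h : Fin k → ℕ) (i j : Fin k), i ≠ j → Function.Injective h → (∀ l, h l ≤ K₀ * X) →
      (∀ p : ℕ, p.Prime → ∃ n : ℕ, ∀ l, ¬ p ∣ n + h l) →
      μ * X ≤ (((Ioc X (2 * X)).filter (fun n => ∀ a b : ℕ, a ≤ n → n ≤ b →
        K / Vq (QS h) X ≤ (b : ℝ) - a → (b : ℝ) - a ≤ n →
          c₁ * ((b : ℝ) - a) * Vq (QS h) X ≤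
            (((Ioc a b).filter (fun m => UC h i j r ((X : ℝ) ^ (1 / (r : ℝ))) m)).card : ℝ) ∧
          (((Ioc a b).filter (fun m => UR h ((X : ℝ) ^ (1 / (r : ℝ))) m)).card : ℝ) ≤
            c₂ * ((b : ℝ) - a) * Vq (QS h) X)).card : ℝ) := by
  obtain ⟨t, ht, κ, hκ, hlin⟩ := linU k 1 (by omega)
  obtain ⟨v₁, C₁, hv₁, hC₁, hV1⟩ := V1p_bounds
  have hlog2 : 0 < Real.log 2 := Real.log_pos (by norm_num)
  obtain ⟨D', hD'⟩ : ∃ D' : ℕ, 8 * (k : ℝ) ^ 2 * C₁ / Real.log 2 ≤ D' := exists_nat_ge _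
  obtain ⟨K1, hK1, hmain⟩ := sieve_regular k (2 * k) (k ^ 2) D' (k ^ 2) (by omega)
  obtain ⟨R, hR⟩ : ∃ R : ℕ, R = max K1 t := ⟨_, rfl⟩
  have hR1 : K1 ≤ R := by rw [hR]; exact le_max_left _ _
  have hRt : t ≤ R := by rw [hR]; exact le_max_right _ _
  have hR0 : 2 ≤ R := hK1.trans hR1
  have hRpos : (0 : ℝ) < R := by exact_mod_cast (by omega : 0 < R)
  have htpos : (0 : ℝ) < t := by exact_mod_cast ht
  obtain ⟨C3, hC3, hratio⟩ := Vq_ratio k (4 * R) (by omega)
  obtain ⟨c₁, c₂, K, μ, L0, hc₁, hc₂, hK, hμ, hreg⟩ := hmain R hR1 (κ / C3) C3 (by positivity) hC3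
  refine ⟨R, by omega, c₁, c₂, K, μ, hc₁, hc₂, hK, hμ, fun K₀ => ?_⟩
  obtain ⟨⟨X₀, hlin⟩, -⟩ := hlin (1 / 2) (by norm_num) (K₀ + 1)
  have hXr : Tendsto (fun X : ℕ => (X : ℝ)) atTop atTop := tendsto_natCast_atTop_atTop
  have hpow : Tendsto (fun X : ℕ => (X : ℝ) ^ (1 / (2 * R : ℝ))) atTop atTop :=
    (tendsto_rpow_atTop (by positivity)).comp hXr
  have hlogX : Tendsto (fun X : ℕ => Real.log (X : ℝ)) atTop atTop :=
    Real.tendsto_log_atTop.comp hXr
  filter_upwards [hreg, eventually_ge_atTop (16 + X₀ + K₀), hpow.eventually_ge_atTop (3 + 2 * k),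
    hlogX.eventually_ge_atTop (C₁ * (2 + |L0|) + 1), logpow_le (8 * k) ((2 ^ k / κ) ^ 8) (by positivity)]
    with X hreg hX16 hX2 hXlog hlp
  intro h i j hij hinj hsz hadm
  have hX16r : (16 : ℝ) ≤ X := by exact_mod_cast (by omega : 16 ≤ X)
  have hXpos : (0 : ℝ) < X := by linarith
  have hX1 : (1 : ℝ) ≤ X := by linarith
  have hlX : 0 < Real.log X := Real.log_pos (by linarith)
  have hL0a : 0 ≤ |L0| := abs_nonneg _
  have hadm' := QS_adm h hadm
  obtain ⟨V, hV⟩ : ∃ V : ℝ, V = Vq (QS h) X := ⟨_, rfl⟩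
  have hVpos : 0 < V := by rw [hV]; exact Vq_pos _ hadm' X
  rw [← hV]
  obtain ⟨L, hL⟩ : ∃ L : ℝ, L = 1 / V := ⟨_, rfl⟩
  have hLpos : 0 < L := by rw [hL]; positivity
  have hVL : V = 1 / L := by rw [hL]; field_simp
  -- upper bound of V
  have hVup : V ≤ C₁ / Real.log X := by
    rw [hV]
    exact (Vq_le_V1p h i hadm X).trans (hV1 X (by omega)).2
  have hLlow : Real.log X / C₁ ≤ L := by
    rw [hL, div_le_div_iff₀ hC₁ hVpos, one_mul]
    rw [le_div_iff₀ hlX] at hVup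
    linarith
  have hLL : 2 + |L0| ≤ L := by
    refine le_trans ?_ hLlow
    rw [le_div_iff₀ hC₁]
    linarith
  have hlog2X : Real.log ((2 * X : ℕ) : ℝ) ≤ 2 * Real.log X := by
    have e : 2 * Real.log X = Real.log ((X : ℝ) ^ 2) := by rw [Real.log_pow]; norm_num
    rw [e]
    apply Real.log_le_log (by push_cast; linarith)
    push_cast
    nlinarith
  have hlog2X0 : 0 < Real.log ((2 * X : ℕ) : ℝ) := Real.log_pos (by push_cast; linarith)
  -- the count
  obtain ⟨hlin1, hlin2⟩ := hlin (2 * X) (by omega) (fun _ => 1) (fun l => (h l : ℤ)) i j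
    { a0 := fun l => one_ne_zero
      aE := by simp
      aE' := by simp
      aK := fun l => by simp
      bK := fun l => by
        have h1 := hsz l
        rw [Nat.abs_cast]
        have h2 : h l ≤ (K₀ + 1) * (2 * X) := by nlinarith
        exact_mod_cast h2
      adm := by
        intro p hp
        obtain ⟨n, hn⟩ := hadm p hp
        refine ⟨n, fun i hd => hn i ?_⟩
        have hd' : (p : ℤ) ∣ 1 * (n : ℤ) + (h i : ℤ) := hd
        rw [one_mul] at hd'
        exact_mod_cast hd'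
      ne := fun he => by
        rw [Prod.mk.injEq] at he
        exact hij (hinj (by exact_mod_cast he.2)).symm
      ne' := fun he => by
        rw [Prod.mk.injEq] at he
        norm_num at he }
  rw [VL_QS] at hlin1 hlin2
  have hVan : Vq (QS h) (2 * X) ≤ V := by rw [hV]; exact Vq_anti _ hadm' (by omega)
  have hV2pos : 0 < Vq (QS h) (2 * X) := Vq_pos _ hadm' _
  -- lower bound of V
  have hLup : L ≤ 2 ^ k / κ * Real.log X ^ k := by
    have h1 : κ / (2 * Real.log X) ^ k ≤ V := by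
      refine le_trans ?_ (hlin1.trans hVan)
      gcongr
    rw [hL]
    rw [div_le_iff₀ hVpos]
    rw [div_le_iff₀ (by positivity)] at h1
    calc (1 : ℝ) = (1 / κ) * κ := by field_simp
      _ ≤ (1 / κ) * (V * (2 * Real.log X) ^ k) := by gcongr
      _ = 2 ^ k / κ * Real.log X ^ k * V := by rw [mul_pow]; ring
  have hL8 : L ^ 8 ≤ X := by
    calc L ^ 8 ≤ (2 ^ k / κ * Real.log X ^ k) ^ 8 := pow_le_pow_left₀ hLpos.le hLup 8
      _ = (2 ^ k / κ) ^ 8 * Real.log X ^ (8 * k) := by rw [mul_pow, ← pow_mul, mul_comm k 8]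
      _ ≤ X := hlp
  -- the level
  have hk0 : (0 : ℝ) ≤ k := Nat.cast_nonneg k
  obtain ⟨hy1, hy2, hy3, hy4⟩ := level_low R hR0 X (by omega) (by linarith)
  obtain ⟨y, hy⟩ : ∃ y : ℕ, y = ⌊(X : ℝ) ^ (1 / (R : ℝ))⌋₊ := ⟨_, rfl⟩
  rw [← hy] at hy1 hy2 hy3 hy4
  have hyk : 3 + 2 * k ≤ y := by
    have : (3 : ℝ) + 2 * k ≤ y := hX2.trans hy1
    exact_mod_cast this
  have hyX : y ≤ X := by
    have h1 : Real.log (y : ℝ) ≤ Real.log X := hy3
    have h2 : (0 : ℝ) < y := by exact_mod_cast (by omega : 0 < y)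
    have h3 := (Real.log_le_log_iff h2 hXpos).1 h1
    exact_mod_cast h3
  have hVy : Vq (QS h) y ≤ C3 * Vq (QS h) (2 * X) := by
    apply hratio y (2 * X) (by omega) (by omega) (by omega) _ _ (QS_per h) hadm'
    refine hlog2X.trans ?_
    push_cast
    rw [div_le_iff₀ (by positivity)] at hy2
    linarith
  have hVXy : V ≤ Vq (QS h) y := by rw [hV]; exact Vq_anti _ hadm' hyX
  -- the exceptional shifts
  obtain ⟨E0, hE0⟩ : ∃ E0 : Finset ℕ, E0 = (univ : Finset (Fin k × Fin k)).image (fun e => h e.2 - h e.1) := ⟨_, rfl⟩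
  have hE0c : E0.card ≤ k ^ 2 := by
    rw [hE0]
    refine card_image_le.trans ?_
    rw [card_univ, Fintype.card_prod, Fintype.card_fin, sq]
  have hL1 : 1 ≤ L := by linarith
  have hfl : L / 2 ≤ (⌊L⌋₊ : ℝ) := by
    have := Nat.lt_floor_add_one L
    linarith
  have hfin := hreg (QS h) (CoG (QS h)) L E0
    ⟨QS_per h, hadm', le_rfl, fun _ _ _ _ m h1 h2 => ⟨m, h1, h2⟩, coll_gen (QS h) k (QS_per h) (2 * k)⟩ (by
      have := le_abs_self L0
      linarith) hL8 (by
      rw [← hy]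
      calc Vq (QS h) y ≤ C3 * Vq (QS h) (2 * X) := hVy
        _ ≤ C3 * V := by gcongr
        _ = C3 / L := by rw [hVL]; ring) hE0c (by
      rw [← hy]
      intro d hd hdE
      rw [mem_Icc] at hd
      have hcol := QS_large h ⌊L⌋₊ (K₀ * X) hsz y d hd.1 (by
        intro l l' he
        apply hdE
        rw [hE0, mem_image]
        exact ⟨(l, l'), mem_univ _, by simp only; omega⟩)
      have hdL : (d : ℝ) ≤ L := by
        have h1 : (d : ℝ) ≤ (⌊L⌋₊ : ℝ) := by exact_mod_cast hd.2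
        exact h1.trans (Nat.floor_le hLpos.le)
      have hLX : L ≤ X := by
        calc L = L ^ 1 := (pow_one L).symm
          _ ≤ L ^ 8 := pow_le_pow_right₀ hL1 (by norm_num)
          _ ≤ X := hL8
      have hdX : (d : ℝ) ≤ X := hdL.trans hLX
      have hlogd : Real.log ((d : ℝ) + ((K₀ * X : ℕ) : ℝ)) ≤ 4 * Real.log X := by
        have e : 4 * Real.log X = Real.log ((X : ℝ) ^ 4) := by rw [Real.log_pow]; norm_num
        rw [e]
        have hd0 : (1 : ℝ) ≤ d := by exact_mod_cast hd.1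
        apply Real.log_le_log (by positivity)
        have hK₀X : (K₀ : ℝ) ≤ X := by exact_mod_cast (by omega : K₀ ≤ X)
        push_cast
        have h4 : (X : ℝ) + X * X ≤ X ^ 4 := by
          have h5 : (X : ℝ) ≤ X * X := by nlinarith
          have h6 : (X : ℝ) * X * 2 ≤ X ^ 4 := by
            have h7 : (X : ℝ) ^ 4 = (X * X) * (X * X) := by ring
            rw [h7]
            apply mul_le_mul_of_nonneg_left _ (by positivity)
            nlinarith
          nlinarith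
        have h8 : (K₀ : ℝ) * X ≤ X * X := mul_le_mul_of_nonneg_right hK₀X hXpos.le
        linarith
      have h1 : (((pz y).filter (fun p : ℕ => ⌊L⌋₊ < p ∧ CoG (QS h) p d)).card : ℝ) * Real.log 2 ≤
          k ^ 2 * (4 * Real.log X) := hcol.trans (mul_le_mul_of_nonneg_left hlogd (by positivity))
      have h2 : Real.log X ≤ 2 * C₁ * (⌊L⌋₊ : ℝ) := by
        rw [div_le_iff₀ hC₁] at hLlow
        nlinarith
      have h3 : (((pz y).filter (fun p : ℕ => ⌊L⌋₊ < p ∧ CoG (QS h) p d)).card : ℝ) ≤ (D' : ℝ) * (⌊L⌋₊ : ℝ) := by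
        rw [div_le_iff₀ hlog2] at hD'
        have h4 : (((pz y).filter (fun p : ℕ => ⌊L⌋₊ < p ∧ CoG (QS h) p d)).card : ℝ) * Real.log 2 ≤
            (D' : ℝ) * (⌊L⌋₊ : ℝ) * Real.log 2 := by
          calc (((pz y).filter (fun p : ℕ => ⌊L⌋₊ < p ∧ CoG (QS h) p d)).card : ℝ) * Real.log 2 ≤
                k ^ 2 * (4 * Real.log X) := h1
            _ ≤ k ^ 2 * (4 * (2 * C₁ * (⌊L⌋₊ : ℝ))) := by gcongr
            _ = (8 * (k : ℝ) ^ 2 * C₁) * (⌊L⌋₊ : ℝ) := by ring
            _ ≤ (D' * Real.log 2) * (⌊L⌋₊ : ℝ) := mul_le_mul_of_nonneg_right hD' (Nat.cast_nonneg _)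
            _ = _ := by ring
        exact le_of_mul_le_mul_right h4 hlog2
      exact_mod_cast h3)
    (fun m => UC h i j R (((2 * X : ℕ) : ℝ) ^ (1 / (t : ℝ))) m) (fun m => UR h ((X : ℝ) ^ (1 / (R : ℝ))) m)
    (fun m hm l q hq hd => by
      refine lt_of_le_of_lt ?_ ((hm.2.2 l).2 q hq hd)
      calc (X : ℝ) ^ (1 / (R : ℝ)) ≤ (X : ℝ) ^ (1 / (t : ℝ)) := by
            apply Real.rpow_le_rpow_of_exponent_le hX1
            apply one_div_le_one_div_of_le htpos
            exact_mod_cast hRt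
        _ ≤ ((2 * X : ℕ) : ℝ) ^ (1 / (t : ℝ)) :=
            Real.rpow_le_rpow hXpos.le (by push_cast; linarith) (by positivity)) (by
      intro m hm _ _ p hp hq
      obtain ⟨l, hl⟩ := hq
      have h1 := hm l p (mem_pz.1 hp).2 hl
      have h2 := mem_pz' (t := (X : ℝ) ^ (1 / (R : ℝ))) (by positivity) hp
      linarith) (by
      have h1 := hlin2 X (2 * X) le_rfl (by push_cast; linarith)
      have h2 : κ / C3 * X / L ≤ κ * (((2 * X : ℕ) : ℝ) - X) * Vq (QS h) (2 * X) := by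
        have e : ((2 * X : ℕ) : ℝ) - X = X := by push_cast; ring
        rw [e]
        calc κ / C3 * X / L = κ * X * (V / C3) := by rw [hVL]; field_simp
          _ ≤ κ * X * Vq (QS h) (2 * X) := by
            apply mul_le_mul_of_nonneg_left _ (by positivity)
            rw [div_le_iff₀ hC3]
            linarith
      refine h2.trans (h1.trans ?_)
      unfold co
      rw [Nat.cast_le]
      apply card_le_card
      intro m hm
      unfold GoodL at hm
      rw [mem_filter] at hm ⊢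
      obtain ⟨hm1, hm2, hm3, hm4⟩ := hm
      have e : ∀ l, ((1 : ℤ) * (m : ℤ) + (h l : ℤ)) = ((m + h l : ℕ) : ℤ) := fun l => by push_cast; ring
      refine ⟨hm1, ?_, ?_, fun l => ⟨?_, fun q hq hd => ?_⟩⟩
      · rw [e, Int.natAbs_natCast] at hm2
        exact hm2
      · have h3 := hm3.2.1
        rw [e, Int.natAbs_natCast] at h3
        exact h3
      · have h3 := (hm4 l).2.1
        rw [e, Int.natAbs_natCast] at h3
        exact h3.trans hRt
      · have h3 := (hm4 l).2.2 q hq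
        rw [e] at h3
        exact h3 (by exact_mod_cast hd))
  refine hfin.trans ?_
  rw [Nat.cast_le]
  apply card_le_card
  intro n hn
  rw [mem_filter] at hn ⊢
  refine ⟨hn.1, fun a b h1 h2 h3 h4 => ?_⟩
  have hKL : K / V = K * L := by rw [hL]; ring
  rw [hKL] at h3
  obtain ⟨h5, h6⟩ := hn.2 a b h1 h2 h3 h4
  constructor
  · refine (le_of_eq ?_).trans (h5.trans ?_)
    · rw [hVL]
      ring
    · unfold co
      rw [Nat.cast_le]
      apply card_le_card
      intro m hm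
      rw [mem_filter] at hm ⊢
      refine ⟨hm.1, hm.2.1, hm.2.2.1, fun l => ⟨(hm.2.2.2 l).1, fun q hq hd => ?_⟩⟩
      refine lt_of_le_of_lt ?_ ((hm.2.2.2 l).2 q hq hd)
      calc (X : ℝ) ^ (1 / (R : ℝ)) ≤ (X : ℝ) ^ (1 / (t : ℝ)) := by
            apply Real.rpow_le_rpow_of_exponent_le hX1
            apply one_div_le_one_div_of_le htpos
            exact_mod_cast hRt
        _ ≤ ((2 * X : ℕ) : ℝ) ^ (1 / (t : ℝ)) :=
            Real.rpow_le_rpow hXpos.le (by push_cast; linarith) (by positivity)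
  · unfold co at h6
    refine h6.trans (le_of_eq ?_)
    rw [hVL]
    ring

end Pool.Agent.N39.RW
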