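import Pool.Agent.N39.RW.UniA
import Pool.Agent.X32.Uni.Lin

set_option autoImplicit false

/-!
# Regular windows for linear systems, uniformly in the constant terms (helper39)
-/

namespace Pool.Agent.N39.RW

open Finset Filter Pool.Agent.H373R2.T7 Pool.Agent.W123.RP Pool.Agent.W123.RU
open Pool.Agent.X32.Uni (linU SysL VL omL GoodL Almost AdmL loc_lf lf om_lf om_le om_lt lf_deg)

/-- one of the `a l m + b l` is divisible by `p` -/
def QL {k : ℕ} (a b : Fin k → ℤ) (p m : ℕ) : Prop := ∃ l, (p : ℤ) ∣ a l * m + b l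

theorem QL_nu {k : ℕ} (a b : Fin k → ℤ) (p : ℕ) (hp : p.Prime) : nuB (QL a b) p = omL a b p := by
  classical
  unfold omL nuB
  have h1 : (range p).filter (fun n : ℕ => (p : ℤ) ∣ ∏ i, (a i * (n : ℤ) + b i)) =
      (range p).filter (fun r => QL a b p r) := by
    apply filter_congr
    intro x _
    unfold QL
    constructor
    · intro hd
      obtain ⟨i, _, hi⟩ := (Nat.prime_iff_prime_int.1 hp).exists_mem_finset_dvd hd
      exact ⟨i, hi⟩
    · rintro ⟨i, hi⟩
      exact hi.trans (dvd_prod_of_mem (fun i => a i * (x : ℤ) + b i) (mem_univ i))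
  rw [h1]

theorem QL_per {k : ℕ} (a b : Fin k → ℤ) (ha : ∀ l, a l ≠ 0) (hadm : AdmL a b) : PerB (QL a b) k where
  per := fun p n => by
    unfold QL
    apply exists_congr
    intro l
    have e : (n : ℤ) = p * ((n / p : ℕ) : ℤ) + ((n % p : ℕ) : ℤ) := by
      have := Nat.div_add_mod n p
      exact_mod_cast this.symm
    have e2 : a l * (n : ℤ) + b l = p * (a l * ((n / p : ℕ) : ℤ)) + (a l * ((n % p : ℕ) : ℤ) + b l) := by
      conv_lhs => rw [e]
      ring
    rw [e2]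
    exact dvd_add_right (Dvd.intro _ rfl)
  few := fun p hp => by
    rw [QL_nu a b p hp, ← om_lf]
    refine (om_le (loc_lf hadm) hp).trans ?_
    simp only [lf_deg a b _ (ha _)]
    simp

theorem QL_adm {k : ℕ} (a b : Fin k → ℤ) (hadm : AdmL a b) (p : ℕ) (hp : p.Prime) : nuB (QL a b) p < p := by
  rw [QL_nu a b p hp, ← om_lf]
  exact om_lt (loc_lf hadm) hp

theorem VL_QL {k : ℕ} (a b : Fin k → ℤ) (n : ℕ) : VL a b n = Vq (QL a b) n := by
  unfold VL Vq pz
  apply prod_congr rfl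
  intro p hp
  rw [QL_nu a b p (mem_filter.1 hp).2]

theorem QL_ge_one {k : ℕ} (a b : Fin k → ℤ) (l : Fin k) (p : ℕ) (hp : p.Prime) (hpa : ¬ (p : ℤ) ∣ a l) :
    1 ≤ nuB (QL a b) p := by
  classical
  have : Fact p.Prime := ⟨hp⟩
  unfold nuB
  rw [Nat.one_le_iff_ne_zero, ← Nat.pos_iff_ne_zero, card_pos]
  have ha0 : ((a l : ℤ) : ZMod p) ≠ 0 := fun h => hpa ((ZMod.intCast_zmod_eq_zero_iff_dvd _ _).1 h)
  refine ⟨(-(b l : ZMod p) / (a l : ZMod p)).val, ?_⟩
  rw [mem_filter, mem_range]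
  refine ⟨ZMod.val_lt _, l, ?_⟩
  rw [← ZMod.intCast_zmod_eq_zero_iff_dvd]
  push_cast
  rw [ZMod.natCast_zmod_val]
  field_simp
  ring

/-- upper bound of the product by the product over the primes -/
theorem QL_up (A₀ : ℕ) : ∃ C : ℝ, 0 < C ∧ ∀ (k : ℕ) (a b : Fin k → ℤ) (l : Fin k), a l ≠ 0 → (a l).natAbs ≤ A₀ →
    AdmL a b → ∀ y : ℕ, Vq (QL a b) y ≤ C * V1p y := by
  refine ⟨1 / V1p A₀, by have := V1p_pos A₀; positivity, ?_⟩
  intro k a b l hl hlA hadm y
  have hA := V1p_pos A₀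
  rw [div_mul_eq_mul_div, one_mul, le_div_iff₀ hA]
  have h1 : Vq (QL a b) y * ∏ p ∈ (pz y).filter (fun p => p ≤ A₀), (1 - 1 / (p : ℝ)) ≤ V1p y := by
    unfold Vq V1p
    rw [Finset.prod_filter, ← Finset.prod_mul_distrib]
    apply Finset.prod_le_prod
    · intro p hp
      have hpp := (mem_pz.1 hp).2
      apply mul_nonneg (fac_pos _ (QL_adm a b hadm) p hpp).le
      split_ifs
      · have h2 : (2 : ℝ) ≤ p := by exact_mod_cast hpp.two_le
        rw [sub_nonneg, div_le_one (by linarith)]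
        linarith
      · norm_num
    · intro p hp
      have hpp := (mem_pz.1 hp).2
      have hp2 : (2 : ℝ) ≤ p := by exact_mod_cast hpp.two_le
      have hnn : 0 ≤ (nuB (QL a b) p : ℝ) / p := by positivity
      split_ifs with hpA
      · have h3 : 0 ≤ 1 - 1 / (p : ℝ) := by
          rw [sub_nonneg, div_le_one (by linarith)]
          linarith
        calc (1 - (nuB (QL a b) p : ℝ) / p) * (1 - 1 / (p : ℝ)) ≤ 1 * (1 - 1 / (p : ℝ)) :=
              mul_le_mul_of_nonneg_right (by linarith) h3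
          _ = _ := one_mul _
      · rw [mul_one]
        have h4 : ¬ (p : ℤ) ∣ a l := by
          intro hd
          have := Nat.le_of_dvd (Int.natAbs_pos.2 hl) (Int.natCast_dvd.1 hd)
          omega
        have h5 : (1 : ℝ) ≤ nuB (QL a b) p := by exact_mod_cast QL_ge_one a b l p hpp h4
        have : 1 / (p : ℝ) ≤ (nuB (QL a b) p : ℝ) / p := div_le_div_of_nonneg_right h5 (by linarith)
        linarith
  have h2 : V1p A₀ ≤ ∏ p ∈ (pz y).filter (fun p => p ≤ A₀), (1 - 1 / (p : ℝ)) := by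
    unfold V1p
    have hsub : (pz y).filter (fun p => p ≤ A₀) ⊆ pz A₀ := by
      intro p hp
      rw [mem_filter] at hp
      exact mem_pz.2 ⟨hp.2, (mem_pz.1 hp.1).2⟩
    rw [← prod_sdiff hsub]
    have h3 : ∏ p ∈ pz A₀ \ (pz y).filter (fun p => p ≤ A₀), (1 - 1 / (p : ℝ)) ≤ 1 := by
      apply prod_le_one
      · intro p hp
        have h2 : (2 : ℝ) ≤ p := by exact_mod_cast (mem_pz.1 (mem_sdiff.1 hp).1).2.two_le
        rw [sub_nonneg, div_le_one (by linarith)]
        linarith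
      · intro p hp
        have : 0 ≤ 1 / (p : ℝ) := by positivity
        linarith
    have h4 : 0 ≤ ∏ p ∈ (pz y).filter (fun p => p ≤ A₀), (1 - 1 / (p : ℝ)) := by
      apply prod_nonneg
      intro p hp
      have h2 : (2 : ℝ) ≤ p := by exact_mod_cast (mem_pz.1 (mem_filter.1 hp).1).2.two_le
      rw [sub_nonneg, div_le_one (by linarith)]
      linarith
    calc _ ≤ 1 * ∏ p ∈ (pz y).filter (fun p => p ≤ A₀), (1 - 1 / (p : ℝ)) := mul_le_mul_of_nonneg_right h3 h4
      _ = _ := one_mul _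
  exact (mul_le_mul_of_nonneg_left h2 (Vq_pos _ (QL_adm a b hadm) y).le).trans h1

open Classical in
/-- few large collisions -/
theorem QL_large {k : ℕ} (a b : Fin k → ℤ) (T : ℕ) (y d : ℕ) (M : ℕ)
    (hne : ∀ l l', a l * a l' * d + a l * b l' - a l' * b l ≠ 0)
    (hM : ∀ l l', (a l * a l' * d + a l * b l' - a l' * b l).natAbs ≤ M) :
    (((pz y).filter (fun p : ℕ => T < p ∧ CoG (QL a b) p d)).card : ℝ) * Real.log 2 ≤ k ^ 2 * Real.log M := by
  have hsub : (pz y).filter (fun p : ℕ => T < p ∧ CoG (QL a b) p d) ⊆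
      (univ : Finset (Fin k × Fin k)).biUnion (fun e => (pz y).filter (fun p : ℕ =>
        p ∣ (a e.1 * a e.2 * d + a e.1 * b e.2 - a e.2 * b e.1).natAbs)) := by
    intro p hp
    rw [mem_filter] at hp
    obtain ⟨hp1, -, m, ⟨l, hl⟩, ⟨l', hl'⟩⟩ := hp
    rw [mem_biUnion]
    refine ⟨(l, l'), mem_univ _, mem_filter.2 ⟨hp1, ?_⟩⟩
    rw [← Int.natCast_dvd]
    have h3 := dvd_sub (hl'.mul_left (a l)) (hl.mul_left (a l'))
    have e : a l * (a l' * ((m + d : ℕ) : ℤ) + b l') - a l' * (a l * (m : ℤ) + b l) =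
        a l * a l' * d + a l * b l' - a l' * b l := by push_cast; ring
    rwa [e] at h3
  have hlog2 : 0 < Real.log 2 := Real.log_pos (by norm_num)
  have h1 : ∀ e : Fin k × Fin k, (((pz y).filter (fun p : ℕ =>
        p ∣ (a e.1 * a e.2 * d + a e.1 * b e.2 - a e.2 * b e.1).natAbs)).card : ℝ) * Real.log 2 ≤ Real.log M := by
    intro e
    have hne' : (a e.1 * a e.2 * d + a e.1 * b e.2 - a e.2 * b e.1).natAbs ≠ 0 :=
      Int.natAbs_ne_zero.2 (hne e.1 e.2)
    refine (card_le_log _ _ hne' (fun p hp => ?_)).trans ?_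
    · rw [mem_filter] at hp
      exact ⟨(mem_pz.1 hp.1).2, hp.2⟩
    · apply Real.log_le_log
      · exact_mod_cast Nat.pos_of_ne_zero hne'
      · exact_mod_cast hM e.1 e.2
  have h2 : (((pz y).filter (fun p : ℕ => T < p ∧ CoG (QL a b) p d)).card : ℝ) ≤
      ∑ e : Fin k × Fin k, (((pz y).filter (fun p : ℕ =>
        p ∣ (a e.1 * a e.2 * d + a e.1 * b e.2 - a e.2 * b e.1).natAbs)).card : ℝ) := by
    exact_mod_cast (card_le_card hsub).trans card_biUnion_le
  calc (((pz y).filter (fun p : ℕ => T < p ∧ CoG (QL a b) p d)).card : ℝ) * Real.log 2 ≤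
      (∑ e : Fin k × Fin k, (((pz y).filter (fun p : ℕ =>
        p ∣ (a e.1 * a e.2 * d + a e.1 * b e.2 - a e.2 * b e.1).natAbs)).card : ℝ)) *
        Real.log 2 := mul_le_mul_of_nonneg_right h2 hlog2.le
    _ = ∑ e : Fin k × Fin k, (((pz y).filter (fun p : ℕ =>
        p ∣ (a e.1 * a e.2 * d + a e.1 * b e.2 - a e.2 * b e.1).natAbs)).card : ℝ) *
        Real.log 2 := by rw [sum_mul]
    _ ≤ ∑ _e : Fin k × Fin k, Real.log M := sum_le_sum fun e _ => h1 e
    _ = k ^ 2 * Real.log M := by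
      rw [sum_const, card_univ, Fintype.card_prod, Fintype.card_fin, nsmul_eq_mul]
      push_cast
      ring

end Pool.Agent.N39.RW
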