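import Pool.Agent.N39.RW.UniC

set_option autoImplicit false

/-!
# Regular windows for linear systems, uniformly in the constant terms: the theorem (helper39)
-/

namespace Pool.Agent.N39.RW

open Finset Filter Pool.Agent.H373R2.T7 Pool.Agent.W123.RP Pool.Agent.W123.RU
open Pool.Agent.X32.Uni (linU SysL VL omL GoodL Almost AdmL)

/-- `|f i m|` is prime, `|f j m|` is a product of at most two primes, all `|f l m|` are products of at most `r`
primes, all larger than `z`, where `f l m = a l m + b l` -/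
def GC {k : ℕ} (a b : Fin k → ℤ) (i j : Fin k) (r : ℕ) (z : ℝ) (m : ℕ) : Prop :=
  (a i * m + b i).natAbs.Prime ∧ (a j * m + b j).natAbs.primeFactorsList.length ≤ 2 ∧
    ∀ l, (a l * m + b l).natAbs.primeFactorsList.length ≤ r ∧
      ∀ q : ℕ, q.Prime → (q : ℤ) ∣ a l * m + b l → z < (q : ℝ)

/-- all prime factors of all `f l m` are larger than `z` -/
def GR {k : ℕ} (a b : Fin k → ℤ) (z : ℝ) (m : ℕ) : Prop :=
  ∀ l, ∀ q : ℕ, q.Prime → (q : ℤ) ∣ a l * m + b l → z < (q : ℝ)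

open Classical in
theorem uniG (k A₀ : ℕ) (hk : 2 ≤ k) :
    ∃ r : ℕ, 1 ≤ r ∧ ∃ c₁ c₂ K μ : ℝ, 0 < c₁ ∧ 0 < c₂ ∧ 1 ≤ K ∧ 0 < μ ∧ ∀ K₀ : ℕ, ∀ᶠ X : ℕ in atTop,
      ∀ (a b : Fin k → ℤ) (i j : Fin k), (∀ l, a l ≠ 0) → (∀ l, (a l).natAbs ≤ A₀) →
      (∀ l, (b l).natAbs ≤ K₀ * X) → AdmL a b →
      (a j, b j) ≠ (a i, b i) → (a j, b j) ≠ (- a i, - b i) →
      μ * X ≤ (((Ioc X (2 * X)).filter (fun n => ∀ u v : ℕ, u ≤ n → n ≤ v →
        K / Vq (QL a b) X ≤ (v : ℝ) - u → (v : ℝ) - u ≤ n →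
          c₁ * ((v : ℝ) - u) * Vq (QL a b) X ≤
            (((Ioc u v).filter (fun m => GC a b i j r ((X : ℝ) ^ (1 / (r : ℝ))) m)).card : ℝ) ∧
          (((Ioc u v).filter (fun m => GR a b ((X : ℝ) ^ (1 / (r : ℝ))) m)).card : ℝ) ≤
            c₂ * ((v : ℝ) - u) * Vq (QL a b) X)).card : ℝ) := by
  obtain ⟨t, ht, κ, hκ, hlin⟩ := linU k A₀ (by omega)
  obtain ⟨v₁, C₀, hv₁, hC₀, hV1⟩ := V1p_bounds
  obtain ⟨C', hC', hup⟩ := QL_up A₀
  obtain ⟨C₁, hC₁d⟩ : ∃ C₁ : ℝ, C₁ = C' * C₀ := ⟨_, rfl⟩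
  have hC₁ : 0 < C₁ := by rw [hC₁d]; positivity
  have hlog2 : 0 < Real.log 2 := Real.log_pos (by norm_num)
  obtain ⟨D', hD'⟩ : ∃ D' : ℕ, 8 * (k : ℝ) ^ 2 * C₁ / Real.log 2 ≤ D' := exists_nat_ge _
  obtain ⟨K1, hK1, hmain⟩ := sieve_regular k (2 * k) (k ^ 2) D' (k ^ 2) (by omega)
  obtain ⟨R, hR⟩ : ∃ R : ℕ, R = max K1 t := ⟨_, rfl⟩
  have hR1 : K1 ≤ R := by rw [hR]; exact le_max_left _ _
  have hRt : t ≤ R := by rw [hR]; exact le_max_right _ _
  have hR0 : 2 ≤ R := hK1.trans hR1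
  have hRpos : (0 : ℝ) < R := by exact_mod_cast (by omega : 0 < R)
  have htpos : (0 : ℝ) < t := by exact_mod_cast ht
  obtain ⟨C3, hC3, hratio⟩ := Vq_ratio k (4 * R) (by omega)
  obtain ⟨c₁, c₂, K, μ, L0, hc₁, hc₂, hK, hμ, hreg⟩ := hmain R hR1 (κ / C3) C3 (by positivity) hC3
  refine ⟨R, by omega, c₁, c₂, K, μ, hc₁, hc₂, hK, hμ, fun K₀ => ?_⟩
  obtain ⟨⟨X₀, hlin⟩, -⟩ := hlin (1 / 2) (by norm_num) (K₀ + A₀ + 1)
  have hXr : Tendsto (fun X : ℕ => (X : ℝ)) atTop atTop := tendsto_natCast_atTop_atTop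
  have hpow : Tendsto (fun X : ℕ => (X : ℝ) ^ (1 / (2 * R : ℝ))) atTop atTop :=
    (tendsto_rpow_atTop (by positivity)).comp hXr
  have hlogX : Tendsto (fun X : ℕ => Real.log (X : ℝ)) atTop atTop :=
    Real.tendsto_log_atTop.comp hXr
  filter_upwards [hreg, eventually_ge_atTop (16 + X₀ + (A₀ * A₀ + 2 * A₀ * K₀)),
    hpow.eventually_ge_atTop (3 + 2 * k),
    hlogX.eventually_ge_atTop (C₁ * (2 + |L0|) + 1), logpow_le (8 * k) ((2 ^ k / κ) ^ 8) (by positivity)]
    with X hreg hX16 hX2 hXlog hlp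
  intro a b i j ha0 haA hsz hadm hne1 hne2
  have hX16r : (16 : ℝ) ≤ X := by exact_mod_cast (by omega : 16 ≤ X)
  have hXpos : (0 : ℝ) < X := by linarith
  have hX1 : (1 : ℝ) ≤ X := by linarith
  have hlX : 0 < Real.log X := Real.log_pos (by linarith)
  have hL0a : 0 ≤ |L0| := abs_nonneg _
  have hadm' := QL_adm a b hadm
  obtain ⟨V, hV⟩ : ∃ V : ℝ, V = Vq (QL a b) X := ⟨_, rfl⟩
  have hVpos : 0 < V := by rw [hV]; exact Vq_pos _ hadm' X
  rw [← hV]
  obtain ⟨L, hL⟩ : ∃ L : ℝ, L = 1 / V := ⟨_, rfl⟩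
  have hLpos : 0 < L := by rw [hL]; positivity
  have hVL : V = 1 / L := by rw [hL]; field_simp
  -- upper bound of V
  have hVup : V ≤ C₁ / Real.log X := by
    rw [hV]
    refine (hup k a b i (ha0 i) (haA i) hadm X).trans ?_
    rw [hC₁d, mul_div_assoc]
    exact mul_le_mul_of_nonneg_left (hV1 X (by omega)).2 hC'.le
  have hLlow : Real.log X / C₁ ≤ L := by
    rw [hL, div_le_div_iff₀ hC₁ hVpos, one_mul]
    rw [le_div_iff₀ hlX] at hVup
    linarith
  have hLL : 2 + |L0| ≤ L := by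
    refine le_trans ?_ hLlow
    rw [le_div_iff₀ hC₁]
    linarith
  have hlog2X : Real.log ((2 * X : ℕ) : ℝ) ≤ 2 * Real.log X := by
    have e : 2 * Real.log X = Real.log ((X : ℝ) ^ 2) := by rw [Real.log_pow]; norm_num
    rw [e]
    apply Real.log_le_log (by push_cast; linarith)
    push_cast
    nlinarith
  have hlog2X0 : 0 < Real.log ((2 * X : ℕ) : ℝ) := Real.log_pos (by push_cast; linarith)
  -- the count
  obtain ⟨hlin1, hlin2⟩ := hlin (2 * X) (by omega) a b i j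
    { a0 := ha0
      aE := haA i
      aE' := haA j
      aK := fun l => by
        have h1 := haA l
        rw [Int.abs_eq_natAbs]
        have h2 : (a l).natAbs ≤ K₀ + A₀ + 1 := by omega
        exact_mod_cast h2
      bK := fun l => by
        have h1 := hsz l
        rw [Int.abs_eq_natAbs]
        have h2 : (b l).natAbs ≤ (K₀ + A₀ + 1) * (2 * X) := by nlinarith
        exact_mod_cast h2
      adm := hadm
      ne := hne1
      ne' := hne2 }
  rw [VL_QL] at hlin1 hlin2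
  have hVan : Vq (QL a b) (2 * X) ≤ V := by rw [hV]; exact Vq_anti _ hadm' (by omega)
  have hV2pos : 0 < Vq (QL a b) (2 * X) := Vq_pos _ hadm' _
  -- lower bound of V
  have hLup : L ≤ 2 ^ k / κ * Real.log X ^ k := by
    have h1 : κ / (2 * Real.log X) ^ k ≤ V := by
      refine le_trans ?_ (hlin1.trans hVan)
      gcongr
    rw [hL]
    rw [div_le_iff₀ hVpos]
    rw [div_le_iff₀ (by positivity)] at h1
    calc (1 : ℝ) = (1 / κ) * κ := by field_simp
      _ ≤ (1 / κ) * (V * (2 * Real.log X) ^ k) := by gcongr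
      _ = 2 ^ k / κ * Real.log X ^ k * V := by rw [mul_pow]; ring
  have hL8 : L ^ 8 ≤ X := by
    calc L ^ 8 ≤ (2 ^ k / κ * Real.log X ^ k) ^ 8 := pow_le_pow_left₀ hLpos.le hLup 8
      _ = (2 ^ k / κ) ^ 8 * Real.log X ^ (8 * k) := by rw [mul_pow, ← pow_mul, mul_comm k 8]
      _ ≤ X := hlp
  -- the level
  have hk0 : (0 : ℝ) ≤ k := Nat.cast_nonneg k
  obtain ⟨hy1, hy2, hy3, hy4⟩ := level_low R hR0 X (by omega) (by linarith)
  obtain ⟨y, hy⟩ : ∃ y : ℕ, y = ⌊(X : ℝ) ^ (1 / (R : ℝ))⌋₊ := ⟨_, rfl⟩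
  rw [← hy] at hy1 hy2 hy3 hy4
  have hyk : 3 + 2 * k ≤ y := by
    have : (3 : ℝ) + 2 * k ≤ y := hX2.trans hy1
    exact_mod_cast this
  have hyX : y ≤ X := by
    have h1 : Real.log (y : ℝ) ≤ Real.log X := hy3
    have h2 : (0 : ℝ) < y := by exact_mod_cast (by omega : 0 < y)
    have h3 := (Real.log_le_log_iff h2 hXpos).1 h1
    exact_mod_cast h3
  have hper := QL_per a b ha0 hadm
  have hVy : Vq (QL a b) y ≤ C3 * Vq (QL a b) (2 * X) := by
    apply hratio y (2 * X) (by omega) (by omega) (by omega) _ _ hper hadm'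
    refine hlog2X.trans ?_
    push_cast
    rw [div_le_iff₀ (by positivity)] at hy2
    linarith
  have hVXy : V ≤ Vq (QL a b) y := by rw [hV]; exact Vq_anti _ hadm' hyX
  have hL1 : 1 ≤ L := by linarith
  have hfl : L / 2 ≤ (⌊L⌋₊ : ℝ) := by
    have := Nat.lt_floor_add_one L
    linarith
  have hLX : L ≤ X := by
    calc L = L ^ 1 := (pow_one L).symm
      _ ≤ L ^ 8 := pow_le_pow_right₀ hL1 (by norm_num)
      _ ≤ X := hL8
  -- the exceptional shifts
  obtain ⟨E0, hE0⟩ : ∃ E0 : Finset ℕ, E0 = (univ : Finset (Fin k × Fin k)).biUnion (fun e =>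
      (Icc 1 ⌊L⌋₊).filter (fun d : ℕ => a e.1 * a e.2 * d + a e.1 * b e.2 - a e.2 * b e.1 = 0)) := ⟨_, rfl⟩
  have hE0c : E0.card ≤ k ^ 2 := by
    rw [hE0]
    refine (card_biUnion_le_card_mul _ _ 1 ?_).trans ?_
    · intro e _
      rw [card_le_one]
      intro d hd d' hd'
      rw [mem_filter] at hd hd'
      have h1 : a e.1 * a e.2 * ((d : ℤ) - d') = 0 := by linear_combination hd.2 - hd'.2
      rcases mul_eq_zero.1 h1 with h2 | h2
      · exact absurd h2 (mul_ne_zero (ha0 _) (ha0 _))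
      · omega
    · rw [card_univ, Fintype.card_prod, Fintype.card_fin, sq, mul_one]
  have hfin := hreg (QL a b) (CoG (QL a b)) L E0
    ⟨hper, hadm', le_rfl, fun _ _ _ _ m h1 h2 => ⟨m, h1, h2⟩, coll_gen (QL a b) k hper (2 * k)⟩ (by
      have := le_abs_self L0
      linarith) hL8 (by
      rw [← hy]
      calc Vq (QL a b) y ≤ C3 * Vq (QL a b) (2 * X) := hVy
        _ ≤ C3 * V := by gcongr
        _ = C3 / L := by rw [hVL]; ring) hE0c (by
      rw [← hy]
      intro d hd hdE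
      rw [mem_Icc] at hd
      have hdL : (d : ℝ) ≤ L := by
        have h1 : (d : ℝ) ≤ (⌊L⌋₊ : ℝ) := by exact_mod_cast hd.2
        exact h1.trans (Nat.floor_le hLpos.le)
      have hdX : d ≤ X := by
        have := hdL.trans hLX
        exact_mod_cast this
      have hcol := QL_large a b ⌊L⌋₊ y d ((A₀ * A₀ + 2 * A₀ * K₀) * X) (by
        intro l l' he
        apply hdE
        rw [hE0, mem_biUnion]
        exact ⟨(l, l'), mem_univ _, mem_filter.2 ⟨mem_Icc.2 hd, he⟩⟩) (by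
        intro l l'
        have h1 := haA l
        have h2 := haA l'
        have h3 := hsz l
        have h4 := hsz l'
        have e1 : (a l * a l' * d + a l * b l' - a l' * b l).natAbs ≤
            (a l).natAbs * (a l').natAbs * d + (a l).natAbs * (b l').natAbs + (a l').natAbs * (b l).natAbs := by
          have t1 := Int.natAbs_sub_le (a l * a l' * d + a l * b l') (a l' * b l)
          have t2 := Int.natAbs_add_le (a l * a l' * d) (a l * b l')
          simp only [Int.natAbs_mul, Int.natAbs_natCast] at t1 t2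
          omega
        refine e1.trans ?_
        calc (a l).natAbs * (a l').natAbs * d + (a l).natAbs * (b l').natAbs + (a l').natAbs * (b l).natAbs ≤
            A₀ * A₀ * X + A₀ * (K₀ * X) + A₀ * (K₀ * X) := by gcongr
          _ = _ := by ring)
      have hlogd : Real.log (((A₀ * A₀ + 2 * A₀ * K₀) * X : ℕ) : ℝ) ≤ 4 * Real.log X := by
        rcases Nat.eq_zero_or_pos ((A₀ * A₀ + 2 * A₀ * K₀) * X) with h0 | h0
        · rw [h0, Nat.cast_zero, Real.log_zero]
          positivity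
        · have e : 4 * Real.log X = Real.log ((X : ℝ) ^ 4) := by rw [Real.log_pow]; norm_num
          rw [e]
          apply Real.log_le_log (by exact_mod_cast h0)
          have h5 : (A₀ * A₀ + 2 * A₀ * K₀) * X ≤ X * X := Nat.mul_le_mul_right _ (by omega)
          have h6 : (((A₀ * A₀ + 2 * A₀ * K₀) * X : ℕ) : ℝ) ≤ (X : ℝ) * X := by exact_mod_cast h5
          refine h6.trans ?_
          have h7 : (X : ℝ) ^ 4 = (X * X) * (X * X) := by ring
          rw [h7]
          have h8 : (1 : ℝ) ≤ X * X := by nlinarith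
          nlinarith
      have h1 : (((pz y).filter (fun p : ℕ => ⌊L⌋₊ < p ∧ CoG (QL a b) p d)).card : ℝ) * Real.log 2 ≤
          k ^ 2 * (4 * Real.log X) := hcol.trans (mul_le_mul_of_nonneg_left hlogd (by positivity))
      have h2 : Real.log X ≤ 2 * C₁ * (⌊L⌋₊ : ℝ) := by
        rw [div_le_iff₀ hC₁] at hLlow
        nlinarith
      have h3 : (((pz y).filter (fun p : ℕ => ⌊L⌋₊ < p ∧ CoG (QL a b) p d)).card : ℝ) ≤ (D' : ℝ) * (⌊L⌋₊ : ℝ) := by
        rw [div_le_iff₀ hlog2] at hD'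
        have h4 : (((pz y).filter (fun p : ℕ => ⌊L⌋₊ < p ∧ CoG (QL a b) p d)).card : ℝ) * Real.log 2 ≤
            (D' : ℝ) * (⌊L⌋₊ : ℝ) * Real.log 2 := by
          calc (((pz y).filter (fun p : ℕ => ⌊L⌋₊ < p ∧ CoG (QL a b) p d)).card : ℝ) * Real.log 2 ≤
                k ^ 2 * (4 * Real.log X) := h1
            _ ≤ k ^ 2 * (4 * (2 * C₁ * (⌊L⌋₊ : ℝ))) := by gcongr
            _ = (8 * (k : ℝ) ^ 2 * C₁) * (⌊L⌋₊ : ℝ) := by ring
            _ ≤ (D' * Real.log 2) * (⌊L⌋₊ : ℝ) := mul_le_mul_of_nonneg_right hD' (Nat.cast_nonneg _)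
            _ = _ := by ring
        exact le_of_mul_le_mul_right h4 hlog2
      exact_mod_cast h3)
    (fun m => GC a b i j R (((2 * X : ℕ) : ℝ) ^ (1 / (t : ℝ))) m) (fun m => GR a b ((X : ℝ) ^ (1 / (R : ℝ))) m)
    (fun m hm l q hq hd => by
      refine lt_of_le_of_lt ?_ ((hm.2.2 l).2 q hq hd)
      calc (X : ℝ) ^ (1 / (R : ℝ)) ≤ (X : ℝ) ^ (1 / (t : ℝ)) := by
            apply Real.rpow_le_rpow_of_exponent_le hX1
            apply one_div_le_one_div_of_le htpos
            exact_mod_cast hRt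
        _ ≤ ((2 * X : ℕ) : ℝ) ^ (1 / (t : ℝ)) :=
            Real.rpow_le_rpow hXpos.le (by push_cast; linarith) (by positivity)) (by
      intro m hm _ _ p hp hq
      obtain ⟨l, hl⟩ := hq
      have h1 := hm l p (mem_pz.1 hp).2 hl
      have h2 := mem_pz' (t := (X : ℝ) ^ (1 / (R : ℝ))) (by positivity) hp
      linarith) (by
      have h1 := hlin2 X (2 * X) le_rfl (by push_cast; linarith)
      have h2 : κ / C3 * X / L ≤ κ * (((2 * X : ℕ) : ℝ) - X) * Vq (QL a b) (2 * X) := by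
        have e : ((2 * X : ℕ) : ℝ) - X = X := by push_cast; ring
        rw [e]
        calc κ / C3 * X / L = κ * X * (V / C3) := by rw [hVL]; field_simp
          _ ≤ κ * X * Vq (QL a b) (2 * X) := by
            apply mul_le_mul_of_nonneg_left _ (by positivity)
            rw [div_le_iff₀ hC3]
            linarith
      refine h2.trans (h1.trans ?_)
      unfold co
      rw [Nat.cast_le]
      apply card_le_card
      intro m hm
      unfold GoodL at hm
      rw [mem_filter] at hm ⊢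
      obtain ⟨hm1, hm2, hm3, hm4⟩ := hm
      exact ⟨hm1, hm2, hm3.2.1, fun l => ⟨(hm4 l).2.1.trans hRt, (hm4 l).2.2⟩⟩)
  refine hfin.trans ?_
  rw [Nat.cast_le]
  apply card_le_card
  intro n hn
  rw [mem_filter] at hn ⊢
  refine ⟨hn.1, fun u v h1 h2 h3 h4 => ?_⟩
  have hKL : K / V = K * L := by rw [hL]; ring
  rw [hKL] at h3
  obtain ⟨h5, h6⟩ := hn.2 u v h1 h2 h3 h4
  constructor
  · refine (le_of_eq ?_).trans (h5.trans ?_)
    · rw [hVL]
      ring
    · unfold co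
      rw [Nat.cast_le]
      apply card_le_card
      intro m hm
      rw [mem_filter] at hm ⊢
      refine ⟨hm.1, hm.2.1, hm.2.2.1, fun l => ⟨(hm.2.2.2 l).1, fun q hq hd => ?_⟩⟩
      refine lt_of_le_of_lt ?_ ((hm.2.2.2 l).2 q hq hd)
      calc (X : ℝ) ^ (1 / (R : ℝ)) ≤ (X : ℝ) ^ (1 / (t : ℝ)) := by
            apply Real.rpow_le_rpow_of_exponent_le hX1
            apply one_div_le_one_div_of_le htpos
            exact_mod_cast hRt
        _ ≤ ((2 * X : ℕ) : ℝ) ^ (1 / (t : ℝ)) :=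
            Real.rpow_le_rpow hXpos.le (by push_cast; linarith) (by positivity)
  · unfold co at h6
    refine h6.trans (le_of_eq ?_)
    rw [hVL]
    ring

end Pool.Agent.N39.RW
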