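import Pool.Agent.N39.RW.UniD

set_option autoImplicit false

/-!
# Regular windows for `p` and `M + p`, `M - p`, uniformly in the even number `M` (helper39)
-/

namespace Pool.Agent.N39.RW

open Finset Filter Pool.Agent.H373R2.T7 Pool.Agent.W123.RP Pool.Agent.W123.RU
open Pool.Agent.X32.Uni (AdmL)
open Pool.Agent.W182.PW (lin lin_eval)

open Classical in
theorem cardIoc' (u v : ℕ) (P : ℕ → Prop) : (((Ioc u v).filter (fun m => P m)).card) =
    Set.ncard {n : ℕ | u < n ∧ n ≤ v ∧ P n} := by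
  rw [← Set.ncard_coe_finset]
  congr 1
  ext m
  rw [mem_coe, mem_filter, mem_Ioc, and_assoc]
  rfl

/-- the variable part of the singular series: the product of `(p - 1) / (p - 2)` over the odd primes `p ∣ M` -/
noncomputable def sg (M : ℕ) : ℝ := ∏ p ∈ M.primeFactors.filter (fun p => 2 < p), (((p : ℝ) - 1) / (p - 2))

theorem sg_ge_one (M : ℕ) : 1 ≤ sg M := by
  unfold sg
  calc (1 : ℝ) = ∏ _p ∈ M.primeFactors.filter (fun p => 2 < p), (1 : ℝ) := Finset.prod_const_one.symm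
    _ ≤ _ := by
      apply Finset.prod_le_prod
      · intro p _
        exact zero_le_one
      · intro p hp
        have h3 : (3 : ℝ) ≤ p := by exact_mod_cast (mem_filter.1 hp).2
        rw [le_div_iff₀ (by linarith)]
        linarith

/-- the sieve product of the twin primes -/
theorem QA_bounds : ∃ v C : ℝ, 0 < v ∧ 0 < C ∧ ∀ y : ℕ, 3 ≤ y → v / Real.log y ^ 2 ≤ Vq QA y ∧
    Vq QA y ≤ C / Real.log y ^ 2 := by
  classical
  obtain ⟨C, hC, hup⟩ := QA_V
  have hadm : ∀ p : ℕ, p.Prime → ∃ m : ℕ, ∀ t ∈ ({0, 2} : Finset ℕ), ¬ p ∣ m + t := by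
    intro p hp
    by_cases h3 : p = 3
    · refine ⟨2, fun t ht => ?_⟩
      rw [mem_insert, mem_singleton] at ht
      rcases ht with rfl | rfl <;> rw [h3] <;> decide
    · refine ⟨1, fun t ht => ?_⟩
      rw [mem_insert, mem_singleton] at ht
      rcases ht with rfl | rfl
      · intro h
        exact hp.one_lt.ne' (Nat.dvd_one.1 h)
      · intro h
        exact h3 ((Nat.prime_dvd_prime_iff_eq hp Nat.prime_three).1 h)
  obtain ⟨v, C', hv, hC', hV⟩ := Pool.Agent.W123.RU.Poly.V_bounds _ (sysT {0, 2} hadm)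
  refine ⟨v, C, hv, hC, fun y hy => ⟨?_, hup y hy⟩⟩
  have h1 := (hV y hy).1
  rw [Fintype.card_coe, show ({0, 2} : Finset ℕ).card = 2 by decide] at h1
  refine h1.trans (le_of_eq ?_)
  unfold Vq
  apply prod_congr rfl
  intro p hp
  have hpp := (mem_pz.1 hp).2
  obtain ⟨f, hf⟩ : ∃ f, f = (fun i : {x // x ∈ ({0, 2} : Finset ℕ)} => lin 1 ((i.1 : ℕ) : ℤ)) := ⟨_, rfl⟩
  rw [← hf]
  have hq : ∀ r : ℕ, Pool.Agent.W123.RU.Poly.Q f p r ↔ (p ∣ r ∨ p ∣ r + 2) := by
    intro r
    unfold Pool.Agent.W123.RU.Poly.Q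
    rw [hf]
    simp only [lin_eval]
    constructor
    · rintro ⟨⟨i, hi⟩, hd⟩
      rw [mem_insert, mem_singleton] at hi
      rcases hi with rfl | rfl
      · left
        have e : (((1 : ℕ) : ℤ) * (r : ℤ) + ((0 : ℕ) : ℤ)) = ((r : ℕ) : ℤ) := by push_cast; ring
        rw [e] at hd
        exact_mod_cast hd
      · right
        have e : (((1 : ℕ) : ℤ) * (r : ℤ) + ((2 : ℕ) : ℤ)) = ((r + 2 : ℕ) : ℤ) := by push_cast; ring
        rw [e] at hd
        exact_mod_cast hd
    · rintro (hd | hd)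
      · refine ⟨⟨0, by simp⟩, ?_⟩
        have e : (((1 : ℕ) : ℤ) * (r : ℤ) + ((0 : ℕ) : ℤ)) = ((r : ℕ) : ℤ) := by push_cast; ring
        rw [e]
        exact_mod_cast hd
      · refine ⟨⟨2, by simp⟩, ?_⟩
        have e : (((1 : ℕ) : ℤ) * (r : ℤ) + ((2 : ℕ) : ℤ)) = ((r + 2 : ℕ) : ℤ) := by push_cast; ring
        rw [e]
        exact_mod_cast hd
  have hnu : nuB (Pool.Agent.W123.RU.Poly.Q f) p = nuB QA p := by
    rcases Nat.lt_or_ge p 3 with h3 | h3
    · have h2 : p = 2 := by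
        have := hpp.two_le
        omega
      subst h2
      rw [QA_nu2]
      have h4 : (range 2).filter (fun r => Pool.Agent.W123.RU.Poly.Q f 2 r) = {0} := by
        ext r
        rw [mem_filter, mem_range, mem_singleton, hq]
        constructor
        · rintro ⟨h5, h6⟩
          omega
        · rintro rfl
          exact ⟨by omega, Or.inl (dvd_zero _)⟩
      have h5 := congrArg Finset.card h4
      rw [card_singleton] at h5
      unfold nuB
      refine Eq.trans ?_ h5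
      congr
    · rw [QA_nu3 p h3]
      have h4 : (range p).filter (fun r => Pool.Agent.W123.RU.Poly.Q f p r) = {0, p - 2} := by
        ext r
        rw [mem_filter, mem_range, mem_insert, mem_singleton, hq]
        constructor
        · rintro ⟨h5, h6 | h6⟩
          · left
            exact Nat.eq_zero_of_dvd_of_lt h6 h5
          · right
            obtain ⟨e, he⟩ := h6
            have h7 : e = 1 := by
              rcases Nat.lt_or_ge e 1 with h8 | h8
              · have : e = 0 := by omega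
                rw [this, mul_zero] at he
                omega
              · rcases Nat.lt_or_ge e 2 with h9 | h9
                · omega
                · have : p * 2 ≤ p * e := Nat.mul_le_mul_left _ h9
                  omega
            rw [h7, mul_one] at he
            omega
        · rintro (rfl | rfl)
          · exact ⟨by omega, Or.inl (dvd_zero _)⟩
          · refine ⟨by omega, Or.inr ?_⟩
            rw [Nat.sub_add_cancel (by omega)]
      have h5 := congrArg Finset.card h4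
      rw [card_pair (by omega)] at h5
      unfold nuB
      refine Eq.trans ?_ h5
      congr
  rw [hnu]

/-- the forms `n` and `M + s n` -/
def fa (s : ℤ) : Fin 2 → ℤ := ![1, s]
def fb (M : ℕ) : Fin 2 → ℤ := ![0, (M : ℤ)]

theorem QP_iff (s : ℤ) (M p m : ℕ) : QL (fa s) (fb M) p m ↔ (p ∣ m ∨ (p : ℤ) ∣ s * m + M) := by
  unfold QL fa fb
  rw [Fin.exists_fin_two]
  simp only [Matrix.cons_val_zero, Matrix.cons_val_one, one_mul, add_zero, Int.natCast_dvd_natCast]

theorem adm_P (s : ℤ) (hs : s = 1 ∨ s = -1) (M : ℕ) (hM2 : 2 ∣ M) : AdmL (fa s) (fb M) := by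
  intro p hp
  have hp2 := hp.two_le
  have h1 : ¬ (p : ℤ) ∣ 1 := by
    intro h
    have : p ∣ 1 := by exact_mod_cast h
    exact hp.one_lt.ne' (Nat.dvd_one.1 this)
  have hs1 : ¬ (p : ℤ) ∣ s := by
    rcases hs with rfl | rfl
    · exact h1
    · rw [Int.dvd_neg]; exact h1
  by_cases hd : (p : ℤ) ∣ s + M
  · refine ⟨2, ?_⟩
    rw [Fin.forall_fin_two]
    have hp3 : p ≠ 2 := by
      rintro rfl
      have h2 : ((2 : ℕ) : ℤ) ∣ (M : ℤ) := by exact_mod_cast hM2
      exact hs1 ((dvd_add_left h2).1 hd)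
    constructor
    · simp only [fa, fb, Matrix.cons_val_zero, one_mul, add_zero]
      intro h
      have : p ∣ 2 := by exact_mod_cast h
      exact hp3 ((Nat.prime_dvd_prime_iff_eq hp Nat.prime_two).1 this)
    · simp only [fa, fb, Matrix.cons_val_one]
      intro h
      apply hs1
      have e : s * 2 + (M : ℤ) - (s + M) = s := by ring
      rw [← e]
      exact dvd_sub h hd
  · refine ⟨1, ?_⟩
    rw [Fin.forall_fin_two]
    constructor
    · simp only [fa, fb, Matrix.cons_val_zero, one_mul, add_zero]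
      exact h1
    · simp only [fa, fb, Matrix.cons_val_one, mul_one]
      exact hd

theorem fa_ne (s : ℤ) (hs : s = 1 ∨ s = -1) : ∀ l, fa s l ≠ 0 := by
  rw [Fin.forall_fin_two]
  unfold fa
  constructor
  · simp
  · rcases hs with rfl | rfl <;> simp

theorem fa_abs (s : ℤ) (hs : s = 1 ∨ s = -1) : ∀ l, (fa s l).natAbs ≤ 1 := by
  rw [Fin.forall_fin_two]
  unfold fa
  constructor
  · simp
  · rcases hs with rfl | rfl <;> simp

theorem nuP_dvd (s : ℤ) (hs : s = 1 ∨ s = -1) (M : ℕ) (p : ℕ) (hp : p.Prime) (hpM : p ∣ M) :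
    nuB (QL (fa s) (fb M)) p = 1 := by
  classical
  have h4 : (range p).filter (fun r => QL (fa s) (fb M) p r) = {0} := by
    ext r
    rw [mem_filter, mem_range, mem_singleton, QP_iff]
    constructor
    · rintro ⟨h5, h6 | h6⟩
      · exact Nat.eq_zero_of_dvd_of_lt h6 h5
      · have h7 : (p : ℤ) ∣ (M : ℤ) := by exact_mod_cast hpM
        have h8 : (p : ℤ) ∣ s * (r : ℤ) := (dvd_add_left h7).1 h6
        have h9 : p ∣ r := by
          rcases hs with rfl | rfl
          · rw [one_mul] at h8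
            exact_mod_cast h8
          · rw [neg_one_mul, Int.dvd_neg] at h8
            exact_mod_cast h8
        exact Nat.eq_zero_of_dvd_of_lt h9 h5
    · rintro rfl
      exact ⟨hp.pos, Or.inl (dvd_zero _)⟩
  have h5 := congrArg Finset.card h4
  rw [card_singleton] at h5
  unfold nuB
  refine Eq.trans ?_ h5
  congr

theorem nuP_ndvd (s : ℤ) (hs : s = 1 ∨ s = -1) (M : ℕ) (hM2 : 2 ∣ M) (p : ℕ) (hp : p.Prime) (hpM : ¬ p ∣ M) :
    nuB (QL (fa s) (fb M)) p = 2 := by
  classical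
  apply le_antisymm
  · exact (QL_per (fa s) (fb M) (fa_ne s hs) (adm_P s hs M hM2)).few p hp
  · have hMp : M % p ≠ 0 := fun h => hpM (Nat.dvd_of_mod_eq_zero h)
    have hMlt : M % p < p := Nat.mod_lt _ hp.pos
    obtain ⟨r₀, hr₀⟩ : ∃ r₀ : ℕ, r₀ < p ∧ r₀ ≠ 0 ∧ (p : ℤ) ∣ s * (r₀ : ℤ) + M := by
      have e := Nat.div_add_mod M p
      have e' : (M : ℤ) = p * ((M / p : ℕ) : ℤ) + ((M % p : ℕ) : ℤ) := by exact_mod_cast e.symm
      rcases hs with rfl | rfl
      · refine ⟨p - M % p, by omega, by omega, ?_⟩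
        rw [Nat.cast_sub hMlt.le]
        refine ⟨1 + ((M / p : ℕ) : ℤ), ?_⟩
        linear_combination e'
      · refine ⟨M % p, by omega, by omega, ?_⟩
        refine ⟨((M / p : ℕ) : ℤ), ?_⟩
        linear_combination e'
    have h4 : ({0, r₀} : Finset ℕ) ⊆ (range p).filter (fun r => QL (fa s) (fb M) p r) := by
      intro r hr
      rw [mem_insert, mem_singleton] at hr
      rw [mem_filter, mem_range, QP_iff]
      rcases hr with rfl | rfl
      · exact ⟨hp.pos, Or.inl (dvd_zero _)⟩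
      · exact ⟨hr₀.1, Or.inr hr₀.2.2⟩
    have h5 := card_le_card h4
    rw [card_pair (Ne.symm hr₀.2.1)] at h5
    unfold nuB
    refine h5.trans (le_of_eq ?_)
    congr

/-- the sieve product -/
theorem VqP (s : ℤ) (hs : s = 1 ∨ s = -1) (M : ℕ) (hM2 : 2 ∣ M) (y : ℕ) :
    Vq (QL (fa s) (fb M)) y = Vq QA y * ∏ p ∈ (pz y).filter (fun p => 2 < p ∧ p ∣ M), (((p : ℝ) - 1) / (p - 2)) := by
  unfold Vq
  rw [Finset.prod_filter, ← Finset.prod_mul_distrib]
  apply prod_congr rfl
  intro p hp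
  have hpp := (mem_pz.1 hp).2
  rcases Nat.lt_or_ge p 3 with h3 | h3
  · have h2 : p = 2 := by
      have := hpp.two_le
      omega
    subst h2
    rw [if_neg (by omega), mul_one, QA_nu2, nuP_dvd s hs M 2 Nat.prime_two hM2]
  · have h3r : (3 : ℝ) ≤ p := by exact_mod_cast h3
    rw [QA_nu3 p h3]
    by_cases hd : p ∣ M
    · rw [if_pos ⟨h3, hd⟩, nuP_dvd s hs M p hpp hd]
      have h4 : (p : ℝ) - 2 ≠ 0 := by linarith
      have h5 : (p : ℝ) ≠ 0 := by linarith
      field_simp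
      push_cast
      ring
    · rw [if_neg (by tauto), nuP_ndvd s hs M hM2 p hpp hd, mul_one]

/-- comparison with the full product -/
theorem sg_cmp (M y : ℕ) (hM : 1 ≤ M) (hy : 4 ≤ y) (hMy : Real.log M ≤ y / 2) :
    ∏ p ∈ (pz y).filter (fun p => 2 < p ∧ p ∣ M), (((p : ℝ) - 1) / (p - 2)) ≤ sg M ∧
    sg M ≤ Real.exp 2 * ∏ p ∈ (pz y).filter (fun p => 2 < p ∧ p ∣ M), (((p : ℝ) - 1) / (p - 2)) := by
  have hsub : (pz y).filter (fun p => 2 < p ∧ p ∣ M) ⊆ M.primeFactors.filter (fun p => 2 < p) := by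
    intro p hp
    rw [mem_filter] at hp ⊢
    exact ⟨Nat.mem_primeFactors.2 ⟨(mem_pz.1 hp.1).2, hp.2.2, by omega⟩, hp.2.1⟩
  obtain ⟨D, hD⟩ : ∃ D, D = M.primeFactors.filter (fun p => 2 < p) \ (pz y).filter (fun p => 2 < p ∧ p ∣ M) := ⟨_, rfl⟩
  have hsplit : (∏ p ∈ D, (((p : ℝ) - 1) / (p - 2))) *
      ∏ p ∈ (pz y).filter (fun p => 2 < p ∧ p ∣ M), (((p : ℝ) - 1) / (p - 2)) = sg M := by
    rw [hD]
    unfold sg
    exact prod_sdiff hsub
  have hDp : ∀ p ∈ D, y < p ∧ p.Prime ∧ p ∣ M := by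
    intro p hp
    rw [hD, Finset.mem_sdiff, mem_filter] at hp
    obtain ⟨⟨h1, h2⟩, h3⟩ := hp
    obtain ⟨h4, h5, -⟩ := Nat.mem_primeFactors.1 h1
    refine ⟨?_, h4, h5⟩
    by_contra hcon
    exact h3 (mem_filter.2 ⟨mem_pz.2 ⟨not_lt.1 hcon, h4⟩, h2, h5⟩)
  have h0 : 0 ≤ ∏ p ∈ (pz y).filter (fun p => 2 < p ∧ p ∣ M), (((p : ℝ) - 1) / (p - 2)) := by
    apply prod_nonneg
    intro p hp
    have h3 : (3 : ℝ) ≤ p := by exact_mod_cast (mem_filter.1 hp).2.1
    apply div_nonneg <;> linarith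
  have hDge : 1 ≤ ∏ p ∈ D, (((p : ℝ) - 1) / (p - 2)) := by
    calc (1 : ℝ) = ∏ _p ∈ D, (1 : ℝ) := Finset.prod_const_one.symm
      _ ≤ _ := by
        apply Finset.prod_le_prod
        · intro p _
          exact zero_le_one
        · intro p hp
          have h3 : (4 : ℝ) ≤ p := by exact_mod_cast (by have := (hDp p hp).1; omega : 4 ≤ p)
          rw [le_div_iff₀ (by linarith)]
          linarith
  have hyr : (4 : ℝ) ≤ y := by exact_mod_cast hy
  have hDle : ∏ p ∈ D, (((p : ℝ) - 1) / (p - 2)) ≤ Real.exp 2 := by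
    have h1 : ∏ p ∈ D, (((p : ℝ) - 1) / (p - 2)) ≤ ∏ _p ∈ D, Real.exp (2 / y) := by
      apply Finset.prod_le_prod
      · intro p hp
        have h3 : (4 : ℝ) ≤ p := by exact_mod_cast (by have := (hDp p hp).1; omega : 4 ≤ p)
        apply div_nonneg <;> linarith
      · intro p hp
        have h3 : (y : ℝ) ≤ p := by exact_mod_cast (hDp p hp).1.le
        have h4 : ((p : ℝ) - 1) / (p - 2) = 1 + 1 / (p - 2) := by
          have : (p : ℝ) - 2 ≠ 0 := by linarith
          field_simp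
          ring
        rw [h4]
        have h5 : 1 / ((p : ℝ) - 2) ≤ 2 / y := by
          rw [div_le_div_iff₀ (by linarith) (by linarith)]
          linarith
        have h6 := Real.add_one_le_exp (2 / (y : ℝ))
        linarith
    refine h1.trans ?_
    rw [prod_const, ← Real.exp_nat_mul]
    apply Real.exp_le_exp.2
    have h2 := card_le_log D M (by omega) (fun p hp => ⟨(hDp p hp).2.1, (hDp p hp).2.2⟩)
    have h3 : (1 : ℝ) / 2 ≤ Real.log 2 := by
      have := Real.log_two_gt_d9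
      linarith
    have h4 : (D.card : ℝ) * (1 / 2) ≤ y / 2 := by
      refine le_trans ?_ (h2.trans hMy)
      exact mul_le_mul_of_nonneg_left h3 (Nat.cast_nonneg _)
    rw [← mul_div_assoc, div_le_iff₀ (by linarith)]
    linarith
  constructor
  · rw [← hsplit]
    exact le_mul_of_one_le_left h0 hDge
  · rw [← hsplit]
    exact mul_le_mul_of_nonneg_right hDle h0

open Classical in
/-- the windows, uniformly in `M` -/
theorem uniP : ∃ r : ℕ, 1 ≤ r ∧ ∃ c₁ c₂ K μ : ℝ, 0 < c₁ ∧ 0 < c₂ ∧ 0 < K ∧ 0 < μ ∧ ∀ K₀ : ℕ, ∀ᶠ X : ℕ in atTop,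
      ∀ (s : ℤ) (M : ℕ) (i j : Fin 2), (s = 1 ∨ s = -1) → 1 ≤ M → 2 ∣ M → M ≤ K₀ * X → i ≠ j →
      μ * X ≤ (((Ioc X (2 * X)).filter (fun n => ∀ u v : ℕ, u ≤ n → n ≤ v →
        K * Real.log X ^ 2 / sg M ≤ (v : ℝ) - u → (v : ℝ) - u ≤ n →
          c₁ * sg M * ((v : ℝ) - u) / Real.log X ^ 2 ≤
            (((Ioc u v).filter (fun m => GC (fa s) (fb M) i j r ((X : ℝ) ^ (1 / (r : ℝ))) m)).card : ℝ) ∧
          (((Ioc u v).filter (fun m => GR (fa s) (fb M) ((X : ℝ) ^ (1 / (r : ℝ))) m)).card : ℝ) ≤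
            c₂ * sg M * ((v : ℝ) - u) / Real.log X ^ 2)).card : ℝ) := by
  obtain ⟨r, hr, c₁, c₂, K, μ, hc₁, hc₂, hK, hμ, huni⟩ := uniG 2 1 le_rfl
  obtain ⟨v₀, C₀, hv₀, hC₀, hQA⟩ := QA_bounds
  refine ⟨r, hr, c₁ * (v₀ / Real.exp 2), c₂ * C₀, K * (Real.exp 2 / v₀), μ, by positivity, by positivity,
    by positivity, hμ, fun K₀ => ?_⟩
  have hlogK : ∀ᶠ X : ℕ in atTop, Real.log ((K₀ : ℝ) * X) ≤ X / 2 := by
    have h1 := logpow_le 1 8 (by norm_num)
    filter_upwards [h1, eventually_ge_atTop (K₀ + 16), Filter.tendsto_atTop.1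
      (Real.tendsto_log_atTop.comp (tendsto_natCast_atTop_atTop (R := ℝ))) (Real.log (K₀ + 1))] with X hX1 hX2 hX3
    have hXr : (16 : ℝ) ≤ X := by exact_mod_cast (by omega : 16 ≤ X)
    have hlX : 0 ≤ Real.log X := Real.log_nonneg (by linarith)
    rw [pow_one] at hX1
    rcases Nat.eq_zero_or_pos K₀ with h0 | h0
    · rw [h0, Nat.cast_zero, zero_mul, Real.log_zero]
      positivity
    · have hK0 : (0 : ℝ) < K₀ := by exact_mod_cast h0
      rw [Real.log_mul hK0.ne' (by linarith)]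
      have h2 : Real.log K₀ ≤ Real.log X := by
        apply Real.log_le_log hK0
        exact_mod_cast (by omega : K₀ ≤ X)
      linarith
  filter_upwards [huni K₀, hlogK, eventually_ge_atTop 16] with X hX hlK hX16
  intro s M i j hs hM1 hM2 hMX hij
  have hXr : (16 : ℝ) ≤ X := by exact_mod_cast hX16
  have hlX : 0 < Real.log X := Real.log_pos (by linarith)
  have hM0 : (0 : ℝ) < M := by exact_mod_cast hM1
  have hMlog : Real.log M ≤ X / 2 := by
    refine le_trans ?_ hlK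
    apply Real.log_le_log hM0
    exact_mod_cast hMX
  have hsg := sg_ge_one M
  have hsg0 : 0 < sg M := by linarith
  obtain ⟨g1, g2⟩ := sg_cmp M X hM1 (by omega) hMlog
  obtain ⟨q1, q2⟩ := hQA X (by omega)
  have hVe := VqP s hs M hM2 X
  obtain ⟨S, hS⟩ : ∃ S : ℝ, S = ∏ p ∈ (pz X).filter (fun p => 2 < p ∧ p ∣ M), (((p : ℝ) - 1) / (p - 2)) := ⟨_, rfl⟩
  rw [← hS] at g1 g2 hVe
  have he2 : 0 < Real.exp 2 := Real.exp_pos 2
  have hS0 : 0 < S := by
    by_contra hcon
    have : Real.exp 2 * S ≤ 0 := mul_nonpos_of_nonneg_of_nonpos he2.le (not_lt.1 hcon)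
    linarith
  have hVlow : v₀ / Real.exp 2 * sg M / Real.log X ^ 2 ≤ Vq (QL (fa s) (fb M)) X := by
    rw [hVe]
    calc v₀ / Real.exp 2 * sg M / Real.log X ^ 2 = (v₀ / Real.log X ^ 2) * (sg M / Real.exp 2) := by ring
      _ ≤ Vq QA X * S := by
        apply mul_le_mul q1 _ (by positivity) ((by positivity : (0 : ℝ) ≤ v₀ / Real.log X ^ 2).trans q1)
        rw [div_le_iff₀ he2]
        linarith
  have hVup : Vq (QL (fa s) (fb M)) X ≤ C₀ * sg M / Real.log X ^ 2 := by
    rw [hVe]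
    calc Vq QA X * S ≤ (C₀ / Real.log X ^ 2) * sg M := mul_le_mul q2 g1 hS0.le (by positivity)
      _ = _ := by ring
  have hVpos : 0 < Vq (QL (fa s) (fb M)) X := lt_of_lt_of_le (by positivity) hVlow
  have hb : ∀ l, (fb M l).natAbs ≤ K₀ * X := by
    rw [Fin.forall_fin_two]
    unfold fb
    constructor
    · simp
    · simpa using hMX
  have hM0' : (M : ℤ) ≠ 0 := by exact_mod_cast (by omega : M ≠ 0)
  have hneij : (fa s j, fb M j) ≠ (fa s i, fb M i) ∧ (fa s j, fb M j) ≠ (- fa s i, - fb M i) := by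
    have hMn : M ≠ 0 := by omega
    revert hij
    revert i j
    simp only [Fin.forall_fin_two]
    simp [fa, fb, hMn, Ne.symm hM0']
  refine (hX (fa s) (fb M) i j (fa_ne s hs) (fa_abs s hs) hb (adm_P s hs M hM2) hneij.1 hneij.2).trans ?_
  rw [Nat.cast_le]
  apply card_le_card
  intro n hn
  rw [mem_filter] at hn ⊢
  refine ⟨hn.1, fun u v hu hv h1 h2 => ?_⟩
  have hvu : 0 ≤ (v : ℝ) - u := by
    have : (u : ℝ) ≤ v := by exact_mod_cast hu.trans hv
    linarith
  obtain ⟨h3, h4⟩ := hn.2 u v hu hv (by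
    refine le_trans ?_ h1
    rw [div_le_iff₀ hVpos]
    calc K = (K * (Real.exp 2 / v₀) * Real.log X ^ 2 / sg M) * (v₀ / Real.exp 2 * sg M / Real.log X ^ 2) := by
          field_simp
      _ ≤ _ := mul_le_mul_of_nonneg_left hVlow (by positivity)) h2
  constructor
  · refine le_trans ?_ h3
    calc c₁ * (v₀ / Real.exp 2) * sg M * ((v : ℝ) - u) / Real.log X ^ 2 =
        c₁ * ((v : ℝ) - u) * (v₀ / Real.exp 2 * sg M / Real.log X ^ 2) := by ring
      _ ≤ _ := mul_le_mul_of_nonneg_left hVlow (by positivity)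
  · refine h4.trans ?_
    calc c₂ * ((v : ℝ) - u) * Vq (QL (fa s) (fb M)) X ≤ c₂ * ((v : ℝ) - u) * (C₀ * sg M / Real.log X ^ 2) :=
          mul_le_mul_of_nonneg_left hVup (by positivity)
      _ = _ := by ring

end Pool.Agent.N39.RW
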