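import Pool.Agent.N39.RW.UniB

set_option autoImplicit false

/-!
# Regular windows for tuples, uniformly in the shifts, with the singular series (helper39)
-/

namespace Pool.Agent.N39.RW

open Finset Filter Pool.Agent.H373R2.T7 Pool.Agent.W123.RP Pool.Agent.W123.RU

/-- the number of residue classes modulo `p` occupied by the `h l` -/
def nuh {k : ℕ} (h : Fin k → ℕ) (p : ℕ) : ℕ := ((univ : Finset (Fin k)).image (fun l => h l % p)).card

/-- the partial product of the singular series -/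
noncomputable def SX {k : ℕ} (h : Fin k → ℕ) (X : ℕ) : ℝ :=
  ∏ p ∈ (Icc 1 X).filter Nat.Prime, ((1 - (nuh h p : ℝ) / p) / (1 - 1 / (p : ℝ)) ^ k)

theorem nuB_nuh {k : ℕ} (h : Fin k → ℕ) (p : ℕ) (hp : p.Prime) : nuB (QS h) p = nuh h p := by
  classical
  have hp0 := hp.pos
  unfold nuB nuh
  have h1 : (range p).filter (fun r => QS h p r) =
      ((univ : Finset (Fin k)).image (fun l => h l % p)).image (fun c => (p - c) % p) := by
    ext r
    rw [mem_filter, mem_range, mem_image]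
    constructor
    · rintro ⟨hr, l, hl⟩
      refine ⟨h l % p, mem_image.2 ⟨l, mem_univ l, rfl⟩, ?_⟩
      have h3 : h l % p < p := Nat.mod_lt _ hp0
      have h2 : (r + h l % p) % p = 0 := by
        rw [Nat.add_mod, Nat.mod_mod, ← Nat.add_mod]
        exact Nat.mod_eq_zero_of_dvd hl
      rcases Nat.eq_zero_or_pos (h l % p) with h0 | h0
      · rw [h0, add_zero, Nat.mod_eq_of_lt hr] at h2
        rw [h0, Nat.sub_zero, Nat.mod_self, h2]
      · have h4 : p ∣ r + h l % p := Nat.dvd_of_mod_eq_zero h2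
        obtain ⟨e, he⟩ := h4
        have h5 : e = 1 := by
          rcases Nat.lt_or_ge e 1 with h6 | h6
          · have : e = 0 := by omega
            rw [this, mul_zero] at he
            omega
          · rcases Nat.lt_or_ge e 2 with h7 | h7
            · omega
            · have : p * 2 ≤ p * e := Nat.mul_le_mul_left _ h7
              omega
        rw [h5, mul_one] at he
        rw [Nat.mod_eq_of_lt (by omega)]
        omega
    · rintro ⟨c, hc, hcr⟩
      rw [mem_image] at hc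
      obtain ⟨l, -, rfl⟩ := hc
      subst hcr
      refine ⟨Nat.mod_lt _ hp0, l, ?_⟩
      have h3 : h l % p < p := Nat.mod_lt _ hp0
      apply Nat.dvd_of_mod_eq_zero
      rw [Nat.add_mod, Nat.mod_mod]
      rcases Nat.eq_zero_or_pos (h l % p) with h0 | h0
      · rw [h0, Nat.sub_zero, Nat.mod_self, zero_add, Nat.zero_mod]
      · rw [Nat.mod_eq_of_lt (show p - h l % p < p by omega)]
        have : p - h l % p + h l % p = p := by omega
        rw [this, Nat.mod_self]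
  rw [h1]
  apply card_image_of_injOn
  intro c hc c' hc' he
  rw [mem_coe, mem_image] at hc hc'
  obtain ⟨l, -, rfl⟩ := hc
  obtain ⟨l', -, rfl⟩ := hc'
  simp only at he
  have h3 : h l % p < p := Nat.mod_lt _ hp0
  have h3' : h l' % p < p := Nat.mod_lt _ hp0
  rcases Nat.eq_zero_or_pos (h l % p) with h0 | h0
  · rcases Nat.eq_zero_or_pos (h l' % p) with h0' | h0'
    · rw [h0, h0']
    · rw [h0, Nat.sub_zero, Nat.mod_self, Nat.mod_eq_of_lt (show p - h l' % p < p by omega)] at he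
      omega
  · rcases Nat.eq_zero_or_pos (h l' % p) with h0' | h0'
    · rw [h0', Nat.sub_zero, Nat.mod_self, Nat.mod_eq_of_lt (show p - h l % p < p by omega)] at he
      omega
    · rw [Nat.mod_eq_of_lt (show p - h l % p < p by omega), Nat.mod_eq_of_lt (show p - h l' % p < p by omega)] at he
      omega

theorem Vq_SX {k : ℕ} (h : Fin k → ℕ) (X : ℕ) : Vq (QS h) X = SX h X * V1p X ^ k := by
  unfold Vq SX V1p pz
  rw [← Finset.prod_pow, ← Finset.prod_mul_distrib]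
  apply prod_congr rfl
  intro p hp
  have hpp := (mem_filter.1 hp).2
  have h2 : (2 : ℝ) ≤ p := by exact_mod_cast hpp.two_le
  have h3 : (1 - 1 / (p : ℝ)) ≠ 0 := by
    have : 1 / (p : ℝ) ≤ 1 / 2 := one_div_le_one_div_of_le (by norm_num) h2
    linarith
  rw [nuB_nuh h p hpp, div_mul_cancel₀ _ (pow_ne_zero k h3)]

theorem SX_pos {k : ℕ} (h : Fin k → ℕ) (hadm : ∀ p : ℕ, p.Prime → ∃ n : ℕ, ∀ l, ¬ p ∣ n + h l) (X : ℕ) :
    0 < SX h X := by
  have h1 := Vq_pos _ (QS_adm h hadm) X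
  rw [Vq_SX] at h1
  exact (pos_iff_pos_of_mul_pos h1).2 (pow_pos (V1p_pos X) k)

open Classical in
theorem uniS (k : ℕ) (hk : 2 ≤ k) :
    ∃ r : ℕ, 1 ≤ r ∧ ∃ c₁ c₂ K μ : ℝ, 0 < c₁ ∧ 0 < c₂ ∧ 0 < K ∧ 0 < μ ∧ ∀ K₀ : ℕ, ∀ᶠ X : ℕ in atTop,
      ∀ (h : Fin k → ℕ) (i j : Fin k), i ≠ j → Function.Injective h → (∀ l, h l ≤ K₀ * X) →
      (∀ p : ℕ, p.Prime → ∃ n : ℕ, ∀ l, ¬ p ∣ n + h l) →
      μ * X ≤ (Set.ncard {n : ℕ | X < n ∧ n ≤ 2 * X ∧ ∀ u v : ℕ, u ≤ n → n ≤ v →
        K * Real.log X ^ k / SX h X ≤ (v : ℝ) - u → (v : ℝ) - u ≤ n →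
          c₁ * SX h X * ((v : ℝ) - u) / Real.log X ^ k ≤
            (Set.ncard {m : ℕ | u < m ∧ m ≤ v ∧ UC h i j r ((X : ℝ) ^ (1 / (r : ℝ))) m} : ℝ) ∧
          (Set.ncard {m : ℕ | u < m ∧ m ≤ v ∧ UR h ((X : ℝ) ^ (1 / (r : ℝ))) m} : ℝ) ≤
            c₂ * SX h X * ((v : ℝ) - u) / Real.log X ^ k} : ℝ) := by
  obtain ⟨r, hr, c₁, c₂, K, μ, hc₁, hc₂, hK, hμ, H⟩ := uniW k hk
  obtain ⟨v₀, C₀, hv₀, hC₀, hV1⟩ := V1p_bounds
  refine ⟨r, hr, c₁ * v₀ ^ k, c₂ * C₀ ^ k, K / v₀ ^ k, μ, by positivity, by positivity, by positivity, hμ,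
    fun K₀ => ?_⟩
  filter_upwards [H K₀, eventually_ge_atTop 16] with X hX hX16
  intro h i j hij hinj hsz hadm
  have hXr : (16 : ℝ) ≤ X := by exact_mod_cast hX16
  have hlX : 0 < Real.log X := Real.log_pos (by linarith)
  obtain ⟨q1, q2⟩ := hV1 X (by omega)
  have hS := SX_pos h hadm X
  have hVlow : v₀ ^ k * SX h X / Real.log X ^ k ≤ Vq (QS h) X := by
    rw [Vq_SX]
    calc v₀ ^ k * SX h X / Real.log X ^ k = SX h X * (v₀ / Real.log X) ^ k := by rw [div_pow]; ring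
      _ ≤ SX h X * V1p X ^ k := by gcongr
  have hVup : Vq (QS h) X ≤ C₀ ^ k * SX h X / Real.log X ^ k := by
    rw [Vq_SX]
    calc SX h X * V1p X ^ k ≤ SX h X * (C₀ / Real.log X) ^ k := by
          have := (V1p_pos X).le
          gcongr
      _ = _ := by rw [div_pow]; ring
  have hVpos : 0 < Vq (QS h) X := Vq_pos _ (QS_adm h hadm) X
  refine (hX h i j hij hinj hsz hadm).trans ?_
  rw [← Set.ncard_coe_finset]
  refine Nat.cast_le.2 (Set.ncard_le_ncard ?_ ((Set.finite_Iic (2 * X)).subset fun n hn => hn.2.1))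
  intro n hn
  rw [mem_coe, mem_filter, mem_Ioc] at hn
  obtain ⟨⟨hn1, hn2⟩, hn3⟩ := hn
  refine ⟨hn1, hn2, fun u v hu hv h1 h2 => ?_⟩
  have hvu : 0 ≤ (v : ℝ) - u := by
    have : (u : ℝ) ≤ v := by exact_mod_cast hu.trans hv
    linarith
  obtain ⟨h3, h4⟩ := hn3 u v hu hv (by
    refine le_trans ?_ h1
    rw [div_le_iff₀ hVpos]
    calc K = (K / v₀ ^ k * Real.log X ^ k / SX h X) * (v₀ ^ k * SX h X / Real.log X ^ k) := by
          field_simp
      _ ≤ _ := mul_le_mul_of_nonneg_left hVlow (by positivity)) h2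
  have e1 : ∀ P : ℕ → Prop, (((Ioc u v).filter (fun m => P m)).card) =
      Set.ncard {n : ℕ | u < n ∧ n ≤ v ∧ P n} := by
    intro P
    rw [← Set.ncard_coe_finset]
    congr 1
    ext m
    rw [mem_coe, mem_filter, mem_Ioc, and_assoc]
    rfl
  rw [e1] at h3 h4
  constructor
  · refine le_trans ?_ h3
    calc c₁ * v₀ ^ k * SX h X * ((v : ℝ) - u) / Real.log X ^ k =
        c₁ * ((v : ℝ) - u) * (v₀ ^ k * SX h X / Real.log X ^ k) := by ring
      _ ≤ _ := mul_le_mul_of_nonneg_left hVlow (by positivity)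
  · refine h4.trans ?_
    calc c₂ * ((v : ℝ) - u) * Vq (QS h) X ≤ c₂ * ((v : ℝ) - u) * (C₀ ^ k * SX h X / Real.log X ^ k) :=
          mul_le_mul_of_nonneg_left hVup (by positivity)
      _ = _ := by ring

end Pool.Agent.N39.RW
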