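import Pool.Agent.N39.RW.UniE

set_option autoImplicit false

/-!
# Regular windows for `m` and `t m + h`, uniformly in `h` (helper39)
-/

namespace Pool.Agent.N39.RW

open Finset Filter Pool.Agent.H373R2.T7 Pool.Agent.W123.RP Pool.Agent.W123.RU
open Pool.Agent.X32.Uni (AdmL)

/-- the forms `n` and `t n + h` -/
def ga (t : ℤ) : Fin 2 → ℤ := ![1, t]
def gb (h : ℤ) : Fin 2 → ℤ := ![0, h]

theorem QH_iff (t h : ℤ) (p m : ℕ) : QL (ga t) (gb h) p m ↔ (p ∣ m ∨ (p : ℤ) ∣ t * m + h) := by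
  unfold QL ga gb
  rw [Fin.exists_fin_two]
  simp only [Matrix.cons_val_zero, Matrix.cons_val_one, one_mul, add_zero, Int.natCast_dvd_natCast]

theorem notboth (t h : ℤ) (hco : Int.gcd t h = 1) (p : ℕ) (hp : p.Prime) (h1 : (p : ℤ) ∣ t) (h2 : (p : ℤ) ∣ h) : False := by
  have h3 : (p : ℤ) ∣ ((Int.gcd t h : ℕ) : ℤ) := Int.dvd_coe_gcd h1 h2
  rw [hco] at h3
  have h4 : p ∣ 1 := by exact_mod_cast h3
  exact hp.one_lt.ne' (Nat.dvd_one.1 h4)

theorem dvd_th (t h : ℤ) (p : ℕ) (hp : p.Prime) : p ∣ (t * h).natAbs ↔ ((p : ℤ) ∣ t ∨ (p : ℤ) ∣ h) := by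
  rw [← Int.natCast_dvd]
  exact (Nat.prime_iff_prime_int.1 hp).dvd_mul

theorem adm_H (t h : ℤ) (hco : Int.gcd t h = 1) (h2 : 2 ∣ (t * h).natAbs) : AdmL (ga t) (gb h) := by
  intro p hp
  have hp2 := hp.two_le
  have h1 : ¬ (p : ℤ) ∣ 1 := by
    intro h
    have : p ∣ 1 := by exact_mod_cast h
    exact hp.one_lt.ne' (Nat.dvd_one.1 this)
  by_cases hd : (p : ℤ) ∣ t + h
  · refine ⟨2, ?_⟩
    rw [Fin.forall_fin_two]
    have ht : ¬ (p : ℤ) ∣ t := fun ht => notboth t h hco p hp ht ((dvd_add_right ht).1 hd)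
    have hh : ¬ (p : ℤ) ∣ h := fun hh => notboth t h hco p hp ((dvd_add_left hh).1 hd) hh
    have hp3 : p ≠ 2 := by
      rintro rfl
      rcases (dvd_th t h 2 Nat.prime_two).1 h2 with h3 | h3
      · exact ht h3
      · exact hh h3
    constructor
    · simp only [ga, gb, Matrix.cons_val_zero, one_mul, add_zero]
      intro h
      have : p ∣ 2 := by exact_mod_cast h
      exact hp3 ((Nat.prime_dvd_prime_iff_eq hp Nat.prime_two).1 this)
    · simp only [ga, gb, Matrix.cons_val_one]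
      intro h4
      apply ht
      have e : t * 2 + h - (t + h) = t := by ring
      rw [← e]
      exact dvd_sub h4 hd
  · refine ⟨1, ?_⟩
    rw [Fin.forall_fin_two]
    constructor
    · simp only [ga, gb, Matrix.cons_val_zero, one_mul, add_zero]
      exact h1
    · simp only [ga, gb, Matrix.cons_val_one, mul_one]
      exact hd

theorem ga_ne (t : ℤ) (ht : t ≠ 0) : ∀ l, ga t l ≠ 0 := by
  rw [Fin.forall_fin_two]
  unfold ga
  exact ⟨by simp, by simpa using ht⟩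

theorem ga_abs (t : ℤ) (A : ℕ) (hA : 1 ≤ A) (ht : t.natAbs ≤ A) : ∀ l, (ga t l).natAbs ≤ A := by
  rw [Fin.forall_fin_two]
  unfold ga
  exact ⟨by simpa using hA, by simpa using ht⟩

theorem nuH_dvd (t h : ℤ) (hco : Int.gcd t h = 1) (p : ℕ) (hp : p.Prime) (hpM : p ∣ (t * h).natAbs) :
    nuB (QL (ga t) (gb h)) p = 1 := by
  classical
  have h4 : (range p).filter (fun r => QL (ga t) (gb h) p r) = {0} := by
    ext r
    rw [mem_filter, mem_range, mem_singleton, QH_iff]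
    constructor
    · rintro ⟨h5, h6 | h6⟩
      · exact Nat.eq_zero_of_dvd_of_lt h6 h5
      · rcases (dvd_th t h p hp).1 hpM with h7 | h7
        · exfalso
          exact notboth t h hco p hp h7 ((dvd_add_right (h7.mul_right _)).1 h6)
        · have h8 : (p : ℤ) ∣ t * (r : ℤ) := (dvd_add_left h7).1 h6
          rcases (Nat.prime_iff_prime_int.1 hp).dvd_or_dvd h8 with h9 | h9
          · exact absurd h7 (fun h10 => notboth t h hco p hp h9 h10)
          · exact Nat.eq_zero_of_dvd_of_lt (by exact_mod_cast h9) h5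
    · rintro rfl
      exact ⟨hp.pos, Or.inl (dvd_zero _)⟩
  have h5 := congrArg Finset.card h4
  rw [card_singleton] at h5
  unfold nuB
  refine Eq.trans ?_ h5
  congr

theorem nuH_ndvd (t h : ℤ) (ht0 : t ≠ 0) (hco : Int.gcd t h = 1) (h2 : 2 ∣ (t * h).natAbs) (p : ℕ) (hp : p.Prime)
    (hpM : ¬ p ∣ (t * h).natAbs) : nuB (QL (ga t) (gb h)) p = 2 := by
  classical
  apply le_antisymm
  · exact (QL_per (ga t) (gb h) (ga_ne t ht0) (adm_H t h hco h2)).few p hp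
  · rw [dvd_th t h p hp] at hpM
    push Not at hpM
    obtain ⟨hpt, hph⟩ := hpM
    haveI : Fact p.Prime := ⟨hp⟩
    have htz : ((t : ℤ) : ZMod p) ≠ 0 := fun hz => hpt ((ZMod.intCast_zmod_eq_zero_iff_dvd t p).1 hz)
    have hhz : ((h : ℤ) : ZMod p) ≠ 0 := fun hz => hph ((ZMod.intCast_zmod_eq_zero_iff_dvd h p).1 hz)
    obtain ⟨r₀, hr₀⟩ : ∃ r₀ : ℕ, r₀ < p ∧ r₀ ≠ 0 ∧ (p : ℤ) ∣ t * (r₀ : ℤ) + h := by
      refine ⟨(-((h : ℤ) : ZMod p) / ((t : ℤ) : ZMod p)).val, ZMod.val_lt _, ?_, ?_⟩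
      · intro h0
        rw [ZMod.val_eq_zero] at h0
        rw [div_eq_zero_iff, neg_eq_zero] at h0
        rcases h0 with h0 | h0
        · exact hhz h0
        · exact htz h0
      · rw [← ZMod.intCast_zmod_eq_zero_iff_dvd]
        push_cast
        rw [ZMod.natCast_val, ZMod.cast_id', id]
        field_simp
        ring
    have h4 : ({0, r₀} : Finset ℕ) ⊆ (range p).filter (fun r => QL (ga t) (gb h) p r) := by
      intro r hr
      rw [mem_insert, mem_singleton] at hr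
      rw [mem_filter, mem_range, QH_iff]
      rcases hr with rfl | rfl
      · exact ⟨hp.pos, Or.inl (dvd_zero _)⟩
      · exact ⟨hr₀.1, Or.inr hr₀.2.2⟩
    have h5 := card_le_card h4
    rw [card_pair (Ne.symm hr₀.2.1)] at h5
    unfold nuB
    refine h5.trans (le_of_eq ?_)
    congr

/-- the sieve product -/
theorem VqH (t h : ℤ) (ht0 : t ≠ 0) (hco : Int.gcd t h = 1) (h2 : 2 ∣ (t * h).natAbs) (y : ℕ) :
    Vq (QL (ga t) (gb h)) y = Vq QA y *
      ∏ p ∈ (pz y).filter (fun p => 2 < p ∧ p ∣ (t * h).natAbs), (((p : ℝ) - 1) / (p - 2)) := by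
  unfold Vq
  rw [Finset.prod_filter, ← Finset.prod_mul_distrib]
  apply prod_congr rfl
  intro p hp
  have hpp := (mem_pz.1 hp).2
  rcases Nat.lt_or_ge p 3 with h3 | h3
  · have h2' : p = 2 := by
      have := hpp.two_le
      omega
    subst h2'
    rw [if_neg (by omega), mul_one, QA_nu2, nuH_dvd t h hco 2 Nat.prime_two h2]
  · have h3r : (3 : ℝ) ≤ p := by exact_mod_cast h3
    rw [QA_nu3 p h3]
    by_cases hd : p ∣ (t * h).natAbs
    · rw [if_pos ⟨h3, hd⟩, nuH_dvd t h hco p hpp hd]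
      have h4 : (p : ℝ) - 2 ≠ 0 := by linarith
      have h5 : (p : ℝ) ≠ 0 := by linarith
      field_simp
      push_cast
      ring
    · rw [if_neg (by tauto), nuH_ndvd t h ht0 hco h2 p hpp hd, mul_one]

open Classical in
/-- the windows, uniformly in `h` -/
theorem uniH (A₀ : ℕ) (hA₀ : 1 ≤ A₀) : ∃ r : ℕ, 1 ≤ r ∧ ∃ c₁ c₂ K μ : ℝ, 0 < c₁ ∧ 0 < c₂ ∧ 0 < K ∧ 0 < μ ∧
      ∀ K₀ : ℕ, ∀ᶠ X : ℕ in atTop,
      ∀ (t h : ℤ) (i j : Fin 2), t ≠ 0 → t.natAbs ≤ A₀ → h ≠ 0 → h.natAbs ≤ K₀ * X → Int.gcd t h = 1 →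
      2 ∣ (t * h).natAbs → i ≠ j →
      μ * X ≤ (((Ioc X (2 * X)).filter (fun n => ∀ u v : ℕ, u ≤ n → n ≤ v →
        K * Real.log X ^ 2 / sg (t * h).natAbs ≤ (v : ℝ) - u → (v : ℝ) - u ≤ n →
          c₁ * sg (t * h).natAbs * ((v : ℝ) - u) / Real.log X ^ 2 ≤
            (((Ioc u v).filter (fun m => GC (ga t) (gb h) i j r ((X : ℝ) ^ (1 / (r : ℝ))) m)).card : ℝ) ∧
          (((Ioc u v).filter (fun m => GR (ga t) (gb h) ((X : ℝ) ^ (1 / (r : ℝ))) m)).card : ℝ) ≤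
            c₂ * sg (t * h).natAbs * ((v : ℝ) - u) / Real.log X ^ 2)).card : ℝ) := by
  obtain ⟨r, hr, c₁, c₂, K, μ, hc₁, hc₂, hK, hμ, huni⟩ := uniG 2 A₀ le_rfl
  obtain ⟨v₀, C₀, hv₀, hC₀, hQA⟩ := QA_bounds
  refine ⟨r, hr, c₁ * (v₀ / Real.exp 2), c₂ * C₀, K * (Real.exp 2 / v₀), μ, by positivity, by positivity,
    by positivity, hμ, fun K₀ => ?_⟩
  have hlogK : ∀ᶠ X : ℕ in atTop, Real.log (((A₀ * K₀ : ℕ) : ℝ) * X) ≤ X / 2 := by
    have h1 := logpow_le 1 8 (by norm_num)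
    filter_upwards [h1, eventually_ge_atTop ((A₀ * K₀) + 16)] with X hX1 hX2
    have hXr : (16 : ℝ) ≤ X := by exact_mod_cast (by omega : 16 ≤ X)
    have hlX : 0 ≤ Real.log X := Real.log_nonneg (by linarith)
    rw [pow_one] at hX1
    rcases Nat.eq_zero_or_pos (A₀ * K₀) with h0 | h0
    · rw [h0, Nat.cast_zero, zero_mul, Real.log_zero]
      positivity
    · have hK0 : (0 : ℝ) < ((A₀ * K₀ : ℕ) : ℝ) := by exact_mod_cast h0
      rw [Real.log_mul hK0.ne' (by linarith)]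
      have h2 : Real.log ((A₀ * K₀ : ℕ) : ℝ) ≤ Real.log X := by
        apply Real.log_le_log hK0
        exact_mod_cast (by omega : A₀ * K₀ ≤ X)
      linarith
  filter_upwards [huni K₀, hlogK, eventually_ge_atTop 16] with X hX hlK hX16
  intro t h i j ht0 htA hh0 hhX hco h2 hij
  have hXr : (16 : ℝ) ≤ X := by exact_mod_cast hX16
  have hlX : 0 < Real.log X := Real.log_pos (by linarith)
  obtain ⟨M, hM⟩ : ∃ M : ℕ, M = (t * h).natAbs := ⟨_, rfl⟩
  have hM1 : 1 ≤ M := by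
    rw [hM, Nat.one_le_iff_ne_zero]
    intro h0
    rw [Int.natAbs_eq_zero] at h0
    rcases mul_eq_zero.1 h0 with h3 | h3
    · exact ht0 h3
    · exact hh0 h3
  have hMX : M ≤ (A₀ * K₀) * X := by
    rw [hM, Int.natAbs_mul, mul_assoc]
    exact Nat.mul_le_mul htA hhX
  have hM0 : (0 : ℝ) < M := by exact_mod_cast hM1
  have hMlog : Real.log M ≤ X / 2 := by
    refine le_trans ?_ hlK
    apply Real.log_le_log hM0
    exact_mod_cast hMX
  have hVe := VqH t h ht0 hco h2 X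
  rw [← hM] at hVe ⊢
  have hsg := sg_ge_one M
  have hsg0 : 0 < sg M := by linarith
  obtain ⟨g1, g2⟩ := sg_cmp M X hM1 (by omega) hMlog
  obtain ⟨q1, q2⟩ := hQA X (by omega)
  obtain ⟨S, hS⟩ : ∃ S : ℝ, S = ∏ p ∈ (pz X).filter (fun p => 2 < p ∧ p ∣ M), (((p : ℝ) - 1) / (p - 2)) := ⟨_, rfl⟩
  rw [← hS] at g1 g2 hVe
  have he2 : 0 < Real.exp 2 := Real.exp_pos 2
  have hS0 : 0 < S := by
    by_contra hcon
    have : Real.exp 2 * S ≤ 0 := mul_nonpos_of_nonneg_of_nonpos he2.le (not_lt.1 hcon)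
    linarith
  have hVlow : v₀ / Real.exp 2 * sg M / Real.log X ^ 2 ≤ Vq (QL (ga t) (gb h)) X := by
    rw [hVe]
    calc v₀ / Real.exp 2 * sg M / Real.log X ^ 2 = (v₀ / Real.log X ^ 2) * (sg M / Real.exp 2) := by ring
      _ ≤ Vq QA X * S := by
        apply mul_le_mul q1 _ (by positivity) ((by positivity : (0 : ℝ) ≤ v₀ / Real.log X ^ 2).trans q1)
        rw [div_le_iff₀ he2]
        linarith
  have hVup : Vq (QL (ga t) (gb h)) X ≤ C₀ * sg M / Real.log X ^ 2 := by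
    rw [hVe]
    calc Vq QA X * S ≤ (C₀ / Real.log X ^ 2) * sg M := mul_le_mul q2 g1 hS0.le (by positivity)
      _ = _ := by ring
  have hVpos : 0 < Vq (QL (ga t) (gb h)) X := lt_of_lt_of_le (by positivity) hVlow
  have hb : ∀ l, (gb h l).natAbs ≤ K₀ * X := by
    rw [Fin.forall_fin_two]
    unfold gb
    constructor
    · simp
    · simpa using hhX
  have hneij : (ga t j, gb h j) ≠ (ga t i, gb h i) ∧ (ga t j, gb h j) ≠ (- ga t i, - gb h i) := by
    revert hij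
    revert i j
    simp only [Fin.forall_fin_two]
    simp [ga, gb, hh0, Ne.symm hh0]
  refine (hX (ga t) (gb h) i j (ga_ne t ht0) (ga_abs t A₀ hA₀ htA) hb (adm_H t h hco h2) hneij.1 hneij.2).trans ?_
  rw [Nat.cast_le]
  apply card_le_card
  intro n hn
  rw [mem_filter] at hn ⊢
  refine ⟨hn.1, fun u v hu hv h1 h2 => ?_⟩
  have hvu : 0 ≤ (v : ℝ) - u := by
    have : (u : ℝ) ≤ v := by exact_mod_cast hu.trans hv
    linarith
  obtain ⟨h3, h4⟩ := hn.2 u v hu hv (by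
    refine le_trans ?_ h1
    rw [div_le_iff₀ hVpos]
    calc K = (K * (Real.exp 2 / v₀) * Real.log X ^ 2 / sg M) * (v₀ / Real.exp 2 * sg M / Real.log X ^ 2) := by
          field_simp
      _ ≤ _ := mul_le_mul_of_nonneg_left hVlow (by positivity)) h2
  constructor
  · refine le_trans ?_ h3
    calc c₁ * (v₀ / Real.exp 2) * sg M * ((v : ℝ) - u) / Real.log X ^ 2 =
        c₁ * ((v : ℝ) - u) * (v₀ / Real.exp 2 * sg M / Real.log X ^ 2) := by ring
      _ ≤ _ := mul_le_mul_of_nonneg_left hVlow (by positivity)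
  · refine h4.trans ?_
    calc c₂ * ((v : ℝ) - u) * Vq (QL (ga t) (gb h)) X ≤ c₂ * ((v : ℝ) - u) * (C₀ * sg M / Real.log X ^ 2) :=
          mul_le_mul_of_nonneg_left hVup (by positivity)
      _ = _ := by ring

end Pool.Agent.N39.RW
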