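import Pool.Agent.N39.RW.UniF

set_option autoImplicit false

/-!
# The sieve product of a fixed tuple (helper39)
-/

namespace Pool.Agent.N39.RW

open Finset Filter Pool.Agent.H373R2.T7 Pool.Agent.W123.RP Pool.Agent.W123.RU
open Pool.Agent.X32.Uni (linU SysL VL AdmL)

/-- for a fixed admissible tuple of at least two different shifts the sieve product has order `(log y) ^ (-k)` -/
theorem Vfix {k : ℕ} (hk : 2 ≤ k) (h : Fin k → ℕ) (hinj : Function.Injective h)
    (hadm : ∀ p : ℕ, p.Prime → ∃ n : ℕ, ∀ l, ¬ p ∣ n + h l) :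
    ∃ v C : ℝ, 0 < v ∧ 0 < C ∧ ∀ᶠ y : ℕ in atTop,
      v / Real.log y ^ k ≤ Vq (QS h) y ∧ Vq (QS h) y ≤ C / Real.log y ^ k := by
  classical
  obtain ⟨t, ht, κ, hκ, hlin⟩ := linU k 1 (by omega)
  obtain ⟨v₀, C₀, hv₀, hC₀, hV1⟩ := V1p_bounds
  obtain ⟨M, hM⟩ : ∃ M : ℕ, ∀ l, h l ≤ M := ⟨∑ l, h l, fun l => single_le_sum (fun _ _ => Nat.zero_le _) (mem_univ l)⟩
  obtain ⟨⟨X₀, hlin⟩, -⟩ := hlin 1 one_pos 1
  -- the primes for which two shifts agree are at most `M`
  have hnu : ∀ p : ℕ, M < p → nuh h p = k := by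
    intro p hp
    unfold nuh
    rw [card_image_of_injOn, card_univ, Fintype.card_fin]
    intro l _ l' _ he
    simp only at he
    rw [Nat.mod_eq_of_lt (lt_of_le_of_lt (hM l) hp), Nat.mod_eq_of_lt (lt_of_le_of_lt (hM l') hp)] at he
    exact hinj he
  have hnule : ∀ p : ℕ, nuh h p ≤ k := by
    intro p
    unfold nuh
    refine card_image_le.trans ?_
    rw [card_univ, Fintype.card_fin]
  obtain ⟨C₂, hC₂⟩ : ∃ C₂ : ℝ, C₂ = ∏ p ∈ (Icc 1 M).filter Nat.Prime, (1 / (1 - 1 / (p : ℝ)) ^ k) := ⟨_, rfl⟩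
  have hfac : ∀ p : ℕ, p.Prime → 0 < 1 - 1 / (p : ℝ) ∧ 1 - 1 / (p : ℝ) ≤ 1 := by
    intro p hp
    have h2 : (2 : ℝ) ≤ p := by exact_mod_cast hp.two_le
    have h3 : 1 / (p : ℝ) ≤ 1 / 2 := one_div_le_one_div_of_le (by norm_num) h2
    have h4 : 0 < 1 / (p : ℝ) := by positivity
    constructor <;> linarith
  have hC₂pos : 0 < C₂ := by
    rw [hC₂]
    apply prod_pos
    intro p hp
    have := (hfac p (mem_filter.1 hp).2).1
    positivity
  have hS : ∀ X : ℕ, M ≤ X → SX h X ≤ C₂ := by
    intro X hX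
    have hsub : (Icc 1 M).filter Nat.Prime ⊆ (Icc 1 X).filter Nat.Prime := by
      intro p hp
      rw [mem_filter, mem_Icc] at hp ⊢
      exact ⟨⟨hp.1.1, by omega⟩, hp.2⟩
    have h1 : SX h X ≤ ∏ p ∈ (Icc 1 X).filter Nat.Prime, (if p ≤ M then (1 / (1 - 1 / (p : ℝ)) ^ k) else 1) := by
      unfold SX
      apply Finset.prod_le_prod
      · intro p hp
        have hpp := (mem_filter.1 hp).2
        have h3 := hfac p hpp
        have h4 : (nuh h p : ℝ) < p := by
          have := QS_adm h hadm p hpp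
          rw [nuB_nuh h p hpp] at this
          exact_mod_cast this
        have h5 : 0 < (p : ℝ) := by exact_mod_cast hpp.pos
        have h6 : (nuh h p : ℝ) / p ≤ 1 := by
          rw [div_le_one h5]
          exact h4.le
        apply div_nonneg (by linarith) (pow_nonneg h3.1.le k)
      · intro p hp
        have hpp := (mem_filter.1 hp).2
        have h3 := hfac p hpp
        have h5 : 0 < (p : ℝ) := by exact_mod_cast hpp.pos
        by_cases hpM : p ≤ M
        · rw [if_pos hpM]
          apply div_le_div_of_nonneg_right _ (pow_nonneg h3.1.le k)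
          have : 0 ≤ (nuh h p : ℝ) / p := by positivity
          linarith
        · rw [if_neg hpM, hnu p (by omega), div_le_one (pow_pos h3.1 k)]
          have h7 := one_add_mul_le_pow (a := -(1 / (p : ℝ))) (by linarith) k
          calc 1 - (k : ℝ) / p = 1 + (k : ℝ) * -(1 / (p : ℝ)) := by ring
            _ ≤ (1 + -(1 / (p : ℝ))) ^ k := h7
            _ = _ := by ring
    refine h1.trans (le_of_eq ?_)
    rw [hC₂, ← prod_filter]
    apply prod_congr _ (fun _ _ => rfl)
    ext p
    rw [mem_filter, mem_filter, mem_filter, mem_Icc, mem_Icc]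
    constructor
    · rintro ⟨⟨⟨h2, h3⟩, h4⟩, h5⟩
      exact ⟨⟨h2, h5⟩, h4⟩
    · rintro ⟨⟨h2, h3⟩, h4⟩
      exact ⟨⟨⟨h2, by omega⟩, h4⟩, h3⟩
  refine ⟨κ, C₂ * C₀ ^ k, hκ, by positivity, ?_⟩
  filter_upwards [eventually_ge_atTop (X₀ + M + 16)] with X hX
  have hX16 : (16 : ℝ) ≤ X := by exact_mod_cast (by omega : 16 ≤ X)
  have hlX : 0 < Real.log X := Real.log_pos (by linarith)
  constructor
  · obtain ⟨i, j, hij⟩ : ∃ i j : Fin k, i ≠ j := ⟨⟨0, by omega⟩, ⟨1, by omega⟩, by simp⟩
    have h1 := (hlin X (by omega) (fun _ => 1) (fun l => (h l : ℤ)) i j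
      { a0 := fun _ => one_ne_zero
        aE := by simp
        aE' := by simp
        aK := fun l => by simp
        bK := fun l => by
          have h1 := hM l
          rw [abs_of_nonneg (by positivity)]
          have h2 : h l ≤ X := by omega
          push_cast
          rw [one_mul]
          exact_mod_cast h2
        adm := by
          intro p hp
          obtain ⟨n, hn⟩ := hadm p hp
          refine ⟨n, fun l hd => hn l ?_⟩
          have e : (1 : ℤ) * (n : ℤ) + (h l : ℤ) = ((n + h l : ℕ) : ℤ) := by push_cast; ring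
          rw [e] at hd
          exact Int.natCast_dvd_natCast.1 hd
        ne := by
          intro h2
          simp only [Prod.mk.injEq, true_and] at h2
          have h3 : h j = h i := by exact_mod_cast h2
          exact hij (hinj h3).symm
        ne' := by
          intro h2
          simp at h2 }).1
    rw [VL_QS] at h1
    exact h1
  · rw [Vq_SX]
    have h1 := (hV1 X (by omega)).2
    calc SX h X * V1p X ^ k ≤ C₂ * (C₀ / Real.log X) ^ k := by
          apply mul_le_mul (hS X (by omega)) (pow_le_pow_left₀ (V1p_pos X).le h1 k) (pow_nonneg (V1p_pos X).le k) hC₂pos.le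
      _ = C₂ * C₀ ^ k / Real.log X ^ k := by rw [div_pow]; ring

end Pool.Agent.N39.RW
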